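import Mathlib
import Pool.Agent.Lib.MP_fee02f_an.Defs
import Pool.Agent.Lib.MP_fee02f_an.DefsL

/-!
Definitions for the archimedean and mixed case of property (RD) (MP_fee02f_an):
approximate hives, approximate hive spaces with a move RELATION, uniform properness, admissible
topological groups, frames in `𝕜 ^ 4` for `𝕜 = ℝ` or `ℂ`.
-/

namespace RapidDecay

/-! ### Approximate hives -/

/-- A symmetric function of four points satisfying the tropical Pluecker relation up to the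
error `e`. -/
structure AHive {P : Type*} (e : ℝ) (H : P → P → P → P → ℝ) : Prop where
  s12 : ∀ a b c d, H a b c d = H b a c d
  s23 : ∀ a b c d, H a b c d = H a c b d
  s34 : ∀ a b c d, H a b c d = H a b d c
  pl : ∀ s t a b c d, min (H s t a c + H s t b d) (H s t a d + H s t b c) - e
        ≤ H s t a b + H s t c d

/-- A `G`-set with an approximate hive function whose slacks are `G`-invariant, with a relation
(`m` is obtained from `a` by moving it by `k` in the direction of type `r` towards `b`) and with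
exponential growth up to bounded distance. -/
structure AHSpace (G P : Type*) [Group G] [MulAction G P] where
  H : P → P → P → P → ℝ
  c : ℝ
  hive : AHive c H
  inv : ∀ (g : G) (a b b' s t : P),
    sl H (g • a) (g • b) (g • b') (g • s) (g • t) = sl H a b b' s t
  Mvr : ℕ → ℕ → P → P → P → Prop
  Mvr_smul : ∀ (g : G) (r k : ℕ) (a b m : P), Mvr r k a b m → Mvr r k (g • a) (g • b) (g • m)
  Mvr_ex : ∀ (r k : ℕ) (a b : P), ∃ m, Mvr r k a b m
  Mvr_near : ∀ (r k : ℕ) (a b b' m m' : P), GroupGe H a b b' r k → Mvr r k a b m →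
    Mvr r k a b' m' → dst H m m' ≤ c
  Mvr_sl : ∀ (r k : ℕ) (a b b' m : P), GroupGe H a b b' r k → Mvr r k a b m →
    ∀ u v w s t : Fin 3, u ≠ v → v ≠ w → u ≠ w →
      |tsl H ![m, b, b'] (u, v, w, s, t)
        - (tsl H ![a, b, b'] (u, v, w, s, t)
          - (if u = 0 ∧ (if s = 0 then 1 else 0) + (if t = 0 then 1 else 0) + 1 = r
              then (k : ℝ) else 0))| ≤ c
  cover : ∃ C : ℕ, ∀ (a : P) (m : ℕ), ∃ S : Finset P, S.card ≤ C ^ (m + 1) ∧
    ∀ b, dst H a b ≤ m → ∃ s ∈ S, dst H s b ≤ c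

/-- uniformly proper action on a finite product of approximate hive spaces -/
def UProper {Γ : Type*} [Group Γ] {ι : Type*} [Fintype ι] {P : ι → Type*}
    [∀ i, MulAction Γ (P i)] (S : ∀ i, AHSpace Γ (P i)) : Prop :=
  ∀ R : ℝ, ∃ b : ℕ, ∀ u : ∀ i, P i,
    {g : Γ | ∑ i, dst (S i).H (u i) (g • u i) ≤ R}.Finite ∧
    {g : Γ | ∑ i, dst (S i).H (u i) (g • u i) ≤ R}.ncard ≤ b

/-- a locally compact group which acts on finitely many approximate hive spaces such that the
elements which move a family of points by at most `R` are contained in at most `N` translates of a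
conjugate of a compact set, where `N` and the compact set depend only on `R` -/
def AdmA.{u, w} (G : Type w) [Group G] [TopologicalSpace G] : Prop :=
  (∃ K ∈ nhds (1 : G), IsCompact K) ∧
  ∃ (κ : Type) (_ : Fintype κ) (P : κ → Type u) (_ : ∀ k, MulAction G (P k))
    (S : ∀ k, AHSpace G (P k)), (∀ k, Nonempty (P k)) ∧
    ∀ R : ℝ, ∃ (K : Set G) (N : ℕ), IsCompact K ∧
      ∀ u : (∀ k, P k), ∃ (h : G) (s : Finset G), s.card ≤ N ∧ ∀ g : G,
        ∑ k, dst (S k).H (u k) (g • u k) ≤ R → ∃ t ∈ s, h⁻¹ * (t⁻¹ * g) * h ∈ K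

/-! ### The abstract setting: one `Γ`-set with finitely many approximate hive functions -/

/-- A `Γ`-set with a free action, with finitely many approximate hive functions whose slacks are
`Γ`-invariant, with equivariant moves and exponential growth. -/
structure AHS (Γ Y ι : Type*) [Group Γ] [MulAction Γ Y] [Fintype ι] [DecidableEq ι] where
  H : ι → Y → Y → Y → Y → ℝ
  e : ℝ
  hive : ∀ i, AHive e (H i)
  inv : ∀ (i : ι) (g : Γ) (a b c s t : Y),
    sl (H i) (g • a) (g • b) (g • c) (g • s) (g • t) = sl (H i) a b c s t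
  free : ∀ (g : Γ) (y : Y), g • y = y → g = 1
  mv : ι → ℕ → ℕ → Y → Y → Y
  mv_smul : ∀ (i : ι) (g : Γ) (r k : ℕ) (a b : Y), mv i r k (g • a) (g • b) = g • mv i r k a b
  mv_near : ∀ (i : ι) (r k : ℕ) (a b c : Y), GroupGe (H i) a b c r k →
    ∑ j, dst (H j) (mv i r k a b) (mv i r k a c) ≤ e
  mv_sl : ∀ (i : ι) (r k : ℕ) (a b c : Y), GroupGe (H i) a b c r k →
    ∀ (j : ι) (u v w s t : Fin 3), u ≠ v → v ≠ w → u ≠ w →
      |tsl (H j) ![mv i r k a b, b, c] (u, v, w, s, t)
        - (tsl (H j) ![a, b, c] (u, v, w, s, t)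
          - (if j = i ∧ u = 0 ∧ (if s = 0 then 1 else 0) + (if t = 0 then 1 else 0) + 1 = r
              then (k : ℝ) else 0))| ≤ e
  growth : ∃ C : ℕ, ∀ (a : Y) (m : ℕ),
    {b | ∑ j, dst (H j) a b ≤ m}.Finite ∧ {b | ∑ j, dst (H j) a b ≤ m}.ncard ≤ C ^ (m + 1)

/-! ### Frames -/

section Arch

variable {𝕜 : Type*} [RCLike 𝕜]

/-- the sum of the squares of all determinants of four vectors from four finite families -/
noncomputable def DD {p q r s : ℕ} (a : Fin p → Fin 4 → 𝕜) (b : Fin q → Fin 4 → 𝕜)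
    (c : Fin r → Fin 4 → 𝕜) (d : Fin s → Fin 4 → 𝕜) : ℝ :=
  ∑ i, ∑ j, ∑ k, ∑ l, ‖dt (a i) (b j) (c k) (d l)‖ ^ 2

/-- the form of a family of vectors on linear functionals -/
noncomputable def Nf {p : ℕ} (a : Fin p → Fin 4 → 𝕜) (φ : Fin 4 → 𝕜) : ℝ :=
  ∑ i, ‖dotProduct φ (a i)‖ ^ 2

/-- one vector as a family -/
def vec1 (x : Fin 4 → 𝕜) : Fin 1 → Fin 4 → 𝕜 := fun _ => x

/-- the family of columns of an invertible matrix -/
def fr (A : GL (Fin 4) 𝕜) : Fin 4 → Fin 4 → 𝕜 := fun j i => A.1 i j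

/-- the square of the norm of the coordinates of `x` with respect to the frame `A` -/
noncomputable def QA (A : GL (Fin 4) 𝕜) (x : Fin 4 → 𝕜) : ℝ :=
  ∑ i, ‖(A⁻¹).1.mulVec x i‖ ^ 2

/-- the sum of the squares of the entries of a matrix -/
noncomputable def SS (A : Matrix (Fin 4) (Fin 4) 𝕜) : ℝ := ∑ i, ∑ j, ‖A i j‖ ^ 2

/-- the approximate hive function on frames -/
noncomputable def HA (A B C E : GL (Fin 4) 𝕜) : ℝ :=
  -(1 / 2) * Real.log (DD (fr A) (fr B) (fr C) (fr E))

/-- `e` and `s` describe the singular value decomposition of `A⁻¹ B`: the frame `e` is `A` times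
a unitary matrix and `B` is `e` times the diagonal matrix `s` times a unitary matrix; the
numbers `s i` are decreasing -/
def SvdFr (A B e : GL (Fin 4) 𝕜) (s : Fin 4 → ℝ) : Prop :=
  (∀ i, 0 < s i) ∧ Antitone s ∧ (∃ U ∈ Matrix.unitaryGroup (Fin 4) 𝕜, e.1 = A.1 * U) ∧
    ∃ V ∈ Matrix.unitaryGroup (Fin 4) 𝕜,
      B.1 = e.1 * Matrix.diagonal (fun i => (s i : 𝕜)) * V

/-- the factors by which the `r` last vectors are shrunk -/
noncomputable def muk (r k : ℕ) (i : Fin 4) : ℝ :=
  if 4 - r ≤ (i : ℕ) then Real.exp (-(k : ℝ)) else 1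

/-- `M` is obtained from `A` by moving by `k` in the direction of type `r` towards `B` -/
def MvA (r k : ℕ) (A B M : GL (Fin 4) 𝕜) : Prop :=
  ∃ (e : GL (Fin 4) 𝕜) (s : Fin 4 → ℝ), SvdFr A B e s ∧
    ∀ j, fr M j = (muk r k j : 𝕜) • fr e j

/-- the form of `x` towards `P`, `Q`, `R`, normalised by the frame `A` -/
noncomputable def nA {p q r : ℕ} (A : GL (Fin 4) 𝕜) (P : Fin p → Fin 4 → 𝕜)
    (Q : Fin q → Fin 4 → 𝕜) (R : Fin r → Fin 4 → 𝕜) (x : Fin 4 → 𝕜) : ℝ :=
  DD (vec1 x) P Q R / DD (fr A) P Q R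

/-- the form which describes the moved frame -/
noncomputable def FA {p q r : ℕ} (k : ℕ) (A : GL (Fin 4) 𝕜) (P : Fin p → Fin 4 → 𝕜)
    (Q : Fin q → Fin 4 → 𝕜) (R : Fin r → Fin 4 → 𝕜) (x : Fin 4 → 𝕜) : ℝ :=
  QA A x + Real.exp (2 * k) * nA A P Q R x

end Arch

end RapidDecay
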