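import Mathlib
import Pool.Agent.Lib.MP_fee02f_an.Defs
import Pool.Agent.Lib.MP_fee02f_an.AR.Defs

/-!
Definitions for part A (abstract part with additive errors) of the mixed case of MP_fee02f_an.
-/

open RapidDecay

namespace RDA

/-- the gap of type `r` of the pair `(a, b)` -/
def gp {P : Type*} (H : P → P → P → P → ℝ) (r : ℕ) (a b : P) : ℝ :=
  if r = 1 then ds H a b b b else if r = 2 then ds H a b a b else if r = 3 then ds H a b a a
  else 0

section Sums

variable {Y ι : Type*} [Fintype ι]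

/-- total distance -/
def dT (H : ι → Y → Y → Y → Y → ℝ) (x y : Y) : ℝ := ∑ i, dst (H i) x y

/-- total perimeter -/
def pT (H : ι → Y → Y → Y → Y → ℝ) (t : Y × Y × Y) : ℝ := ∑ i, pm (H i) t.1 t.2.1 t.2.2

/-- total core size -/
noncomputable def cT (H : ι → Y → Y → Y → Y → ℝ) (t : Y × Y × Y) : ℝ :=
  ∑ i, cs (H i) t.1 t.2.1 t.2.2

/-- triples of perimeter at most `m` -/
def TPa (H : ι → Y → Y → Y → Y → ℝ) (m : ℝ) : Set (Y × Y × Y) := {t | pT H t ≤ m}

/-- triples of perimeter at most `m` and core size at most `s` -/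
def TSa (H : ι → Y → Y → Y → Y → ℝ) (s m : ℝ) : Set (Y × Y × Y) := {t | cT H t ≤ s ∧ pT H t ≤ m}

/-- triples `(x, y, z)` with a short side `x y`, such that the gaps of `z` towards `x` and `y` of
the types in `A` are at most `L` -/
def TG (H : ι → Y → Y → Y → Y → ℝ) (R L : ℝ) (A : Finset (ι × Fin 3)) : Set (Y × Y × Y) :=
  {t | dT H t.1 t.2.1 ≤ R ∧ ∀ p ∈ A, gp (H p.1) (p.2.val + 1) t.2.2 t.1 ≤ L ∧
    gp (H p.1) (p.2.val + 1) t.2.2 t.2.1 ≤ L}

/-- total error -/
noncomputable def EE (ι : Type*) [Fintype ι] (e : ℝ) : ℝ := 100 * ((Fintype.card ι : ℝ) + 1) * e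

open Classical in
/-- the change of the slacks of the triple by a move of the first vertex, of length `k` in the
group `r` of the factor `i` -/
noncomputable def chg (i : ι) (r k : ℕ) (j : ι) (u s t : Fin 3) : ℝ :=
  if j = i ∧ u = 0 ∧ (if s = 0 then 1 else 0) + (if t = 0 then 1 else 0) + 1 = r then (k : ℝ)
  else 0

end Sums

/-- **Approximate hive space** (internal form of `AHS`): a `Γ`-set `Y` with finitely many
approximate hive functions with invariant slacks, with moves along arms, and with exponential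
growth. -/
structure ASpace (Γ Y ι : Type*) [Group Γ] [MulAction Γ Y] [Fintype ι] (e : ℝ) where
  one_le : 1 ≤ e
  H : ι → Y → Y → Y → Y → ℝ
  hive : ∀ i, AHive e (H i)
  inv : ∀ (i : ι) (g : Γ) (a b c s t : Y),
    sl (H i) (g • a) (g • b) (g • c) (g • s) (g • t) = sl (H i) a b c s t
  mv : ι → ℕ → ℕ → Y → Y → Y
  mv_smul : ∀ (i : ι) (r k : ℕ) (g : Γ) (a b : Y), mv i r k (g • a) (g • b) = g • mv i r k a b
  mv_near : ∀ (i : ι) (r k : ℕ) (a b c : Y), GroupGe (H i) a b c r k →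
    dT H (mv i r k a b) (mv i r k a c) ≤ e
  mv_sl : ∀ (i : ι) (r k : ℕ) (a b c : Y), GroupGe (H i) a b c r k →
    ∀ (j : ι) (u v w s t : Fin 3), u ≠ v → v ≠ w → u ≠ w →
      |tsl (H j) ![mv i r k a b, b, c] (u, v, w, s, t)
        - (tsl (H j) ![a, b, c] (u, v, w, s, t) - chg i r k j u s t)| ≤ e
  growth : ∃ C : ℕ, ∀ (a : Y) (m : ℕ),
    {b | dT H a b ≤ m}.Finite ∧ {b | dT H a b ≤ m}.ncard ≤ C ^ (m + 1)

end RDA
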