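import Mathlib
import Pool.Agent.Lib.MP_fee02f_an.Defs
import Pool.Agent.Lib.MP_fee02f_an.K0b
import Pool.Agent.Lib.MP_fee02f_an.AR.ADefs

/-!
KA0: basic facts on approximate hives (MP_fee02f_an, additive errors).
-/

open RapidDecay

namespace RDA

variable {P : Type*} {e : ℝ} {H : P → P → P → P → ℝ}

theorem ahive_of_hive (hH : IsHive H) : AHive 0 H where
  s12 := hH.s12
  s23 := hH.s23
  s34 := hH.s34
  pl := by
    intro s t a b c d
    rw [sub_zero]
    exact hH.pl s t a b c d

theorem AHive_mono {e' : ℝ} (hH : AHive e H) (h : e ≤ e') : AHive e' H where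
  s12 := hH.s12
  s23 := hH.s23
  s34 := hH.s34
  pl := fun s t a b c d => le_trans (by linarith) (hH.pl s t a b c d)

theorem AHive_comap {Q : Type*} (hH : AHive e H) (f : Q → P) :
    AHive e (fun a b c d => H (f a) (f b) (f c) (f d)) where
  s12 := fun _ _ _ _ => hH.s12 _ _ _ _
  s23 := fun _ _ _ _ => hH.s23 _ _ _ _
  s34 := fun _ _ _ _ => hH.s34 _ _ _ _
  pl := fun _ _ _ _ _ _ => hH.pl _ _ _ _ _ _

theorem sl_swap (hH : AHive e H) (a b c s t : P) : sl H a c b s t = sl H a b c s t := by
  unfold sl
  rw [hH.s34 s t c b]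
  ring

theorem sl_swap' (hH : AHive e H) (a b c s t : P) : sl H a b c t s = sl H a b c s t := by
  unfold sl
  rw [hH.s12 t s a a, hH.s12 t s b c, hH.s12 t s a b, hH.s12 t s a c]

theorem ds_comm (hH : AHive e H) (a b s t : P) : ds H b a s t = ds H a b s t := by
  unfold ds
  rw [hH.s34 s t b a]
  ring

theorem ds_swap (hH : AHive e H) (a b s t : P) : ds H a b t s = ds H a b s t := by
  unfold ds
  rw [hH.s12 t s a a, hH.s12 t s b b, hH.s12 t s a b]

theorem ds_eq (hH : AHive e H) (a b c s t : P) :
    ds H a b s t = sl H a b c s t + sl H b a c s t := by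
  unfold ds sl
  rw [hH.s34 s t b a]
  ring

theorem om_eq (hH : AHive e H) (u a b c : P) :
    sl H a b c u b - sl H a b c u c = om H u a b c := by
  unfold sl om
  have e1 : H u b a a = H u a a b := by
    rw [hH.s23 u b a a, hH.s34 u a b a]
  have e2 : H u b a b = H u a b b := hH.s23 u b a b
  have e3 : H u b a c = H u c a b := by
    rw [hH.s23 u b a c, hH.s34 u a b c, hH.s23 u a c b]
  have e4 : H u c b c = H u b c c := hH.s23 u c b c
  have e5 : H u c a c = H u c c a := hH.s34 u c a c
  rw [e1, e2, e3, e4, e5]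
  ring

theorem om_rot (H : P → P → P → P → ℝ) (u a b c : P) : om H u b c a = om H u a b c := by
  unfold om
  ring

theorem om_flip (hH : AHive e H) (u a b c : P) : om H u a c b = - om H u a b c := by
  unfold om
  have e1 : ∀ x y : P, H u x x y = H u y x x := by
    intro x y
    rw [hH.s34 u x x y, hH.s23 u x y x]
  rw [e1 a c, e1 c b, e1 b a, e1 a b, e1 b c, e1 c a]
  ring

theorem dst_eq (hH : AHive e H) (a b : P) :
    dst H a b = ds H a b a a + ds H a b a b + ds H a b b b := by
  unfold dst ds
  have e1 : H a b a a = H a a a b := by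
    rw [hH.s23 a b a a, hH.s34 a a b a]
  have e2 : H a b a b = H a a b b := hH.s23 a b a b
  have e3 : H b b a a = H a a b b := by
    rw [hH.s23 b b a a, hH.s12 b a b a, hH.s34 a b b a, hH.s23 a b a b]
  have e4 : H b b a b = H a b b b := by
    rw [hH.s23 b b a b, hH.s12 b a b b]
  rw [e1, e2, e3, e4]
  ring

theorem dst_comm (hH : AHive e H) (a b : P) : dst H b a = dst H a b := by
  unfold dst
  have e1 : H b b b a = H a b b b := by
    rw [hH.s34 b b b a, hH.s23 b b a b, hH.s12 b a b b]
  have e2 : H b a a a = H a a a b := by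
    rw [hH.s12 b a a a, hH.s23 a b a a, hH.s34 a a b a]
  rw [e1, e2]
  ring

theorem dst_self (H : P → P → P → P → ℝ) (a : P) : dst H a a = 0 := by
  unfold dst
  ring

theorem sl_ge (hH : AHive e H) (a b c s t : P) : -e ≤ sl H a b c s t := by
  have h := hH.pl s t a a b c
  unfold sl
  rcases min_cases (H s t a b + H s t a c) (H s t a c + H s t a b) with h1 | h1 <;>
    rw [h1.1] at h <;> linarith

theorem ds_ge (hH : AHive e H) (a b s t : P) : -e ≤ ds H a b s t := by
  have h := sl_ge hH a b b s t
  unfold sl at h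
  unfold ds
  linarith

theorem dst_ge (hH : AHive e H) (a b : P) : -(3 * e) ≤ dst H a b := by
  rw [dst_eq hH]
  have h1 := ds_ge hH a b a a
  have h2 := ds_ge hH a b a b
  have h3 := ds_ge hH a b b b
  linarith

theorem sl_le_ds (hH : AHive e H) (a b c s t : P) : sl H a b c s t ≤ ds H a b s t + e := by
  rw [ds_eq hH a b c s t]
  have := sl_ge hH b a c s t
  linarith

theorem sl_le_ds' (hH : AHive e H) (a b c s t : P) : sl H b a c s t ≤ ds H a b s t + e := by
  rw [ds_eq hH a b c s t]
  have := sl_ge hH a b c s t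
  linarith

/-- the part of the distance of `a`, `b` at the word `u v` in terms of other slacks -/
theorem ds_slide (hH : AHive e H) (a b u v : P) :
    ds H a b u v = sl H a b u b v + sl H b a u a v := by
  unfold ds sl
  have e1 : H a v b b = H b v a b := by
    rw [hH.s23 a v b b, hH.s12 a b v b, hH.s34 b a v b, hH.s23 b a b v, hH.s34 b b a v,
      hH.s23 b b v a, hH.s34 b v b a]
  have e2 : H b v a a = H a v b a := by
    rw [hH.s23 b v a a, hH.s12 b a v a, hH.s34 a b v a, hH.s23 a b a v, hH.s34 a a b v,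
      hH.s23 a a v b, hH.s34 a v a b]
  have e3 : H b v b u = H u v b b := by
    rw [hH.s34 b v b u, hH.s23 b v u b, hH.s12 b u v b, hH.s23 u b v b]
  have e4 : H a v a u = H u v a a := by
    rw [hH.s34 a v a u, hH.s23 a v u a, hH.s12 a u v a, hH.s23 u a v a]
  have e5 : H b v a u = H u v a b := by
    rw [hH.s34 b v a u, hH.s23 b v u a, hH.s12 b u v a, hH.s23 u b v a, hH.s34 u v b a]
  have e6 : H a v b u = H u v a b := by
    rw [hH.s34 a v b u, hH.s23 a v u b, hH.s12 a u v b, hH.s23 u a v b]
  rw [e1, e2, e3, e4, e5, e6]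
  ring

theorem ds_le_dst (hH : AHive e H) (a b s t : P) : ds H a b s t ≤ dst H a b + 4 * e := by
  have h1 := ds_slide hH a b s t
  have h2 := sl_le_ds hH a b s b t
  have h3 := sl_le_ds' hH a b s a t
  have h4 := ds_slide hH a b t b
  have h5 := ds_slide hH a b t a
  rw [ds_swap hH a b b t] at h4
  rw [ds_swap hH a b a t] at h5
  have h6 := sl_le_ds hH a b t b b
  have h7 := sl_le_ds' hH a b t a a
  have h8 := ds_eq hH a b t a b
  have h9 := sl_swap' hH a b t a b
  have h10 := dst_eq hH a b
  linarith

theorem sl_le_dst (hH : AHive e H) (a b c s t : P) : sl H a b c s t ≤ dst H a b + 5 * e := by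
  have h1 := sl_le_ds hH a b c s t
  have h2 := ds_le_dst hH a b s t
  linarith

theorem om_le (hH : AHive e H) (u a b c : P) : |om H u a b c| ≤ dst H a b + 6 * e := by
  rw [← om_eq hH, abs_le]
  have h1 := sl_ge hH a b c u b
  have h2 := sl_ge hH a b c u c
  have h3 := sl_le_dst hH a b c u b
  have h4 := sl_le_dst hH a b c u c
  constructor <;> linarith

theorem dst_triangle (hH : AHive e H) (a b c : P) :
    dst H a c ≤ dst H a b + dst H b c + 6 * e := by
  have h1 := sl_ge hH b a c a a
  have h2 := sl_ge hH b a c c c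
  have h3 := sl_ge hH b a c b b
  have h4 := sl_ge hH b a c a b
  have h5 := sl_ge hH b a c b c
  have e1 : dst H a b + dst H b c - dst H a c = sl H b a c a a + sl H b a c c c +
      2 * sl H b a c b b + sl H b a c a b + sl H b a c b c := by
    unfold dst sl
    simp only [hH.s12, hH.s23, hH.s34]
    ring
  linarith

theorem ar_ge (hH : AHive e H) (a b c : P) : -(9 * e) ≤ ar H a b c := by
  have h1 : ∀ a b c : P, -e ≤ gm1 H a b c := fun a b c =>
    le_min (sl_ge hH _ _ _ _ _) (le_min (sl_ge hH _ _ _ _ _) (sl_ge hH _ _ _ _ _))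
  have h2 : ∀ a b c : P, -e ≤ gm2 H a b c := fun a b c =>
    le_min (sl_ge hH _ _ _ _ _) (sl_ge hH _ _ _ _ _)
  have h3 : ∀ a b c : P, -e ≤ gm3 H a b c := fun a b c => sl_ge hH _ _ _ _ _
  unfold ar
  have := h1 a b c
  have := h1 b c a
  have := h1 c a b
  have := h2 a b c
  have := h2 b c a
  have := h2 c a b
  have := h3 a b c
  have := h3 b c a
  have := h3 c a b
  linarith

theorem KA0_pm (hH : AHive e H) (a b c : P) : pm H a b c =
    (2 * sl H a b c a a + sl H a b c a b + sl H a b c a c + sl H a b c b b + sl H a b c c c) +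
    (2 * sl H b c a b b + sl H b c a b c + sl H b c a b a + sl H b c a c c + sl H b c a a a) +
    (2 * sl H c a b c c + sl H c a b c a + sl H c a b c b + sl H c a b a a + sl H c a b b b) := by
  unfold pm dst sl
  simp only [hH.s12, hH.s23, hH.s34]
  ring

theorem KA0_gm2 (hH : AHive e H) (a b c : P) :
    sl H a b c a b + sl H a b c a c = 2 * gm2 H a b c + |om H a a b c| :=
  K0b_min2 _ _ _ (om_eq hH a a b c)

theorem KA0_gm1 (hH : AHive e H) (a b c : P) :
    sl H a b c b b + sl H a b c c c = 2 * gm1 H a b c +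
      2 * max 0 (max (-(om H b a b c)) (om H c a b c)) + om H b a b c - om H c a b c := by
  refine K0b_min3 _ _ _ _ _ (om_eq hH b a b c) ?_
  rw [← om_eq hH c a b c, sl_swap' hH a b c b c]

theorem pm_eq (hH : AHive e H) (a b c : P) : pm H a b c = cs H a b c + 2 * ar H a b c := by
  have h0 := KA0_pm hH a b c
  have a1 := KA0_gm1 hH a b c
  have a2 := KA0_gm2 hH a b c
  have b1 := KA0_gm1 hH b c a
  have b2 := KA0_gm2 hH b c a
  have c1 := KA0_gm1 hH c a b
  have c2 := KA0_gm2 hH c a b
  have r1 : ∀ u, om H u b c a = om H u a b c := fun u => om_rot H u a b c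
  have r2 : ∀ u, om H u c a b = om H u a b c :=
    fun u => (om_rot H u b c a).trans (om_rot H u a b c)
  rw [r1, r1] at b1
  rw [r1] at b2
  rw [r2, r2] at c1
  rw [r2] at c2
  unfold cs Fc ar gm3
  linarith

theorem om_close (hH : AHive e H) (a b c a' b' c' : P) (k : ℝ)
    (h : SlClose H a b c a' b' c' k) :
    |om H a a b c - om H a' a' b' c'| ≤ 2 * k ∧ |om H b a b c - om H b' a' b' c'| ≤ 2 * k ∧
      |om H c a b c - om H c' a' b' c'| ≤ 2 * k := by
  have key : ∀ i : Fin 3, |om H (![a, b, c] i) a b c - om H (![a', b', c'] i) a' b' c'| ≤ 2 * k := by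
    intro i
    have h1 := abs_le.mp (h (0, 1, 2, i, 1))
    have h2 := abs_le.mp (h (0, 1, 2, i, 2))
    unfold tsl at h1 h2
    have e1 := om_eq hH (![a, b, c] i) a b c
    have e2 := om_eq hH (![a', b', c'] i) a' b' c'
    simp only [Matrix.cons_val_zero, Matrix.cons_val_one, Matrix.cons_val_two, Matrix.cons_val,
      Matrix.head_cons, Matrix.tail_cons] at h1 h2
    rw [abs_le]
    constructor <;> linarith [h1.1, h1.2, h2.1, h2.2]
  exact ⟨key 0, key 1, key 2⟩

theorem err_nonneg (hH : AHive e H) (a : P) : 0 ≤ e := by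
  have h := hH.pl a a a a a a
  rw [min_self] at h
  linarith

/-- cross differences -/
theorem cross_le (hH : AHive e H) (s t p p' x x' : P) :
    |H s t p x + H s t p' x' - (H s t p' x + H s t p x')| ≤ dst H p p' + 8 * e := by
  have he := err_nonneg hH p
  have hd0 := dst_ge hH p p'
  have hd := ds_le_dst hH p p' s t
  have h1 := hH.pl s t p x p' x'
  have h2 := hH.pl s t p x' p' x
  have h3 := sl_ge hH p x x' s t
  have h4 := sl_ge hH p' x x' s t
  unfold ds at hd
  unfold sl at h3 h4
  have c1 : H s t x p' = H s t p' x := hH.s34 s t x p'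
  have c2 : H s t x' p' = H s t p' x' := hH.s34 s t x' p'
  have c3 : H s t x' x = H s t x x' := hH.s34 s t x' x
  rw [c1] at h1
  rw [c2, c3] at h2
  rw [abs_le]
  constructor
  · rcases min_cases (H s t p p' + H s t x x') (H s t p x' + H s t p' x) with h | h
    · rw [h.1] at h1
      linarith
    · rw [h.1] at h1
      linarith
  · rcases min_cases (H s t p p' + H s t x x') (H s t p x + H s t p' x') with h | h
    · rw [h.1] at h2
      linarith
    · rw [h.1] at h2
      linarith

theorem abs_trans {x y z A B : ℝ} (h1 : |x - y| ≤ A) (h2 : |y - z| ≤ B) : |x - z| ≤ A + B :=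
  (abs_sub_le x y z).trans (add_le_add h1 h2)

/-- replacing all letters by near letters -/
theorem sl_pert (hH : AHive e H) {D : ℝ} {a b c s t a' b' c' s' t' : P} (ha : dst H a a' ≤ D)
    (hb : dst H b b' ≤ D) (hc : dst H c c' ≤ D) (hs : dst H s s' ≤ D) (ht : dst H t t' ≤ D) :
    |sl H a b c s t - sl H a' b' c' s' t'| ≤ 8 * D + 64 * e := by
  -- the second letter
  have hB : ∀ a c s t : P, |sl H a b c s t - sl H a b' c s t| ≤ D + 8 * e := by
    intro a c s t
    have h := cross_le hH s t b b' c a
    have e1 : sl H a b c s t - sl H a b' c s t =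
        H s t b c + H s t b' a - (H s t b' c + H s t b a) := by
      unfold sl
      rw [hH.s34 s t b' a, hH.s34 s t b a]
      ring
    rw [e1]
    linarith
  have hC : ∀ a b s t : P, |sl H a b c s t - sl H a b c' s t| ≤ D + 8 * e := by
    intro a b s t
    have h := cross_le hH s t c c' b a
    have e1 : sl H a b c s t - sl H a b c' s t =
        H s t c b + H s t c' a - (H s t c' b + H s t c a) := by
      unfold sl
      rw [hH.s34 s t c' a, hH.s34 s t c a, hH.s34 s t c b, hH.s34 s t c' b]
      ring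
    rw [e1]
    linarith
  have hA : ∀ b c s t : P, |sl H a b c s t - sl H a' b c s t| ≤ 2 * (D + 8 * e) := by
    intro b c s t
    have h := abs_le.1 (cross_le hH s t a a' a b)
    have h' := abs_le.1 (cross_le hH s t a a' a' c)
    have e1 : sl H a b c s t - sl H a' b c s t =
        -(H s t a b + H s t a' a - (H s t a' b + H s t a a)) +
        (H s t a a' + H s t a' c - (H s t a' a' + H s t a c)) := by
      unfold sl
      rw [hH.s34 s t a' a]
      ring
    have h1 := abs_le.1 (cross_le hH s t a a' b a)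
    rw [e1, abs_le]
    rw [hH.s34 s t a' a] at *
    constructor <;> linarith [h1.1, h1.2, h'.1, h'.2]
  have hS : ∀ a b c t : P, |sl H a b c s t - sl H a b c s' t| ≤ 2 * (D + 8 * e) := by
    intro a b c t
    have h := abs_le.1 (cross_le hH t a s s' a b)
    have h' := abs_le.1 (cross_le hH t c s s' b a)
    have p : ∀ u x y : P, H u t x y = H t x u y := by
      intro u x y
      rw [hH.s12 u t x y, hH.s23 t u x y]
    have q : ∀ u x y : P, H t x u y = H t x y u := fun u x y => hH.s34 t x u y
    have r : ∀ u x y : P, H t x y u = H t y x u := fun u x y => hH.s23 t x y u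
    have e1 : sl H a b c s t - sl H a b c s' t =
        (H t a s a + H t a s' b - (H t a s' a + H t a s b)) +
        (H t c s b + H t c s' a - (H t c s' b + H t c s a)) := by
      unfold sl
      rw [p s a a, p s b c, p s a b, p s a c, p s' a a, p s' b c, p s' a b, p s' a c]
      rw [q s b c, r s b c, ← q s c b, q s' b c, r s' b c, ← q s' c b]
      rw [q s a c, r s a c, ← q s c a, q s' a c, r s' a c, ← q s' c a]
      ring
    rw [e1, abs_le]
    constructor <;> linarith [h.1, h.2, h'.1, h'.2]
  have hT : ∀ a b c s : P, |sl H a b c s t - sl H a b c s t'| ≤ 2 * (D + 8 * e) := by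
    intro a b c u
    have h := abs_le.1 (cross_le hH u a t t' a b)
    have h' := abs_le.1 (cross_le hH u c t t' b a)
    have p : ∀ v x y : P, H u v x y = H u x v y := fun v x y => hH.s23 u v x y
    have q : ∀ v x y : P, H u x v y = H u x y v := fun v x y => hH.s34 u x v y
    have r : ∀ v x y : P, H u x y v = H u y x v := fun v x y => hH.s23 u x y v
    have e1 : sl H a b c u t - sl H a b c u t' =
        (H u a t a + H u a t' b - (H u a t' a + H u a t b)) +
        (H u c t b + H u c t' a - (H u c t' b + H u c t a)) := by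
      unfold sl
      rw [p t a a, p t b c, p t a b, p t a c, p t' a a, p t' b c, p t' a b, p t' a c]
      rw [q t b c, r t b c, ← q t c b, q t' b c, r t' b c, ← q t' c b]
      rw [q t a c, r t a c, ← q t c a, q t' a c, r t' a c, ← q t' c a]
      ring
    rw [e1, abs_le]
    constructor <;> linarith [h.1, h.2, h'.1, h'.2]
  have h1 := abs_trans (abs_trans (abs_trans (abs_trans (hA b c s t) (hB a' c s t))
    (hC a' b' s t)) (hS a' b' c' t)) (hT a' b' c' s')
  linarith

theorem gm_le_gp (hH : AHive e H) (a b c : P) :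
    gm1 H a b c ≤ gp H 1 a b + e ∧ gm2 H a b c ≤ gp H 2 a b + e ∧ gm3 H a b c ≤ gp H 3 a b + e ∧
    gm1 H a b c ≤ gp H 1 a c + e ∧ gm2 H a b c ≤ gp H 2 a c + e ∧
      gm3 H a b c ≤ gp H 3 a c + e := by
  have g1 : ∀ x y : P, gp H 1 x y = ds H x y y y := fun x y => by simp [gp]
  have g2 : ∀ x y : P, gp H 2 x y = ds H x y x y := fun x y => by simp [gp]
  have g3 : ∀ x y : P, gp H 3 x y = ds H x y x x := fun x y => by simp [gp]
  have hs : ∀ s t : P, sl H a b c s t ≤ ds H a c s t + e := by
    intro s t
    rw [← sl_swap hH a b c s t]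
    exact sl_le_ds hH a c b s t
  rw [g1, g2, g3, g1, g2, g3]
  unfold gm1 gm2 gm3
  refine ⟨(min_le_left _ _).trans (sl_le_ds hH _ _ _ _ _),
    (min_le_left _ _).trans (sl_le_ds hH _ _ _ _ _), sl_le_ds hH _ _ _ _ _,
    ((min_le_right _ _).trans (min_le_right _ _)).trans (hs _ _),
    (min_le_right _ _).trans (hs _ _), hs _ _⟩

theorem dst_eq_gp (hH : AHive e H) (a b : P) :
    dst H a b = gp H 1 a b + gp H 2 a b + gp H 3 a b := by
  rw [dst_eq hH]
  simp [gp]
  ring

/-- the slacks at the far vertex are at least the gaps minus `4 R` -/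
theorem far_groups (hH : AHive e H) (x y z : P) (R : ℝ) (hR : dst H x y ≤ R) :
    (gp H 1 z x - 4 * R - 100 * e ≤ gm1 H z x y ∧ gp H 2 z x - 4 * R - 100 * e ≤ gm2 H z x y ∧
      gp H 3 z x - 4 * R - 100 * e ≤ gm3 H z x y) ∧
    ∀ r, |gp H r z x - gp H r z y| ≤ 4 * R + 100 * e := by
  have he := err_nonneg hH x
  have hR0 : -(3 * e) ≤ R := (dst_ge hH x y).trans hR
  have hxy : ∀ s t, -e ≤ sl H x z y s t ∧ sl H x z y s t ≤ R + 5 * e := by
    intro s t
    refine ⟨sl_ge hH _ _ _ _ _, ?_⟩
    rw [sl_swap hH x y z s t]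
    linarith [sl_le_dst hH x y z s t]
  have hyx : ∀ s t, -e ≤ sl H y z x s t ∧ sl H y z x s t ≤ R + 5 * e := by
    intro s t
    refine ⟨sl_ge hH _ _ _ _ _, ?_⟩
    rw [sl_swap hH y x z s t]
    have h := sl_le_dst hH y x z s t
    rw [dst_comm hH] at h
    linarith
  have hom : ∀ u, |om H u z x y| ≤ R + 6 * e := by
    intro u
    rw [← om_rot H u z x y]
    linarith [om_le hH u x y z]
  have d1 : ∀ s t, ds H z x s t = sl H z x y s t + sl H x z y s t := fun s t =>
    ds_eq hH z x y s t
  have d2 : ∀ s t, ds H z y s t = sl H z x y s t + sl H y z x s t := fun s t => by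
    rw [ds_eq hH z y x s t, sl_swap hH z x y s t]
  have o : ∀ u, sl H z x y u x - sl H z x y u y = om H u z x y := fun u => om_eq hH u z x y
  have ox := o x
  have oy := o y
  have oz := o z
  rw [sl_swap' hH z x y x y] at oy
  have ax := abs_le.1 (hom x)
  have ay := abs_le.1 (hom y)
  have az := abs_le.1 (hom z)
  have b1 := hxy x x
  have b2 := hxy z x
  have b3 := hxy z z
  have c1 := hyx y y
  have c2 := hyx z y
  have c3 := hyx z z
  have g1 : ∀ x y : P, gp H 1 x y = ds H x y y y := fun x y => by simp [gp]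
  have g2 : ∀ x y : P, gp H 2 x y = ds H x y x y := fun x y => by simp [gp]
  have g3 : ∀ x y : P, gp H 3 x y = ds H x y x x := fun x y => by simp [gp]
  constructor
  · rw [g1, g2, g3, d1 x x, d1 z x, d1 z z]
    unfold gm1 gm2 gm3
    refine ⟨?_, ?_, ?_⟩
    · refine le_min (by linarith) (le_min (by linarith) (by linarith))
    · refine le_min (by linarith) (by linarith)
    · linarith
  · intro r
    by_cases h1 : r = 1
    · subst h1
      rw [g1, g1, d1 x x, d2 y y, abs_le]
      constructor <;> linarith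
    by_cases h2 : r = 2
    · subst h2
      rw [g2, g2, d1 z x, d2 z y, abs_le]
      constructor <;> linarith
    by_cases h3 : r = 3
    · subst h3
      rw [g3, g3, d1 z z, d2 z z, abs_le]
      constructor <;> linarith
    have g0 : ∀ x y : P, gp H r x y = 0 := fun x y => by simp [gp, h1, h2, h3]
    rw [g0, g0, sub_zero, abs_zero]
    linarith

end RDA
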