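import Mathlib
import Pool.Agent.Lib.MP_fee02f_an.Defs
import Pool.Agent.Lib.MP_fee02f_an.AR.Defs
import Pool.Agent.Lib.MP_fee02f_an.AR.ADefs
import Pool.Agent.Lib.MP_fee02f_an.AR.A0

/-!
A1: the internal form of `AHS` (MP_fee02f_an, additive errors).
-/

open scoped ENNReal Topology MatrixGroups
open RapidDecay

namespace RDA

theorem of_AHS {Γ Y ι : Type*} [Group Γ] [MulAction Γ Y] [Fintype ι] [DecidableEq ι]
    (S : AHS Γ Y ι) : ∃ (e : ℝ) (S' : ASpace Γ Y ι e), S'.H = S.H := by
  refine ⟨max 1 S.e, {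
    one_le := le_max_left _ _
    H := S.H
    hive := fun i => AHive_mono (S.hive i) (le_max_right _ _)
    inv := S.inv
    mv := S.mv
    mv_smul := fun i r k g a b => S.mv_smul i g r k a b
    mv_near := ?_
    mv_sl := ?_
    growth := S.growth }, rfl⟩
  · intro i r k a b c h
    exact (S.mv_near i r k a b c h).trans (le_max_right _ _)
  · intro i r k a b c h j u v w s t h1 h2 h3
    have e1 : chg i r k j u s t =
        (if j = i ∧ u = 0 ∧ (if s = 0 then 1 else 0) + (if t = 0 then 1 else 0) + 1 = r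
          then (k : ℝ) else 0) := by
      unfold chg
      by_cases hc : j = i ∧ u = 0 ∧ (if s = 0 then 1 else 0) + (if t = 0 then 1 else 0) + 1 = r
      · rw [if_pos hc, if_pos hc]
      · rw [if_neg hc, if_neg hc]
    rw [e1]
    exact (S.mv_sl i r k a b c h j u v w s t h1 h2 h3).trans (le_max_right _ _)

end RDA
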