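import Pool.Agent.Lib.MP_fee02f_an.R4

/-!
A3: moving a vertex, with a near relation (MP_fee02f_an, additive errors).
-/

open scoped ENNReal
open RapidDecay

namespace RDA

variable {Γ Y : Type*} [Group Γ] [MulAction Γ Y] {w : Y → ℝ≥0∞}

open Classical in
/-- the sum of a constant over a finite set with at most `K` elements -/
theorem A3_tsum_le {Z : Type*} (p : Z → Prop) (K : ℕ) (hf : {x | p x}.Finite)
    (hK : {x | p x}.ncard ≤ K) (c : ℝ≥0∞) : ∑' u, (if p u then c else 0) ≤ (K : ℝ≥0∞) * c := by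
  have h1 : ∑' u, (if p u then c else 0) = ∑ u ∈ hf.toFinset, (if p u then c else 0) := by
    refine tsum_eq_sum ?_
    intro u hu
    rw [Set.Finite.mem_toFinset] at hu
    exact if_neg hu
  rw [h1]
  have h2 : ∑ u ∈ hf.toFinset, (if p u then c else 0) = ∑ u ∈ hf.toFinset, c := by
    refine Finset.sum_congr rfl ?_
    intro u hu
    rw [Set.Finite.mem_toFinset] at hu
    exact if_pos hu
  rw [h2, Finset.sum_const, nsmul_eq_mul]
  gcongr
  rw [Set.ncard_eq_toFinset_card _ hf] at hK
  exact hK

theorem Bd_moveN (hw : IsWt Γ w) {T T' : Set (Y × Y × Y)} (hT : InvT Γ T) (hT' : InvT Γ T')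
    (μ ν : Y → Y → Y) (hμ : ∀ (g : Γ) (x y : Y), μ (g • x) (g • y) = g • μ x y)
    (hν : ∀ (g : Γ) (x y : Y), ν (g • x) (g • y) = g • ν x y)
    (N : Y → Y → Prop) (hN : ∀ (g : Γ) (x y : Y), N (g • x) (g • y) ↔ N x y) (K : ℕ)
    (hK : ∀ y : Y, {x | N x y}.Finite ∧ {x | N x y}.ncard ≤ K)
    (h : ∀ x y z, (x, y, z) ∈ T → N (μ x y) (ν x z) ∧ (μ x y, y, z) ∈ T')
    {C : ℝ≥0∞} (hB : Bd Γ w T' C) : Bd Γ w T ((K : ℝ≥0∞) * C) := by
  classical
  -- the pushed forward kernels
  set push : (Y → Y → ℝ≥0∞) → Y → Y → ℝ≥0∞ := fun f u y =>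
    (∑' x, if μ x y = u then f x y ^ 2 else 0) ^ (1 / 2 : ℝ) with hpush
  set pusn : (Y → Y → ℝ≥0∞) → Y → Y → ℝ≥0∞ := fun f u z =>
    (∑' x, if N u (ν x z) then f x z ^ 2 else 0) ^ (1 / 2 : ℝ) with hpusn
  have hinv : ∀ f : Y → Y → ℝ≥0∞, Inv2 Γ f → Inv2 Γ (push f) := by
    intro f hf γ u y
    simp only [hpush]
    congr 1
    rw [← (MulAction.toPerm γ : Equiv.Perm Y).tsum_eq]
    refine tsum_congr (fun x => ?_)
    simp only [MulAction.toPerm_apply]
    rw [hμ, hf]
    simp only [smul_left_cancel_iff]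
  have hinv' : ∀ f : Y → Y → ℝ≥0∞, Inv2 Γ f → Inv2 Γ (pusn f) := by
    intro f hf γ u y
    simp only [hpusn]
    congr 1
    rw [← (MulAction.toPerm γ : Equiv.Perm Y).tsum_eq]
    refine tsum_congr (fun x => ?_)
    simp only [MulAction.toPerm_apply]
    rw [hν, hf]
    simp only [hN]
  have hnn : ∀ f : Y → Y → ℝ≥0∞, Inv2 Γ f → nn w (push f) = nn w f := by
    intro f hf
    rw [← nn_transport hw (hinv f hf), ← nn_transport hw hf]
    unfold nn
    refine tsum_congr (fun y => ?_)
    simp only [hpush, R4_rt]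
    rw [ENNReal.tsum_mul_left, ENNReal.tsum_mul_left, ENNReal.tsum_comm]
    congr 1
    refine tsum_congr (fun x => ?_)
    rw [tsum_eq_single (μ x y)]
    · rw [if_pos rfl]
    · intro x' hx'
      rw [if_neg (Ne.symm hx')]
  have hnn' : ∀ f : Y → Y → ℝ≥0∞, Inv2 Γ f → nn w (pusn f) ≤ (K : ℝ≥0∞) * nn w f := by
    intro f hf
    rw [← nn_transport hw (hinv' f hf), ← nn_transport hw hf]
    unfold nn
    rw [← ENNReal.tsum_mul_left]
    refine ENNReal.tsum_le_tsum (fun y => ?_)
    simp only [hpusn, R4_rt]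
    rw [ENNReal.tsum_mul_left, ENNReal.tsum_mul_left, ENNReal.tsum_comm, mul_left_comm]
    gcongr
    rw [← ENNReal.tsum_mul_left]
    refine ENNReal.tsum_le_tsum (fun x => ?_)
    exact A3_tsum_le (fun u => N u (ν x y)) K (hK (ν x y)).1 (hK (ν x y)).2 (f x y ^ 2)
  intro f g k hf hg hk hnf hng hnk
  have hf' := hinv f hf
  have hk' := hinv' k hk
  have hle : LL w T f g k ≤ LL w T' (push f) g (pusn k) := by
    rw [R4_LL_mid hw hT hf hg hk, R4_LL_mid hw hT' hf' hg hk']
    refine ENNReal.tsum_le_tsum (fun y => ENNReal.tsum_le_tsum (fun z => ?_))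
    rw [ENNReal.tsum_mul_left, ENNReal.tsum_mul_left]
    gcongr ?_ * ?_
    · exact le_rfl
    calc ∑' x, (if (x, y, z) ∈ T then f x y * g y z * k x z else 0)
        ≤ ∑' x, ∑' u, (if (u, y, z) ∈ T' then
            g y z * ((if μ x y = u then f x y else 0) *
              (if N u (ν x z) then k x z else 0)) else 0) := by
          refine ENNReal.tsum_le_tsum (fun x => ?_)
          by_cases hx : (x, y, z) ∈ T
          · obtain ⟨h1, h2⟩ := h x y z hx
            refine le_trans ?_ (ENNReal.le_tsum (μ x y))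
            rw [if_pos hx, if_pos h2, if_pos rfl, if_pos h1]
            apply le_of_eq
            ring
          · rw [if_neg hx]
            exact zero_le
      _ = ∑' u, ∑' x, (if (u, y, z) ∈ T' then
            g y z * ((if μ x y = u then f x y else 0) *
              (if N u (ν x z) then k x z else 0)) else 0) :=
          ENNReal.tsum_comm
      _ ≤ ∑' u, (if (u, y, z) ∈ T' then push f u y * g y z * pusn k u z else 0) := by
          refine ENNReal.tsum_le_tsum (fun u => ?_)
          by_cases hx : (u, y, z) ∈ T'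
          · simp only [if_pos hx]
            rw [ENNReal.tsum_mul_left]
            have hcs := R4_cs (fun x => if μ x y = u then f x y else 0)
              (fun x => if N u (ν x z) then k x z else 0)
            have e1 : ∀ x, (if μ x y = u then f x y else 0) ^ 2 =
                (if μ x y = u then f x y ^ 2 else 0) := fun x => by
              split_ifs <;> simp
            have e2 : ∀ x, (if N u (ν x z) then k x z else 0) ^ 2 =
                (if N u (ν x z) then k x z ^ 2 else 0) := fun x => by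
              split_ifs <;> simp
            simp only [e1, e2] at hcs
            calc g y z * ∑' x, ((if μ x y = u then f x y else 0) *
                  (if N u (ν x z) then k x z else 0))
                ≤ g y z * (push f u y * pusn k u z) := by
                  gcongr
              _ = push f u y * g y z * pusn k u z := by ring
          · simp only [if_neg hx, tsum_zero, le_refl]
  have hKK : (K : ℝ≥0∞) ≤ (K : ℝ≥0∞) ^ 2 := by
    exact_mod_cast Nat.le_self_pow (by norm_num) K
  calc LL w T f g k ^ 2 ≤ LL w T' (push f) g (pusn k) ^ 2 := by gcongr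
    _ ≤ C ^ 2 * (nn w (push f) * nn w g * nn w (pusn k)) := by
        refine hB _ _ _ hf' hg hk' ?_ hng ?_
        · rwa [hnn f hf]
        · exact ne_top_of_le_ne_top (ENNReal.mul_ne_top (ENNReal.natCast_ne_top K) hnk)
            (hnn' k hk)
    _ ≤ C ^ 2 * (nn w f * nn w g * ((K : ℝ≥0∞) * nn w k)) := by
        rw [hnn f hf]
        gcongr
        exact hnn' k hk
    _ ≤ C ^ 2 * (nn w f * nn w g * ((K : ℝ≥0∞) ^ 2 * nn w k)) := by
        gcongr
    _ = ((K : ℝ≥0∞) * C) ^ 2 * (nn w f * nn w g * nn w k) := by ring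

end RDA
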