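import Mathlib
import Pool.Agent.Lib.MP_fee02f_an.Defs
import Pool.Agent.Lib.MP_fee02f_an.AR.Defs
import Pool.Agent.Lib.MP_fee02f_an.AR.ADefs
import Pool.Agent.Lib.MP_fee02f_an.AR.A0

/-!
A4: consequences of the move axioms (MP_fee02f_an, additive errors).
-/

open scoped ENNReal Topology MatrixGroups
open RapidDecay

namespace RDA

theorem A4_max (y z y' z' : ℝ) :
    |max 0 (max (-y) z) - max 0 (max (-y') z')| ≤ |y - y'| + |z - z'| := by
  have h1 := abs_max_sub_max_le_max 0 (max (-y) z) 0 (max (-y') z')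
  have h2 := abs_max_sub_max_le_max (-y) z (-y') z'
  have h3 : |(-y) - (-y')| = |y - y'| := by
    rw [← abs_neg]
    congr 1
    ring
  rw [h3] at h2
  rw [sub_self, abs_zero] at h1
  refine h1.trans (max_le (by positivity) (h2.trans (max_le ?_ ?_)))
  · linarith [abs_nonneg (z - z')]
  · linarith [abs_nonneg (y - y')]

theorem A4_Fc_lip (x y z x' y' z' : ℝ) :
    |Fc x y z - Fc x' y' z'| ≤ 5 * (|x - x'| + |y - y'| + |z - z'|) := by
  have a1 := abs_le.1 (A4_max y z y' z')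
  have a2 := abs_le.1 (A4_max z x z' x')
  have a3 := abs_le.1 (A4_max x y x' y')
  have b1 := abs_le.1 (abs_abs_sub_abs_le x x')
  have b2 := abs_le.1 (abs_abs_sub_abs_le y y')
  have b3 := abs_le.1 (abs_abs_sub_abs_le z z')
  unfold Fc
  rw [abs_le]
  constructor <;> linarith [a1.1, a1.2, a2.1, a2.2, a3.1, a3.2, b1.1, b1.2, b2.1, b2.2, b3.1, b3.2]

section Space

variable {Γ Y ι : Type*} [Group Γ] [MulAction Γ Y] [Fintype ι] {e : ℝ} (S : ASpace Γ Y ι e)

open Classical in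
/-- change of the gap of type `q` of the factor `j` -/
noncomputable def A4_D (i : ι) (r k : ℕ) (j : ι) (q : ℕ) : ℝ :=
  if j = i ∧ q = r then (k : ℝ) else 0

theorem A4_D_nonneg (i : ι) (r k : ℕ) (j : ι) (q : ℕ) : 0 ≤ A4_D i r k j q := by
  unfold A4_D
  split_ifs
  · positivity
  · exact le_rfl

theorem A4_if {p q : Prop} {_ : Decidable p} {_ : Decidable q} (x : ℝ) (h : p ↔ q) :
    (if p then x else 0) = if q then x else 0 := by
  by_cases hp : p
  · rw [if_pos hp, if_pos (h.1 hp)]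
  · rw [if_neg hp, if_neg fun hq => hp (h.2 hq)]

theorem A4_chg_one (i : ι) (r k : ℕ) (j : ι) (s t : Fin 3) (hs : s ≠ 0) (ht : t ≠ 0) :
    chg i r k j 0 s t = A4_D i r k j 1 := by
  unfold chg A4_D
  refine A4_if _ ?_
  rw [if_neg hs, if_neg ht]
  simp

theorem A4_chg_two (i : ι) (r k : ℕ) (j : ι) (t : Fin 3) (ht : t ≠ 0) :
    chg i r k j 0 0 t = A4_D i r k j 2 := by
  unfold chg A4_D
  refine A4_if _ ?_
  rw [if_pos rfl, if_neg ht]
  simp

theorem A4_chg_three (i : ι) (r k : ℕ) (j : ι) :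
    chg i r k j 0 0 0 = A4_D i r k j 3 := by
  unfold chg A4_D
  refine A4_if _ ?_
  rw [if_pos rfl]
  simp

theorem A4_chg_zero (i : ι) (r k : ℕ) (j : ι) (u s t : Fin 3) (hu : u ≠ 0) :
    chg i r k j u s t = 0 := by
  unfold chg
  exact if_neg fun h => hu h.2.1

theorem A4_gp_eq {P : Type*} (H : P → P → P → P → ℝ) (x y : P) :
    gp H 1 x y = ds H x y y y ∧ gp H 2 x y = ds H x y x y ∧ gp H 3 x y = ds H x y x x := by
  refine ⟨?_, ?_, ?_⟩ <;> simp [gp]

variable {S}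

theorem A4_gp_b {i : ι} {r k : ℕ} {a b c : Y} (h : GroupGe (S.H i) a b c r k) (j : ι) :
    |gp (S.H j) 1 (S.mv i r k a b) b - (gp (S.H j) 1 a b - A4_D i r k j 1)| ≤ 2 * e ∧
    |gp (S.H j) 2 (S.mv i r k a b) b - (gp (S.H j) 2 a b - A4_D i r k j 2)| ≤ 2 * e ∧
    |gp (S.H j) 3 (S.mv i r k a b) b - (gp (S.H j) 3 a b - A4_D i r k j 3)| ≤ 2 * e := by
  have hh := S.hive j
  obtain ⟨g1, g2, g3⟩ := A4_gp_eq (S.H j) (S.mv i r k a b) b
  obtain ⟨f1, f2, f3⟩ := A4_gp_eq (S.H j) a b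
  rw [g1, g2, g3, f1, f2, f3]
  have p1 := S.mv_sl i r k a b c h j 0 1 2 1 1 (by decide) (by decide) (by decide)
  have p2 := S.mv_sl i r k a b c h j 1 0 2 1 1 (by decide) (by decide) (by decide)
  have q1 := S.mv_sl i r k a b c h j 0 1 2 0 1 (by decide) (by decide) (by decide)
  have q2 := S.mv_sl i r k a b c h j 1 0 2 0 1 (by decide) (by decide) (by decide)
  have r1 := S.mv_sl i r k a b c h j 0 1 2 0 0 (by decide) (by decide) (by decide)
  have r2 := S.mv_sl i r k a b c h j 1 0 2 0 0 (by decide) (by decide) (by decide)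
  rw [A4_chg_one i r k j 1 1 (by decide) (by decide)] at p1
  rw [A4_chg_two i r k j 1 (by decide)] at q1
  rw [A4_chg_three i r k j] at r1
  rw [A4_chg_zero i r k j _ _ _ (by decide)] at p2 q2 r2
  simp only [tsl, Matrix.cons_val_zero, Matrix.cons_val_one, Matrix.cons_val_two, Matrix.cons_val,
      Matrix.head_cons, Matrix.tail_cons] at p1 p2 q1 q2 r1 r2
  rw [abs_le] at p1 p2 q1 q2 r1 r2
  rw [ds_eq hh a b c b b, ds_eq hh a b c a b, ds_eq hh a b c a a, ds_eq hh _ b c b b,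
    ds_eq hh _ b c _ b, ds_eq hh (S.mv i r k a b) b c (S.mv i r k a b) (S.mv i r k a b),
    abs_le, abs_le, abs_le]
  refine ⟨⟨?_, ?_⟩, ⟨?_, ?_⟩, ?_, ?_⟩ <;>
  linarith [p1.1, p1.2, p2.1, p2.2, q1.1, q1.2, q2.1, q2.2, r1.1, r1.2, r2.1, r2.2]

theorem A4_gp_c {i : ι} {r k : ℕ} {a b c : Y} (h : GroupGe (S.H i) a b c r k) (j : ι) :
    |gp (S.H j) 1 (S.mv i r k a b) c - (gp (S.H j) 1 a c - A4_D i r k j 1)| ≤ 2 * e ∧
    |gp (S.H j) 2 (S.mv i r k a b) c - (gp (S.H j) 2 a c - A4_D i r k j 2)| ≤ 2 * e ∧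
    |gp (S.H j) 3 (S.mv i r k a b) c - (gp (S.H j) 3 a c - A4_D i r k j 3)| ≤ 2 * e := by
  have hh := S.hive j
  obtain ⟨g1, g2, g3⟩ := A4_gp_eq (S.H j) (S.mv i r k a b) c
  obtain ⟨f1, f2, f3⟩ := A4_gp_eq (S.H j) a c
  rw [g1, g2, g3, f1, f2, f3]
  have p1 := S.mv_sl i r k a b c h j 0 2 1 2 2 (by decide) (by decide) (by decide)
  have p2 := S.mv_sl i r k a b c h j 2 0 1 2 2 (by decide) (by decide) (by decide)
  have q1 := S.mv_sl i r k a b c h j 0 2 1 0 2 (by decide) (by decide) (by decide)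
  have q2 := S.mv_sl i r k a b c h j 2 0 1 0 2 (by decide) (by decide) (by decide)
  have r1 := S.mv_sl i r k a b c h j 0 2 1 0 0 (by decide) (by decide) (by decide)
  have r2 := S.mv_sl i r k a b c h j 2 0 1 0 0 (by decide) (by decide) (by decide)
  rw [A4_chg_one i r k j 2 2 (by decide) (by decide)] at p1
  rw [A4_chg_two i r k j 2 (by decide)] at q1
  rw [A4_chg_three i r k j] at r1
  rw [A4_chg_zero i r k j _ _ _ (by decide)] at p2 q2 r2
  simp only [tsl, Matrix.cons_val_zero, Matrix.cons_val_one, Matrix.cons_val_two, Matrix.cons_val,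
      Matrix.head_cons, Matrix.tail_cons] at p1 p2 q1 q2 r1 r2
  rw [abs_le] at p1 p2 q1 q2 r1 r2
  rw [ds_eq hh a c b c c, ds_eq hh a c b a c, ds_eq hh a c b a a, ds_eq hh _ c b c c,
    ds_eq hh _ c b _ c, ds_eq hh (S.mv i r k a b) c b (S.mv i r k a b) (S.mv i r k a b),
    abs_le, abs_le, abs_le]
  refine ⟨⟨?_, ?_⟩, ⟨?_, ?_⟩, ?_, ?_⟩ <;>
  linarith [p1.1, p1.2, p2.1, p2.2, q1.1, q1.2, q2.1, q2.2, r1.1, r1.2, r2.1, r2.2]

open Classical in
/-- change of the distances of the factor `j` -/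
theorem A4_D_sum (i : ι) (r k : ℕ) (j : ι) (hr : r = 1 ∨ r = 2 ∨ r = 3) :
    A4_D i r k j 1 + A4_D i r k j 2 + A4_D i r k j 3 = if j = i then (k : ℝ) else 0 := by
  unfold A4_D
  by_cases hj : j = i
  · rcases hr with hr | hr | hr <;> subst hr <;> simp [hj]
  · simp [hj]

theorem A4_r {P : Type*} {H : P → P → P → P → ℝ} {a b c : P} {r : ℕ}
    {k : ℝ} (h : GroupGe H a b c r k) : r = 1 ∨ r = 2 ∨ r = 3 := by
  rcases h with h | h | h
  · exact Or.inl h.1
  · exact Or.inr (Or.inl h.1)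
  · exact Or.inr (Or.inr h.1)

open Classical in
theorem A4_dst {i : ι} {r k : ℕ} {a b c : Y} (h : GroupGe (S.H i) a b c r k) (j : ι) :
    |dst (S.H j) (S.mv i r k a b) b - (dst (S.H j) a b - if j = i then (k : ℝ) else 0)| ≤ 6 * e ∧
    |dst (S.H j) (S.mv i r k a b) c - (dst (S.H j) a c - if j = i then (k : ℝ) else 0)| ≤
      6 * e := by
  have hh := S.hive j
  obtain ⟨b1, b2, b3⟩ := A4_gp_b h j
  obtain ⟨c1, c2, c3⟩ := A4_gp_c h j
  have hs := A4_D_sum i r k j (A4_r h)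
  rw [abs_le] at b1 b2 b3 c1 c2 c3
  rw [← hs, dst_eq_gp hh, dst_eq_gp hh a b, dst_eq_gp hh _ c, dst_eq_gp hh a c, abs_le, abs_le]
  refine ⟨⟨?_, ?_⟩, ?_, ?_⟩ <;>
  linarith [b1.1, b1.2, b2.1, b2.2, b3.1, b3.2, c1.1, c1.2, c2.1, c2.2, c3.1, c3.2]

theorem A4_cs {i : ι} {r k : ℕ} {a b c : Y} (h : GroupGe (S.H i) a b c r k) (j : ι) :
    |cs (S.H j) (S.mv i r k a b) b c - cs (S.H j) a b c| ≤ 30 * e := by
  have hh := S.hive j
  have q1 := S.mv_sl i r k a b c h j 0 1 2 0 1 (by decide) (by decide) (by decide)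
  have q2 := S.mv_sl i r k a b c h j 0 1 2 0 2 (by decide) (by decide) (by decide)
  have p1 := S.mv_sl i r k a b c h j 0 1 2 1 1 (by decide) (by decide) (by decide)
  have p2 := S.mv_sl i r k a b c h j 0 1 2 1 2 (by decide) (by decide) (by decide)
  have r1 := S.mv_sl i r k a b c h j 0 1 2 2 1 (by decide) (by decide) (by decide)
  have r2 := S.mv_sl i r k a b c h j 0 1 2 2 2 (by decide) (by decide) (by decide)
  rw [A4_chg_two i r k j _ (by decide)] at q1 q2
  rw [A4_chg_one i r k j _ _ (by decide) (by decide)] at p1 p2 r1 r2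
  simp only [tsl, Matrix.cons_val_zero, Matrix.cons_val_one, Matrix.cons_val_two, Matrix.cons_val,
      Matrix.head_cons, Matrix.tail_cons] at p1 p2 q1 q2 r1 r2
  rw [abs_le] at p1 p2 q1 q2 r1 r2
  have o1 : |om (S.H j) (S.mv i r k a b) (S.mv i r k a b) b c - om (S.H j) a a b c| ≤ 2 * e := by
    rw [← om_eq hh, ← om_eq hh, abs_le]
    constructor <;> linarith [q1.1, q1.2, q2.1, q2.2]
  have o2 : |om (S.H j) b (S.mv i r k a b) b c - om (S.H j) b a b c| ≤ 2 * e := by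
    rw [← om_eq hh, ← om_eq hh, abs_le]
    constructor <;> linarith [p1.1, p1.2, p2.1, p2.2]
  have o3 : |om (S.H j) c (S.mv i r k a b) b c - om (S.H j) c a b c| ≤ 2 * e := by
    rw [← om_eq hh, ← om_eq hh, abs_le]
    constructor <;> linarith [r1.1, r1.2, r2.1, r2.2]
  unfold cs
  refine (A4_Fc_lip _ _ _ _ _ _).trans ?_
  linarith

theorem A4_sum_le (x y z : ι → ℝ) (A : ℝ) (hA : A ≤ 100 * e) (he : 0 ≤ e)
    (h : ∀ j, x j ≤ y j - z j + A) :
    ∑ j, x j ≤ ∑ j, y j - ∑ j, z j + EE ι e := by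
  have h1 : ∑ j, x j ≤ ∑ j, (y j - z j + A) := Finset.sum_le_sum fun j _ => h j
  rw [Finset.sum_add_distrib, Finset.sum_sub_distrib, Finset.sum_const, Finset.card_univ,
    nsmul_eq_mul] at h1
  have h2 : (Fintype.card ι : ℝ) * A ≤ (Fintype.card ι : ℝ) * (100 * e) :=
    mul_le_mul_of_nonneg_left hA (Nat.cast_nonneg _)
  unfold EE
  nlinarith

theorem A4_e (S : ASpace Γ Y ι e) : 0 ≤ e := zero_le_one.trans S.one_le

variable (S)

/-- all quantities of a triple after a move of the first vertex -/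
theorem mv_all (i : ι) (r k : ℕ) (a b c : Y) (h : GroupGe (S.H i) a b c r k) :
    dT S.H (S.mv i r k a b) b ≤ dT S.H a b - k + EE ι e ∧
    pT S.H (S.mv i r k a b, b, c) ≤ pT S.H (a, b, c) - 2 * k + EE ι e ∧
    cT S.H (S.mv i r k a b, b, c) ≤ cT S.H (a, b, c) + EE ι e ∧
    ∀ (j : ι) (q : ℕ), q ∈ ({1, 2, 3} : Finset ℕ) →
      gp (S.H j) q (S.mv i r k a b) b ≤ gp (S.H j) q a b + 2 * e ∧
      gp (S.H j) q (S.mv i r k a b) c ≤ gp (S.H j) q a c + 2 * e := by
  classical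
  have he := A4_e S
  have hk : ∑ j : ι, (if j = i then (k : ℝ) else 0) = k := by
    rw [Finset.sum_ite_eq' Finset.univ i fun _ => (k : ℝ)]
    simp
  refine ⟨?_, ?_, ?_, ?_⟩
  · have h1 := A4_sum_le (e := e) (fun j => dst (S.H j) (S.mv i r k a b) b)
      (fun j => dst (S.H j) a b) (fun j => if j = i then (k : ℝ) else 0) (6 * e) (by linarith) he
      (fun j => by linarith [(abs_le.1 (A4_dst h j).1).2])
    rw [hk] at h1
    exact h1
  · have h1 := A4_sum_le (e := e) (fun j => pm (S.H j) (S.mv i r k a b) b c)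
      (fun j => pm (S.H j) a b c) (fun j => 2 * if j = i then (k : ℝ) else 0) (12 * e)
      (by linarith) he
      (fun j => by
        have h1 := (abs_le.1 (A4_dst h j).1).2
        have h2 := (abs_le.1 (A4_dst h j).2).2
        unfold pm
        rw [dst_comm (S.hive j) (S.mv i r k a b) c, dst_comm (S.hive j) a c]
        linarith)
    rw [← Finset.mul_sum, hk] at h1
    exact h1
  · have h1 := A4_sum_le (e := e) (fun j => cs (S.H j) (S.mv i r k a b) b c)
      (fun j => cs (S.H j) a b c) (fun _ => 0) (30 * e)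
      (by linarith) he
      (fun j => by linarith [(abs_le.1 (A4_cs h j)).2])
    rw [Finset.sum_const_zero, sub_zero] at h1
    exact h1
  · intro j q hq
    obtain ⟨b1, b2, b3⟩ := A4_gp_b h j
    obtain ⟨c1, c2, c3⟩ := A4_gp_c h j
    rw [abs_le] at b1 b2 b3 c1 c2 c3
    have d1 := A4_D_nonneg i r k j 1
    have d2 := A4_D_nonneg i r k j 2
    have d3 := A4_D_nonneg i r k j 3
    rw [Finset.mem_insert, Finset.mem_insert, Finset.mem_singleton] at hq
    rcases hq with hq | hq | hq <;> subst hq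
    · exact ⟨by linarith [b1.2], by linarith [c1.2]⟩
    · exact ⟨by linarith [b2.2], by linarith [c2.2]⟩
    · exact ⟨by linarith [b3.2], by linarith [c3.2]⟩

/-- the gap of the moved group -/
theorem mv_gap (i : ι) (r k : ℕ) (a b c : Y) (h : GroupGe (S.H i) a b c r k) :
    gp (S.H i) r (S.mv i r k a b) b ≤ gp (S.H i) r a b - k + 2 * e ∧
    gp (S.H i) r (S.mv i r k a b) c ≤ gp (S.H i) r a c - k + 2 * e := by
  obtain ⟨b1, b2, b3⟩ := A4_gp_b h i
  obtain ⟨c1, c2, c3⟩ := A4_gp_c h i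
  rw [abs_le] at b1 b2 b3 c1 c2 c3
  rcases A4_r h with hr | hr | hr <;> subst hr
  · have hD : A4_D i 1 k i 1 = k := by simp [A4_D]
    rw [hD] at b1 c1
    exact ⟨by linarith [b1.2], by linarith [c1.2]⟩
  · have hD : A4_D i 2 k i 2 = k := by simp [A4_D]
    rw [hD] at b2 c2
    exact ⟨by linarith [b2.2], by linarith [c2.2]⟩
  · have hD : A4_D i 3 k i 3 = k := by simp [A4_D]
    rw [hD] at b3 c3
    exact ⟨by linarith [b3.2], by linarith [c3.2]⟩

theorem A4_inv_ds (i : ι) (g : Γ) (a b s t : Y) :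
    ds (S.H i) (g • a) (g • b) (g • s) (g • t) = ds (S.H i) a b s t := by
  rw [ds_eq (S.hive i) _ _ (g • a), ds_eq (S.hive i) a b a, S.inv, S.inv]

theorem inv_dst (i : ι) (g : Γ) (a b : Y) :
    dst (S.H i) (g • a) (g • b) = dst (S.H i) a b := by
  rw [dst_eq (S.hive i), dst_eq (S.hive i) a b, A4_inv_ds, A4_inv_ds, A4_inv_ds]

theorem inv_tsl (i : ι) (g : Γ) (a b c : Y) (k : Fin 3 × Fin 3 × Fin 3 × Fin 3 × Fin 3) :
    tsl (S.H i) ![g • a, g • b, g • c] k = tsl (S.H i) ![a, b, c] k := by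
  have e : ∀ j : Fin 3, (![g • a, g • b, g • c] : Fin 3 → Y) j = g • (![a, b, c] : Fin 3 → Y) j := by
    intro j
    fin_cases j <;> rfl
  unfold tsl
  rw [e, e, e, e, e]
  exact S.inv i g _ _ _ _ _

theorem inv_gp (i : ι) (r : ℕ) (g : Γ) (a b : Y) :
    gp (S.H i) r (g • a) (g • b) = gp (S.H i) r a b := by
  unfold gp
  rw [A4_inv_ds, A4_inv_ds, A4_inv_ds]

theorem inv_gm (i : ι) (g : Γ) (a b c : Y) :
    gm1 (S.H i) (g • a) (g • b) (g • c) = gm1 (S.H i) a b c ∧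
    gm2 (S.H i) (g • a) (g • b) (g • c) = gm2 (S.H i) a b c ∧
    gm3 (S.H i) (g • a) (g • b) (g • c) = gm3 (S.H i) a b c := by
  refine ⟨?_, ?_, ?_⟩
  · unfold gm1
    rw [S.inv, S.inv, S.inv]
  · unfold gm2
    rw [S.inv, S.inv]
  · unfold gm3
    rw [S.inv]

theorem A4_inv_om (i : ι) (g : Γ) (u a b c : Y) :
    om (S.H i) (g • u) (g • a) (g • b) (g • c) = om (S.H i) u a b c := by
  rw [← om_eq (S.hive i), ← om_eq (S.hive i), S.inv, S.inv]

theorem inv_pT (g : Γ) (a b c : Y) : pT S.H (g • a, g • b, g • c) = pT S.H (a, b, c) := by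
  unfold pT pm
  refine Finset.sum_congr rfl fun j _ => ?_
  rw [inv_dst, inv_dst, inv_dst]

theorem inv_cT (g : Γ) (a b c : Y) : cT S.H (g • a, g • b, g • c) = cT S.H (a, b, c) := by
  unfold cT cs
  refine Finset.sum_congr rfl fun j _ => ?_
  rw [A4_inv_om, A4_inv_om, A4_inv_om]

end Space

end RDA
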