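import Pool.Agent.Lib.MP_fee02f_an.R2
import Pool.Agent.Lib.MP_fee02f_an.R6
import Pool.Agent.Lib.MP_fee02f_an.K0a
import Pool.Agent.Lib.MP_fee02f_an.AR.A4

/-!
A5: sums over the factors and the trivial bound (MP_fee02f_an, additive errors).
-/

open scoped ENNReal
open RapidDecay

namespace RDA

section Space
variable {Γ Y ι : Type*} [Group Γ] [MulAction Γ Y] [Fintype ι] {e : ℝ} (S : ASpace Γ Y ι e)

theorem EE_nonneg (S : ASpace Γ Y ι e) : 0 ≤ EE ι e := by
  have h := S.one_le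
  unfold EE
  have h1 : (0 : ℝ) ≤ Fintype.card ι := Nat.cast_nonneg _
  have h2 : (0 : ℝ) ≤ e := by linarith
  positivity

theorem err_le_EE (S : ASpace Γ Y ι e) : 100 * e ≤ EE ι e := by
  have h := S.one_le
  unfold EE
  have h1 : (0 : ℝ) ≤ Fintype.card ι := Nat.cast_nonneg _
  nlinarith

/-- sums of at most `card ι` small errors are absorbed -/
theorem A5_card_le (S : ASpace Γ Y ι e) (c : ℝ) (hc : c ≤ 100) :
    Fintype.card ι * (c * e) ≤ EE ι e := by
  have h := S.one_le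
  unfold EE
  have h1 : (0 : ℝ) ≤ Fintype.card ι := Nat.cast_nonneg _
  have h2 : c * e ≤ 100 * e := by nlinarith
  nlinarith

/-- comparing two sums over the factors, with an error `c * e` in each factor -/
theorem A5_sum_le (S : ASpace Γ Y ι e) (c : ℝ) (hc : c ≤ 100) (f g : ι → ℝ)
    (h : ∀ i, f i ≤ g i + c * e) : ∑ i, f i ≤ ∑ i, g i + EE ι e := by
  have h1 : ∑ i, f i ≤ ∑ i, (g i + c * e) := Finset.sum_le_sum (fun i _ => h i)
  rw [Finset.sum_add_distrib, Finset.sum_const, nsmul_eq_mul, Finset.card_univ] at h1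
  linarith [A5_card_le S c hc]

theorem dT_self (x : Y) : dT S.H x x = 0 := by
  unfold dT
  exact Finset.sum_eq_zero (fun i _ => dst_self (S.H i) x)

theorem dT_comm (x y : Y) : dT S.H y x = dT S.H x y :=
  Finset.sum_congr rfl (fun i _ => dst_comm (S.hive i) x y)

theorem dT_smul (g : Γ) (x y : Y) : dT S.H (g • x) (g • y) = dT S.H x y :=
  Finset.sum_congr rfl (fun i _ => inv_dst S i g x y)

theorem dT_ge (x y : Y) : -EE ι e ≤ dT S.H x y := by
  have h := A5_sum_le S 3 (by norm_num) (fun _ => (0 : ℝ)) (fun i => dst (S.H i) x y)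
    (fun i => by linarith [dst_ge (S.hive i) x y])
  rw [Finset.sum_const_zero] at h
  unfold dT
  linarith

theorem dT_triangle (x y z : Y) : dT S.H x z ≤ dT S.H x y + dT S.H y z + EE ι e := by
  have h := A5_sum_le S 6 (by norm_num) (fun i => dst (S.H i) x z)
    (fun i => dst (S.H i) x y + dst (S.H i) y z)
    (fun i => by linarith [dst_triangle (S.hive i) x y z])
  rw [Finset.sum_add_distrib] at h
  exact h

theorem dst_le_dT (i : ι) (x y : Y) : dst (S.H i) x y ≤ dT S.H x y + EE ι e := by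
  classical
  have h := A5_sum_le S 3 (by norm_num) (fun j => if j = i then dst (S.H i) x y else 0)
    (fun j => dst (S.H j) x y)
    (fun j => by
      have h1 := S.one_le
      by_cases hj : j = i
      · subst hj
        rw [if_pos rfl]
        linarith
      · rw [if_neg hj]
        linarith [dst_ge (S.hive j) x y])
  rw [Finset.sum_ite_eq' Finset.univ i, if_pos (Finset.mem_univ i)] at h
  exact h

theorem pT_eq (x y z : Y) : pT S.H (x, y, z) = dT S.H x y + dT S.H y z + dT S.H z x := by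
  unfold pT dT pm
  rw [Finset.sum_add_distrib, Finset.sum_add_distrib]

theorem cT_nonneg (t : Y × Y × Y) : 0 ≤ cT S.H t :=
  Finset.sum_nonneg (fun _ _ => cs_nonneg _ _ _ _)

theorem cT_le_pT (t : Y × Y × Y) : cT S.H t ≤ pT S.H t + EE ι e :=
  A5_sum_le S 18 (by norm_num) (fun i => cs (S.H i) t.1 t.2.1 t.2.2)
    (fun i => pm (S.H i) t.1 t.2.1 t.2.2) (fun i => by
      have h1 := pm_eq (S.hive i) t.1 t.2.1 t.2.2
      have h2 := ar_ge (S.hive i) t.1 t.2.1 t.2.2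
      linarith)

theorem invT_TP (m : ℝ) : InvT Γ (TPa S.H m) := by
  intro g x y z
  show pT S.H (g • x, g • y, g • z) ≤ m ↔ pT S.H (x, y, z) ≤ m
  rw [inv_pT]

theorem invT_TS (s m : ℝ) : InvT Γ (TSa S.H s m) := by
  intro g x y z
  show (cT S.H (g • x, g • y, g • z) ≤ s ∧ pT S.H (g • x, g • y, g • z) ≤ m) ↔
    (cT S.H (x, y, z) ≤ s ∧ pT S.H (x, y, z) ≤ m)
  rw [inv_pT, inv_cT]

theorem TP_trivial (b : ℕ) (hb : ∀ y : Y, Finite (MulAction.stabilizer Γ y) ∧
      Nat.card (MulAction.stabilizer Γ y) ≤ b) :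
    ∃ C : ℝ, 0 ≤ C ∧ ∀ w : Y → ℝ≥0∞, IsWt Γ w → ∀ m : ℝ, 0 ≤ m →
      Bd Γ w (TPa S.H m) (ENNReal.ofReal (Real.exp (C * (m + 1)))) := by
  obtain ⟨C₀, hC₀⟩ := S.growth
  have hE := EE_nonneg S
  set L : ℝ := Real.log ((C₀ : ℝ) + 1) with hL
  have hL0 : 0 ≤ L := Real.log_nonneg (by
    have : (0 : ℝ) ≤ C₀ := Nat.cast_nonneg _
    linarith)
  refine ⟨(2 * EE ι e + 2) * L + b, by positivity, ?_⟩
  intro w hw m hm
  set M : ℕ := ⌈m + 2 * EE ι e⌉₊ with hM
  have hmM : m + 2 * EE ι e ≤ M := Nat.le_ceil _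
  have hMm : (M : ℝ) < m + 2 * EE ι e + 1 := Nat.ceil_lt_add_one (by linarith)
  have hsub : ∀ x z, {y | (x, y, z) ∈ TPa S.H m} ⊆ {y | dT S.H x y ≤ M} := by
    intro x z y hy
    have h1 : pT S.H (x, y, z) ≤ m := hy
    rw [pT_eq] at h1
    have h2 := dT_ge S y z
    have h3 := dT_ge S z x
    have h4 : dT S.H x y ≤ M := by linarith
    exact h4
  have h := Bd.trivial hw b hb (invT_TP S m) (C₀ ^ (M + 1)) (fun x z =>
    ⟨(hC₀ x M).1.subset (hsub x z), (Set.ncard_le_ncard (hsub x z) (hC₀ x M).1).trans (hC₀ x M).2⟩)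
  refine Bd.mono h (fun t ht => ht) ?_
  rw [← ENNReal.ofReal_natCast]
  apply ENNReal.ofReal_le_ofReal
  push_cast
  have h1 : (C₀ : ℝ) ^ (M + 1) ≤ Real.exp ((2 * EE ι e + 2) * L * (m + 1)) := by
    have h2 : (C₀ : ℝ) ^ (M + 1) ≤ ((C₀ : ℝ) + 1) ^ (M + 1) :=
      pow_le_pow_left₀ (Nat.cast_nonneg _) (by linarith) _
    have h3 : ((C₀ : ℝ) + 1) ^ (M + 1) = Real.exp (((M + 1 : ℕ) : ℝ) * L) := by
      rw [Real.exp_nat_mul, hL, Real.exp_log (by positivity)]
    rw [h3] at h2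
    refine h2.trans ?_
    rw [Real.exp_le_exp]
    push_cast
    have h4 : (M : ℝ) + 1 ≤ (2 * EE ι e + 2) * (m + 1) := by nlinarith
    calc ((M : ℝ) + 1) * L ≤ (2 * EE ι e + 2) * (m + 1) * L :=
          mul_le_mul_of_nonneg_right h4 hL0
      _ = (2 * EE ι e + 2) * L * (m + 1) := by ring
  have h2 : (b : ℝ) ≤ Real.exp (b * (m + 1)) := by
    have h3 : (b : ℝ) ≤ Real.exp b := by
      have := Real.add_one_le_exp (b : ℝ)
      linarith
    refine h3.trans ?_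
    rw [Real.exp_le_exp]
    have : (0 : ℝ) ≤ b := Nat.cast_nonneg _
    nlinarith
  have h3 : Real.exp (((2 * EE ι e + 2) * L + b) * (m + 1)) =
      Real.exp ((2 * EE ι e + 2) * L * (m + 1)) * Real.exp (b * (m + 1)) := by
    rw [← Real.exp_add]
    congr 1
    ring
  rw [h3]
  exact mul_le_mul h1 h2 (Nat.cast_nonneg _) (Real.exp_pos _).le

theorem exists_near : ∃ K : ℕ, 1 ≤ K ∧ ∀ y : Y, {x | dT S.H x y ≤ e}.Finite ∧
    {x | dT S.H x y ≤ e}.ncard ≤ K := by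
  obtain ⟨C₀, hC₀⟩ := S.growth
  refine ⟨C₀ ^ (⌈e⌉₊ + 1) + 1, Nat.le_add_left 1 _, fun y => ?_⟩
  have hsub : {x | dT S.H x y ≤ e} ⊆ {x | dT S.H y x ≤ (⌈e⌉₊ : ℕ)} := by
    intro x hx
    have h1 : dT S.H x y ≤ e := hx
    rw [← dT_comm S x y] at h1
    exact h1.trans (Nat.le_ceil e)
  exact ⟨(hC₀ y _).1.subset hsub,
    ((Set.ncard_le_ncard hsub (hC₀ y _).1).trans (hC₀ y _).2).trans (Nat.le_succ _)⟩

end Space

end RDA
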