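import Pool.Agent.Lib.MP_fee02f_an.K0c
import Pool.Agent.Lib.MP_fee02f_an.AR.A3
import Pool.Agent.Lib.MP_fee02f_an.AR.A4
import Pool.Agent.Lib.MP_fee02f_an.AR.A5

/-!
A6: one group of one factor is long (MP_fee02f_an, additive errors).
-/

open scoped ENNReal
open RapidDecay

namespace RDA

section Space
variable {Γ Y ι : Type*} [Group Γ] [MulAction Γ Y] [Fintype ι] {e : ℝ} (S : ASpace Γ Y ι e)
variable {w : Y → ℝ≥0∞}

/-- first vertex -/
theorem move_long (hw : IsWt Γ w) (K : ℕ) (hK : ∀ y : Y, {x | dT S.H x y ≤ e}.Finite ∧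
      {x | dT S.H x y ≤ e}.ncard ≤ K) {T T' : Set (Y × Y × Y)}
    (hT : InvT Γ T) (hT' : InvT Γ T') (i : ι) (r k : ℕ)
    (h : ∀ x y z, (x, y, z) ∈ T → GroupGe (S.H i) x y z r k ∧
      ∀ x' : Y, pT S.H (x', y, z) ≤ pT S.H (x, y, z) - 2 * k + EE ι e →
        cT S.H (x', y, z) ≤ cT S.H (x, y, z) + EE ι e → (x', y, z) ∈ T')
    {C : ℝ≥0∞} (hB : Bd Γ w T' C) : Bd Γ w T ((K : ℝ≥0∞) * C) := by
  refine Bd_moveN hw hT hT' (S.mv i r k) (S.mv i r k) (S.mv_smul i r k) (S.mv_smul i r k)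
    (fun x y => dT S.H x y ≤ e) ?_ K hK ?_ hB
  · intro g x y
    rw [dT_smul]
  · intro x y z hxyz
    obtain ⟨hG, hmem⟩ := h x y z hxyz
    obtain ⟨-, hp, hc, -⟩ := mv_all S i r k x y z hG
    exact ⟨S.mv_near i r k x y z hG, hmem _ hp hc⟩

theorem A6_pT_rot (x y z : Y) : pT S.H (y, z, x) = pT S.H (x, y, z) := by
  unfold pT
  exact Finset.sum_congr rfl fun i _ => pm_rot (S.H i) x y z

theorem A6_cT_rot (x y z : Y) : cT S.H (y, z, x) = cT S.H (x, y, z) := by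
  unfold cT
  exact Finset.sum_congr rfl fun i _ => cs_rot (S.H i) x y z

theorem A6_first (hw : IsWt Γ w) (K : ℕ) (hK : ∀ y : Y, {x | dT S.H x y ≤ e}.Finite ∧
      {x | dT S.H x y ≤ e}.ncard ≤ K) {T T' : Set (Y × Y × Y)}
    (hT : InvT Γ T) (hT' : InvT Γ T') (i : ι) (r k : ℕ)
    (hmem : ∀ t ∈ T, ∀ t', pT S.H t' ≤ pT S.H t - 2 * k + EE ι e →
      cT S.H t' ≤ cT S.H t + EE ι e → t' ∈ T')
    (h : ∀ t ∈ T, GroupGe (S.H i) t.1 t.2.1 t.2.2 r k)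
    {C : ℝ≥0∞} (hB : Bd Γ w T' C) : Bd Γ w T ((K : ℝ≥0∞) * C) := by
  refine move_long S hw K hK hT hT' i r k ?_ hB
  intro x y z hxyz
  exact ⟨h _ hxyz, fun x' hp hc => hmem _ hxyz _ hp hc⟩

/-- a long group at any of the three vertices -/
theorem A6_any (hw : IsWt Γ w) (K : ℕ) (hK : ∀ y : Y, {x | dT S.H x y ≤ e}.Finite ∧
      {x | dT S.H x y ≤ e}.ncard ≤ K) {T T' : Set (Y × Y × Y)}
    (hT : InvT Γ T) (hT' : InvT Γ T') (i : ι) (r k : ℕ)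
    (hmem : ∀ t ∈ T, ∀ t', pT S.H t' ≤ pT S.H t - 2 * k + EE ι e →
      cT S.H t' ≤ cT S.H t + EE ι e → t' ∈ T')
    (h : (∀ t ∈ T, GroupGe (S.H i) t.1 t.2.1 t.2.2 r k) ∨
      (∀ t ∈ T, GroupGe (S.H i) t.2.1 t.2.2 t.1 r k) ∨
      (∀ t ∈ T, GroupGe (S.H i) t.2.2 t.1 t.2.1 r k))
    {C : ℝ≥0∞} (hB : Bd Γ w T' C) : Bd Γ w T ((K : ℝ≥0∞) * C) := by
  rcases h with h | h | h
  · exact A6_first S hw K hK hT hT' i r k hmem h hB
  · -- the triples `(y, z, x)`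
    set T2 : Set (Y × Y × Y) := {t | (t.2.2, t.1, t.2.1) ∈ T} with hT2
    have hI2 : InvT Γ T2 := by
      intro g a b c
      exact hT g c a b
    have hB2 : Bd Γ w T2 ((K : ℝ≥0∞) * C) := by
      refine A6_first S hw K hK hI2 hT' i r k ?_ ?_ hB
      · rintro ⟨a, b, c⟩ ht t' hp hc
        refine hmem _ ht t' ?_ ?_
        · change pT S.H t' ≤ pT S.H (c, a, b) - 2 * k + EE ι e
          rw [← A6_pT_rot S c a b]
          exact hp
        · change cT S.H t' ≤ cT S.H (c, a, b) + EE ι e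
          rw [← A6_cT_rot S c a b]
          exact hc
      · rintro ⟨a, b, c⟩ ht
        exact h _ ht
    exact Bd.rot hw hI2 hB2
  · set T2 : Set (Y × Y × Y) := {t | (t.2.1, t.2.2, t.1) ∈ T} with hT2
    have hI2 : InvT Γ T2 := by
      intro g a b c
      exact hT g b c a
    have hB2 : Bd Γ w T2 ((K : ℝ≥0∞) * C) := by
      refine A6_first S hw K hK hI2 hT' i r k ?_ ?_ hB
      · rintro ⟨a, b, c⟩ ht t' hp hc
        refine hmem _ ht t' ?_ ?_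
        · change pT S.H t' ≤ pT S.H (b, c, a) - 2 * k + EE ι e
          rw [A6_pT_rot S a b c]
          exact hp
        · change cT S.H t' ≤ cT S.H (b, c, a) + EE ι e
          rw [A6_cT_rot S a b c]
          exact hc
      · rintro ⟨a, b, c⟩ ht
        exact h _ ht
    have hI3 : InvT Γ {t : Y × Y × Y | (t.2.1, t.2.2, t.1) ∈ T2} := by
      intro g a b c
      exact hT g c a b
    exact Bd.rot hw hI3 (Bd.rot hw hI2 hB2)

/-- triples with a long group, at one of the vertices -/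
theorem case_move (hw : IsWt Γ w) (K : ℕ) (hK : ∀ y : Y, {x | dT S.H x y ≤ e}.Finite ∧
      {x | dT S.H x y ≤ e}.ncard ≤ K) {T : Set (Y × Y × Y)}
    (hT : InvT Γ T) (s m : ℝ) (hm : T ⊆ TSa S.H s m) (i : ι) (r ε : ℕ)
    (h : (∀ t ∈ T, GroupGe (S.H i) t.1 t.2.1 t.2.2 r ε) ∨
      (∀ t ∈ T, GroupGe (S.H i) t.2.1 t.2.2 t.1 r ε) ∨
      (∀ t ∈ T, GroupGe (S.H i) t.2.2 t.1 t.2.1 r ε))
    {C : ℝ≥0∞} (hB : Bd Γ w (TSa S.H (s + EE ι e) (m - 2 * ε + EE ι e)) C) :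
    Bd Γ w T ((K : ℝ≥0∞) * C) := by
  refine A6_any S hw K hK hT (invT_TS S _ _) i r ε ?_ h hB
  intro t ht t' hp hc
  have h1 : cT S.H t ≤ s ∧ pT S.H t ≤ m := hm ht
  change cT S.H t' ≤ s + EE ι e ∧ pT S.H t' ≤ m - 2 * ε + EE ι e
  constructor
  · linarith [h1.1]
  · linarith [h1.2]

end Space

end RDA
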