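import Pool.Agent.Lib.MP_fee02f_an.AR.A6

/-!
A7: reduction of arms (MP_fee02f_an, additive errors).
-/

open scoped ENNReal
open RapidDecay

namespace RDA

section Space
variable {Γ Y ι : Type*} [Group Γ] [MulAction Γ Y] [Fintype ι] {e : ℝ} (S : ASpace Γ Y ι e)
variable {w : Y → ℝ≥0∞}

/-- the triple rotated so that the vertex `v` comes first -/
def A7_v {Y : Type*} (v : Fin 3) (t : Y × Y × Y) : Y × Y × Y :=
  if v = 0 then t else if v = 1 then (t.2.1, t.2.2, t.1) else (t.2.2, t.1, t.2.1)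

/-- triples with a long group -/
def A7_T (S : ASpace Γ Y ι e) (s M : ℝ) (ε : ℕ) : Option (ι × Fin 3 × Fin 3) → Set (Y × Y × Y)
  | none => TSa S.H s M
  | some (i, v, q) => {t | t ∈ TSa S.H s (M + 2 * ε) ∧
      GroupGe (S.H i) (A7_v v t).1 (A7_v v t).2.1 (A7_v v t).2.2 (q.val + 1) ε}

theorem A7_mem_some (s M : ℝ) (ε : ℕ) (i : ι) (v q : Fin 3) (t : Y × Y × Y) :
    t ∈ A7_T S s M ε (some (i, v, q)) ↔ (t ∈ TSa S.H s (M + 2 * ε) ∧
      GroupGe (S.H i) (A7_v v t).1 (A7_v v t).2.1 (A7_v v t).2.2 (q.val + 1) ε) := Iff.rfl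

theorem A7_v0 (t : Y × Y × Y) : A7_v 0 t = t := if_pos rfl

theorem A7_v1 (t : Y × Y × Y) : A7_v 1 t = (t.2.1, t.2.2, t.1) := by
  unfold A7_v
  rw [if_neg (by decide), if_pos rfl]

theorem A7_v2 (t : Y × Y × Y) : A7_v 2 t = (t.2.2, t.1, t.2.1) := by
  unfold A7_v
  rw [if_neg (by decide), if_neg (by decide)]

theorem A7_inv_group (g : Γ) (i : ι) (a b c : Y) (r : ℕ) (k : ℝ) :
    GroupGe (S.H i) (g • a) (g • b) (g • c) r k ↔ GroupGe (S.H i) a b c r k := by
  obtain ⟨h1, h2, h3⟩ := inv_gm S i g a b c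
  unfold GroupGe
  rw [h1, h2, h3]

theorem A7_inv_v (g : Γ) (v : Fin 3) (x y z : Y) :
    A7_v v (g • x, g • y, g • z) =
      (g • (A7_v v (x, y, z)).1, g • (A7_v v (x, y, z)).2.1, g • (A7_v v (x, y, z)).2.2) := by
  unfold A7_v
  split_ifs <;> rfl

theorem A7_invT (s M : ℝ) (ε : ℕ) (o : Option (ι × Fin 3 × Fin 3)) :
    InvT Γ (A7_T S s M ε o) := by
  rcases o with _ | ⟨i, v, q⟩
  · exact invT_TS S s M
  · intro g x y z
    rw [A7_mem_some, A7_mem_some, invT_TS S s (M + 2 * ε) g x y z, A7_inv_v]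
    rw [A7_inv_group S g i]

theorem A7_big {P : Type*} (H : P → P → P → P → ℝ) (a b c : P) (k : ℝ)
    (h : 9 * k < ar H a b c) :
    (∃ q : Fin 3, GroupGe H a b c (q.val + 1) k) ∨ (∃ q : Fin 3, GroupGe H b c a (q.val + 1) k) ∨
      (∃ q : Fin 3, GroupGe H c a b (q.val + 1) k) := by
  by_contra hcon
  push Not at hcon
  obtain ⟨h1, h2, h3⟩ := hcon
  have key : ∀ a b c : P, (∀ q : Fin 3, ¬ GroupGe H a b c (q.val + 1) k) →
      gm1 H a b c < k ∧ gm2 H a b c < k ∧ gm3 H a b c < k := by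
    intro a b c h
    refine ⟨?_, ?_, ?_⟩
    · by_contra hc
      rw [not_lt] at hc
      exact h 0 (Or.inl ⟨rfl, hc⟩)
    · by_contra hc
      rw [not_lt] at hc
      exact h 1 (Or.inr (Or.inl ⟨rfl, hc⟩))
    · by_contra hc
      rw [not_lt] at hc
      exact h 2 (Or.inr (Or.inr ⟨rfl, hc⟩))
  obtain ⟨a1, a2, a3⟩ := key a b c h1
  obtain ⟨b1, b2, b3⟩ := key b c a h2
  obtain ⟨c1, c2, c3⟩ := key c a b h3
  unfold ar at h
  linarith

theorem A7_pT (t : Y × Y × Y) :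
    pT S.H t = cT S.H t + 2 * ∑ i, ar (S.H i) t.1 t.2.1 t.2.2 := by
  unfold pT cT
  rw [Finset.mul_sum, ← Finset.sum_add_distrib]
  exact Finset.sum_congr rfl fun i _ => pm_eq (S.hive i) t.1 t.2.1 t.2.2

theorem TS_arms (hw : IsWt Γ w) (K : ℕ) (hK1 : 1 ≤ K) (hK : ∀ y : Y,
      {x | dT S.H x y ≤ e}.Finite ∧ {x | dT S.H x y ≤ e}.ncard ≤ K)
    (s M : ℝ) (ε : ℕ) (hM : s + 18 * Fintype.card ι * ε ≤ M)
    {C : ℝ≥0∞} (hB : Bd Γ w (TSa S.H (s + EE ι e) (M + EE ι e)) C) :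
    Bd Γ w (TSa S.H s (M + 2 * ε)) ((9 * Fintype.card ι + 1 : ℕ) * (K * C)) := by
  classical
  have hE := EE_nonneg S
  have hcov : ∀ t ∈ TSa S.H s (M + 2 * ε),
      ∃ j ∈ (Finset.univ : Finset (Option (ι × Fin 3 × Fin 3))), t ∈ A7_T S s M ε j := by
    intro t ht
    by_cases hp : pT S.H t ≤ M
    · exact ⟨none, Finset.mem_univ _, ht.1, hp⟩
    · rw [not_le] at hp
      have h1 : cT S.H t ≤ s := ht.1
      have h2 := A7_pT S t
      have h3 : ∃ i, 9 * (ε : ℝ) < ar (S.H i) t.1 t.2.1 t.2.2 := by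
        by_contra hcon
        push Not at hcon
        have h4 : ∑ i, ar (S.H i) t.1 t.2.1 t.2.2 ≤
            ∑ _i : ι, 9 * (ε : ℝ) := Finset.sum_le_sum fun i _ => hcon i
        rw [Finset.sum_const, Finset.card_univ, nsmul_eq_mul] at h4
        nlinarith
      obtain ⟨i, hi⟩ := h3
      rcases A7_big (S.H i) _ _ _ _ hi with ⟨q, hq⟩ | ⟨q, hq⟩ | ⟨q, hq⟩
      · refine ⟨some (i, 0, q), Finset.mem_univ _, ?_⟩
        rw [A7_mem_some, A7_v0]
        exact ⟨ht, hq⟩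
      · refine ⟨some (i, 1, q), Finset.mem_univ _, ?_⟩
        rw [A7_mem_some, A7_v1]
        exact ⟨ht, hq⟩
      · refine ⟨some (i, 2, q), Finset.mem_univ _, ?_⟩
        rw [A7_mem_some, A7_v2]
        exact ⟨ht, hq⟩
  have hBj : ∀ j ∈ (Finset.univ : Finset (Option (ι × Fin 3 × Fin 3))),
      Bd Γ w (A7_T S s M ε j) ((K : ℝ≥0∞) * C) := by
    intro j _
    rcases j with _ | ⟨i, v, q⟩
    · refine hB.mono ?_ ?_
      · rintro t ⟨h1, h2⟩
        exact ⟨by linarith, by linarith⟩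
      · have h1 : (1 : ℝ≥0∞) ≤ (K : ℝ≥0∞) := by exact_mod_cast hK1
        calc C = 1 * C := (one_mul C).symm
          _ ≤ (K : ℝ≥0∞) * C := by gcongr
    · have hB' : Bd Γ w (TSa S.H (s + EE ι e) (M + 2 * ε - 2 * ε + EE ι e)) C := by
        rw [add_sub_cancel_right]
        exact hB
      refine case_move S hw K hK (A7_invT S s M ε (some (i, v, q))) s (M + 2 * ε)
        (fun t ht => ((A7_mem_some S s M ε i v q t).1 ht).1) i (q.val + 1) ε ?_ hB'
      by_cases h0 : v = 0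
      · subst h0
        refine Or.inl fun t ht => ?_
        rw [A7_mem_some, A7_v0] at ht
        exact ht.2
      · by_cases h1 : v = 1
        · subst h1
          refine Or.inr (Or.inl fun t ht => ?_)
          rw [A7_mem_some, A7_v1] at ht
          exact ht.2
        · have h2 : v = 2 := by omega
          subst h2
          refine Or.inr (Or.inr fun t ht => ?_)
          rw [A7_mem_some, A7_v2] at ht
          exact ht.2
  have h := Bd.cover (Finset.univ : Finset (Option (ι × Fin 3 × Fin 3))) (A7_T S s M ε)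
    (fun _ => (K : ℝ≥0∞) * C) hBj hcov
  have hsum : ∑ _j : Option (ι × Fin 3 × Fin 3), ((K : ℝ≥0∞) * C) =
      ((9 * Fintype.card ι + 1 : ℕ) : ℝ≥0∞) * ((K : ℝ≥0∞) * C) := by
    rw [Finset.sum_const, Finset.card_univ, nsmul_eq_mul]
    congr 2
    simp only [Fintype.card_option, Fintype.card_prod, Fintype.card_fin]
    ring
  rwa [hsum] at h

theorem TS_le (hw : IsWt Γ w) (K : ℕ) (hK1 : 1 ≤ K) (hK : ∀ y : Y,
      {x | dT S.H x y ≤ e}.Finite ∧ {x | dT S.H x y ≤ e}.ncard ≤ K)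
    (s m : ℝ) (ε : ℕ) (hε : EE ι e ≤ ε) (n : ℕ)
    (hm : m ≤ s + 18 * Fintype.card ι * ε + n * (2 * ε - EE ι e))
    {C : ℝ≥0∞} (hB : Bd Γ w (TPa S.H (s + 18 * Fintype.card ι * ε + n * EE ι e)) C) :
    Bd Γ w (TSa S.H s m) (((9 * Fintype.card ι + 1 : ℕ) * K) ^ n * C) := by
  have hE := EE_nonneg S
  induction n generalizing s m with
  | zero =>
    rw [pow_zero, one_mul]
    refine hB.mono ?_ le_rfl
    rintro t ⟨-, ht⟩
    change pT S.H t ≤ _
    push_cast at hm ⊢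
    linarith
  | succ n ih =>
    have hB' : Bd Γ w (TPa S.H (s + EE ι e + 18 * Fintype.card ι * ε + n * EE ι e)) C := by
      refine hB.mono ?_ le_rfl
      intro t ht
      change pT S.H t ≤ _
      have h1 : pT S.H t ≤ s + EE ι e + 18 * Fintype.card ι * ε + n * EE ι e := ht
      push_cast
      linarith
    have h1 := ih (s + EE ι e) (s + 18 * Fintype.card ι * ε + n * (2 * ε - EE ι e) + EE ι e)
      (by linarith) hB'
    have hM : s + 18 * Fintype.card ι * ε ≤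
        s + 18 * Fintype.card ι * ε + n * (2 * ε - EE ι e) := by
      have h2 : (0 : ℝ) ≤ n := Nat.cast_nonneg _
      have h3 : (0 : ℝ) ≤ 2 * ε - EE ι e := by
        have : (0 : ℝ) ≤ ε := Nat.cast_nonneg _
        linarith
      have := mul_nonneg h2 h3
      linarith
    have h2 := TS_arms S hw K hK1 hK s (s + 18 * Fintype.card ι * ε + n * (2 * ε - EE ι e)) ε
      hM h1
    have h3 : (((9 * Fintype.card ι + 1 : ℕ) : ℝ≥0∞) * K) ^ (n + 1) * C =
        ((9 * Fintype.card ι + 1 : ℕ) : ℝ≥0∞) *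
          (K * ((((9 * Fintype.card ι + 1 : ℕ) : ℝ≥0∞) * K) ^ n * C)) := by
      rw [pow_succ']
      ring
    rw [h3]
    refine h2.mono ?_ le_rfl
    rintro t ⟨ht1, ht2⟩
    refine ⟨ht1, ?_⟩
    push_cast at hm
    linarith

end Space

end RDA
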