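import Pool.Agent.Lib.MP_fee02f_an.K0b
import Pool.Agent.Lib.MP_fee02f_an.K0c
import Pool.Agent.Lib.MP_fee02f_an.K1
import Pool.Agent.Lib.MP_fee02f_an.R8d
import Pool.Agent.Lib.MP_fee02f_an.AR.A7
import Pool.Agent.Lib.MP_fee02f_an.AR.A8

/-!
A9: a class without long arms (MP_fee02f_an, additive errors). By `Uc_sum_le` some rotation has small
`uc`; then `case_flip` and `TS_le`; the other vertices by rotation.
-/

open scoped ENNReal
open RapidDecay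

namespace RDA

theorem A9_uc_rot {P : Type*} (H : P → P → P → P → ℝ) (a b c : P) :
    uc H a b c + uc H b c a + uc H c a b ≤ 144 / 25 * cs H a b c := by
  have h := Uc_sum_le (om H a a b c) (om H b a b c) (om H c a b c)
  have e1 : uc H b c a = Uc (om H b a b c) (om H c a b c) (om H a a b c) := by
    unfold uc
    rw [om_rot H b a b c, om_rot H c a b c, om_rot H a a b c]
  have e2 : uc H c a b = Uc (om H c a b c) (om H a a b c) (om H b a b c) := by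
    unfold uc
    rw [om_rot H c b c a, om_rot H c a b c, om_rot H a b c a, om_rot H a a b c, om_rot H b b c a,
      om_rot H b a b c]
  rw [e1, e2]
  unfold uc cs
  linarith

theorem A9_uc_close {P : Type*} {H : P → P → P → P → ℝ} {e : ℝ} (hH : AHive e H)
    (a b c a' b' c' : P) (k : ℝ) (h : SlClose H a b c a' b' c' k) :
    uc H a' b' c' ≤ uc H a b c + 84 * k := by
  obtain ⟨h1, h2, h3⟩ := om_close hH a b c a' b' c' k h
  have h4 := Uc_lip (om H a a b c) (om H b a b c) (om H c a b c) (om H a' a' b' c')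
    (om H b' a' b' c') (om H c' a' b' c')
  rw [abs_sub_comm] at h1 h2 h3
  unfold uc
  linarith

section Space
variable {Γ Y ι : Type*} [Group Γ] [MulAction Γ Y] [Fintype ι] {e : ℝ} (S : ASpace Γ Y ι e)

theorem A9_one (δ κ : ℝ) (hδ : 0 < δ) (hδ1 : Fintype.card ι * δ ≤ 1 / 100) (hκ : 0 < κ)
    (key : ∀ (i : ι) (m : ℝ), 0 < m → e ≤ κ * m → ∀ a b c d : Y,
      dst (S.H i) a b ≤ 4 * m → dst (S.H i) a c ≤ 4 * m → dst (S.H i) a d ≤ 4 * m →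
      dst (S.H i) b c ≤ 4 * m → dst (S.H i) b d ≤ 4 * m → dst (S.H i) c d ≤ 4 * m →
      SlClose (S.H i) a b c a d c (κ * m) → CoreLe (S.H i) a b c (κ * m) →
      cs (S.H i) a b d + cs (S.H i) c b d ≤ uc (S.H i) a b c + δ * m)
    (κ' : ℝ) (hκ' : 0 < κ') (hκ1 : κ' ≤ κ)
    (hκ2 : (120 * Fintype.card ι + 2) * κ' ≤ 1 / 40) (n n' : ℕ)
    (hn : 4 / κ' + 84 * Fintype.card ι + 4 ≤ n) (hn' : 10 / κ' ≤ n')
    (K : ℕ) (hK1 : 1 ≤ K) (hK : ∀ y : Y, {x | dT S.H x y ≤ e}.Finite ∧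
      {x | dT S.H x y ≤ e}.ncard ≤ K)
    (w : Y → ℝ≥0∞) (hw : IsWt Γ w) (m : ℝ) (ε : ℕ) (hmE : 100 * EE ι e ≤ m)
    (hmn : 80 * ((n' : ℝ) + 1) * EE ι e ≤ m) (hEε : EE ι e ≤ ε)
    (hε2 : (ε : ℝ) ≤ κ' * m) (hε3 : κ' * m ≤ 2 * ε)
    (T : Set (Y × Y × Y)) (hT : InvT Γ T) (hTm : T ⊆ TPa S.H m)
    (hcore : ∀ t ∈ T, ∀ i, CoreLe (S.H i) t.1 t.2.1 t.2.2 ε)
    (hclose : ∀ t ∈ T, ∀ t' ∈ T, ∀ i,
        SlClose (S.H i) t.1 t.2.1 t.2.2 t'.1 t'.2.1 t'.2.2 ε)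
    (N : ℝ → ℝ≥0∞) (hN : ∀ s, Bd Γ w (TPa S.H s) (N s)) (B : ℝ≥0∞)
    (hB : ∀ s s' : ℝ, 0 ≤ s → 0 ≤ s' → s + s' ≤ 2 * (1 - 1 / 100) * m → N s * N s' ≤ B ^ 2)
    (t₀ : Y × Y × Y) (ht₀ : t₀ ∈ T)
    (huc : ∑ i, uc (S.H i) t₀.1 t₀.2.1 t₀.2.2 ≤ 48 / 25 * (m + EE ι e)) :
    Bd Γ w T ((n + 1 : ℕ) * (((9 * Fintype.card ι + 1 : ℕ) * K) ^ n' * B)) := by
  have he1 := S.one_le
  have hE := err_le_EE S
  obtain ⟨D, hD⟩ : ∃ D, D = EE ι e := ⟨_, rfl⟩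
  rw [← hD] at hmE hmn hEε huc hE
  have hD0 : 0 < D := by linarith
  have hε0 : (0 : ℝ) < ε := by linarith
  have hm : 0 < m := by linarith
  have hcard : (0 : ℝ) ≤ Fintype.card ι := Nat.cast_nonneg _
  obtain ⟨c, hc⟩ : ∃ c : ℝ, c = Fintype.card ι := ⟨_, rfl⟩
  have hmε : m ≤ 2 / κ' * ε := by
    have h1 : m = (κ' * m) / κ' := by field_simp
    rw [h1, div_mul_eq_mul_div]
    exact div_le_div_of_nonneg_right hε3 hκ'.le
  obtain ⟨A, hA⟩ : ∃ A : ℝ, A = 48 / 25 * (m + D) + 84 * Fintype.card ι * ε := ⟨_, rfl⟩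
  have hδm : Fintype.card ι * δ * m ≤ 1 / 100 * m := mul_le_mul_of_nonneg_right hδ1 hm.le
  have hsmall : (120 * Fintype.card ι + 2) * (ε : ℝ) ≤ 1 / 40 * m := by
    have h1 : (120 * (Fintype.card ι : ℝ) + 2) * ε ≤ (120 * (Fintype.card ι : ℝ) + 2) * (κ' * m) :=
      mul_le_mul_of_nonneg_left hε2 (by positivity)
    have h2 := mul_le_mul_of_nonneg_right hκ2 hm.le
    calc (120 * (Fintype.card ι : ℝ) + 2) * ε ≤ (120 * (Fintype.card ι : ℝ) + 2) * (κ' * m) := h1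
      _ = (120 * (Fintype.card ι : ℝ) + 2) * κ' * m := by ring
      _ ≤ 1 / 40 * m := h2
  refine case_flip S hw δ κ hδ hκ key hT m (by rw [← hD]; exact hmE) ε (by rw [← hD]; exact hEε)
    (hε2.trans (mul_le_mul_of_nonneg_right hκ1 hm.le)) hTm hcore hclose A ?_ n ?_
    (fun j => ((9 * Fintype.card ι + 1 : ℕ) * K) ^ n' *
      N (j * ε + 18 * Fintype.card ι * ε + n' * D)) ?_
    (((9 * Fintype.card ι + 1 : ℕ) * K) ^ n' * B) ?_
  · intro t ht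
    have h1 : ∀ i, uc (S.H i) t.1 t.2.1 t.2.2 ≤
        uc (S.H i) t₀.1 t₀.2.1 t₀.2.2 + 84 * ε := fun i =>
      A9_uc_close (S.hive i) _ _ _ _ _ _ _ (hclose t₀ ht₀ t ht i)
    have h2 := Finset.sum_le_sum (fun i (_ : i ∈ Finset.univ) => h1 i)
    rw [Finset.sum_add_distrib, Finset.sum_const, Finset.card_univ, nsmul_eq_mul] at h2
    rw [hA]
    linarith
  · have h1 : 2 * m ≤ 4 / κ' * ε := by
      have : 4 / κ' * (ε : ℝ) = 2 * (2 / κ' * ε) := by ring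
      rw [this]
      linarith
    have h4 := mul_le_mul_of_nonneg_right hn hε0.le
    have h5 : (4 / κ' + 84 * (Fintype.card ι : ℝ) + 4) * ε =
        4 / κ' * ε + 84 * Fintype.card ι * ε + 4 * ε := by ring
    rw [h5] at h4
    rw [hA]
    linarith
  · intro j _
    refine TS_le S hw K hK1 hK (j * ε) (5 * m) ε (by rw [← hD]; exact hEε) n' ?_
      (by rw [← hD]; exact hN _)
    rw [← hD]
    have h1 : 5 * m ≤ 10 / κ' * ε := by
      have : 10 / κ' * (ε : ℝ) = 5 * (2 / κ' * ε) := by ring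
      rw [this]
      linarith
    have h2 : 10 / κ' * (ε : ℝ) ≤ n' * ε := mul_le_mul_of_nonneg_right hn' hε0.le
    have h3 : 0 ≤ (j : ℝ) * ε := by positivity
    have h4 : 0 ≤ (18 : ℝ) * Fintype.card ι * ε := by positivity
    have h5 : (n' : ℝ) * ε ≤ n' * (2 * ε - D) :=
      mul_le_mul_of_nonneg_left (by linarith) (Nat.cast_nonneg _)
    linarith
  · intro j j' hjj
    have hn'0 : (0 : ℝ) ≤ n' := Nat.cast_nonneg _
    have h1 : N (j * ε + 18 * Fintype.card ι * ε + n' * D) *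
        N (j' * ε + 18 * Fintype.card ι * ε + n' * D) ≤ B ^ 2 := by
      apply hB
      · positivity
      · positivity
      · rw [hA] at hjj
        have e1 : ((j : ℝ) + j') * ε = j * ε + j' * ε := by ring
        have e2 : 80 * ((n' : ℝ) + 1) * D = 80 * (n' * D) + 80 * D := by ring
        have e3 : (120 * (Fintype.card ι : ℝ) + 2) * ε =
          120 * (Fintype.card ι * ε) + 2 * ε := by ring
        have e4 : 84 * (Fintype.card ι : ℝ) * ε = 84 * (Fintype.card ι * ε) := by ring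
        have e5 : 18 * (Fintype.card ι : ℝ) * ε = 18 * (Fintype.card ι * ε) := by ring
        rw [e1, e4] at hjj
        rw [e2] at hmn
        rw [e3] at hsmall
        rw [e5]
        linarith
    calc (((9 * Fintype.card ι + 1 : ℕ) : ℝ≥0∞) * K) ^ n' *
          N (j * ε + 18 * Fintype.card ι * ε + n' * D) *
          ((((9 * Fintype.card ι + 1 : ℕ) : ℝ≥0∞) * K) ^ n' *
          N (j' * ε + 18 * Fintype.card ι * ε + n' * D))
        = ((((9 * Fintype.card ι + 1 : ℕ) : ℝ≥0∞) * K) ^ n') ^ 2 *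
          (N (j * ε + 18 * Fintype.card ι * ε + n' * D) *
            N (j' * ε + 18 * Fintype.card ι * ε + n' * D)) := by ring
      _ ≤ ((((9 * Fintype.card ι + 1 : ℕ) : ℝ≥0∞) * K) ^ n') ^ 2 * B ^ 2 := by gcongr
      _ = _ := by ring

/-- a class without long arms: choice of the vertex to be doubled -/
theorem case_core (δ κ : ℝ) (hδ : 0 < δ) (hδ1 : Fintype.card ι * δ ≤ 1 / 100) (hκ : 0 < κ)
    (key : ∀ (i : ι) (m : ℝ), 0 < m → e ≤ κ * m → ∀ a b c d : Y,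
      dst (S.H i) a b ≤ 4 * m → dst (S.H i) a c ≤ 4 * m → dst (S.H i) a d ≤ 4 * m →
      dst (S.H i) b c ≤ 4 * m → dst (S.H i) b d ≤ 4 * m → dst (S.H i) c d ≤ 4 * m →
      SlClose (S.H i) a b c a d c (κ * m) → CoreLe (S.H i) a b c (κ * m) →
      cs (S.H i) a b d + cs (S.H i) c b d ≤ uc (S.H i) a b c + δ * m) :
    ∃ κ' : ℝ, 0 < κ' ∧ κ' ≤ κ ∧ ∃ K m0 : ℕ, ∀ (w : Y → ℝ≥0∞), IsWt Γ w →
      ∀ (m : ℝ) (ε : ℕ), m0 ≤ m → 1 ≤ ε → (ε : ℝ) ≤ κ' * m → κ' * m ≤ 2 * ε →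
      ∀ T : Set (Y × Y × Y), InvT Γ T → T ⊆ TPa S.H m →
      (∀ t ∈ T, ∀ i, CoreLe (S.H i) t.1 t.2.1 t.2.2 ε) →
      (∀ t ∈ T, ∀ t' ∈ T, ∀ i,
        SlClose (S.H i) t.1 t.2.1 t.2.2 t'.1 t'.2.1 t'.2.2 ε) →
      ∀ N : ℝ → ℝ≥0∞, (∀ s, Bd Γ w (TPa S.H s) (N s)) →
      ∀ B : ℝ≥0∞, (∀ s s' : ℝ, 0 ≤ s → 0 ≤ s' → s + s' ≤ 2 * (1 - 1 / 100) * m →
        N s * N s' ≤ B ^ 2) → Bd Γ w T (K * B) := by
  have hcard : (0 : ℝ) ≤ Fintype.card ι := Nat.cast_nonneg _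
  have he1 := S.one_le
  have hE := err_le_EE S
  have hD0 : 0 < EE ι e := by linarith
  obtain ⟨κ', hκ'⟩ : ∃ κ' : ℝ, κ' = min κ (1 / (40 * (120 * Fintype.card ι + 2))) := ⟨_, rfl⟩
  have hκ'0 : 0 < κ' := by
    rw [hκ']
    exact lt_min hκ (by positivity)
  have hκ'1 : κ' ≤ κ := by
    rw [hκ']
    exact min_le_left _ _
  have hκ2 : (120 * Fintype.card ι + 2) * κ' ≤ 1 / 40 := by
    have h1 : κ' ≤ 1 / (40 * (120 * (Fintype.card ι : ℝ) + 2)) := by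
      rw [hκ']
      exact min_le_right _ _
    have h2 := mul_le_mul_of_nonneg_left h1 (by positivity : (0 : ℝ) ≤ 120 * Fintype.card ι + 2)
    refine h2.trans (le_of_eq ?_)
    field_simp
  obtain ⟨n, hn⟩ := exists_nat_ge (4 / κ' + 84 * Fintype.card ι + 4)
  obtain ⟨n', hn'⟩ := exists_nat_ge (10 / κ')
  obtain ⟨K, hK1, hK⟩ := exists_near S
  obtain ⟨m0, hm0⟩ := exists_nat_ge (2 / κ' * EE ι e + 100 * EE ι e + 80 * ((n' : ℝ) + 1) * EE ι e)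
  refine ⟨κ', hκ'0, hκ'1, (n + 1) * ((9 * Fintype.card ι + 1) * K) ^ n', m0, ?_⟩
  intro w hw m ε hm0m hε1 hε2 hε3 T hT hTm hcore hclose N hN B hB
  have g1 : 0 ≤ 2 / κ' * EE ι e := by positivity
  have g2 : 0 ≤ 80 * ((n' : ℝ) + 1) * EE ι e := by positivity
  have hmE : 100 * EE ι e ≤ m := by linarith
  have hmn : 80 * ((n' : ℝ) + 1) * EE ι e ≤ m := by linarith
  have hEε : EE ι e ≤ ε := by
    have h1 : 2 / κ' * EE ι e ≤ m := by linarith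
    have h2 : κ' * (2 / κ' * EE ι e) ≤ κ' * m := mul_le_mul_of_nonneg_left h1 hκ'0.le
    have h3 : κ' * (2 / κ' * EE ι e) = 2 * EE ι e := by
      have := hκ'0.ne'
      field_simp
    linarith
  have eK : (((n + 1) * ((9 * Fintype.card ι + 1) * K) ^ n' : ℕ) : ℝ≥0∞) * B =
      (n + 1 : ℕ) * (((9 * Fintype.card ι + 1 : ℕ) * K) ^ n' * B) := by
    push_cast
    ring
  rw [eK]
  rcases T.eq_empty_or_nonempty with rfl | ⟨t₀, ht₀⟩
  · exact R8d_bd_empty _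
  have hsum : (∑ i, uc (S.H i) t₀.1 t₀.2.1 t₀.2.2) +
      (∑ i, uc (S.H i) t₀.2.1 t₀.2.2 t₀.1) +
      (∑ i, uc (S.H i) t₀.2.2 t₀.1 t₀.2.1) ≤ 3 * (48 / 25 * (m + EE ι e)) := by
    rw [← Finset.sum_add_distrib, ← Finset.sum_add_distrib]
    have h1 := Finset.sum_le_sum (fun i (_ : i ∈ Finset.univ) =>
      A9_uc_rot (S.H i) t₀.1 t₀.2.1 t₀.2.2)
    rw [← Finset.mul_sum] at h1
    have h2 : cT S.H t₀ ≤ pT S.H t₀ + EE ι e := cT_le_pT S t₀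
    have h3 : pT S.H t₀ ≤ m := hTm ht₀
    have h4 : ∑ i, cs (S.H i) t₀.1 t₀.2.1 t₀.2.2 = cT S.H t₀ := rfl
    rw [h4] at h1
    linarith
  have hrot : ∀ x y z : Y, pT S.H (x, y, z) = pT S.H (z, x, y) := by
    intro x y z
    unfold pT
    exact Finset.sum_congr rfl (fun i _ => pm_rot (S.H i) z x y)
  rcases R8d_three hsum with h | h | h
  · exact A9_one S δ κ hδ hδ1 hκ key κ' hκ'0 hκ'1 hκ2 n n' hn hn' K hK1 hK w hw m ε hmE hmn hEε
      hε2 hε3 T hT hTm hcore hclose N hN B hB t₀ ht₀ h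
  · -- doubled vertex `c`, triples `(b, c, a)`
    have hT' : InvT Γ {t : Y × Y × Y | (t.2.2, t.1, t.2.1) ∈ T} :=
      fun g x y z => hT g z x y
    refine R8d_rot hw hT' ?_
    refine A9_one S δ κ hδ hδ1 hκ key κ' hκ'0 hκ'1 hκ2 n n' hn hn' K hK1 hK w hw m ε hmE hmn hEε
      hε2 hε3 _ hT' ?_ ?_ ?_ N hN B hB (t₀.2.1, t₀.2.2, t₀.1) ht₀ h
    · rintro ⟨x, y, z⟩ ht
      have h1 : pT S.H (z, x, y) ≤ m := hTm ht
      change pT S.H (x, y, z) ≤ m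
      rw [hrot]
      exact h1
    · rintro ⟨x, y, z⟩ ht i
      exact (CoreLe_rot (S.H i) z x y ε).2 (hcore _ ht i)
    · rintro ⟨x, y, z⟩ ht ⟨x', y', z'⟩ ht' i
      exact SlClose_rot (S.H i) z x y z' x' y' ε (hclose _ ht _ ht' i)
  · -- doubled vertex `a`, triples `(c, a, b)`
    have hT' : InvT Γ {t : Y × Y × Y | (t.2.2, t.1, t.2.1) ∈ T} :=
      fun g x y z => hT g z x y
    have hT'' : InvT Γ {t : Y × Y × Y |
        (t.2.2, t.1, t.2.1) ∈ {t : Y × Y × Y | (t.2.2, t.1, t.2.1) ∈ T}} :=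
      fun g x y z => hT g y z x
    refine R8d_rot hw hT' (R8d_rot hw hT'' ?_)
    refine A9_one S δ κ hδ hδ1 hκ key κ' hκ'0 hκ'1 hκ2 n n' hn hn' K hK1 hK w hw m ε hmE hmn hEε
      hε2 hε3 _ hT'' ?_ ?_ ?_ N hN B hB (t₀.2.2, t₀.1, t₀.2.1) ht₀ h
    · rintro ⟨x, y, z⟩ ht
      have h1 : pT S.H (y, z, x) ≤ m := hTm ht
      change pT S.H (x, y, z) ≤ m
      rw [hrot, hrot]
      exact h1
    · rintro ⟨x, y, z⟩ ht i
      exact (CoreLe_rot (S.H i) x y z ε).1 (hcore _ ht i)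
    · rintro ⟨x, y, z⟩ ht ⟨x', y', z'⟩ ht' i
      exact SlClose_rot (S.H i) z x y z' x' y' ε
        (SlClose_rot (S.H i) y z x y' z' x' ε (hclose _ ht _ ht' i))

end Space

end RDA
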