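import Pool.Agent.Lib.MP_fee02f_an.R8e
import Pool.Agent.Lib.MP_fee02f_an.AR.A2
import Pool.Agent.Lib.MP_fee02f_an.AR.A6
import Pool.Agent.Lib.MP_fee02f_an.AR.A9

/-!
A10: the recursion (MP_fee02f_an, additive errors). The triples of perimeter at most `m` are divided
into classes according to the integer parts of `(slack + e) / ε`; in a class either some group is long
everywhere (`case_move`) or all group minima are at most `ε` (`case_core`).
-/

open scoped ENNReal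
open RapidDecay

namespace RDA

section Triple

variable {P : Type*} {H : P → P → P → P → ℝ}

theorem A10_groupGe {f : R8e_I → ℕ} {p : Fin 3 → P} {k₀ : ℝ}
    (key : ∀ k, 1 ≤ f k → k₀ ≤ tsl H p k) {e r : Fin 3} (h : R8e_long f e r) :
    GroupGe H (p e) (p (e + 1)) (p (e + 2)) ((r : ℕ) + 1) k₀ := by
  rcases h with ⟨rfl, h1, h2, h3⟩ | ⟨rfl, h1, h2⟩ | ⟨rfl, h1⟩
  · left
    exact ⟨rfl, le_min (key _ h1) (le_min (key _ h2) (key _ h3))⟩
  · right
    left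
    exact ⟨rfl, le_min (key _ h1) (key _ h2)⟩
  · right
    right
    exact ⟨rfl, key _ h1⟩

theorem A10_gm_le {f : R8e_I → ℕ} {p : Fin 3 → P} {k₀ : ℝ}
    (key : ∀ k, ¬ 1 ≤ f k → tsl H p k ≤ k₀) (e : Fin 3) (h : ∀ r, ¬ R8e_long f e r) :
    gm1 H (p e) (p (e + 1)) (p (e + 2)) ≤ k₀ ∧ gm2 H (p e) (p (e + 1)) (p (e + 2)) ≤ k₀ ∧
      gm3 H (p e) (p (e + 1)) (p (e + 2)) ≤ k₀ := by
  refine ⟨?_, ?_, ?_⟩
  · have h0 := h 0
    by_cases h1 : 1 ≤ f (e, e + 1, e + 2, e + 1, e + 1)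
    · by_cases h2 : 1 ≤ f (e, e + 1, e + 2, e + 1, e + 2)
      · by_cases h3 : 1 ≤ f (e, e + 1, e + 2, e + 2, e + 2)
        · exact absurd (Or.inl ⟨rfl, h1, h2, h3⟩) h0
        · exact (min_le_right _ _).trans ((min_le_right _ _).trans (key _ h3))
      · exact (min_le_right _ _).trans ((min_le_left _ _).trans (key _ h2))
    · exact (min_le_left _ _).trans (key _ h1)
  · have h0 := h 1
    by_cases h1 : 1 ≤ f (e, e + 1, e + 2, e, e + 1)
    · by_cases h2 : 1 ≤ f (e, e + 1, e + 2, e, e + 2)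
      · exact absurd (Or.inr (Or.inl ⟨rfl, h1, h2⟩)) h0
      · exact (min_le_right _ _).trans (key _ h2)
    · exact (min_le_left _ _).trans (key _ h1)
  · have h0 := h 2
    by_cases h1 : 1 ≤ f (e, e + 1, e + 2, e, e)
    · exact absurd (Or.inr (Or.inr ⟨rfl, h1⟩)) h0
    · exact key _ h1

theorem A10_coreLe {f : R8e_I → ℕ} {a b c : P} {k₀ : ℝ}
    (key : ∀ k, ¬ 1 ≤ f k → tsl H ![a, b, c] k ≤ k₀) (h : ∀ e r, ¬ R8e_long f e r) :
    CoreLe H a b c k₀ := by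
  have h0 := A10_gm_le key 0 (h 0)
  have h1 := A10_gm_le key 1 (h 1)
  have h2 := A10_gm_le key 2 (h 2)
  exact ⟨h0.1, h0.2.1, h0.2.2, h1.1, h1.2.1, h1.2.2, h2.1, h2.2.1, h2.2.2⟩

variable {e : ℝ}

theorem A10_tsl_ge (hH : AHive e H) (p : Fin 3 → P) (k : R8e_I) : 0 ≤ tsl H p k + e := by
  have h := sl_ge hH (p k.1) (p k.2.1) (p k.2.2.1) (p k.2.2.2.1) (p k.2.2.2.2)
  unfold tsl
  linarith

theorem A10_dst_le_pm (hH : AHive e H) (he : 0 ≤ e) (a b c : P) (u v : Fin 3) :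
    dst H (![a, b, c] u) (![a, b, c] v) ≤ pm H a b c + 9 * e := by
  have h1 := dst_ge hH a b
  have h2 := dst_ge hH b c
  have h3 := dst_ge hH c a
  have e1 := dst_comm hH a b
  have e2 := dst_comm hH b c
  have e3 := dst_comm hH c a
  have f1 := dst_self H a
  have f2 := dst_self H b
  have f3 := dst_self H c
  unfold pm
  fin_cases u <;> fin_cases v <;> simp <;> linarith

theorem A10_tsl_le (hH : AHive e H) (he : 0 ≤ e) (a b c : P) (k : R8e_I) :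
    tsl H ![a, b, c] k ≤ pm H a b c + 14 * e := by
  have h1 := sl_le_dst hH (![a, b, c] k.1) (![a, b, c] k.2.1) (![a, b, c] k.2.2.1)
    (![a, b, c] k.2.2.2.1) (![a, b, c] k.2.2.2.2)
  have h2 := A10_dst_le_pm hH he a b c k.1 k.2.1
  unfold tsl
  linarith

end Triple

section Space
variable {Γ Y ι : Type*} [Group Γ] [MulAction Γ Y] [Fintype ι] {e : ℝ} (S : ASpace Γ Y ι e)

/-- a class of triples -/
def A10_cl (m : ℝ) (ε : ℕ) (f : ι → R8e_I → ℕ) : Set (Y × Y × Y) :=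
  {t | t ∈ TPa S.H m ∧ ∀ i k, f i k = ⌊(tsl (S.H i) ![t.1, t.2.1, t.2.2] k + e) / ε⌋₊}

theorem A10_inv (m : ℝ) (ε : ℕ) (f : ι → R8e_I → ℕ) : InvT Γ (A10_cl S m ε f) := by
  intro g x y z
  have h1 := invT_TP S m g x y z
  have h2 : ∀ i k, tsl (S.H i) ![g • x, g • y, g • z] k =
      tsl (S.H i) ![x, y, z] k := fun i k => inv_tsl S i g x y z k
  constructor
  · rintro ⟨h3, h4⟩
    refine ⟨h1.1 h3, fun i k => ?_⟩
    have h5 := h4 i k
    rw [← h2 i k]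
    exact h5
  · rintro ⟨h3, h4⟩
    refine ⟨h1.2 h3, fun i k => ?_⟩
    have h5 := h4 i k
    rw [← h2 i k] at h5
    exact h5

theorem A10_pm_le {m : ℝ} {t : Y × Y × Y} (ht : t ∈ TPa S.H m) (i : ι) :
    pm (S.H i) t.1 t.2.1 t.2.2 ≤ m + EE ι e := by
  classical
  have he1 := S.one_le
  have h0 : ∀ j, 0 ≤ pm (S.H j) t.1 t.2.1 t.2.2 + 9 * e := by
    intro j
    have h1 := dst_ge (S.hive j) t.1 t.2.1
    have h2 := dst_ge (S.hive j) t.2.1 t.2.2
    have h3 := dst_ge (S.hive j) t.2.2 t.1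
    unfold pm
    linarith
  have h1 := Finset.single_le_sum (f := fun j => pm (S.H j) t.1 t.2.1 t.2.2 + 9 * e)
    (fun j _ => h0 j) (Finset.mem_univ i)
  rw [Finset.sum_add_distrib, Finset.sum_const, Finset.card_univ, nsmul_eq_mul] at h1
  have h2 : ∑ j, pm (S.H j) t.1 t.2.1 t.2.2 ≤ m := ht
  have hcard : (0 : ℝ) ≤ Fintype.card ι := Nat.cast_nonneg _
  unfold EE
  have h3 : (0 : ℝ) ≤ Fintype.card ι * e := by positivity
  nlinarith

theorem A10_class (κ' c : ℝ) (hκ' : 0 < κ') (hc0 : 0 < c) (hc1 : c ≤ κ' / 4) (hc2 : c ≤ 1 / 100)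
    (K : ℕ) (K' : ℕ) (hK' : ∀ y : Y, {x | dT S.H x y ≤ e}.Finite ∧
      {x | dT S.H x y ≤ e}.ncard ≤ K') (w : Y → ℝ≥0∞) (hw : IsWt Γ w)
    (m : ℝ) (ε : ℕ)
    (hcc : ∀ T : Set (Y × Y × Y), InvT Γ T → T ⊆ TPa S.H m →
      (∀ t ∈ T, ∀ i, CoreLe (S.H i) t.1 t.2.1 t.2.2 ε) →
      (∀ t ∈ T, ∀ t' ∈ T, ∀ i,
        SlClose (S.H i) t.1 t.2.1 t.2.2 t'.1 t'.2.1 t'.2.2 ε) →
      ∀ N : ℝ → ℝ≥0∞, (∀ s, Bd Γ w (TPa S.H s) (N s)) →
      ∀ B : ℝ≥0∞, (∀ s s' : ℝ, 0 ≤ s → 0 ≤ s' → s + s' ≤ 2 * (1 - 1 / 100) * m →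
        N s * N s' ≤ B ^ 2) → Bd Γ w T (K * B))
    (hεE : 4 * EE ι e ≤ ε) (hε3 : κ' * m ≤ 2 * ε) (hm : 0 < m)
    (N : ℝ → ℝ≥0∞) (hN : ∀ s, Bd Γ w (TPa S.H s) (N s)) (B : ℝ≥0∞)
    (hB : ∀ s s' : ℝ, 0 ≤ s → 0 ≤ s' → s + s' ≤ 2 * (1 - c) * m → N s * N s' ≤ B ^ 2)
    (f : ι → R8e_I → ℕ) : Bd Γ w (A10_cl S m ε f) ((K + K' : ℕ) * B) := by
  have he1 := S.one_le
  have hE := err_le_EE S
  have hε0 : (0 : ℝ) < ε := by linarith
  have hsub : A10_cl S m ε f ⊆ TPa S.H m := fun t ht => ht.1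
  by_cases hA : ∃ i v r, R8e_long (f i) v r
  · obtain ⟨i, v, r, hl⟩ := hA
    obtain ⟨q, hq⟩ : ∃ q : ℕ, q = ⌈e⌉₊ := ⟨_, rfl⟩
    have hq1 : e ≤ q := by rw [hq]; exact Nat.le_ceil e
    have hq2 : (q : ℝ) ≤ e + 1 := by rw [hq]; exact (Nat.ceil_lt_add_one (by linarith)).le
    have hqε : q ≤ ε := by
      have h1 : (q : ℝ) ≤ ε := by linarith
      exact_mod_cast h1
    have hcast : ((ε - q : ℕ) : ℝ) = ε - q := by
      rw [Nat.cast_sub hqε]
    have hg : ∀ t ∈ A10_cl S m ε f, GroupGe (S.H i) (![t.1, t.2.1, t.2.2] v)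
        (![t.1, t.2.1, t.2.2] (v + 1)) (![t.1, t.2.1, t.2.2] (v + 2))
        ((r : ℕ) + 1) ((ε - q : ℕ) : ℝ) := by
      intro t ht
      refine A10_groupGe (fun k hk => ?_) hl
      rw [ht.2 i k, Nat.one_le_floor_iff, le_div_iff₀ hε0, one_mul] at hk
      rw [hcast]
      linarith
    obtain ⟨s, hs⟩ : ∃ s : ℝ, s = max 0 (m - 2 * (ε - q : ℕ) + EE ι e) := ⟨_, rfl⟩
    have hs0 : 0 ≤ s := by rw [hs]; exact le_max_left _ _
    have hNs : N s ≤ B := by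
      have h1 := hB s s hs0 hs0 (by
        rcases max_choice (0 : ℝ) (m - 2 * (ε - q : ℕ) + EE ι e) with h | h
        · rw [hs, h]
          have h5 : 0 ≤ 2 * (1 - c) * m := by
            have : 0 ≤ 1 - c := by linarith
            positivity
          linarith
        · rw [hs, h, hcast]
          have h2 : c * m ≤ κ' / 4 * m := mul_le_mul_of_nonneg_right hc1 hm.le
          nlinarith)
      by_contra hcon
      push Not at hcon
      have h2 : B ^ 2 < N s * N s := by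
        rw [pow_two]
        exact ENNReal.mul_lt_mul hcon hcon
      exact absurd h1 (not_le.2 h2)
    have hbd : Bd Γ w (TSa S.H (m + EE ι e + EE ι e) (m - 2 * (ε - q : ℕ) + EE ι e)) B := by
      refine Bd.mono (hN s) ?_ hNs
      intro t ht
      have h2 : pT S.H t ≤ m - 2 * (ε - q : ℕ) + EE ι e := ht.2
      change pT S.H t ≤ s
      rw [hs]
      exact h2.trans (le_max_right _ _)
    have hsub2 : A10_cl S m ε f ⊆ TSa S.H (m + EE ι e) m := by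
      intro t ht
      have h1 : pT S.H t ≤ m := hsub ht
      have h2 := cT_le_pT S t
      exact ⟨by linarith, h1⟩
    have hmove : Bd Γ w (A10_cl S m ε f) ((K' : ℝ≥0∞) * B) := by
      refine case_move S hw K' hK' (A10_inv S m ε f) (m + EE ι e) m hsub2 i ((r : ℕ) + 1) (ε - q)
        ?_ hbd
      fin_cases v
      · exact Or.inl hg
      · exact Or.inr (Or.inl hg)
      · exact Or.inr (Or.inr hg)
    refine Bd.mono hmove (fun t ht => ht) ?_
    gcongr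
    exact_mod_cast Nat.le_add_left K' K
  · push Not at hA
    have hkey : ∀ t ∈ A10_cl S m ε f, ∀ i k, ¬ 1 ≤ f i k →
        tsl (S.H i) ![t.1, t.2.1, t.2.2] k ≤ ε := by
      intro t ht i k hk
      rw [ht.2 i k, Nat.one_le_floor_iff, le_div_iff₀ hε0, one_mul, not_le] at hk
      linarith
    have hεN : 0 < ε := by exact_mod_cast hε0
    have h1 := hcc (A10_cl S m ε f) (A10_inv S m ε f) hsub
      (fun t ht i => A10_coreLe (hkey t ht i) (hA i))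
      (fun t ht t' ht' i k => by
        have h2 := R8e_close hεN (A10_tsl_ge (S.hive i) ![t.1, t.2.1, t.2.2] k)
          (A10_tsl_ge (S.hive i) ![t'.1, t'.2.1, t'.2.2] k)
          ((ht.2 i k).symm.trans (ht'.2 i k))
        rwa [add_sub_add_right_eq_sub] at h2)
      N hN B (fun s s' hs hs' hss => hB s s' hs hs' (by
        refine hss.trans ?_
        have : (1 - 1 / 100 : ℝ) ≤ 1 - c := by linarith
        nlinarith))
    refine Bd.mono h1 (fun t ht => ht) ?_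
    gcongr
    exact_mod_cast Nat.le_add_right K K'

theorem recursion : ∃ K c m0 : ℝ, 1 ≤ K ∧ 0 < c ∧ c < 1 ∧ 1 ≤ m0 ∧
    ∀ (w : Y → ℝ≥0∞), IsWt Γ w →
      ∀ N : ℝ → ℝ≥0∞, (∀ s, Bd Γ w (TPa S.H s) (N s)) →
      ∀ m, m0 ≤ m → ∀ B : ℝ≥0∞, (∀ s s' : ℝ, 0 ≤ s → 0 ≤ s' → s + s' ≤ 2 * (1 - c) * m →
        N s * N s' ≤ B ^ 2) → Bd Γ w (TPa S.H m) (ENNReal.ofReal K * B) := by
  classical
  have he1 := S.one_le
  have hE := err_le_EE S
  have hcard : (0 : ℝ) ≤ Fintype.card ι := Nat.cast_nonneg _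
  obtain ⟨δ, hδ⟩ : ∃ δ : ℝ, δ = 1 / (100 * (Fintype.card ι + 1)) := ⟨_, rfl⟩
  have hδ0 : 0 < δ := by rw [hδ]; positivity
  have hδ1 : Fintype.card ι * δ ≤ 1 / 100 := by
    rw [hδ, mul_one_div, div_le_div_iff₀ (by positivity) (by norm_num)]
    nlinarith
  have hkey : ∃ κ : ℝ, 0 < κ ∧ ∀ (i : ι) (m : ℝ), 0 < m → e ≤ κ * m → ∀ a b c d : Y,
      dst (S.H i) a b ≤ 4 * m → dst (S.H i) a c ≤ 4 * m → dst (S.H i) a d ≤ 4 * m →
      dst (S.H i) b c ≤ 4 * m → dst (S.H i) b d ≤ 4 * m → dst (S.H i) c d ≤ 4 * m →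
      SlClose (S.H i) a b c a d c (κ * m) → CoreLe (S.H i) a b c (κ * m) →
      cs (S.H i) a b d + cs (S.H i) c b d ≤ uc (S.H i) a b c + δ * m := by
    obtain ⟨κ, h1, h2⟩ := key_approx δ hδ0
    exact ⟨κ, h1, fun i m hm hem a b c d => h2 Y (S.H i) e (S.hive i) m hm hem a b c d⟩
  obtain ⟨κ, hκ, key⟩ := hkey
  obtain ⟨κ', hκ', hκ1, K, m1, hK⟩ := case_core S δ κ hδ0 hδ1 hκ key
  obtain ⟨K', hK1', hK'⟩ := exists_near S
  obtain ⟨c, hc⟩ : ∃ c : ℝ, c = min (κ' / 4) (1 / 100) := ⟨_, rfl⟩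
  have hc0 : 0 < c := by rw [hc]; exact lt_min (by linarith) (by norm_num)
  have hc1 : c ≤ κ' / 4 := by rw [hc]; exact min_le_left _ _
  have hc2 : c ≤ 1 / 100 := by rw [hc]; exact min_le_right _ _
  obtain ⟨L, hL⟩ := exists_nat_ge (4 / κ')
  obtain ⟨nJ, hnJ⟩ : ∃ nJ : ℕ, nJ = Fintype.card (ι → R8e_I → Fin (L + 1)) := ⟨_, rfl⟩
  have hnJ1 : 1 ≤ nJ := by rw [hnJ]; exact Fintype.card_pos
  refine ⟨((nJ * (K + K') : ℕ) : ℝ), c, max (max 1 m1) (8 * EE ι e / κ' + 2 * EE ι e), ?_, hc0,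
    by linarith, (le_max_left _ _).trans (le_max_left _ _), ?_⟩
  · have h1 : 1 ≤ nJ * (K + K') := Nat.one_le_iff_ne_zero.2 (by positivity)
    exact_mod_cast h1
  intro w hw N hN m hm B hB
  have hm1 : 1 ≤ m := ((le_max_left _ _).trans (le_max_left _ _)).trans hm
  have hm1' : (m1 : ℝ) ≤ m := ((le_max_right _ _).trans (le_max_left _ _)).trans hm
  have hm2 : 8 * EE ι e / κ' + 2 * EE ι e ≤ m := (le_max_right _ _).trans hm
  have hm0 : 0 < m := by linarith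
  have hκm : 8 * EE ι e ≤ κ' * m := by
    have h1 : 8 * EE ι e / κ' ≤ m := by linarith
    rw [div_le_iff₀ hκ'] at h1
    linarith
  obtain ⟨ε, hε⟩ : ∃ ε : ℕ, ε = ⌊κ' * m⌋₊ := ⟨_, rfl⟩
  have hε1 : 1 ≤ ε := by
    rw [hε, Nat.one_le_floor_iff]
    linarith
  have hε2 : (ε : ℝ) ≤ κ' * m := by rw [hε]; exact Nat.floor_le (by positivity)
  have hε3 : κ' * m ≤ 2 * ε := by
    have h1 := Nat.lt_floor_add_one (κ' * m)
    rw [← hε] at h1
    have h2 : (1 : ℝ) ≤ ε := by exact_mod_cast hε1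
    linarith
  have hε0 : (0 : ℝ) < ε := by exact_mod_cast hε1
  have hcover := Bd.cover (Γ := Γ) (w := w) (Finset.univ : Finset (ι → R8e_I → Fin (L + 1)))
    (fun f => A10_cl S m ε (fun i k => (f i k : ℕ))) (fun _ => (K + K' : ℕ) * B)
    (fun f _ => A10_class S κ' c hκ' hc0 hc1 hc2 K K' hK' w hw m ε
      (hK w hw m ε hm1' hε1 hε2 hε3) (by linarith) hε3 hm0 N hN B
      hB _) (T0 := TPa S.H m) (by
      intro t ht
      have hb : ∀ i k, ⌊(tsl (S.H i) ![t.1, t.2.1, t.2.2] k + e) / ε⌋₊ < L + 1 := by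
        intro i k
        rw [Nat.lt_succ_iff]
        apply Nat.floor_le_of_le
        refine le_trans ?_ hL
        rw [div_le_div_iff₀ hε0 hκ']
        have h1 := A10_tsl_le (S.hive i) (by linarith) t.1 t.2.1 t.2.2 k
        have h2 := A10_pm_le S ht i
        have h4 : tsl (S.H i) ![t.1, t.2.1, t.2.2] k + e ≤ 2 * m := by
          have h5 : 0 ≤ 8 * EE ι e / κ' := by
            have : 0 < EE ι e := by linarith
            positivity
          linarith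
        have h3 := mul_le_mul_of_nonneg_right h4 hκ'.le
        linarith
      refine ⟨fun i k => ⟨_, hb i k⟩, Finset.mem_univ _, ht, fun i k => rfl⟩)
  refine Bd.mono hcover (fun t ht => ht) (le_of_eq ?_)
  rw [Finset.sum_const, Finset.card_univ, nsmul_eq_mul, ENNReal.ofReal_natCast, ← mul_assoc, hnJ]
  push_cast
  rfl

end Space

end RDA
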