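import Pool.Agent.Lib.MP_fee02f_an.AR.A3
import Pool.Agent.Lib.MP_fee02f_an.AR.A4
import Pool.Agent.Lib.MP_fee02f_an.AR.A5

/-!
A12: long arms, one more type (MP_fee02f_an, additive errors).
-/

open scoped ENNReal
open RapidDecay

namespace RDA

section Space
variable {Γ Y ι : Type*} [Group Γ] [MulAction Γ Y] [Fintype ι] {e : ℝ} (S : ASpace Γ Y ι e)
variable {w : Y → ℝ≥0∞}

theorem A12_invT (R L : ℝ) (A : Finset (ι × Fin 3)) : InvT Γ (TG S.H R L A) := by
  intro g x y z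
  change (dT S.H (g • x) (g • y) ≤ R ∧ ∀ p ∈ A,
    gp (S.H p.1) (p.2.val + 1) (g • z) (g • x) ≤ L ∧
      gp (S.H p.1) (p.2.val + 1) (g • z) (g • y) ≤ L) ↔
    (dT S.H x y ≤ R ∧ ∀ p ∈ A, gp (S.H p.1) (p.2.val + 1) z x ≤ L ∧
      gp (S.H p.1) (p.2.val + 1) z y ≤ L)
  simp only [dT_smul, inv_gp]

/-- the number of steps -/
noncomputable def A12_k (S : ASpace Γ Y ι e) (p : ι × Fin 3) (R' : ℝ) (z x : Y) : ℕ :=
  ⌊gp (S.H p.1) (p.2.val + 1) z x - 4 * R' - 100 * e⌋₊

/-- the moved vertex, with `t` additional steps -/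
noncomputable def A12_mv (S : ASpace Γ Y ι e) (p : ι × Fin 3) (R' : ℝ) (t : ℤ) (z x : Y) : Y :=
  if ((A12_k S p R' z x : ℤ) + t).toNat = 0 then z
  else S.mv p.1 (p.2.val + 1) ((A12_k S p R' z x : ℤ) + t).toNat z x

theorem A12_k_smul (p : ι × Fin 3) (R' : ℝ) (g : Γ) (z x : Y) :
    A12_k S p R' (g • z) (g • x) = A12_k S p R' z x := by
  unfold A12_k
  rw [inv_gp]

theorem A12_mv_smul (p : ι × Fin 3) (R' : ℝ) (t : ℤ) (g : Γ) (z x : Y) :
    A12_mv S p R' t (g • z) (g • x) = g • A12_mv S p R' t z x := by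
  unfold A12_mv
  rw [A12_k_smul]
  split_ifs
  · rfl
  · rw [S.mv_smul]

theorem A12_group {P : Type*} {H : P → P → P → P → ℝ} {e : ℝ} (hH : AHive e H) (x y z : P)
    (R' : ℝ) (hR : dst H x y ≤ R') (q : Fin 3) (k : ℝ)
    (hk : k ≤ gp H (q.val + 1) z x - 4 * R' - 100 * e) : GroupGe H z x y (q.val + 1) k := by
  obtain ⟨⟨f1, f2, f3⟩, -⟩ := far_groups hH x y z R' hR
  have hq : q = 0 ∨ q = 1 ∨ q = 2 := by omega
  rcases hq with h | h | h
  · subst h
    exact Or.inl ⟨rfl, hk.trans f1⟩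
  · subst h
    exact Or.inr (Or.inl ⟨rfl, hk.trans f2⟩)
  · subst h
    exact Or.inr (Or.inr ⟨rfl, hk.trans f3⟩)

theorem A12_floor (a b : ℝ) : (⌊a⌋₊ : ℝ) ≤ ⌊b⌋₊ + |a - b| + 1 := by
  have h1 := Nat.lt_floor_add_one b
  have h2 := le_abs_self (a - b)
  have h3 := abs_nonneg (a - b)
  rcases le_total 0 a with h | h
  · have h4 := Nat.floor_le h
    linarith
  · rw [Nat.floor_of_nonpos h]
    push_cast
    have : (0 : ℝ) ≤ (⌊b⌋₊ : ℝ) := Nat.cast_nonneg _
    linarith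

theorem A12_mem (q : Fin 3) : q.val + 1 ∈ ({1, 2, 3} : Finset ℕ) := by
  have hq : q = 0 ∨ q = 1 ∨ q = 2 := by omega
  rcases hq with h | h | h <;> subst h <;> decide

/-- the classes, for the triples `(z, x, y)` -/
def A12_T (S : ASpace Γ Y ι e) (p : ι × Fin 3) (R' : ℝ) (R L : ℝ) (A : Finset (ι × Fin 3))
    (t : ℤ) : Set (Y × Y × Y) :=
  {u | (u.2.1, u.2.2, u.1) ∈ TG S.H R L A ∧
    (A12_k S p R' u.1 u.2.1 : ℤ) = A12_k S p R' u.1 u.2.2 + t}

theorem A12_invTT (p : ι × Fin 3) (R' : ℝ) (R L : ℝ) (A : Finset (ι × Fin 3)) (t : ℤ) :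
    InvT Γ (A12_T S p R' R L A t) := by
  intro g z x y
  change ((g • x, g • y, g • z) ∈ TG S.H R L A ∧
    (A12_k S p R' (g • z) (g • x) : ℤ) = A12_k S p R' (g • z) (g • y) + t) ↔
    ((x, y, z) ∈ TG S.H R L A ∧ (A12_k S p R' z x : ℤ) = A12_k S p R' z y + t)
  rw [A12_invT S R L A g x y z, A12_k_smul, A12_k_smul]

theorem A12_class [DecidableEq ι] (hw : IsWt Γ w) (K : ℕ) (hK : ∀ y : Y,
      {x | dT S.H x y ≤ e}.Finite ∧ {x | dT S.H x y ≤ e}.ncard ≤ K) (R L : ℝ) (hR : 0 ≤ R)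
    (hL : 10 * R + 100 * EE ι e ≤ L) (A : Finset (ι × Fin 3)) (p : ι × Fin 3) (t : ℤ) {C : ℝ≥0∞}
    (hB : Bd Γ w {u | (u.2.1, u.2.2, u.1) ∈ TG S.H R (L + 2 * e) (insert p A)} C) :
    Bd Γ w (A12_T S p (R + EE ι e) R L A t) ((K : ℝ≥0∞) * C) := by
  have he1 := S.one_le
  have hE := err_le_EE S
  set R' : ℝ := R + EE ι e with hR'
  have hI' : InvT Γ {u : Y × Y × Y | (u.2.1, u.2.2, u.1) ∈
      TG S.H R (L + 2 * e) (insert p A)} := by
    intro g z x y
    exact A12_invT S R (L + 2 * e) (insert p A) g x y z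
  refine Bd_moveN hw (A12_invTT S p R' R L A t) hI' (A12_mv S p R' 0) (A12_mv S p R' t)
    (A12_mv_smul S p R' 0) (A12_mv_smul S p R' t) (fun x y => dT S.H x y ≤ e) ?_ K hK ?_ hB
  · intro g x y
    rw [dT_smul]
  · intro z x y hzxy
    obtain ⟨⟨hxy, hA⟩, hk⟩ := hzxy
    simp only at hxy hA hk
    have hdst : dst (S.H p.1) x y ≤ R' := by
      have := dst_le_dT S p.1 x y
      linarith
    have hdiff := (far_groups (S.hive p.1) x y z R' hdst).2 (p.2.val + 1)
    rw [abs_le] at hdiff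
    have hnum : (4 : ℝ) * R' + 100 * e + 1 ≤ L := by
      rw [hR']
      linarith
    have hnum2 : 2 * ((4 : ℝ) * R' + 100 * e) + 1 ≤ L := by
      rw [hR']
      linarith
    have e1 : ((A12_k S p R' z x : ℤ) + 0).toNat = A12_k S p R' z x := by simp
    have e2 : ((A12_k S p R' z y : ℤ) + t).toNat = A12_k S p R' z x := by
      rw [← hk]
      simp
    have hmv1 : A12_mv S p R' 0 z x = if A12_k S p R' z x = 0 then z
        else S.mv p.1 (p.2.val + 1) (A12_k S p R' z x) z x := by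
      unfold A12_mv
      rw [e1]
    have hmv2 : A12_mv S p R' t z y = if A12_k S p R' z x = 0 then z
        else S.mv p.1 (p.2.val + 1) (A12_k S p R' z x) z y := by
      unfold A12_mv
      rw [e2]
    have hlt : gp (S.H p.1) (p.2.val + 1) z x - 4 * R' - 100 * e < A12_k S p R' z x + 1 :=
      Nat.lt_floor_add_one _
    rw [hmv1, hmv2]
    by_cases h0 : A12_k S p R' z x = 0
    · rw [if_pos h0, if_pos h0]
      rw [h0] at hlt
      push_cast at hlt
      refine ⟨?_, hxy, ?_⟩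
      · rw [dT_self]
        linarith
      · intro q hq
        rw [Finset.mem_insert] at hq
        rcases hq with hq | hq
        · subst hq
          simp only
          constructor
          · linarith
          · linarith
        · obtain ⟨h1, h2⟩ := hA q hq
          simp only
          constructor
          · linarith
          · linarith
    · rw [if_neg h0, if_neg h0]
      have hpos : 0 ≤ gp (S.H p.1) (p.2.val + 1) z x - 4 * R' - 100 * e := by
        by_contra hneg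
        exact h0 (Nat.floor_of_nonpos (le_of_not_ge hneg))
      have hfl : (A12_k S p R' z x : ℝ) ≤ gp (S.H p.1) (p.2.val + 1) z x - 4 * R' - 100 * e :=
        Nat.floor_le hpos
      have hG := A12_group (S.hive p.1) x y z R' hdst p.2 _ hfl
      obtain ⟨-, -, -, hall⟩ := mv_all S p.1 (p.2.val + 1) (A12_k S p R' z x) z x y hG
      obtain ⟨g1, g2⟩ := mv_gap S p.1 (p.2.val + 1) (A12_k S p R' z x) z x y hG
      refine ⟨S.mv_near p.1 (p.2.val + 1) _ z x y hG, hxy, ?_⟩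
      intro q hq
      rw [Finset.mem_insert] at hq
      rcases hq with hq | hq
      · subst hq
        simp only
        constructor
        · linarith
        · linarith
      · obtain ⟨h1, h2⟩ := hA q hq
        obtain ⟨h3, h4⟩ := hall q.1 (q.2.val + 1) (A12_mem q.2)
        simp only
        constructor
        · linarith
        · linarith

/-- (module A12) one more type -/
theorem long_step (hw : IsWt Γ w) (K : ℕ) (hK : ∀ y : Y, {x | dT S.H x y ≤ e}.Finite ∧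
      {x | dT S.H x y ≤ e}.ncard ≤ K) [DecidableEq ι] (R L : ℝ) (hR : 0 ≤ R)
    (hL : 10 * R + 100 * EE ι e ≤ L) (A : Finset (ι × Fin 3)) (p : ι × Fin 3) {C : ℝ≥0∞}
    (hB : Bd Γ w (TG S.H R (L + 2 * e) (insert p A)) C) :
    Bd Γ w (TG S.H R L A) (ENNReal.ofReal (20 * (R + EE ι e + 1)) * ((K + 1 : ℕ) * C)) := by
  have he1 := S.one_le
  have hE := err_le_EE S
  set R' : ℝ := R + EE ι e with hR'
  have hR'0 : 0 ≤ R' := by linarith
  have hB2 : Bd Γ w {u | (u.2.1, u.2.2, u.1) ∈ TG S.H R (L + 2 * e) (insert p A)} C :=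
    Bd.rot hw (A12_invT S _ _ _) hB
  set N : ℕ := ⌈4 * R' + 100 * e⌉₊ + 1 with hN
  have hNle : 4 * R' + 100 * e + 1 ≤ N := by
    have := Nat.le_ceil (4 * R' + 100 * e)
    rw [hN]
    push_cast
    linarith
  have hNlt : (N : ℝ) ≤ 4 * R' + 100 * e + 2 := by
    have := (Nat.ceil_lt_add_one (show 0 ≤ 4 * R' + 100 * e by linarith)).le
    rw [hN]
    push_cast
    linarith
  set T2 : Set (Y × Y × Y) := {u | (u.2.1, u.2.2, u.1) ∈ TG S.H R L A} with hT2
  have hI2 : InvT Γ T2 := fun g z x y => A12_invT S R L A g x y z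
  have hcov : ∀ u ∈ T2, ∃ t ∈ Finset.Icc (-(N : ℤ)) N, u ∈ A12_T S p R' R L A t := by
    rintro ⟨z, x, y⟩ hu
    have hu' : (x, y, z) ∈ TG S.H R L A := hu
    obtain ⟨hxy, -⟩ := hu'
    simp only at hxy
    have hdst : dst (S.H p.1) x y ≤ R' := by
      have := dst_le_dT S p.1 x y
      linarith
    have hdiff := (far_groups (S.hive p.1) x y z R' hdst).2 (p.2.val + 1)
    refine ⟨(A12_k S p R' z x : ℤ) - A12_k S p R' z y, ?_, hu, ?_⟩
    · have a1 := A12_floor (gp (S.H p.1) (p.2.val + 1) z x - 4 * R' - 100 * e)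
        (gp (S.H p.1) (p.2.val + 1) z y - 4 * R' - 100 * e)
      have a2 := A12_floor (gp (S.H p.1) (p.2.val + 1) z y - 4 * R' - 100 * e)
        (gp (S.H p.1) (p.2.val + 1) z x - 4 * R' - 100 * e)
      have a3 : |gp (S.H p.1) (p.2.val + 1) z x - 4 * R' - 100 * e -
          (gp (S.H p.1) (p.2.val + 1) z y - 4 * R' - 100 * e)| ≤ 4 * R' + 100 * e := by
        have : gp (S.H p.1) (p.2.val + 1) z x - 4 * R' - 100 * e -
          (gp (S.H p.1) (p.2.val + 1) z y - 4 * R' - 100 * e) =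
          gp (S.H p.1) (p.2.val + 1) z x - gp (S.H p.1) (p.2.val + 1) z y := by ring
        rw [this]
        exact hdiff
      rw [abs_sub_comm] at a2
      change (A12_k S p R' z x : ℝ) ≤ A12_k S p R' z y + _ + 1 at a1
      change (A12_k S p R' z y : ℝ) ≤ A12_k S p R' z x + _ + 1 at a2
      have b1 : (A12_k S p R' z x : ℝ) ≤ A12_k S p R' z y + N := by linarith
      have b2 : (A12_k S p R' z y : ℝ) ≤ A12_k S p R' z x + N := by linarith
      have c1 : A12_k S p R' z x ≤ A12_k S p R' z y + N := by exact_mod_cast b1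
      have c2 : A12_k S p R' z y ≤ A12_k S p R' z x + N := by exact_mod_cast b2
      rw [Finset.mem_Icc]
      omega
    · change (A12_k S p R' z x : ℤ) = A12_k S p R' z y +
        ((A12_k S p R' z x : ℤ) - A12_k S p R' z y)
      ring
  have hB3 : Bd Γ w T2 (∑ _t ∈ Finset.Icc (-(N : ℤ)) N, (K : ℝ≥0∞) * C) :=
    Bd.cover (Finset.Icc (-(N : ℤ)) N) (A12_T S p R' R L A) (fun _ => (K : ℝ≥0∞) * C)
      (fun t _ => A12_class S hw K hK R L hR hL A p t hB2) hcov
  have hle : (∑ _t ∈ Finset.Icc (-(N : ℤ)) N, (K : ℝ≥0∞) * C) ≤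
      ENNReal.ofReal (20 * (R + EE ι e + 1)) * ((K + 1 : ℕ) * C) := by
    rw [Finset.sum_const, nsmul_eq_mul, Int.card_Icc]
    have h1 : ((N : ℤ) + 1 - -(N : ℤ)).toNat = 2 * N + 1 := by omega
    rw [h1, ← ENNReal.ofReal_natCast]
    gcongr
    · push_cast
      rw [hR'] at hNlt
      linarith
    · exact_mod_cast Nat.le_succ K
  have hB4 : Bd Γ w T2 (ENNReal.ofReal (20 * (R + EE ι e + 1)) * ((K + 1 : ℕ) * C)) :=
    hB3.mono (fun _ h => h) hle
  have hI3 : InvT Γ {t : Y × Y × Y | (t.2.1, t.2.2, t.1) ∈ T2} := by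
    intro g a b c
    exact A12_invT S R L A g c a b
  exact Bd.rot hw hI3 (Bd.rot hw hI2 hB4)

end Space

end RDA
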