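import Pool.Agent.Lib.MP_fee02f_an.AR.A12

/-!
A13: long arms (MP_fee02f_an, additive errors).
-/

open scoped ENNReal
open RapidDecay

namespace RDA

section Space
variable {Γ Y ι : Type*} [Group Γ] [MulAction Γ Y] [Fintype ι] {e : ℝ} (S : ASpace Γ Y ι e)
variable {w : Y → ℝ≥0∞}

/-- if all gaps are at most `L` then the perimeter is small -/
theorem A13_end [DecidableEq ι] (R L : ℝ) :
    TG S.H R L (Finset.univ : Finset (ι × Fin 3)) ⊆
      TPa S.H (R + 6 * Fintype.card ι * L) := by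
  rintro ⟨x, y, z⟩ ⟨hxy, hA⟩
  simp only at hxy hA
  change pT S.H (x, y, z) ≤ _
  rw [pT_eq]
  have h1 : dT S.H z x ≤ ∑ _i : ι, 3 * L := by
    unfold dT
    refine Finset.sum_le_sum fun i _ => ?_
    rw [dst_eq_gp (S.hive i)]
    have a1 := (hA (i, 0) (Finset.mem_univ _)).1
    have a2 := (hA (i, 1) (Finset.mem_univ _)).1
    have a3 := (hA (i, 2) (Finset.mem_univ _)).1
    change gp (S.H i) 1 z x ≤ L at a1
    change gp (S.H i) 2 z x ≤ L at a2
    change gp (S.H i) 3 z x ≤ L at a3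
    linarith
  have h2 : dT S.H z y ≤ ∑ _i : ι, 3 * L := by
    unfold dT
    refine Finset.sum_le_sum fun i _ => ?_
    rw [dst_eq_gp (S.hive i)]
    have a1 := (hA (i, 0) (Finset.mem_univ _)).2
    have a2 := (hA (i, 1) (Finset.mem_univ _)).2
    have a3 := (hA (i, 2) (Finset.mem_univ _)).2
    change gp (S.H i) 1 z y ≤ L at a1
    change gp (S.H i) 2 z y ≤ L at a2
    change gp (S.H i) 3 z y ≤ L at a3
    linarith
  rw [Finset.sum_const, Finset.card_univ, nsmul_eq_mul] at h1 h2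
  have h3 := dT_comm S y z
  linarith

theorem A13_iter [DecidableEq ι] (hw : IsWt Γ w) (K : ℕ) (hK : ∀ y : Y,
      {x | dT S.H x y ≤ e}.Finite ∧ {x | dT S.H x y ≤ e}.ncard ≤ K) (R Lm : ℝ) (hR : 0 ≤ R)
    {C : ℝ≥0∞} (hB : Bd Γ w (TG S.H R Lm Finset.univ) C) (n : ℕ) :
    ∀ (A : Finset (ι × Fin 3)) (L : ℝ), (Finset.univ \ A).card = n →
      10 * R + 100 * EE ι e ≤ L → L + 2 * e * n ≤ Lm →
      Bd Γ w (TG S.H R L A)
        ((ENNReal.ofReal (20 * (R + EE ι e + 1)) * (K + 1 : ℕ)) ^ n * C) := by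
  have he1 := S.one_le
  induction n with
  | zero =>
    intro A L hA hL hLm
    have hA' : A = Finset.univ := by
      rw [Finset.card_eq_zero, Finset.sdiff_eq_empty_iff_subset] at hA
      exact Finset.univ_subset_iff.1 hA
    subst hA'
    rw [pow_zero, one_mul]
    refine hB.mono ?_ le_rfl
    rintro t ⟨h1, h2⟩
    push_cast at hLm
    refine ⟨h1, fun p hp => ⟨?_, ?_⟩⟩
    · linarith [(h2 p hp).1]
    · linarith [(h2 p hp).2]
  | succ n ih =>
    intro A L hA hL hLm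
    obtain ⟨p, hp⟩ : (Finset.univ \ A).Nonempty := by
      rw [← Finset.card_pos, hA]
      omega
    rw [Finset.mem_sdiff] at hp
    have hc : (Finset.univ \ insert p A).card = n := by
      have h1 : Finset.univ \ insert p A = (Finset.univ \ A).erase p := by
        ext q
        simp only [Finset.mem_sdiff, Finset.mem_univ, true_and, Finset.mem_insert,
          Finset.mem_erase, not_or]
      rw [h1, Finset.card_erase_of_mem (Finset.mem_sdiff.2 hp), hA]
      rfl
    have h1 := ih (insert p A) (L + 2 * e) hc (by linarith) (by push_cast at hLm; linarith)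
    have h2 := long_step S hw K hK R L hR hL A p h1
    refine h2.mono (fun _ h => h) (le_of_eq ?_)
    rw [pow_succ']
    ring

/-- (module A13) -/
theorem long_arms (hw : IsWt Γ w) (D E : ℝ) (hD : 0 ≤ D) (hE : 0 ≤ E)
    (hB : ∀ m, 0 ≤ m → Bd Γ w (TPa S.H m) (ENNReal.ofReal (E * (m + 1) ^ D))) :
    ∃ D' E' : ℝ, 0 ≤ D' ∧ 0 ≤ E' ∧ ∀ R, 0 ≤ R →
      Bd Γ w {t | dT S.H t.1 t.2.1 ≤ R} (ENNReal.ofReal (E' * (R + 1) ^ D')) := by
  classical
  obtain ⟨K, -, hK⟩ := exists_near S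
  have he1 := S.one_le
  have hEE := EE_nonneg S
  set n : ℕ := (Finset.univ : Finset (ι × Fin 3)).card with hn
  set c : ℝ := (Fintype.card ι : ℝ) with hc
  have hc0 : 0 ≤ c := Nat.cast_nonneg _
  have hn0 : (0 : ℝ) ≤ n := Nat.cast_nonneg _
  set G : ℝ := 1 + 6 * c * (10 + 100 * EE ι e + 2 * e * n) + 1 with hG
  have hG0 : 0 ≤ G := by
    rw [hG]
    have : 0 ≤ e := by linarith
    positivity
  refine ⟨D + (n : ℕ), (20 * (EE ι e + 1) * (K + 1)) ^ n * (E * G ^ D), by positivity,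
    by positivity, ?_⟩
  intro R hR
  have hR1 : (0 : ℝ) < R + 1 := by linarith
  set Lm : ℝ := 10 * R + 100 * EE ι e + 2 * e * n with hLm
  have he0 : 0 ≤ e := by linarith
  have hLm0 : 0 ≤ Lm := by positivity
  have hLmle : Lm ≤ (10 + 100 * EE ι e + 2 * e * n) * (R + 1) := by
    rw [hLm]
    have h1 : 0 ≤ (100 * EE ι e + 2 * e * n) * R := by positivity
    nlinarith
  have hM0 : 0 ≤ R + 6 * c * Lm := by positivity
  have h1 : Bd Γ w (TG S.H R Lm Finset.univ)
      (ENNReal.ofReal (E * (R + 6 * c * Lm + 1) ^ D)) :=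
    (hB _ hM0).mono (A13_end S R Lm) le_rfl
  have h2 := A13_iter S hw K hK R Lm hR h1 n ∅ (10 * R + 100 * EE ι e)
    (by rw [Finset.sdiff_empty]) le_rfl le_rfl
  refine h2.mono ?_ ?_
  · intro t ht
    refine ⟨ht, fun p hp => ?_⟩
    exact absurd hp (Finset.notMem_empty p)
  · rw [← ENNReal.ofReal_natCast, ← ENNReal.ofReal_mul (by positivity),
      ← ENNReal.ofReal_pow (by positivity), ← ENNReal.ofReal_mul (by positivity)]
    refine ENNReal.ofReal_le_ofReal ?_
    have hb : R + 6 * c * Lm + 1 ≤ G * (R + 1) := by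
      rw [hG]
      have h3 : 6 * c * Lm ≤ 6 * c * ((10 + 100 * EE ι e + 2 * e * n) * (R + 1)) :=
        mul_le_mul_of_nonneg_left hLmle (by positivity)
      nlinarith
    have hpow : (R + 6 * c * Lm + 1) ^ D ≤ G ^ D * (R + 1) ^ D := by
      rw [← Real.mul_rpow hG0 hR1.le]
      exact Real.rpow_le_rpow (by positivity) hb hD
    have hR1D : (R + 1) ^ (D + (n : ℝ)) = (R + 1) ^ D * (R + 1) ^ n := by
      rw [Real.rpow_add hR1, Real.rpow_natCast]
    have hbase : 20 * (R + EE ι e + 1) * ((K + 1 : ℕ) : ℝ) ≤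
        20 * (EE ι e + 1) * (K + 1) * (R + 1) := by
      push_cast
      have h4 : R + EE ι e + 1 ≤ (EE ι e + 1) * (R + 1) := by nlinarith
      have h5 : (0 : ℝ) ≤ (K : ℝ) + 1 := by positivity
      calc 20 * (R + EE ι e + 1) * ((K : ℝ) + 1)
          ≤ 20 * ((EE ι e + 1) * (R + 1)) * ((K : ℝ) + 1) := by gcongr
        _ = 20 * (EE ι e + 1) * (K + 1) * (R + 1) := by ring
    rw [hR1D]
    calc (20 * (R + EE ι e + 1) * ((K + 1 : ℕ) : ℝ)) ^ n * (E * (R + 6 * c * Lm + 1) ^ D)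
        ≤ (20 * (EE ι e + 1) * (K + 1) * (R + 1)) ^ n * (E * (G ^ D * (R + 1) ^ D)) := by
          gcongr
      _ = (20 * (EE ι e + 1) * (K + 1)) ^ n * (E * G ^ D) * ((R + 1) ^ D * (R + 1) ^ n) := by
          rw [mul_pow]
          ring

end Space

end RDA
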