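import Pool.Agent.Lib.MP_fee02f_an.R1
import Pool.Agent.Lib.MP_fee02f_an.R11b
import Pool.Agent.Lib.MP_fee02f_an.AR.A1
import Pool.Agent.Lib.MP_fee02f_an.AR.A5
import Pool.Agent.Lib.MP_fee02f_an.AR.A11
import Pool.Agent.Lib.MP_fee02f_an.AR.A13

/-!
A14: rapid decay for groups acting on spaces with approximate hive functions (MP_fee02f_an).
-/

open scoped ENNReal
open RapidDecay

namespace RDA

section Space
variable {Γ Y ι : Type*} [Group Γ] [MulAction Γ Y] [Fintype ι] {e : ℝ}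

theorem A14_shift (S : ASpace Γ Y ι e) (a b : Γ) (x0 : Y) :
    dT S.H (a • x0) (b • x0) = dT S.H x0 ((a⁻¹ * b) • x0) := by
  have h := dT_smul S a x0 ((a⁻¹ * b) • x0)
  rw [← h, smul_smul, mul_inv_cancel_left]

theorem rd_of_aspace (S : ASpace Γ Y ι e) (x0 : Y) (b : ℕ) (hb : ∀ y : Y, Finite (MulAction.stabilizer Γ y) ∧
    Nat.card (MulAction.stabilizer Γ y) ≤ b) : PropertyRD Γ := by
  have hE0 := EE_nonneg S
  have hnn : ∀ g : Γ, 0 ≤ dT S.H x0 (g • x0) + EE ι e := by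
    intro g
    have := dT_ge S x0 (g • x0)
    linarith
  refine ⟨fun g : Γ => dT S.H x0 (g • x0) + EE ι e, ⟨hnn, fun g => ?_, fun g h => ?_⟩, ?_⟩
  · have h1 := A14_shift S g 1 x0
    rw [one_smul, mul_one] at h1
    show dT S.H x0 (g⁻¹ • x0) + EE ι e = dT S.H x0 (g • x0) + EE ι e
    rw [← h1, dT_comm S x0 (g • x0)]
  · have h1 := dT_triangle S x0 (g • x0) ((g * h) • x0)
    have h2 := A14_shift S g (g * h) x0
    rw [inv_mul_cancel_left] at h2
    rw [h2] at h1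
    show dT S.H x0 ((g * h) • x0) + EE ι e ≤
      dT S.H x0 (g • x0) + EE ι e + (dT S.H x0 (h • x0) + EE ι e)
    linarith
  · obtain ⟨w, hw⟩ := exists_wt (Γ := Γ) (Y := Y) (fun y => (hb y).1)
    obtain ⟨D, E, hD, hE, hDE⟩ := poly_Bd S b hb hw
    obtain ⟨D', E', hD', hE', hDE'⟩ := long_arms S hw D E hD hE hDE
    refine rd_of_bd hw x0 (hb x0).1 _ hnn D' E' hD' hE' ?_
    intro R hR
    refine ⟨{t | dT S.H t.1 t.2.1 ≤ R}, ?_, ?_, hDE' R hR⟩
    · intro g x y z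
      change dT S.H (g • x) (g • y) ≤ R ↔ dT S.H x y ≤ R
      rw [dT_smul]
    · intro a b c h
      change dT S.H (a • x0) (b • x0) ≤ R
      rw [A14_shift]
      have h2 : dT S.H x0 ((a⁻¹ * b) • x0) + EE ι e ≤ R := h
      linarith

end Space

theorem rd_of_AHS {Γ Y ι : Type*} [Group Γ] [MulAction Γ Y] [Fintype ι] [DecidableEq ι]
    [Nonempty Y] (S : AHS Γ Y ι) : PropertyRD Γ := by
  obtain ⟨e, S', _⟩ := of_AHS S
  obtain ⟨x0⟩ := (inferInstance : Nonempty Y)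
  refine rd_of_aspace S' x0 1 (fun y => ?_)
  have h1 : MulAction.stabilizer Γ y = ⊥ := by
    rw [eq_bot_iff]
    intro g hg
    rw [Subgroup.mem_bot]
    exact S.free g y hg
  rw [h1]
  constructor
  · infer_instance
  · rw [Subgroup.card_bot]

end RDA
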