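import Pool.Agent.Lib.MP_fee02f_an.AR.A0

/-!
B1: the total distance on a finite product of approximate hive spaces (40 min).

PROOFS. c0 = sum of the |c_i|.  The hive of P_i is an `AHive c0` (RDA.AHive_mono).  `dst` is invariant because
`ds H a b s t = sl H a b b s t` and `RDA.dst_eq`; symmetric by RDA.dst_comm; dst a a = 0 (RDA.dst_self);
dst ≥ -3 c0 (RDA.dst_ge), triangle inequality with error 6 c0 (RDA.dst_triangle).
-/

set_option autoImplicit false

open RapidDecay

namespace RapidDecay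

variable {Γ : Type*} [Group Γ] {ι : Type*} [Fintype ι] {P : ι → Type*} [∀ i, MulAction Γ (P i)]
  (S : ∀ i, AHSpace Γ (P i))

/-- total distance -/
def dP (u v : ∀ i, P i) : ℝ := ∑ i, dst (S i).H (u i) (v i)

theorem exists_cmax : ∃ c0 : ℝ, 0 ≤ c0 ∧ ∀ i, (S i).c ≤ c0 := by
  refine ⟨∑ i, |(S i).c|, Finset.sum_nonneg fun i _ => abs_nonneg _, fun i => ?_⟩
  exact (le_abs_self _).trans
    (Finset.single_le_sum (f := fun i => |(S i).c|) (fun j _ => abs_nonneg _) (Finset.mem_univ i))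

theorem AHSpace.inv_dst {G Q : Type*} [Group G] [MulAction G Q] (S : AHSpace G Q) (g : G) (a b : Q) :
    dst S.H (g • a) (g • b) = dst S.H a b := by
  have e : ∀ a b s t : Q, ds S.H a b s t = sl S.H a b b s t := by
    intro a b s t
    unfold ds sl
    ring
  have h : ∀ s t : Q, ds S.H (g • a) (g • b) (g • s) (g • t) = ds S.H a b s t := by
    intro s t
    rw [e, e]
    exact S.inv g a b b s t
  rw [RDA.dst_eq S.hive, RDA.dst_eq S.hive, h, h, h]

theorem dP_self (u : ∀ i, P i) : dP S u u = 0 := by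
  unfold dP
  exact Finset.sum_eq_zero fun i _ => RDA.dst_self _ _

theorem dP_comm (u v : ∀ i, P i) : dP S v u = dP S u v := by
  unfold dP
  exact Finset.sum_congr rfl fun i _ => RDA.dst_comm (S i).hive _ _

theorem dP_smul (g : Γ) (u v : ∀ i, P i) : dP S (g • u) (g • v) = dP S u v := by
  unfold dP
  exact Finset.sum_congr rfl fun i _ => (S i).inv_dst g _ _

theorem dP_triangle {c0 : ℝ} (hc : ∀ i, (S i).c ≤ c0) (u v w : ∀ i, P i) :
    dP S u w ≤ dP S u v + dP S v w + 6 * (Fintype.card ι) * c0 := by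
  unfold dP
  have h : ∀ i ∈ Finset.univ, dst (S i).H (u i) (w i) ≤
      dst (S i).H (u i) (v i) + dst (S i).H (v i) (w i) + 6 * c0 := by
    intro i _
    exact RDA.dst_triangle (RDA.AHive_mono (S i).hive (hc i)) _ _ _
  refine (Finset.sum_le_sum h).trans (le_of_eq ?_)
  rw [Finset.sum_add_distrib, Finset.sum_add_distrib, Finset.sum_const, Finset.card_univ, nsmul_eq_mul]
  ring

theorem dP_ge {c0 : ℝ} (hc : ∀ i, (S i).c ≤ c0) (u v : ∀ i, P i) :
    -(3 * (Fintype.card ι) * c0) ≤ dP S u v := by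
  unfold dP
  have h : ∀ i ∈ Finset.univ, -(3 * c0) ≤ dst (S i).H (u i) (v i) := by
    intro i _
    exact RDA.dst_ge (RDA.AHive_mono (S i).hive (hc i)) _ _
  refine le_trans (le_of_eq ?_) (Finset.sum_le_sum h)
  rw [Finset.sum_const, Finset.card_univ, nsmul_eq_mul]
  ring

theorem dst_le_dP {c0 : ℝ} (h0 : 0 ≤ c0) (hc : ∀ i, (S i).c ≤ c0) (u v : ∀ i, P i) (i : ι) :
    dst (S i).H (u i) (v i) ≤ dP S u v + 3 * (Fintype.card ι) * c0 := by
  unfold dP
  have h : ∀ j ∈ Finset.univ, 0 ≤ dst (S j).H (u j) (v j) + 3 * c0 := by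
    intro j _
    have := RDA.dst_ge (RDA.AHive_mono (S j).hive (hc j)) (u j) (v j)
    linarith
  have h1 := Finset.single_le_sum h (Finset.mem_univ i)
  have h2 : ∑ j, (dst (S j).H (u j) (v j) + 3 * c0) = ∑ j, dst (S j).H (u j) (v j)
      + 3 * (Fintype.card ι) * c0 := by
    rw [Finset.sum_add_distrib, Finset.sum_const, Finset.card_univ, nsmul_eq_mul]
    ring
  rw [h2] at h1
  linarith

end RapidDecay
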