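import Pool.Agent.Lib.MP_fee02f_an.AR.B1

/-!
B2: a maximal separated set of orbits (30 min).

PROOF. Zorn (`zorn_subset`) for the sets T with: d, d' in T, D d (g • d') ≤ L implies d = d'; a union of a chain has
the property.  Let T be maximal and u a point without d in T, g with D u (g • d) ≤ L.  Then u is not in T (D u u ≤ L)
and insert u T has the property: for d in T, D u (g • d) > L, D d (g • u) = D (g⁻¹ • d) u = D u (g⁻¹ • d) > L;
for the pair u, u nothing is to be shown.  Contradiction to the maximality.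
-/

set_option autoImplicit false

namespace RapidDecay

theorem exists_sep {Γ Q : Type*} [Group Γ] [MulAction Γ Q] (D : Q → Q → ℝ) (L : ℝ)
    (hself : ∀ u, D u u ≤ L) (hcomm : ∀ u v, D v u = D u v)
    (hinv : ∀ (g : Γ) (u v : Q), D (g • u) (g • v) = D u v) :
    ∃ T : Set Q, (∀ d ∈ T, ∀ d' ∈ T, ∀ g : Γ, D d (g • d') ≤ L → d = d') ∧
      ∀ u, ∃ d ∈ T, ∃ g : Γ, D u (g • d) ≤ L := by
  classical
  let S : Set (Set Q) := {T | ∀ d ∈ T, ∀ d' ∈ T, ∀ g : Γ, D d (g • d') ≤ L → d = d'}
  obtain ⟨T, hT⟩ : ∃ T, Maximal (· ∈ S) T := by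
    refine zorn_subset S ?_
    intro c hc hchain
    refine ⟨⋃₀ c, ?_, fun s hs => Set.subset_sUnion_of_mem hs⟩
    rintro d ⟨t, ht, hd⟩ d' ⟨t', ht', hd'⟩ g hg
    rcases hchain.total ht ht' with h | h
    · exact hc ht' d (h hd) d' hd' g hg
    · exact hc ht d hd d' (h hd') g hg
  refine ⟨T, hT.prop, fun u => ?_⟩
  by_contra hcon
  push Not at hcon
  have hu : u ∉ T := by
    intro h
    have h1 := hcon u h 1
    rw [one_smul] at h1
    exact absurd (hself u) (not_le.2 h1)
  have hins : insert u T ∈ S := by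
    intro d hd d' hd' g hg
    rcases Set.mem_insert_iff.1 hd with h1 | h1
    · rcases Set.mem_insert_iff.1 hd' with h2 | h2
      · rw [h1, h2]
      · rw [h1] at hg
        exact absurd hg (not_le.2 (hcon d' h2 g))
    · rcases Set.mem_insert_iff.1 hd' with h2 | h2
      · rw [h2] at hg
        have h3 : D d (g • u) = D u (g⁻¹ • d) := by
          rw [← hinv g⁻¹ d (g • u), inv_smul_smul, hcomm]
        rw [h3] at hg
        exact absurd hg (not_le.2 (hcon d h1 g⁻¹))
      · exact hT.prop d h1 d' h2 g hg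
  have hle := hT.le_of_ge hins (Set.subset_insert u T)
  exact hu (hle (Set.mem_insert u T))

end RapidDecay
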