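import Pool.Agent.Lib.MP_fee02f_an.AR.B1

/-!
B3: growth of the net (60 min).

PROOF. Let L1 = 8 |ι| c0 ≤ L, m' = m + ⌈3 |ι| c0⌉.  If dP S u (g • d) ≤ m then dst_i(u_i, (g • d)_i) ≤ m' for all i
(dst_le_dP), so there are s_i in the finite set S_i (u_i, m') of `(S i).cover` with dst_i(s_i, (g • d)_i) ≤ c_i ≤ c0.
Two points y = (g, d), y' = (g', d') of the set with the same family (s_i) satisfy
dst_i((g d)_i, (g' d')_i) ≤ c0 + c0 + 6 c0 (RDA.dst_triangle, dst_comm), so dP(g d, g' d') ≤ L1 ≤ L, hence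
D(d, g⁻¹g' d') ≤ L, d = d', and g⁻¹ g' is in {h : dP S d (h • d) ≤ L1}, which has at most b elements (UProper).
So the set has at most b * ∏ card S_i ≤ b * ∏ C_i^(m'+1) ≤ C^(m+1) elements.
(Finiteness and cardinality: a map with finite fibres of at most b elements into the finite set ∏ S_i:
`Set.ncard`/`Finset.card_le_mul_card_image` or the fact {y | ..} ⊆ ⋃ over the families s of the fibre.)
-/

set_option autoImplicit false

namespace RapidDecay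

variable {Γ : Type*} [Group Γ] {ι : Type*} [Fintype ι] {P : ι → Type*} [∀ i, MulAction Γ (P i)]
  (S : ∀ i, AHSpace Γ (P i))

/-- the points of the net near a family of points -/
def B3_nr (T : Set (∀ i, P i)) (c0 : ℝ) (s : ∀ i, P i) : Set (Γ × T) :=
  {y | ∀ i, dst (S i).H (s i) ((y.1 • (y.2 : ∀ i, P i)) i) ≤ c0}

theorem B3_nr_card {c0 : ℝ} (hc : ∀ i, (S i).c ≤ c0) (L : ℝ)
    (hL : 8 * (Fintype.card ι) * c0 ≤ L) (T : Set (∀ i, P i))
    (hT : ∀ d ∈ T, ∀ d' ∈ T, ∀ g : Γ, dP S d (g • d') ≤ L → d = d') {b : ℕ}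
    (hb : ∀ u : ∀ i, P i, {g : Γ | dP S u (g • u) ≤ L}.Finite ∧ {g : Γ | dP S u (g • u) ≤ L}.ncard ≤ b)
    (s : ∀ i, P i) : (B3_nr S T c0 s).Finite ∧ (B3_nr S T c0 s).ncard ≤ b := by
  rcases (B3_nr S T c0 s).eq_empty_or_nonempty with h | ⟨y0, hy0⟩
  · rw [h]; simp
  have hsub : B3_nr S T c0 s ⊆ (fun h : Γ => ((y0.1 * h, y0.2) : Γ × T)) ''
      {g : Γ | dP S (y0.2 : ∀ i, P i) (g • (y0.2 : ∀ i, P i)) ≤ L} := by
    intro y hy
    have h1 : dP S (y0.1 • (y0.2 : ∀ i, P i)) (y.1 • (y.2 : ∀ i, P i)) ≤ L := by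
      refine le_trans ?_ hL
      unfold dP
      have h2 : ∀ i ∈ Finset.univ, dst (S i).H ((y0.1 • (y0.2 : ∀ i, P i)) i)
          ((y.1 • (y.2 : ∀ i, P i)) i) ≤ 8 * c0 := by
        intro i _
        have hh := RDA.AHive_mono (S i).hive (hc i)
        have h3 := RDA.dst_triangle hh ((y0.1 • (y0.2 : ∀ i, P i)) i) (s i) ((y.1 • (y.2 : ∀ i, P i)) i)
        have h4 := RDA.dst_comm hh (s i) ((y0.1 • (y0.2 : ∀ i, P i)) i)
        have h5 := hy0 i
        have h6 := hy i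
        linarith
      refine (Finset.sum_le_sum h2).trans (le_of_eq ?_)
      rw [Finset.sum_const, Finset.card_univ, nsmul_eq_mul]
      ring
    have h2 : dP S (y0.2 : ∀ i, P i) ((y0.1⁻¹ * y.1) • (y.2 : ∀ i, P i)) ≤ L := by
      rw [← dP_smul S y0.1, smul_smul, mul_inv_cancel_left]
      exact h1
    have h3 : (y0.2 : ∀ i, P i) = y.2 := hT _ y0.2.2 _ y.2.2 _ h2
    refine ⟨y0.1⁻¹ * y.1, ?_, ?_⟩
    · rw [← h3] at h2
      exact h2
    · ext1
      · simp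
      · exact Subtype.ext h3
  have hE := hb (y0.2 : ∀ i, P i)
  refine ⟨(hE.1.image _).subset hsub, ?_⟩
  exact (Set.ncard_le_ncard hsub (hE.1.image _)).trans ((Set.ncard_image_le hE.1).trans hE.2)

theorem net_growth (hU : UProper S) {c0 : ℝ} (h0 : 0 ≤ c0) (hc : ∀ i, (S i).c ≤ c0) (L : ℝ)
    (hL : 8 * (Fintype.card ι) * c0 ≤ L) (T : Set (∀ i, P i))
    (hT : ∀ d ∈ T, ∀ d' ∈ T, ∀ g : Γ, dP S d (g • d') ≤ L → d = d') :
    ∃ C : ℕ, ∀ (u : ∀ i, P i) (m : ℕ),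
      {y : Γ × T | dP S u (y.1 • (y.2 : ∀ i, P i)) ≤ m}.Finite ∧
      {y : Γ × T | dP S u (y.1 • (y.2 : ∀ i, P i)) ≤ m}.ncard ≤ C ^ (m + 1) := by
  classical
  obtain ⟨b, hb⟩ := hU L
  have hcov : ∀ i, ∃ C : ℕ, ∀ (a : P i) (m : ℕ), ∃ F : Finset (P i), F.card ≤ C ^ (m + 1) ∧
      ∀ x, dst (S i).H a x ≤ m → ∃ s ∈ F, dst (S i).H s x ≤ (S i).c := fun i => (S i).cover
  choose C hC using hcov
  choose F hF1 hF2 using hC
  set k0 : ℕ := ⌈3 * (Fintype.card ι : ℝ) * c0⌉₊ with hk0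
  set C0 : ℕ := ∏ i, (C i + 1) with hC0
  have hC01 : 1 ≤ C0 := Nat.one_le_iff_ne_zero.2 (Finset.prod_ne_zero_iff.2 fun i _ => Nat.succ_ne_zero _)
  refine ⟨(b + 1) * C0 ^ (k0 + 1), fun u m => ?_⟩
  set A : Set (Γ × T) := {y | dP S u (y.1 • (y.2 : ∀ i, P i)) ≤ m} with hA
  set G : Finset (∀ i, P i) := Fintype.piFinset fun i => F i (u i) (m + k0) with hG
  have hsub : A ⊆ ⋃ s ∈ G, B3_nr S T c0 s := by
    intro y hy
    have hy' : dP S u (y.1 • (y.2 : ∀ i, P i)) ≤ m := hy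
    have h1 : ∀ i, ∃ s ∈ F i (u i) (m + k0), dst (S i).H s ((y.1 • (y.2 : ∀ i, P i)) i) ≤ (S i).c := by
      intro i
      apply hF2
      have h2 := dst_le_dP S h0 hc u (y.1 • (y.2 : ∀ i, P i)) i
      have h3 : 3 * (Fintype.card ι : ℝ) * c0 ≤ k0 := Nat.le_ceil _
      push_cast
      linarith
    choose s hs1 hs2 using h1
    refine Set.mem_iUnion₂.2 ⟨s, Fintype.mem_piFinset.2 hs1, fun i => (hs2 i).trans (hc i)⟩
  have hn := fun s => B3_nr_card S hc L hL T hT hb s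
  have hfin : (⋃ s ∈ G, B3_nr S T c0 s).Finite := G.finite_toSet.biUnion fun s _ => (hn s).1
  refine ⟨hfin.subset hsub, ?_⟩
  have h1 : A.ncard ≤ G.card * b := by
    have hAf := hfin.subset hsub
    rw [Set.ncard_eq_toFinset_card A hAf]
    have h2 : hAf.toFinset ⊆ G.biUnion fun s => (hn s).1.toFinset := by
      intro y hy
      rw [Set.Finite.mem_toFinset] at hy
      obtain ⟨s, hs, hys⟩ := Set.mem_iUnion₂.1 (hsub hy)
      exact Finset.mem_biUnion.2 ⟨s, hs, by rw [Set.Finite.mem_toFinset]; exact hys⟩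
    refine (Finset.card_le_card h2).trans (Finset.card_biUnion_le.trans ?_)
    have h3 : ∀ s ∈ G, (hn s).1.toFinset.card ≤ b := by
      intro s _
      rw [← Set.ncard_eq_toFinset_card _ (hn s).1]
      exact (hn s).2
    have := Finset.sum_le_card_nsmul G _ b h3
    simpa using this
  have h2 : G.card ≤ C0 ^ (m + k0 + 1) := by
    rw [hG, Fintype.card_piFinset, hC0, ← Finset.prod_pow]
    refine Finset.prod_le_prod' fun i _ => (hF1 i (u i) (m + k0)).trans ?_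
    exact Nat.pow_le_pow_left (Nat.le_succ _) _
  have h3 : C0 ^ (m + k0 + 1) ≤ (C0 ^ (k0 + 1)) ^ (m + 1) := by
    rw [← pow_mul]
    apply Nat.pow_le_pow_right hC01
    nlinarith
  have h4 : b ≤ (b + 1) ^ (m + 1) := by
    calc b ≤ b + 1 := Nat.le_succ _
      _ = (b + 1) ^ 1 := (pow_one _).symm
      _ ≤ (b + 1) ^ (m + 1) := Nat.pow_le_pow_right (Nat.succ_pos _) (by omega)
  calc A.ncard ≤ G.card * b := h1
    _ ≤ (C0 ^ (k0 + 1)) ^ (m + 1) * (b + 1) ^ (m + 1) := Nat.mul_le_mul (h2.trans h3) h4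
    _ = ((b + 1) * C0 ^ (k0 + 1)) ^ (m + 1) := by rw [mul_pow]; ring

end RapidDecay
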