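import Pool.Agent.Lib.MP_fee02f_an.AR.B2
import Pool.Agent.Lib.MP_fee02f_an.AR.B3

/-!
B4: the net as an abstract approximate hive space `AHS` (90 min).

PROOF. c0 from exists_cmax, L = 8 |ι| c0, T from exists_sep for dP S.  Y = Γ × T with h • (g, d) = (h g, d) (a def
`Net` with its own MulAction instance), position π (g, d) = g • d; π (h • y) = h • π y; the action is free.
H i y1 y2 y3 y4 = (S i).H (π y1 i) (π y2 i) (π y3 i) (π y4 i); AHive (AHive_comap, AHive_mono), slacks invariant.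
growth: net_growth with u = π a.
MOVE: for d in T and q in Y choose μ(i, r, k, d, q) in Y as follows: m with (S i).Mvr r k (d i) (π q i) m
(Mvr_ex), u = Function.update d i m, and a point y of Y with dP S u (π y) ≤ L (exists_sep); put
mv i r k (g, d) q' = g • μ(i, r, k, d, g⁻¹ • q').  Equivariant by construction.
near: by invariance a = (1, d).  GroupGe (H i) a b c r k.  m, m' for b, c: dst (S i).H m m' ≤ c0 by Mvr_near; u, u' differ
only in the coordinate i, so dP u u' ≤ c0; dP (π y) (π y') ≤ L + c0 + L + 12 |ι| c0.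
slacks: tsl (H j) ![mv.., b, c] compared with the triple (u j, π b j, π c j): by RDA.sl_pert with D = L + 3 |ι| c0 (≥ 0, all
other letters are moved by 0 = dst x x) the error is ≤ 8 D + 64 c0; the triple (u j, π b j, π c j) is (m, π b i, π c i)
for j = i (Mvr_sl, error c0) and (d j, π b j, π c j) for j ≠ i.
e = a number larger than all these bounds, e.g. 1000 (|ι| + 1) (c0 + 1).
-/

set_option autoImplicit false

namespace RapidDecay

/-- the net: translates of the points of a set of representatives -/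
def B4Net (Γ : Type*) {Q : Type*} (T : Set Q) : Type _ := Γ × T

instance B4Net.act {Γ : Type*} [Group Γ] {Q : Type*} (T : Set Q) : MulAction Γ (B4Net Γ T) where
  smul g y := (g * y.1, y.2)
  one_smul y := by
    show ((1 : Γ) * y.1, y.2) = y
    rw [one_mul]
    rfl
  mul_smul g h y := by
    show ((g * h) * y.1, y.2) = (g * (h * y.1), y.2)
    rw [mul_assoc]

/-- position of a point of the net -/
def B4Net.pos {Γ : Type*} [Group Γ] {Q : Type*} [MulAction Γ Q] {T : Set Q} (y : B4Net Γ T) : Q :=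
  y.1 • (y.2 : Q)

theorem B4Net.pos_smul {Γ : Type*} [Group Γ] {Q : Type*} [MulAction Γ Q] {T : Set Q} (g : Γ)
    (y : B4Net Γ T) : (g • y).pos = g • y.pos := by
  show (g * y.1) • (y.2 : Q) = g • (y.1 • (y.2 : Q))
  rw [mul_smul]

theorem B4_GroupGe_smul {G P : Type*} [Group G] [MulAction G P] (S : AHSpace G P) (g : G)
    (a b c : P) (r : ℕ) (k : ℝ) (h : GroupGe S.H (g • a) (g • b) (g • c) r k) :
    GroupGe S.H a b c r k := by
  unfold GroupGe gm1 gm2 gm3 at *
  simpa only [S.inv] using h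

theorem B4_tsl_smul {G P : Type*} [Group G] [MulAction G P] (S : AHSpace G P) (g : G)
    (a b c : P) (k : Fin 3 × Fin 3 × Fin 3 × Fin 3 × Fin 3) :
    tsl S.H ![g • a, g • b, g • c] k = tsl S.H ![a, b, c] k := by
  have h : (![g • a, g • b, g • c] : Fin 3 → P) = fun n => g • (![a, b, c] : Fin 3 → P) n := by
    funext n
    fin_cases n <;> rfl
  rw [h]
  exact S.inv g _ _ _ _ _

theorem B4_tsl_comap {P Q : Type*} (H : P → P → P → P → ℝ) (f : Q → P) (a b c : Q)
    (k : Fin 3 × Fin 3 × Fin 3 × Fin 3 × Fin 3) :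
    tsl (fun x y z t => H (f x) (f y) (f z) (f t)) ![a, b, c] k = tsl H ![f a, f b, f c] k := by
  have h : (![f a, f b, f c] : Fin 3 → P) = fun n => f ((![a, b, c] : Fin 3 → Q) n) := by
    funext n
    fin_cases n <;> rfl
  rw [h]
  rfl

theorem B4_tsl_pert {P : Type*} {e : ℝ} {H : P → P → P → P → ℝ} (hH : AHive e H) {D : ℝ}
    (hD : 0 ≤ D) {a a' b c : P} (ha : dst H a a' ≤ D)
    (k : Fin 3 × Fin 3 × Fin 3 × Fin 3 × Fin 3) :
    |tsl H ![a, b, c] k - tsl H ![a', b, c] k| ≤ 8 * D + 64 * e := by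
  have h : ∀ n : Fin 3, dst H ((![a, b, c] : Fin 3 → P) n) ((![a', b, c] : Fin 3 → P) n) ≤ D := by
    intro n
    fin_cases n
    · exact ha
    · show dst H b b ≤ D
      rw [RDA.dst_self]
      exact hD
    · show dst H c c ≤ D
      rw [RDA.dst_self]
      exact hD
  exact RDA.sl_pert hH (h _) (h _) (h _) (h _) (h _)

theorem exists_AHS.{u, w} {Γ : Type w} [Group Γ] {ι : Type} [Fintype ι] [DecidableEq ι]
    {P : ι → Type u} [∀ i, MulAction Γ (P i)] (S : ∀ i, AHSpace Γ (P i))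
    (hne : ∀ i, Nonempty (P i)) (hU : UProper S) :
    ∃ (Y : Type (max u w)) (_ : MulAction Γ Y), Nonempty Y ∧ Nonempty (AHS Γ Y ι) := by
  obtain ⟨c0, h0, hc⟩ := exists_cmax S
  obtain ⟨L, hLdef⟩ : ∃ L : ℝ, L = 8 * (Fintype.card ι) * c0 := ⟨_, rfl⟩
  have hn : (0 : ℝ) ≤ (Fintype.card ι) * c0 := mul_nonneg (Nat.cast_nonneg _) h0
  have hL0 : 0 ≤ L := by rw [hLdef]; nlinarith
  obtain ⟨T, hT, hcov⟩ := exists_sep (Γ := Γ) (dP S) L (fun u => by rw [dP_self]; exact hL0)
    (fun u v => dP_comm S u v) (fun g u v => dP_smul S g u v)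
  have hcovY : ∀ u : (∀ i, P i), ∃ y : B4Net Γ T, dP S u y.pos ≤ L := by
    intro u
    obtain ⟨d, hd, g, hg⟩ := hcov u
    exact ⟨((g, ⟨d, hd⟩) : Γ × T), hg⟩
  have hμ : ∀ (i : ι) (r k : ℕ) (d : T) (q : B4Net Γ T), ∃ (y : B4Net Γ T) (m : P i),
      (S i).Mvr r k ((d : ∀ i, P i) i) (q.pos i) m ∧
        dP S (Function.update (d : ∀ i, P i) i m) y.pos ≤ L := by
    intro i r k d q
    obtain ⟨m, hm⟩ := (S i).Mvr_ex r k ((d : ∀ i, P i) i) (q.pos i)
    obtain ⟨y, hy⟩ := hcovY (Function.update (d : ∀ i, P i) i m)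
    exact ⟨y, m, hm, hy⟩
  choose μ mm hmm hμL using hμ
  have hpos : ∀ (a : B4Net Γ T) (i : ι), a.pos i = a.1 • ((a.2 : ∀ i, P i) i) := fun a i => rfl
  have hpinv : ∀ (g : Γ) (b : B4Net Γ T) (i : ι), b.pos i = g • ((g⁻¹ • b).pos i) := by
    intro g b i
    rw [B4Net.pos_smul]
    show b.pos i = g • (g⁻¹ • b.pos i)
    rw [smul_inv_smul]
  -- group condition after translation
  have hgr : ∀ (i : ι) (r k : ℕ) (a b c : B4Net Γ T),
      GroupGe (S i).H (a.pos i) (b.pos i) (c.pos i) r k →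
      GroupGe (S i).H ((a.2 : ∀ i, P i) i) ((a.1⁻¹ • b).pos i) ((a.1⁻¹ • c).pos i) r k := by
    intro i r k a b c h
    rw [hpos a i, hpinv a.1 b i, hpinv a.1 c i] at h
    exact B4_GroupGe_smul (S i) a.1 _ _ _ r k h
  obtain ⟨e, he⟩ : ∃ e : ℝ, e = 8 * (L + 3 * (Fintype.card ι) * c0) + 65 * c0
      + (2 * L + c0 + 12 * (Fintype.card ι) * c0) := ⟨_, rfl⟩
  have hn3 : (0 : ℝ) ≤ 3 * (Fintype.card ι) * c0 := by nlinarith
  have hn12 : (0 : ℝ) ≤ 12 * (Fintype.card ι) * c0 := by nlinarith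
  refine ⟨B4Net Γ T, B4Net.act T, ?_, ⟨?_⟩⟩
  · obtain ⟨y, -⟩ := hcovY fun i => (hne i).some
    exact ⟨y⟩
  · refine
      { H := fun i y1 y2 y3 y4 => (S i).H (y1.pos i) (y2.pos i) (y3.pos i) (y4.pos i)
        e := e
        hive := ?_
        inv := ?_
        free := ?_
        mv := fun i r k a b => a.1 • μ i r k a.2 (a.1⁻¹ • b)
        mv_smul := ?_
        mv_near := ?_
        mv_sl := ?_
        growth := ?_ }
    · intro i
      refine RDA.AHive_comap (RDA.AHive_mono (S i).hive ?_) (fun y : B4Net Γ T => y.pos i)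
      have := hc i
      rw [he]
      linarith
    · intro i g a b c s t
      show sl (S i).H ((g • a).pos i) ((g • b).pos i) ((g • c).pos i) ((g • s).pos i)
        ((g • t).pos i) = sl (S i).H (a.pos i) (b.pos i) (c.pos i) (s.pos i) (t.pos i)
      rw [B4Net.pos_smul, B4Net.pos_smul, B4Net.pos_smul, B4Net.pos_smul, B4Net.pos_smul]
      exact (S i).inv g _ _ _ _ _
    · intro g y hy
      have h1 : g * y.1 = y.1 := congrArg Prod.fst hy
      exact mul_eq_right.1 h1
    · intro i g r k a b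
      show (g * a.1) • μ i r k a.2 ((g * a.1)⁻¹ • (g • b)) = g • (a.1 • μ i r k a.2 (a.1⁻¹ • b))
      rw [mul_smul, mul_inv_rev, mul_smul, inv_smul_smul]
    · intro i r k a b c h
      have h' := hgr i r k a b c h
      have hm := (S i).Mvr_near r k _ _ _ _ _ h' (hmm i r k a.2 (a.1⁻¹ • b))
        (hmm i r k a.2 (a.1⁻¹ • c))
      show dP S (a.1 • μ i r k a.2 (a.1⁻¹ • b)).pos (a.1 • μ i r k a.2 (a.1⁻¹ • c)).pos ≤ e
      rw [B4Net.pos_smul, B4Net.pos_smul, dP_smul]
      have h1 := hμL i r k a.2 (a.1⁻¹ • b)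
      have h2 := hμL i r k a.2 (a.1⁻¹ • c)
      have h3 : dP S (Function.update (a.2 : ∀ i, P i) i (mm i r k a.2 (a.1⁻¹ • b)))
          (Function.update (a.2 : ∀ i, P i) i (mm i r k a.2 (a.1⁻¹ • c))) ≤ c0 := by
        refine le_trans (le_of_eq ?_) (hm.trans (hc i))
        unfold dP
        rw [Finset.sum_eq_single i]
        · rw [Function.update_self, Function.update_self]
        · intro j _ hj
          rw [Function.update_of_ne hj, Function.update_of_ne hj, RDA.dst_self]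
        · intro hi
          exact absurd (Finset.mem_univ i) hi
      have t1 := dP_triangle S hc (μ i r k a.2 (a.1⁻¹ • b)).pos
        (Function.update (a.2 : ∀ i, P i) i (mm i r k a.2 (a.1⁻¹ • b)))
        (μ i r k a.2 (a.1⁻¹ • c)).pos
      have t2 := dP_triangle S hc
        (Function.update (a.2 : ∀ i, P i) i (mm i r k a.2 (a.1⁻¹ • b)))
        (Function.update (a.2 : ∀ i, P i) i (mm i r k a.2 (a.1⁻¹ • c)))
        (μ i r k a.2 (a.1⁻¹ • c)).pos
      have t3 := dP_comm S (Function.update (a.2 : ∀ i, P i) i (mm i r k a.2 (a.1⁻¹ • b)))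
        (μ i r k a.2 (a.1⁻¹ • b)).pos
      rw [he]
      linarith
    · intro i r k a b c h j u v w s t huv hvw huw
      have h' := hgr i r k a b c h
      show |tsl (fun x y z t => (S j).H (x.pos j) (y.pos j) (z.pos j) (t.pos j))
          ![a.1 • μ i r k a.2 (a.1⁻¹ • b), b, c] (u, v, w, s, t)
        - (tsl (fun x y z t => (S j).H (x.pos j) (y.pos j) (z.pos j) (t.pos j))
            ![a, b, c] (u, v, w, s, t)
          - (if j = i ∧ u = 0 ∧ (if s = 0 then 1 else 0) + (if t = 0 then 1 else 0) + 1 = r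
              then (k : ℝ) else 0))| ≤ e
      rw [B4_tsl_comap (S j).H (fun y : B4Net Γ T => y.pos j),
        B4_tsl_comap (S j).H (fun y : B4Net Γ T => y.pos j)]
      show |tsl (S j).H ![(a.1 • μ i r k a.2 (a.1⁻¹ • b)).pos j, b.pos j, c.pos j] (u, v, w, s, t)
        - (tsl (S j).H ![a.pos j, b.pos j, c.pos j] (u, v, w, s, t)
          - (if j = i ∧ u = 0 ∧ (if s = 0 then 1 else 0) + (if t = 0 then 1 else 0) + 1 = r
              then (k : ℝ) else 0))| ≤ e
      rw [B4Net.pos_smul, hpos a j, hpinv a.1 b j, hpinv a.1 c j]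
      show |tsl (S j).H ![a.1 • (μ i r k a.2 (a.1⁻¹ • b)).pos j, a.1 • (a.1⁻¹ • b).pos j,
            a.1 • (a.1⁻¹ • c).pos j] (u, v, w, s, t)
        - (tsl (S j).H ![a.1 • ((a.2 : ∀ i, P i) j), a.1 • (a.1⁻¹ • b).pos j,
            a.1 • (a.1⁻¹ • c).pos j] (u, v, w, s, t)
          - (if j = i ∧ u = 0 ∧ (if s = 0 then 1 else 0) + (if t = 0 then 1 else 0) + 1 = r
              then (k : ℝ) else 0))| ≤ e
      rw [B4_tsl_smul, B4_tsl_smul]
      have h1 := hμL i r k a.2 (a.1⁻¹ • b)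
      have h2 := dst_le_dP S h0 hc (μ i r k a.2 (a.1⁻¹ • b)).pos
        (Function.update (a.2 : ∀ i, P i) i (mm i r k a.2 (a.1⁻¹ • b))) j
      rw [dP_comm] at h2
      have h3 : dst (S j).H ((μ i r k a.2 (a.1⁻¹ • b)).pos j)
          (Function.update (a.2 : ∀ i, P i) i (mm i r k a.2 (a.1⁻¹ • b)) j) ≤
          L + 3 * (Fintype.card ι) * c0 := by linarith
      have h4 := B4_tsl_pert (RDA.AHive_mono (S j).hive (hc j)) (by linarith) (b := (a.1⁻¹ • b).pos j)
        (c := (a.1⁻¹ • c).pos j) h3 (u, v, w, s, t)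
      have h5 : |tsl (S j).H ![Function.update (a.2 : ∀ i, P i) i (mm i r k a.2 (a.1⁻¹ • b)) j,
            (a.1⁻¹ • b).pos j, (a.1⁻¹ • c).pos j] (u, v, w, s, t)
          - (tsl (S j).H ![(a.2 : ∀ i, P i) j, (a.1⁻¹ • b).pos j, (a.1⁻¹ • c).pos j]
              (u, v, w, s, t)
            - (if j = i ∧ u = 0 ∧ (if s = 0 then 1 else 0) + (if t = 0 then 1 else 0) + 1 = r
                then (k : ℝ) else 0))| ≤ c0 := by
        by_cases hj : j = i
        · subst hj
          rw [Function.update_self]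
          have h6 := (S j).Mvr_sl r k _ _ _ _ h' (hmm j r k a.2 (a.1⁻¹ • b)) u v w s t huv hvw huw
          simp only [true_and]
          exact h6.trans (hc j)
        · rw [Function.update_of_ne hj, if_neg (fun hh => hj hh.1)]
          rw [sub_zero, sub_self, abs_zero]
          exact h0
      refine (RDA.abs_trans h4 h5).trans ?_
      rw [he]
      linarith
    · obtain ⟨C, hC⟩ := net_growth S hU h0 hc L (le_of_eq hLdef.symm) T hT
      exact ⟨C, fun a m => hC a.pos m⟩

end RapidDecay
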