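import Pool.Agent.Lib.MP_fee02f_an.AR.Defs
import Pool.Agent.Lib.MP_fee02f_an.L2a

/-!
C0: elementary properties of `DD` (45 min).

PROOFS.
* `dt_lin`: `dt x y z t` is linear in `x` (Laplace along the first row, or `dt_add`, `dt_smul` of
  DefsL and the basis `Pi.single i 1`): φ i := dt (Pi.single i 1) y z t.
* symmetries: a transposition of two rows changes `dt` by the factor -1
  (`Matrix.det_permute'` or expansion with `Matrix.det_succ_row_zero` + `Fin.sum_univ_succ` + ring),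
  then `norm_neg` and `Finset.sum_comm`.
* `DD_mono`: for fixed j k l choose φ by `dt_lin`; ∑ i ‖dt (a i) (b j) (c k) (d l)‖^2 = Nf a φ.
* `DD_map`: the matrix with rows g x, g y, g z, g t is (the matrix with rows x y z t) * gᵀ.
* `Nf_unitary`: ∑_j |∑_i φ_i (A U)_ij|^2 = |Uᵀ (Aᵀ φ)|^2 = |Aᵀ φ|^2, Uᵀ is unitary.
* `DD_pos`: if all dt vanish then, the columns of A (resp. B, C, E) being a basis, dt vanishes on all
  quadruples of vectors, but dt of the standard basis is 1.  (Or: for invertible A there is c > 0 with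
  c * Nf (fr 1) φ ≤ Nf (fr A) φ, use DD_mono four times and DD (fr 1) (fr 1) (fr 1) (fr 1) = 24.)
-/

set_option autoImplicit false

namespace RapidDecay

variable {𝕜 : Type*} [RCLike 𝕜] {p q r s p' : ℕ}

theorem dt_lin (y z t : Fin 4 → 𝕜) : ∃ φ : Fin 4 → 𝕜, ∀ x, dt x y z t = dotProduct φ x := by
  obtain ⟨f, hf⟩ : ∃ f : (Fin 4 → 𝕜) →ₗ[𝕜] 𝕜, ∀ x, f x = dt x y z t :=
    ⟨{ toFun := fun x => dt x y z t
       map_add' := fun a b => dt_add a b y z t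
       map_smul' := fun c a => by simp only [dt_smul, RingHom.id_apply, smul_eq_mul] },
      fun _ => rfl⟩
  refine ⟨fun i => f (fun j => if i = j then 1 else 0), fun x => ?_⟩
  rw [← hf, LinearMap.pi_apply_eq_sum_univ f x]
  unfold dotProduct
  refine Finset.sum_congr rfl fun i _ => ?_
  rw [smul_eq_mul, mul_comm]

theorem DD_nonneg (a : Fin p → Fin 4 → 𝕜) (b : Fin q → Fin 4 → 𝕜) (c : Fin r → Fin 4 → 𝕜)
    (d : Fin s → Fin 4 → 𝕜) : 0 ≤ DD a b c d := by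
  unfold DD
  exact Finset.sum_nonneg fun _ _ => Finset.sum_nonneg fun _ _ => Finset.sum_nonneg fun _ _ =>
    Finset.sum_nonneg fun _ _ => sq_nonneg _

theorem DD_s12 (a : Fin p → Fin 4 → 𝕜) (b : Fin q → Fin 4 → 𝕜) (c : Fin r → Fin 4 → 𝕜)
    (d : Fin s → Fin 4 → 𝕜) : DD a b c d = DD b a c d := by
  unfold DD
  rw [Finset.sum_comm]
  refine Finset.sum_congr rfl fun j _ => Finset.sum_congr rfl fun i _ =>
    Finset.sum_congr rfl fun k _ => Finset.sum_congr rfl fun l _ => ?_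
  rw [L2a_dt01 (b j) (a i), norm_neg]

theorem DD_s23 (a : Fin p → Fin 4 → 𝕜) (b : Fin q → Fin 4 → 𝕜) (c : Fin r → Fin 4 → 𝕜)
    (d : Fin s → Fin 4 → 𝕜) : DD a b c d = DD a c b d := by
  unfold DD
  refine Finset.sum_congr rfl fun i _ => ?_
  rw [Finset.sum_comm]
  refine Finset.sum_congr rfl fun j _ =>
    Finset.sum_congr rfl fun k _ => Finset.sum_congr rfl fun l _ => ?_
  rw [L2a_dt12 (a i) (c j) (b k), norm_neg]

theorem DD_s34 (a : Fin p → Fin 4 → 𝕜) (b : Fin q → Fin 4 → 𝕜) (c : Fin r → Fin 4 → 𝕜)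
    (d : Fin s → Fin 4 → 𝕜) : DD a b c d = DD a b d c := by
  unfold DD
  refine Finset.sum_congr rfl fun i _ => Finset.sum_congr rfl fun j _ => ?_
  rw [Finset.sum_comm]
  refine Finset.sum_congr rfl fun k _ => Finset.sum_congr rfl fun l _ => ?_
  rw [L2a_dt23 (a i) (b j) (d k) (c l), norm_neg]

/-- the first family may be treated vector by vector -/
theorem DD_eq_sum (a : Fin p → Fin 4 → 𝕜) (b : Fin q → Fin 4 → 𝕜) (c : Fin r → Fin 4 → 𝕜)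
    (d : Fin s → Fin 4 → 𝕜) : DD a b c d = ∑ i, DD (vec1 (a i)) b c d := by
  unfold DD vec1
  refine Finset.sum_congr rfl fun i _ => ?_
  rw [Fin.sum_univ_one]

/-- `DD` as a sum of values of the form `Nf`. -/
theorem C0_DD_eq (a : Fin p → Fin 4 → 𝕜) (b : Fin q → Fin 4 → 𝕜) (c : Fin r → Fin 4 → 𝕜)
    (d : Fin s → Fin 4 → 𝕜) : DD a b c d = ∑ j, ∑ k, ∑ l,
      Nf a (dt_lin (b j) (c k) (d l)).choose := by
  unfold DD Nf
  rw [Finset.sum_comm]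
  refine Finset.sum_congr rfl fun j _ => ?_
  rw [Finset.sum_comm]
  refine Finset.sum_congr rfl fun k _ => ?_
  rw [Finset.sum_comm]
  refine Finset.sum_congr rfl fun l _ => Finset.sum_congr rfl fun i _ => ?_
  rw [(dt_lin (b j) (c k) (d l)).choose_spec (a i)]

theorem DD_mono {a : Fin p → Fin 4 → 𝕜} {a' : Fin p' → Fin 4 → 𝕜} {κ : ℝ}
    (h : ∀ φ, Nf a φ ≤ κ * Nf a' φ) (b : Fin q → Fin 4 → 𝕜) (c : Fin r → Fin 4 → 𝕜)
    (d : Fin s → Fin 4 → 𝕜) : DD a b c d ≤ κ * DD a' b c d := by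
  rw [C0_DD_eq, C0_DD_eq, Finset.mul_sum]
  refine Finset.sum_le_sum fun j _ => ?_
  rw [Finset.mul_sum]
  refine Finset.sum_le_sum fun k _ => ?_
  rw [Finset.mul_sum]
  exact Finset.sum_le_sum fun l _ => h _

theorem DD_congr {a : Fin p → Fin 4 → 𝕜} {a' : Fin p' → Fin 4 → 𝕜}
    (h : ∀ φ, Nf a φ = Nf a' φ) (b : Fin q → Fin 4 → 𝕜) (c : Fin r → Fin 4 → 𝕜)
    (d : Fin s → Fin 4 → 𝕜) : DD a b c d = DD a' b c d := by
  rw [C0_DD_eq, C0_DD_eq]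
  exact Finset.sum_congr rfl fun j _ => Finset.sum_congr rfl fun k _ =>
    Finset.sum_congr rfl fun l _ => h _

theorem DD_smul (t : 𝕜) (a : Fin p → Fin 4 → 𝕜) (b : Fin q → Fin 4 → 𝕜) (c : Fin r → Fin 4 → 𝕜)
    (d : Fin s → Fin 4 → 𝕜) : DD (fun i => t • a i) b c d = ‖t‖ ^ 2 * DD a b c d := by
  unfold DD
  rw [Finset.mul_sum]
  refine Finset.sum_congr rfl fun i _ => ?_
  rw [Finset.mul_sum]
  refine Finset.sum_congr rfl fun j _ => ?_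
  rw [Finset.mul_sum]
  refine Finset.sum_congr rfl fun k _ => ?_
  rw [Finset.mul_sum]
  refine Finset.sum_congr rfl fun l _ => ?_
  rw [dt_smul, norm_mul, mul_pow]

theorem C0_dt_map (g : Matrix (Fin 4) (Fin 4) 𝕜) (x y z t : Fin 4 → 𝕜) :
    dt (g.mulVec x) (g.mulVec y) (g.mulVec z) (g.mulVec t) = g.det * dt x y z t := by
  have h : Matrix.of ![g.mulVec x, g.mulVec y, g.mulVec z, g.mulVec t] =
      Matrix.of ![x, y, z, t] * g.transpose := by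
    ext i j
    fin_cases i <;>
    simp [Matrix.mul_apply, Matrix.mulVec, dotProduct, mul_comm]
  unfold dt
  rw [h, Matrix.det_mul, Matrix.det_transpose, mul_comm]

theorem DD_map (g : Matrix (Fin 4) (Fin 4) 𝕜) (a : Fin p → Fin 4 → 𝕜) (b : Fin q → Fin 4 → 𝕜)
    (c : Fin r → Fin 4 → 𝕜) (d : Fin s → Fin 4 → 𝕜) :
    DD (fun i => g.mulVec (a i)) (fun i => g.mulVec (b i)) (fun i => g.mulVec (c i))
      (fun i => g.mulVec (d i)) = ‖g.det‖ ^ 2 * DD a b c d := by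
  unfold DD
  rw [Finset.mul_sum]
  refine Finset.sum_congr rfl fun i _ => ?_
  rw [Finset.mul_sum]
  refine Finset.sum_congr rfl fun j _ => ?_
  rw [Finset.mul_sum]
  refine Finset.sum_congr rfl fun k _ => ?_
  rw [Finset.mul_sum]
  refine Finset.sum_congr rfl fun l _ => ?_
  rw [C0_dt_map, norm_mul, mul_pow]

theorem fr_mul (g A : GL (Fin 4) 𝕜) (j : Fin 4) : fr (g * A) j = g.1.mulVec (fr A j) := by
  ext i
  rfl

theorem DD_fr_mul (g A B C E : GL (Fin 4) 𝕜) :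
    DD (fr (g * A)) (fr (g * B)) (fr (g * C)) (fr (g * E))
      = ‖g.1.det‖ ^ 2 * DD (fr A) (fr B) (fr C) (fr E) := by
  rw [← DD_map]
  rfl

/-- A unitary matrix preserves the sum of the squares. -/
theorem C0_unitary (U : Matrix (Fin 4) (Fin 4) 𝕜) (hU : U ∈ Matrix.unitaryGroup (Fin 4) 𝕜)
    (x : Fin 4 → 𝕜) : ∑ j, ‖Matrix.vecMul x U j‖ ^ 2 = ∑ j, ‖x j‖ ^ 2 := by
  have h1 : ∀ y : Fin 4 → 𝕜, ((∑ j, ‖y j‖ ^ 2 : ℝ) : 𝕜) = dotProduct y (star y) := by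
    intro y
    unfold dotProduct
    push_cast
    refine Finset.sum_congr rfl fun j _ => ?_
    rw [Pi.star_apply, RCLike.star_def, RCLike.mul_conj]
  have h2 : ((∑ j, ‖Matrix.vecMul x U j‖ ^ 2 : ℝ) : 𝕜) = ((∑ j, ‖x j‖ ^ 2 : ℝ) : 𝕜) := by
    rw [h1, h1, Matrix.star_vecMul, Matrix.dotProduct_mulVec, Matrix.vecMul_vecMul]
    have h3 : U * star U = 1 := (Matrix.mem_unitaryGroup_iff).1 hU
    rw [← Matrix.star_eq_conjTranspose, h3, Matrix.vecMul_one]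
  exact_mod_cast h2

theorem Nf_unitary (A U : Matrix (Fin 4) (Fin 4) 𝕜) (hU : U ∈ Matrix.unitaryGroup (Fin 4) 𝕜)
    (φ : Fin 4 → 𝕜) : Nf (fun j i => (A * U) i j) φ = Nf (fun j i => A i j) φ := by
  have h1 : ∀ (B : Matrix (Fin 4) (Fin 4) 𝕜), Nf (fun j i => B i j) φ =
      ∑ j, ‖Matrix.vecMul φ B j‖ ^ 2 := fun B => rfl
  rw [h1, h1, ← Matrix.vecMul_vecMul]
  exact C0_unitary U hU _

/-- The coordinates of a functional in an invertible frame. -/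
theorem C0_lower (A : GL (Fin 4) 𝕜) : ∃ κ : ℝ, 0 < κ ∧ ∀ φ : Fin 4 → 𝕜,
    Nf (fr (1 : GL (Fin 4) 𝕜)) φ ≤ κ * Nf (fr A) φ := by
  have h1 : ∀ (B : GL (Fin 4) 𝕜) (φ : Fin 4 → 𝕜), Nf (fr B) φ =
      ∑ j, ‖Matrix.vecMul φ B.1 j‖ ^ 2 := fun B φ => rfl
  obtain ⟨κ, hκ⟩ : ∃ κ : ℝ, κ = ∑ j, ∑ i, ‖(A⁻¹).1 i j‖ ^ 2 := ⟨_, rfl⟩
  refine ⟨κ + 1, by
    rw [hκ]
    have : 0 ≤ ∑ j, ∑ i, ‖(A⁻¹).1 i j‖ ^ 2 :=
      Finset.sum_nonneg fun _ _ => Finset.sum_nonneg fun _ _ => sq_nonneg _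
    linarith, fun φ => ?_⟩
  have hN : 0 ≤ Nf (fr A) φ := Finset.sum_nonneg fun _ _ => sq_nonneg _
  have h2 : Nf (fr (1 : GL (Fin 4) 𝕜)) φ ≤ κ * Nf (fr A) φ := by
    rw [h1, h1]
    obtain ⟨ψ, hψ⟩ : ∃ ψ, ψ = Matrix.vecMul φ A.1 := ⟨_, rfl⟩
    rw [← hψ]
    have h3 : Matrix.vecMul φ (1 : GL (Fin 4) 𝕜).1 = Matrix.vecMul ψ (A⁻¹).1 := by
      rw [hψ, Matrix.vecMul_vecMul]
      congr 1
      exact (Units.mul_inv A).symm
    rw [h3, hκ, Finset.sum_mul]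
    refine Finset.sum_le_sum fun j _ => ?_
    have h4 : Matrix.vecMul ψ (A⁻¹).1 j = ∑ i, ψ i * (A⁻¹).1 i j := rfl
    rw [h4]
    calc ‖∑ i, ψ i * (A⁻¹).1 i j‖ ^ 2 ≤ (∑ i, ‖ψ i‖ * ‖(A⁻¹).1 i j‖) ^ 2 := by
          gcongr
          refine (norm_sum_le _ _).trans (le_of_eq ?_)
          exact Finset.sum_congr rfl fun i _ => norm_mul _ _
      _ ≤ (∑ i, ‖ψ i‖ ^ 2) * ∑ i, ‖(A⁻¹).1 i j‖ ^ 2 := Finset.sum_mul_sq_le_sq_mul_sq _ _ _
      _ = _ := mul_comm _ _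
  linarith

theorem C0_one_pos : 0 < DD (fr (1 : GL (Fin 4) 𝕜)) (fr (1 : GL (Fin 4) 𝕜))
    (fr (1 : GL (Fin 4) 𝕜)) (fr (1 : GL (Fin 4) 𝕜)) := by
  have h1 : dt (fr (1 : GL (Fin 4) 𝕜) 0) (fr (1 : GL (Fin 4) 𝕜) 1) (fr (1 : GL (Fin 4) 𝕜) 2)
      (fr (1 : GL (Fin 4) 𝕜) 3) = 1 := by
    unfold dt
    have : Matrix.of ![fr (1 : GL (Fin 4) 𝕜) 0, fr (1 : GL (Fin 4) 𝕜) 1,
        fr (1 : GL (Fin 4) 𝕜) 2, fr (1 : GL (Fin 4) 𝕜) 3] = 1 := by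
      ext i j
      fin_cases i <;> fin_cases j <;> simp [fr]
    rw [this, Matrix.det_one]
  have h2 : ‖dt (fr (1 : GL (Fin 4) 𝕜) 0) (fr (1 : GL (Fin 4) 𝕜) 1) (fr (1 : GL (Fin 4) 𝕜) 2)
      (fr (1 : GL (Fin 4) 𝕜) 3)‖ ^ 2 ≤ DD (fr (1 : GL (Fin 4) 𝕜)) (fr (1 : GL (Fin 4) 𝕜))
    (fr (1 : GL (Fin 4) 𝕜)) (fr (1 : GL (Fin 4) 𝕜)) := by
    unfold DD
    refine le_trans ?_ (Finset.single_le_sum (f := fun i => ∑ j, ∑ k, ∑ l,
      ‖dt (fr (1 : GL (Fin 4) 𝕜) i) (fr (1 : GL (Fin 4) 𝕜) j) (fr (1 : GL (Fin 4) 𝕜) k)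
      (fr (1 : GL (Fin 4) 𝕜) l)‖ ^ 2) (fun _ _ => Finset.sum_nonneg fun _ _ =>
        Finset.sum_nonneg fun _ _ => Finset.sum_nonneg fun _ _ => sq_nonneg _)
        (Finset.mem_univ 0))
    refine le_trans ?_ (Finset.single_le_sum (f := fun j => ∑ k, ∑ l,
      ‖dt (fr (1 : GL (Fin 4) 𝕜) 0) (fr (1 : GL (Fin 4) 𝕜) j) (fr (1 : GL (Fin 4) 𝕜) k)
      (fr (1 : GL (Fin 4) 𝕜) l)‖ ^ 2) (fun _ _ =>
        Finset.sum_nonneg fun _ _ => Finset.sum_nonneg fun _ _ => sq_nonneg _)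
        (Finset.mem_univ 1))
    refine le_trans ?_ (Finset.single_le_sum (f := fun k => ∑ l,
      ‖dt (fr (1 : GL (Fin 4) 𝕜) 0) (fr (1 : GL (Fin 4) 𝕜) 1) (fr (1 : GL (Fin 4) 𝕜) k)
      (fr (1 : GL (Fin 4) 𝕜) l)‖ ^ 2) (fun _ _ => Finset.sum_nonneg fun _ _ => sq_nonneg _)
        (Finset.mem_univ 2))
    exact Finset.single_le_sum (f := fun l =>
      ‖dt (fr (1 : GL (Fin 4) 𝕜) 0) (fr (1 : GL (Fin 4) 𝕜) 1) (fr (1 : GL (Fin 4) 𝕜) 2)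
      (fr (1 : GL (Fin 4) 𝕜) l)‖ ^ 2) (fun _ _ => sq_nonneg _) (Finset.mem_univ 3)
  rw [h1] at h2
  simp only [norm_one, one_pow] at h2
  linarith

theorem C0_step (A : GL (Fin 4) 𝕜) {b : Fin q → Fin 4 → 𝕜} {c : Fin r → Fin 4 → 𝕜}
    {d : Fin s → Fin 4 → 𝕜} (h : 0 < DD (fr (1 : GL (Fin 4) 𝕜)) b c d) :
    0 < DD (fr A) b c d := by
  obtain ⟨κ, hκ, h1⟩ := C0_lower A
  have h2 := DD_mono h1 b c d
  by_contra hcon
  push Not at hcon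
  have h3 : κ * DD (fr A) b c d ≤ 0 := mul_nonpos_of_nonneg_of_nonpos hκ.le hcon
  linarith

theorem DD_pos (A B C E : GL (Fin 4) 𝕜) : 0 < DD (fr A) (fr B) (fr C) (fr E) := by
  have h1 := C0_one_pos (𝕜 := 𝕜)
  have h2 := C0_step E h1
  rw [DD_s12, DD_s23, DD_s34] at h2
  have h3 := C0_step C h2
  rw [DD_s12, DD_s23, DD_s34] at h3
  have h4 := C0_step B h3
  rw [DD_s12, DD_s23, DD_s34] at h4
  have h5 := C0_step A h4
  rw [DD_s34, DD_s23, DD_s34] at h5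
  exact h5

end RapidDecay
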