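import Pool.Agent.Lib.MP_fee02f_an.AR.C0
import Pool.Agent.Lib.MP_fee02f_an.L2b

/-!
C1: the Pluecker relation for `DD` (75 min).

PROOFS.  `three_term`: expand the determinants (there is a proof over every field in the landed
L2 files, look for the three term relation; otherwise expand by the first two rows; or fix a basis).
`three_term_pol` (the relation polarised in s and t): put
T(s,t) = dt s t a b * dt s t c d - dt s t a c * dt s t b d + dt s t a d * dt s t b c = 0.  Then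
T(s+s',t+t') - T(s+s',t) - T(s+s',t') - T(s,t+t') - T(s',t+t') + T(s,t) + T(s,t') + T(s',t) + T(s',t')
= 0; expand with additivity of dt in the first and in the second slot and use ring
(linear_combination of the nine instances).
`polar_le`: |T1+T2+T3+T4|^2 ≤ 4 (|T1|^2+...+|T4|^2), each of the four sums is X * Y.
`polar_ge`: |T1+..+T4|^2 = sum |T_a|^2 + 2 Re sum_{a<b} T_a conj(T_b) and each of the six cross sums is
real and nonnegative:
 T1 conj T2: sum_{i,i',j,j'} x_ij y_i'j' conj(x_i'j) conj(y_ij') = sum_{j,j'} |sum_i x_ij conj(y_ij')|^2,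
 T3 conj T4: sum x_ij' y_i'j conj(x_i'j') conj(y_ij) = the same with j,j' exchanged,
 T1 conj T3: sum x_ij y_i'j' conj(x_ij') conj(y_i'j) = sum_{i,i'} |sum_j x_ij conj(y_i'j)|^2, T2 conj T4 the same,
 T1 conj T4: sum x_ij y_i'j' conj(x_i'j') conj(y_ij) = |sum_ij x_ij conj(y_ij)|^2, T2 conj T3 the same.
`DD_pl`: for fixed indices of a, b, c, d put x_ij = dt (s i) (t j) a b, y_ij = dt (s i) (t j) c d etc.;
by three_term_pol |P(ab,cd)|^2 ≤ 2 |P(ac,bd)|^2 + 2 |P(ad,bc)|^2, where P is the sum of four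
products; sum over i,i',j,j' and over the indices of a,b,c,d, polar_ge on the left, polar_le on the right:
4 D(stab) D(stcd) ≤ 32 (D(stac) D(stbd) + D(stad) D(stbc)).
-/

set_option autoImplicit false

namespace RapidDecay

variable {𝕜 : Type*} [RCLike 𝕜]

theorem three_term (s t a b c d : Fin 4 → 𝕜) :
    dt s t a b * dt s t c d - dt s t a c * dt s t b d + dt s t a d * dt s t b c = 0 := by
  have h := L2b_three s t a b c d
  have e : ∀ x y z t : Fin 4 → 𝕜, L2b_D x y z t = dt x y z t := fun _ _ _ _ => rfl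
  simp only [e] at h
  linear_combination h

/-- the polarised products -/
def pol (s s' t t' a b c d : Fin 4 → 𝕜) : 𝕜 :=
  dt s t a b * dt s' t' c d + dt s' t a b * dt s t' c d + dt s t' a b * dt s' t c d
    + dt s' t' a b * dt s t c d

theorem C1_add2 (x y y' z t : Fin 4 → 𝕜) : dt x (y + y') z t = dt x y z t + dt x y' z t := by
  rw [L2a_dt01, dt_add, L2a_dt01 x y, L2a_dt01 x y']
  ring

theorem three_term_pol (s s' t t' a b c d : Fin 4 → 𝕜) :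
    pol s s' t t' a b c d - pol s s' t t' a c b d + pol s s' t t' a d b c = 0 := by
  have h1 := three_term (s + s') (t + t') a b c d
  have h2 := three_term (s + s') t a b c d
  have h3 := three_term (s + s') t' a b c d
  have h4 := three_term s (t + t') a b c d
  have h5 := three_term s' (t + t') a b c d
  have h6 := three_term s t a b c d
  have h7 := three_term s t' a b c d
  have h8 := three_term s' t a b c d
  have h9 := three_term s' t' a b c d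
  simp only [dt_add, C1_add2] at h1 h2 h3 h4 h5
  unfold pol
  linear_combination h1 - h2 - h3 - h4 - h5 + h6 + h7 + h8 + h9

theorem C1_prod {k l m n : ℕ} (f : Fin k → Fin l → ℝ) (g : Fin m → Fin n → ℝ) :
    ∑ i, ∑ j, ∑ i', ∑ j', f i j * g i' j' = (∑ i, ∑ j, f i j) * ∑ i', ∑ j', g i' j' := by
  rw [Finset.sum_mul]
  refine Finset.sum_congr rfl fun i _ => ?_
  rw [Finset.sum_mul]
  refine Finset.sum_congr rfl fun j _ => ?_
  rw [Finset.mul_sum]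
  refine Finset.sum_congr rfl fun i' _ => ?_
  rw [Finset.mul_sum]

theorem C1_prod' {p q : ℕ} (f g : Fin p → Fin q → ℝ) :
    ∑ i, ∑ i', ∑ j, ∑ j', f i j * g i' j' = (∑ i, ∑ j, f i j) * ∑ i, ∑ j, g i j := by
  rw [← C1_prod]
  refine Finset.sum_congr rfl fun i _ => ?_
  rw [Finset.sum_comm]

/-- The sums of the squares of the four products. -/
theorem C1_squares {p q : ℕ} (x y : Fin p → Fin q → 𝕜) :
    ∑ i, ∑ i', ∑ j, ∑ j', (‖x i j * y i' j'‖ ^ 2 + ‖x i' j * y i j'‖ ^ 2 +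
      ‖x i j' * y i' j‖ ^ 2 + ‖x i' j' * y i j‖ ^ 2) =
      4 * ((∑ i, ∑ j, ‖x i j‖ ^ 2) * ∑ i, ∑ j, ‖y i j‖ ^ 2) := by
  have h1 : ∑ i, ∑ i', ∑ j, ∑ j', ‖x i j * y i' j'‖ ^ 2 =
      (∑ i, ∑ j, ‖x i j‖ ^ 2) * ∑ i, ∑ j, ‖y i j‖ ^ 2 := by
    rw [← C1_prod']
    simp only [norm_mul, mul_pow]
  have h2 : ∑ i, ∑ i', ∑ j, ∑ j', ‖x i' j * y i j'‖ ^ 2 =
      (∑ i, ∑ j, ‖x i j‖ ^ 2) * ∑ i, ∑ j, ‖y i j‖ ^ 2 := by
    rw [← h1, Finset.sum_comm]
  have h3 : ∑ i, ∑ i', ∑ j, ∑ j', ‖x i j' * y i' j‖ ^ 2 =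
      (∑ i, ∑ j, ‖x i j‖ ^ 2) * ∑ i, ∑ j, ‖y i j‖ ^ 2 := by
    rw [← h1]
    refine Finset.sum_congr rfl fun i _ => Finset.sum_congr rfl fun i' _ => ?_
    rw [Finset.sum_comm]
  have h4 : ∑ i, ∑ i', ∑ j, ∑ j', ‖x i' j' * y i j‖ ^ 2 =
      (∑ i, ∑ j, ‖x i j‖ ^ 2) * ∑ i, ∑ j, ‖y i j‖ ^ 2 := by
    rw [← h3, Finset.sum_comm]
  simp only [Finset.sum_add_distrib]
  rw [h1, h2, h3, h4]
  ring

theorem C1_four (a b c d : 𝕜) : ‖a + b + c + d‖ ^ 2 ≤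
    4 * (‖a‖ ^ 2 + ‖b‖ ^ 2 + ‖c‖ ^ 2 + ‖d‖ ^ 2) := by
  have h1 : ‖a + b + c + d‖ ≤ ‖a‖ + ‖b‖ + ‖c‖ + ‖d‖ := norm_add₄_le
  have h2 : ‖a + b + c + d‖ ^ 2 ≤ (‖a‖ + ‖b‖ + ‖c‖ + ‖d‖) ^ 2 :=
    pow_le_pow_left₀ (norm_nonneg _) h1 2
  nlinarith [sq_nonneg (‖a‖ - ‖b‖), sq_nonneg (‖a‖ - ‖c‖), sq_nonneg (‖a‖ - ‖d‖),
    sq_nonneg (‖b‖ - ‖c‖), sq_nonneg (‖b‖ - ‖d‖), sq_nonneg (‖c‖ - ‖d‖)]

theorem polar_le {p q : ℕ} (x y : Fin p → Fin q → 𝕜) :
    ∑ i, ∑ i', ∑ j, ∑ j', ‖x i j * y i' j' + x i' j * y i j' + x i j' * y i' j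
      + x i' j' * y i j‖ ^ 2 ≤ 16 * ((∑ i, ∑ j, ‖x i j‖ ^ 2) * ∑ i, ∑ j, ‖y i j‖ ^ 2) := by
  have h1 := C1_squares x y
  calc ∑ i, ∑ i', ∑ j, ∑ j', ‖x i j * y i' j' + x i' j * y i j' + x i j' * y i' j
      + x i' j' * y i j‖ ^ 2
      ≤ ∑ i, ∑ i', ∑ j, ∑ j', 4 * (‖x i j * y i' j'‖ ^ 2 + ‖x i' j * y i j'‖ ^ 2 +
      ‖x i j' * y i' j‖ ^ 2 + ‖x i' j' * y i j‖ ^ 2) :=
        Finset.sum_le_sum fun i _ => Finset.sum_le_sum fun i' _ => Finset.sum_le_sum fun j _ =>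
          Finset.sum_le_sum fun j' _ => C1_four _ _ _ _
    _ = 4 * ∑ i, ∑ i', ∑ j, ∑ j', (‖x i j * y i' j'‖ ^ 2 + ‖x i' j * y i j'‖ ^ 2 +
      ‖x i j' * y i' j‖ ^ 2 + ‖x i' j' * y i j‖ ^ 2) := by
        simp only [Finset.mul_sum]
    _ = _ := by
        rw [h1]
        ring

/-- The square of the norm of a sum of four numbers. -/
theorem C1_expand (a b c d : 𝕜) : ‖a + b + c + d‖ ^ 2 = ‖a‖ ^ 2 + ‖b‖ ^ 2 + ‖c‖ ^ 2 + ‖d‖ ^ 2 +
    2 * (RCLike.re (a * star b) + RCLike.re (a * star c) + RCLike.re (a * star d) +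
      RCLike.re (b * star c) + RCLike.re (b * star d) + RCLike.re (c * star d)) := by
  simp only [RCLike.norm_sq_eq_def, map_add, RCLike.mul_re, RCLike.star_def, RCLike.conj_re,
    RCLike.conj_im]
  ring

/-- The cross terms. -/
theorem C1_cross {α : Type*} [Fintype α] (u v : α → 𝕜) :
    0 ≤ ∑ i, ∑ i', RCLike.re ((u i * v i') * star (u i' * v i)) := by
  have h1 : ∑ i, ∑ i', RCLike.re ((u i * v i') * star (u i' * v i)) =
      RCLike.re ((∑ i, u i * star (v i)) * star (∑ i, u i * star (v i))) := by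
    rw [star_sum, Finset.sum_mul_sum, map_sum]
    refine Finset.sum_congr rfl fun i _ => ?_
    rw [map_sum]
    refine Finset.sum_congr rfl fun i' _ => ?_
    congr 1
    rw [star_mul', star_mul', star_star]
    ring
  rw [h1, RCLike.star_def, RCLike.mul_conj]
  have h2 : (((‖∑ i, u i * star (v i)‖ : ℝ) : 𝕜) ^ 2) = ((‖∑ i, u i * star (v i)‖ ^ 2 : ℝ) : 𝕜) := by
    push_cast
    rfl
  rw [← RCLike.star_def, h2, RCLike.ofReal_re]
  exact sq_nonneg _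

theorem C1_swap {p q : ℕ} (f : Fin p → Fin p → Fin q → Fin q → ℝ) :
    ∑ i, ∑ i', ∑ j, ∑ j', f i i' j j' = ∑ j, ∑ j', ∑ i, ∑ i', f i i' j j' := by
  have h1 : ∑ i, ∑ i', ∑ j, ∑ j', f i i' j j' = ∑ i, ∑ j, ∑ j', ∑ i', f i i' j j' := by
    refine Finset.sum_congr rfl fun i _ => ?_
    rw [Finset.sum_comm]
    refine Finset.sum_congr rfl fun j _ => ?_
    rw [Finset.sum_comm]
  rw [h1, Finset.sum_comm]
  refine Finset.sum_congr rfl fun j _ => ?_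
  rw [Finset.sum_comm]

theorem C1_pair {p q : ℕ} (f : Fin p → Fin p → Fin q → Fin q → ℝ) :
    ∑ i, ∑ i', ∑ j, ∑ j', f i i' j j' = ∑ P : Fin p × Fin q, ∑ P' : Fin p × Fin q,
      f P.1 P'.1 P.2 P'.2 := by
  rw [Fintype.sum_prod_type]
  refine Finset.sum_congr rfl fun i _ => ?_
  rw [Finset.sum_comm]
  refine Finset.sum_congr rfl fun j _ => ?_
  rw [Fintype.sum_prod_type]

theorem polar_ge {p q : ℕ} (x y : Fin p → Fin q → 𝕜) :
    4 * ((∑ i, ∑ j, ‖x i j‖ ^ 2) * ∑ i, ∑ j, ‖y i j‖ ^ 2) ≤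
      ∑ i, ∑ i', ∑ j, ∑ j', ‖x i j * y i' j' + x i' j * y i j' + x i j' * y i' j
      + x i' j' * y i j‖ ^ 2 := by
  have h12 : 0 ≤ ∑ i, ∑ i', ∑ j, ∑ j', RCLike.re ((x i j * y i' j') * star (x i' j * y i j')) := by
    rw [C1_swap]
    exact Finset.sum_nonneg fun j _ => Finset.sum_nonneg fun j' _ =>
      C1_cross (fun i => x i j) (fun i => y i j')
  have h34 : 0 ≤ ∑ i, ∑ i', ∑ j, ∑ j', RCLike.re ((x i j' * y i' j) * star (x i' j' * y i j)) := by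
    rw [C1_swap]
    exact Finset.sum_nonneg fun j _ => Finset.sum_nonneg fun j' _ =>
      C1_cross (fun i => x i j') (fun i => y i j)
  have h13 : 0 ≤ ∑ i, ∑ i', ∑ j, ∑ j', RCLike.re ((x i j * y i' j') * star (x i j' * y i' j)) :=
    Finset.sum_nonneg fun i _ => Finset.sum_nonneg fun i' _ =>
      C1_cross (fun j => x i j) (fun j => y i' j)
  have h24 : 0 ≤ ∑ i, ∑ i', ∑ j, ∑ j', RCLike.re ((x i' j * y i j') * star (x i' j' * y i j)) :=
    Finset.sum_nonneg fun i _ => Finset.sum_nonneg fun i' _ =>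
      C1_cross (fun j => x i' j) (fun j => y i j)
  have h14 : 0 ≤ ∑ i, ∑ i', ∑ j, ∑ j', RCLike.re ((x i j * y i' j') * star (x i' j' * y i j)) := by
    rw [C1_pair]
    exact C1_cross (fun P : Fin p × Fin q => x P.1 P.2) (fun P => y P.1 P.2)
  have h23 : 0 ≤ ∑ i, ∑ i', ∑ j, ∑ j', RCLike.re ((x i' j * y i j') * star (x i j' * y i' j)) := by
    rw [Finset.sum_comm, C1_pair]
    exact C1_cross (fun P : Fin p × Fin q => x P.1 P.2) (fun P => y P.1 P.2)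
  have h1 := C1_squares x y
  simp only [C1_expand]
  simp only [Finset.sum_add_distrib, ← Finset.mul_sum] at h1 ⊢
  linarith

theorem C1_two {a b c : 𝕜} (h : a - b + c = 0) : ‖a‖ ^ 2 ≤ 2 * ‖b‖ ^ 2 + 2 * ‖c‖ ^ 2 := by
  have h1 : a = b - c := by linear_combination h
  have h2 : ‖a‖ ≤ ‖b‖ + ‖c‖ := by
    rw [h1]
    exact norm_sub_le _ _
  have h3 : ‖a‖ ^ 2 ≤ (‖b‖ + ‖c‖) ^ 2 := pow_le_pow_left₀ (norm_nonneg _) h2 2
  nlinarith [sq_nonneg (‖b‖ - ‖c‖)]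

/-- The part of `DD` with the last two vectors fixed. -/
noncomputable def C1_E {p q : ℕ} (s : Fin p → Fin 4 → 𝕜) (t : Fin q → Fin 4 → 𝕜)
    (a b : Fin 4 → 𝕜) : ℝ := ∑ i, ∑ j, ‖dt (s i) (t j) a b‖ ^ 2

theorem C1_DD_eq {p q r u : ℕ} (s : Fin p → Fin 4 → 𝕜) (t : Fin q → Fin 4 → 𝕜)
    (a : Fin r → Fin 4 → 𝕜) (b : Fin u → Fin 4 → 𝕜) :
    DD s t a b = ∑ k, ∑ l, C1_E s t (a k) (b l) := by
  unfold DD C1_E
  have h1 : ∑ i, ∑ j, ∑ k, ∑ l, ‖dt (s i) (t j) (a k) (b l)‖ ^ 2 =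
      ∑ i, ∑ k, ∑ l, ∑ j, ‖dt (s i) (t j) (a k) (b l)‖ ^ 2 := by
    refine Finset.sum_congr rfl fun i _ => ?_
    rw [Finset.sum_comm]
    refine Finset.sum_congr rfl fun k _ => ?_
    rw [Finset.sum_comm]
  rw [h1, Finset.sum_comm]
  refine Finset.sum_congr rfl fun k _ => ?_
  rw [Finset.sum_comm]

theorem C1_E_pl {p q : ℕ} (s : Fin p → Fin 4 → 𝕜) (t : Fin q → Fin 4 → 𝕜)
    (a b c d : Fin 4 → 𝕜) : C1_E s t a b * C1_E s t c d ≤
      8 * (C1_E s t a c * C1_E s t b d + C1_E s t a d * C1_E s t b c) := by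
  have h1 := polar_ge (fun i j => dt (s i) (t j) a b) (fun i j => dt (s i) (t j) c d)
  have h2 := polar_le (fun i j => dt (s i) (t j) a c) (fun i j => dt (s i) (t j) b d)
  have h3 := polar_le (fun i j => dt (s i) (t j) a d) (fun i j => dt (s i) (t j) b c)
  have h4 : ∑ i, ∑ i', ∑ j, ∑ j', ‖pol (s i) (s i') (t j) (t j') a b c d‖ ^ 2 ≤
      2 * ∑ i, ∑ i', ∑ j, ∑ j', ‖pol (s i) (s i') (t j) (t j') a c b d‖ ^ 2 +
      2 * ∑ i, ∑ i', ∑ j, ∑ j', ‖pol (s i) (s i') (t j) (t j') a d b c‖ ^ 2 := by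
    simp only [Finset.mul_sum, ← Finset.sum_add_distrib]
    exact Finset.sum_le_sum fun i _ => Finset.sum_le_sum fun i' _ => Finset.sum_le_sum fun j _ =>
      Finset.sum_le_sum fun j' _ => C1_two (three_term_pol _ _ _ _ _ _ _ _)
  unfold C1_E
  unfold pol at h4
  linarith

theorem DD_pl {p q r u v w : ℕ} (s : Fin p → Fin 4 → 𝕜) (t : Fin q → Fin 4 → 𝕜)
    (a : Fin r → Fin 4 → 𝕜) (b : Fin u → Fin 4 → 𝕜) (c : Fin v → Fin 4 → 𝕜)
    (d : Fin w → Fin 4 → 𝕜) :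
    DD s t a b * DD s t c d ≤ 8 * (DD s t a c * DD s t b d + DD s t a d * DD s t b c) := by
  simp only [C1_DD_eq]
  rw [← C1_prod, ← C1_prod, ← C1_prod]
  have h1 : ∑ k, ∑ m, ∑ l, ∑ n, C1_E s t (a k) (c m) * C1_E s t (b l) (d n) =
      ∑ k, ∑ l, ∑ m, ∑ n, C1_E s t (a k) (c m) * C1_E s t (b l) (d n) :=
    Finset.sum_congr rfl fun k _ => Finset.sum_comm
  have h2 : ∑ k, ∑ n, ∑ l, ∑ m, C1_E s t (a k) (d n) * C1_E s t (b l) (c m) =
      ∑ k, ∑ l, ∑ m, ∑ n, C1_E s t (a k) (d n) * C1_E s t (b l) (c m) := by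
    refine Finset.sum_congr rfl fun k _ => ?_
    rw [Finset.sum_comm]
    refine Finset.sum_congr rfl fun l _ => ?_
    rw [Finset.sum_comm]
  rw [h1, h2]
  simp only [← Finset.sum_add_distrib, Finset.mul_sum]
  exact Finset.sum_le_sum fun k _ => Finset.sum_le_sum fun l _ => Finset.sum_le_sum fun m _ =>
    Finset.sum_le_sum fun n _ => C1_E_pl s t (a k) (b l) (c m) (d n)

end RapidDecay
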