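import Pool.Agent.Lib.MP_fee02f_an.AR.Defs

/-!
C10: an approximate hive after a move (75 min).  Pure inequalities.

PROOF. Below p, q, t are letters in {b, c}; words are unordered (s12, s23, s34).  PL (the field `pl` of `AHive`
with equal entries) in the two forms (S a word of length two)
 (P1) H(S m q) ≥ H(S m a) + H(S q a) - H(S a a) - e          (pl S; m, q, a, a)
 (P2) H(S m m) ≥ H(S a m) + H(S m c) - H(S a c) - e          (pl S; m, m, a, c)
 (P3) H(S m m) ≥ 2 H(S m a) - H(S a a) - e                   (pl S; m, m, a, a)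
`mono`: H(m xyz) ≥ H(a xyz) - κ,  `low1`: H(m xyz) ≤ H(a xyz) + k + κ.
r = 3.  up: H(maat) ≥ H(aaat)+k-κ.  H(maqt) ≥ H(aaqt)+k-κ-e (P1, S = at), H(mpqt) ≥ H(apqt)+k-κ-2e (P1, S = qt);
  H(mmqt) ≥ 2H(maqt)-H(aaqt)-e ≥ H(aaqt)+2k-2κ-3e;  H(mmat) ≥ 2H(maat)-H(aaat)-e ≥ H(aaat)+2k-2κ-e,
  H(mmmt) ≥ 2H(mmat)-H(maat)-e ≥ H(aaat)+3k-5κ-3e;  H(aamm) ≥ H(aaam)+H(aamc)-H(aaac)-e ≥ H(aaaa)+k-2κ-e (P2),
  h_s = H(a^(4-s)m^s): h_1 ≤ h_0+κ (star), h_1 ≥ h_0-κ, h_2-h_1 ≥ k-3κ-e, h_(s+1)-h_s ≥ h_s-h_(s-1)-e (P3), so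
  h_4 ≥ h_0+3k-10κ-6e.  Upper bounds: low1 once, twice, three times; H(mmmm): low.
r = 2.  up: H(maqt) ≥ H(aaqt)+k-κ.  H(mpqt) ≥ H(apqt)+k-κ-e (P1).  H(mmqt) ≥ H(aaqt)+2k-2κ-e (P3).
  H(ammt) ≥ H(aamt)+H(amct)-H(aact)-e ≥ H(aaat)+k-2κ-e (P2, S = at); h_s = H(a^(3-s)m^s t): h_1 within κ of h_0
  (star, mono), h_2-h_1 ≥ k-3κ-e, h_3-h_2 ≥ k-3κ-2e, h_3 ≥ h_0+2k-7κ-3e.
  H(ammm) ≥ H(aamm)+H(ammc)-H(aamc)-e ≥ H(aaaa)+k-5κ-2e (P2, S = am; mono twice, star); h_s = H(a^(4-s)m^s):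
  h_0-2κ ≤ h_2 ≤ h_0+κ, h_3-h_2 ≥ k-6κ-2e, h_4-h_3 ≥ k-6κ-3e, h_4 ≥ h_0+2k-14κ-5e.  Upper bounds: low1, low.
r = 1.  up: H(mpqt) ≥ H(apqt)+k-κ.  H(mmqt) ≥ H(amqt)+H(mcqt)-H(acqt)-e ≥ H(aaqt)+k-2κ-e (P2).
  H(mmmt) ≥ H(ammt)+H(mmct)-H(amct)-e ≥ H(aaat)+k-5κ-2e (P2, S = mt).
  H(mmmm) ≥ H(ammm)+H(mmmc)-H(ammc)-e ≥ H(aaaa)+k-9κ-3e (P2, S = mm).  Upper bounds: low1, low.
Instantiate pl with the points explicitly and rewrite to sorted words (a helper lemma which sorts the four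
arguments, or add the needed instances of s12 s23 s34 to linarith).
-/

set_option autoImplicit false

namespace RapidDecay

/-- the situation after moving `a` to `m` by `k`, type `r` -/
structure MvHyp {P : Type*} (H : P → P → P → P → ℝ) (κ : ℝ) (r k : ℕ) (a m b c : P) : Prop where
  mono : ∀ x y z, H a x y z ≤ H m x y z + κ
  low1 : ∀ x y z, H m x y z ≤ H a x y z + k + κ
  up1 : r = 1 → ∀ p q t, (p = b ∨ p = c) → (q = b ∨ q = c) → (t = b ∨ t = c) →
    H a p q t + k ≤ H m p q t + κ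
  up2 : r = 2 → ∀ q t, (q = b ∨ q = c) → (t = b ∨ t = c) → H a a q t + k ≤ H m a q t + κ
  up3 : r = 3 → ∀ t, (t = b ∨ t = c) → H a a a t + k ≤ H m a a t + κ
  low_r1 : r = 1 → (∀ z t, H m m z t ≤ H a a z t + k + κ) ∧ (∀ t, H m m m t ≤ H a a a t + k + κ) ∧
    H m m m m ≤ H a a a a + k + κ
  low_r2 : r = 2 → (∀ t, H m m m t ≤ H a a a t + 2 * k + κ) ∧ H m m m m ≤ H a a a a + 2 * k + κ
  low_r3 : r = 3 → H m m m m ≤ H a a a a + 3 * k + κ
  star_r1 : r = 1 → (∀ z t, H a m z t ≤ H a a z t + κ) ∧ (∀ t, H a m m t ≤ H a a a t + κ) ∧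
    H a m m m ≤ H a a a a + κ
  star_r2 : r = 2 → (∀ t, H a a m t ≤ H a a a t + κ) ∧ H a a m m ≤ H a a a a + κ
  star_r3 : r = 3 → H a a a m ≤ H a a a a + κ

theorem c10_P1 {P : Type*} {H : P → P → P → P → ℝ} {e : ℝ} (hH : AHive e H) (x y m q a : P) :
    H x y m a + H x y q a - H x y a a - e ≤ H x y m q := by
  have h := hH.pl x y m q a a
  rw [min_self] at h
  linarith

theorem c10_P2 {P : Type*} {H : P → P → P → P → ℝ} {e : ℝ} (hH : AHive e H) (x y m a c : P) :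
    H x y a m + H x y m c - H x y a c - e ≤ H x y m m := by
  have h := hH.pl x y m m a c
  rw [add_comm (H x y m c) (H x y m a), min_self, hH.s34 x y m a] at h
  linarith

theorem c10_P3 {P : Type*} {H : P → P → P → P → ℝ} {e : ℝ} (hH : AHive e H) (x y m a : P) :
    2 * H x y m a - H x y a a - e ≤ H x y m m := by
  have h := hH.pl x y m m a a
  rw [min_self] at h
  linarith

theorem c10_e {P : Type*} {H : P → P → P → P → ℝ} {e : ℝ} (hH : AHive e H) (a : P) : 0 ≤ e := by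
  have h := hH.pl a a a a a a
  rw [min_self] at h
  linarith

theorem c10_r3 {P : Type*} {H : P → P → P → P → ℝ} {e κ : ℝ} (hH : AHive e H) (hκ : 0 ≤ κ)
    {k : ℕ} {a m b c : P} (h : MvHyp H κ 3 k a m b c) :
    (∀ p q t, (p = b ∨ p = c) → (q = b ∨ q = c) → (t = b ∨ t = c) →
      |H m p q t - H a p q t - k| ≤ 20 * (κ + e)) ∧
    (∀ q t, (q = b ∨ q = c) → (t = b ∨ t = c) →
      |H m m q t - H a a q t - k * 2| ≤ 20 * (κ + e)) ∧
    (∀ t, (t = b ∨ t = c) → |H m m m t - H a a a t - k * 3| ≤ 20 * (κ + e)) ∧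
    |H m m m m - H a a a a - k * 3| ≤ 20 * (κ + e) := by
  have he := c10_e hH a
  have A1 : ∀ q t, (t = b ∨ t = c) → H a a q t + k - κ - e ≤ H m a q t := by
    intro q t ht
    have h1 := h.up3 rfl t ht
    have h2 := c10_P1 hH a t m q a
    simp only [hH.s12, hH.s23, hH.s34] at h1 h2 ⊢
    linarith
  have A2 : ∀ p q t, (t = b ∨ t = c) → H a p q t + k - κ - 2 * e ≤ H m p q t := by
    intro p q t ht
    have h1 := A1 q t ht
    have h2 := c10_P1 hH q t m p a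
    simp only [hH.s12, hH.s23, hH.s34] at h1 h2 ⊢
    linarith
  refine ⟨?_, ?_, ?_, ?_⟩
  · intro p q t _ _ ht
    have h1 := A2 p q t ht
    have h2 := h.low1 p q t
    rw [abs_le]
    constructor <;> linarith
  · intro q t _ ht
    have h1 := A1 q t ht
    have h2 := c10_P3 hH q t m a
    have h3 := h.low1 m q t
    have h4 := h.low1 a q t
    simp only [hH.s12, hH.s23, hH.s34] at h1 h2 h3 h4 ⊢
    rw [abs_le]
    constructor <;> linarith
  · intro t ht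
    have h1 := h.up3 rfl t ht
    have h2 := c10_P3 hH a t m a
    have h3 := c10_P3 hH m t m a
    have h4 := h.low1 a a t
    have h5 := h.low1 m m t
    have h6 := h.low1 m a t
    simp only [hH.s12, hH.s23, hH.s34] at h1 h2 h3 h4 h5 h6 ⊢
    rw [abs_le]
    constructor <;> linarith
  · have h1 := c10_P2 hH a a m a c
    have h2 := h.mono a a a
    have h3 := h.up3 rfl c (Or.inr rfl)
    have h4 := h.star_r3 rfl
    have h5 := c10_P3 hH a m m a
    have h6 := c10_P3 hH m m m a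
    have h7 := h.low_r3 rfl
    simp only [hH.s12, hH.s23, hH.s34] at h1 h2 h3 h4 h5 h6 h7 ⊢
    rw [abs_le]
    constructor <;> linarith

theorem c10_r2 {P : Type*} {H : P → P → P → P → ℝ} {e κ : ℝ} (hH : AHive e H) (hκ : 0 ≤ κ)
    {k : ℕ} {a m b c : P} (h : MvHyp H κ 2 k a m b c) :
    (∀ p q t, (p = b ∨ p = c) → (q = b ∨ q = c) → (t = b ∨ t = c) →
      |H m p q t - H a p q t - k| ≤ 20 * (κ + e)) ∧
    (∀ q t, (q = b ∨ q = c) → (t = b ∨ t = c) →
      |H m m q t - H a a q t - k * 2| ≤ 20 * (κ + e)) ∧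
    (∀ t, (t = b ∨ t = c) → |H m m m t - H a a a t - k * 2| ≤ 20 * (κ + e)) ∧
    |H m m m m - H a a a a - k * 2| ≤ 20 * (κ + e) := by
  have he := c10_e hH a
  have A3 : ∀ t, (t = b ∨ t = c) → H a a a t + k - 2 * κ - e ≤ H a m m t := by
    intro t ht
    have h1 := c10_P2 hH a t m a c
    have h2 := h.mono a a t
    have h3 := h.up2 rfl c t (Or.inr rfl) ht
    simp only [hH.s12, hH.s23, hH.s34] at h1 h2 h3 ⊢
    linarith
  refine ⟨?_, ?_, ?_, ?_⟩
  · intro p q t _ hq ht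
    have h1 := h.up2 rfl q t hq ht
    have h2 := c10_P1 hH q t m p a
    have h3 := h.low1 p q t
    simp only [hH.s12, hH.s23, hH.s34] at h1 h2 h3 ⊢
    rw [abs_le]
    constructor <;> linarith
  · intro q t hq ht
    have h1 := h.up2 rfl q t hq ht
    have h2 := c10_P3 hH q t m a
    have h3 := h.low1 m q t
    have h4 := h.low1 a q t
    simp only [hH.s12, hH.s23, hH.s34] at h1 h2 h3 h4 ⊢
    rw [abs_le]
    constructor <;> linarith
  · intro t ht
    have h1 := A3 t ht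
    have h2 := h.mono a a t
    have h3 := (h.star_r2 rfl).1 t
    have h4 := c10_P3 hH m t m a
    have h5 := (h.low_r2 rfl).1 t
    simp only [hH.s12, hH.s23, hH.s34] at h1 h2 h3 h4 h5 ⊢
    rw [abs_le]
    constructor <;> linarith
  · have h1 := A3 c (Or.inr rfl)
    have h2 := c10_P2 hH a m m a c
    have h3 := h.mono a a a
    have h4 := h.mono a a m
    have h5 := (h.star_r2 rfl).1 c
    have h6 := (h.star_r2 rfl).2
    have h7 := c10_P3 hH m m m a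
    have h8 := (h.low_r2 rfl).2
    simp only [hH.s12, hH.s23, hH.s34] at h1 h2 h3 h4 h5 h6 h7 h8 ⊢
    rw [abs_le]
    constructor <;> linarith

theorem c10_r1 {P : Type*} {H : P → P → P → P → ℝ} {e κ : ℝ} (hH : AHive e H) (hκ : 0 ≤ κ)
    {k : ℕ} {a m b c : P} (h : MvHyp H κ 1 k a m b c) :
    (∀ p q t, (p = b ∨ p = c) → (q = b ∨ q = c) → (t = b ∨ t = c) →
      |H m p q t - H a p q t - k| ≤ 20 * (κ + e)) ∧
    (∀ q t, (q = b ∨ q = c) → (t = b ∨ t = c) →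
      |H m m q t - H a a q t - k| ≤ 20 * (κ + e)) ∧
    (∀ t, (t = b ∨ t = c) → |H m m m t - H a a a t - k| ≤ 20 * (κ + e)) ∧
    |H m m m m - H a a a a - k| ≤ 20 * (κ + e) := by
  have he := c10_e hH a
  have B2 : ∀ q t, (q = b ∨ q = c) → (t = b ∨ t = c) →
      H a a q t + k - 2 * κ - e ≤ H m m q t := by
    intro q t hq ht
    have h1 := c10_P2 hH q t m a c
    have h2 := h.mono a q t
    have h3 := h.up1 rfl c q t (Or.inr rfl) hq ht
    simp only [hH.s12, hH.s23, hH.s34] at h1 h2 h3 ⊢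
    linarith
  have B3 : ∀ t, (t = b ∨ t = c) → H a a a t + k - 5 * κ - 2 * e ≤ H m m m t := by
    intro t ht
    have h1 := c10_P2 hH m t m a c
    have h2 := h.mono a a t
    have h3 := h.mono a m t
    have h4 := B2 c t (Or.inr rfl) ht
    have h5 := (h.star_r1 rfl).1 c t
    simp only [hH.s12, hH.s23, hH.s34] at h1 h2 h3 h4 h5 ⊢
    linarith
  refine ⟨?_, ?_, ?_, ?_⟩
  · intro p q t hp hq ht
    have h1 := h.up1 rfl p q t hp hq ht
    have h3 := h.low1 p q t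
    rw [abs_le]
    constructor <;> linarith
  · intro q t hq ht
    have h1 := B2 q t hq ht
    have h2 := (h.low_r1 rfl).1 q t
    rw [abs_le]
    constructor <;> linarith
  · intro t ht
    have h1 := B3 t ht
    have h2 := (h.low_r1 rfl).2.1 t
    rw [abs_le]
    constructor <;> linarith
  · have h1 := c10_P2 hH m m m a c
    have h2 := h.mono a a a
    have h3 := h.mono a a m
    have h4 := h.mono a m m
    have h5 := B3 c (Or.inr rfl)
    have h6 := (h.star_r1 rfl).2.1 c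
    have h7 := (h.low_r1 rfl).2.2
    simp only [hH.s12, hH.s23, hH.s34] at h1 h2 h3 h4 h5 h6 h7 ⊢
    rw [abs_le]
    constructor <;> linarith

theorem move_words {P : Type*} {H : P → P → P → P → ℝ} {e κ : ℝ} (hH : AHive e H) (hκ : 0 ≤ κ)
    {r k : ℕ} (hr : r = 1 ∨ r = 2 ∨ r = 3) {a m b c : P} (h : MvHyp H κ r k a m b c) :
    (∀ p q t, (p = b ∨ p = c) → (q = b ∨ q = c) → (t = b ∨ t = c) →
      |H m p q t - H a p q t - k| ≤ 20 * (κ + e)) ∧
    (∀ q t, (q = b ∨ q = c) → (t = b ∨ t = c) →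
      |H m m q t - H a a q t - k * min 2 r| ≤ 20 * (κ + e)) ∧
    (∀ t, (t = b ∨ t = c) → |H m m m t - H a a a t - k * min 3 r| ≤ 20 * (κ + e)) ∧
    |H m m m m - H a a a a - k * min 4 r| ≤ 20 * (κ + e) := by
  rcases hr with rfl | rfl | rfl
  · have := c10_r1 hH hκ h
    simpa using this
  · have := c10_r2 hH hκ h
    simpa using this
  · have := c10_r3 hH hκ h
    simpa using this

end RapidDecay
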