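import Pool.Agent.Lib.MP_fee02f_an.AR.C10

/-!
C11: the slacks after a move (45 min).

PROOF. By `move_words` and the symmetry of H: for a word w in the letters 0, 1, 2 (0 = moved vertex) with n letters 0,
|H(w with m) - H(w with a) - k min(n, r)| ≤ K (exact for n = 0), K = 20 (κ + e).  A slack with u = 0 and n0 = #{s,t = 0}
changes by k (min(n0+2, r) + min(n0, r) - 2 min(n0+1, r)) = - k if n0 + 1 = r and 0 otherwise; with v = 0 or w = 0
the change is k (min(n0, r) + min(n0+1, r) - min(n0+1, r) - min(n0, r)) = 0; each of the four terms has error ≤ K.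
The indices form a finite set (fin_cases u v w s t, 6 * 9 cases): sort the words first.
-/

set_option autoImplicit false

namespace RapidDecay

/-- a symmetric predicate of four letters in `Fin 3` holds if it holds for the words in which the
letters `0` come first -/
theorem C11_sort {Q : Fin 3 → Fin 3 → Fin 3 → Fin 3 → Prop}
    (h12 : ∀ a b c d, Q a b c d → Q b a c d) (h23 : ∀ a b c d, Q a b c d → Q a c b d)
    (h34 : ∀ a b c d, Q a b c d → Q a b d c) (q4 : Q 0 0 0 0) (q3 : ∀ d, d ≠ 0 → Q 0 0 0 d)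
    (q2 : ∀ c d, c ≠ 0 → d ≠ 0 → Q 0 0 c d)
    (q1 : ∀ b c d, b ≠ 0 → c ≠ 0 → d ≠ 0 → Q 0 b c d)
    (q0 : ∀ a b c d, a ≠ 0 → b ≠ 0 → c ≠ 0 → d ≠ 0 → Q a b c d) :
    ∀ a b c d, Q a b c d := by
  intro a b c d
  by_cases ha : a = 0 <;> by_cases hb : b = 0 <;> by_cases hc : c = 0 <;> by_cases hd : d = 0
  · subst ha hb hc hd; exact q4
  · subst ha hb hc; exact q3 d hd
  · subst ha hb hd; exact h34 _ _ _ _ (q3 c hc)
  · subst ha hb; exact q2 c d hc hd
  · subst ha hc hd; exact h23 _ _ _ _ (h34 _ _ _ _ (q3 b hb))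
  · subst ha hc; exact h23 _ _ _ _ (q2 b d hb hd)
  · subst ha hd; exact h34 _ _ _ _ (h23 _ _ _ _ (q2 b c hb hc))
  · subst ha; exact q1 b c d hb hc hd
  · subst hb hc hd; exact h12 _ _ _ _ (h23 _ _ _ _ (h34 _ _ _ _ (q3 a ha)))
  · subst hb hc; exact h12 _ _ _ _ (h23 _ _ _ _ (q2 a d ha hd))
  · subst hb hd; exact h34 _ _ _ _ (h12 _ _ _ _ (h23 _ _ _ _ (q2 a c ha hc)))
  · subst hb; exact h12 _ _ _ _ (q1 a c d ha hc hd)
  · subst hc hd
    exact h23 _ _ _ _ (h34 _ _ _ _ (h12 _ _ _ _ (h23 _ _ _ _ (q2 a b ha hb))))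
  · subst hc; exact h23 _ _ _ _ (h12 _ _ _ _ (q1 a b d ha hb hd))
  · subst hd; exact h34 _ _ _ _ (h23 _ _ _ _ (h12 _ _ _ _ (q1 a b c ha hb hc)))
  · exact q0 a b c d ha hb hc hd

/-- one if the letter is the moved vertex -/
def C11_z (i : Fin 3) : ℕ := if i = 0 then 1 else 0

theorem C11_count (r : ℕ) (hr : r = 1 ∨ r = 2 ∨ r = 3) (u v w s t : Fin 3) (huv : u ≠ v)
    (hvw : v ≠ w) (huw : u ≠ w) :
    min (C11_z s + C11_z t + C11_z u + C11_z u) r + min (C11_z s + C11_z t + C11_z v + C11_z w) r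
      + (if u = 0 ∧ (if s = 0 then 1 else 0) + (if t = 0 then 1 else 0) + 1 = r then 1 else 0)
      = min (C11_z s + C11_z t + C11_z u + C11_z v) r
        + min (C11_z s + C11_z t + C11_z u + C11_z w) r := by
  rcases hr with rfl | rfl | rfl
  · revert u v w s t; decide
  · revert u v w s t; decide
  · revert u v w s t; decide

theorem C11_word {P : Type*} {H : P → P → P → P → ℝ} {e κ : ℝ} (hH : AHive e H) (hκ : 0 ≤ κ)
    {r k : ℕ} (hr : r = 1 ∨ r = 2 ∨ r = 3) {a m b c : P} (h : MvHyp H κ r k a m b c)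
    (he : 0 ≤ κ + e) (i j l n : Fin 3) :
    |H (![m, b, c] i) (![m, b, c] j) (![m, b, c] l) (![m, b, c] n)
      - H (![a, b, c] i) (![a, b, c] j) (![a, b, c] l) (![a, b, c] n)
      - (k : ℝ) * ((min (C11_z i + C11_z j + C11_z l + C11_z n) r : ℕ) : ℝ)| ≤ 20 * (κ + e) := by
  obtain ⟨w1, w2, w3, w4⟩ := move_words hH hκ hr h
  have hbc : ∀ i : Fin 3, i ≠ 0 → (![m, b, c] i = b ∨ ![m, b, c] i = c) ∧
      ![m, b, c] i = ![a, b, c] i ∧ C11_z i = 0 := by
    intro i hi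
    fin_cases i
    · exact absurd rfl hi
    · exact ⟨Or.inl rfl, rfl, rfl⟩
    · exact ⟨Or.inr rfl, rfl, rfl⟩
  have hr1 : 1 ≤ r := by omega
  have z0 : C11_z 0 = 1 := rfl
  have m0 : ![m, b, c] 0 = m := rfl
  have a0 : ![a, b, c] 0 = a := rfl
  revert i j l n
  refine C11_sort ?_ ?_ ?_ ?_ ?_ ?_ ?_ ?_
  · intro i j l n hq
    rw [hH.s12 (![m, b, c] j), hH.s12 (![a, b, c] j)]
    rwa [show C11_z j + C11_z i = C11_z i + C11_z j from add_comm _ _]
  · intro i j l n hq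
    rw [hH.s23 (![m, b, c] i), hH.s23 (![a, b, c] i)]
    rwa [show C11_z i + C11_z l + C11_z j = C11_z i + C11_z j + C11_z l from by ring]
  · intro i j l n hq
    rw [hH.s34 (![m, b, c] i), hH.s34 (![a, b, c] i)]
    rwa [show C11_z i + C11_z j + C11_z n + C11_z l = C11_z i + C11_z j + C11_z l + C11_z n
      from by ring]
  · rw [z0, m0, a0]
    simpa using w4
  · intro d hd
    obtain ⟨h1, h2, h3⟩ := hbc d hd
    have := w3 _ h1
    rw [z0, m0, a0, h3, ← h2]
    simpa using this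
  · intro d d' hd hd'
    obtain ⟨h1, h2, h3⟩ := hbc d hd
    obtain ⟨h1', h2', h3'⟩ := hbc d' hd'
    have := w2 _ _ h1 h1'
    rw [z0, m0, a0, h3, ← h2, h3', ← h2']
    simpa using this
  · intro d d' d'' hd hd' hd''
    obtain ⟨h1, h2, h3⟩ := hbc d hd
    obtain ⟨h1', h2', h3'⟩ := hbc d' hd'
    obtain ⟨h1'', h2'', h3''⟩ := hbc d'' hd''
    have := w1 _ _ _ h1 h1' h1''
    rw [z0, m0, a0, h3, ← h2, h3', ← h2', h3'', ← h2'']
    simpa [hr1] using this
  · intro d d' d'' d''' hd hd' hd'' hd'''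
    obtain ⟨h1, h2, h3⟩ := hbc d hd
    obtain ⟨h1', h2', h3'⟩ := hbc d' hd'
    obtain ⟨h1'', h2'', h3''⟩ := hbc d'' hd''
    obtain ⟨h1''', h2''', h3'''⟩ := hbc d''' hd'''
    rw [h3, ← h2, h3', ← h2', h3'', ← h2'', h3''', ← h2''']
    simp only [sub_self, add_zero, Nat.zero_min, Nat.cast_zero, mul_zero, abs_zero]
    linarith

theorem move_slacks {P : Type*} {H : P → P → P → P → ℝ} {e κ : ℝ} (hH : AHive e H) (hκ : 0 ≤ κ)
    {r k : ℕ} (hr : r = 1 ∨ r = 2 ∨ r = 3) {a m b c : P} (h : MvHyp H κ r k a m b c)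
    (u v w s t : Fin 3) (huv : u ≠ v) (hvw : v ≠ w) (huw : u ≠ w) :
    |tsl H ![m, b, c] (u, v, w, s, t)
        - (tsl H ![a, b, c] (u, v, w, s, t)
          - (if u = 0 ∧ (if s = 0 then 1 else 0) + (if t = 0 then 1 else 0) + 1 = r
              then (k : ℝ) else 0))| ≤ 80 * (κ + e) := by
  have he : 0 ≤ κ + e := by
    have h4 := (move_words hH hκ hr h).2.2.2
    have := abs_nonneg (H m m m m - H a a a a - k * min 4 r)
    linarith
  have key := C11_count r hr u v w s t huv hvw huw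
  have e1 := C11_word hH hκ hr h he s t u u
  have e2 := C11_word hH hκ hr h he s t v w
  have e3 := C11_word hH hκ hr h he s t u v
  have e4 := C11_word hH hκ hr h he s t u w
  have hif : (if u = 0 ∧ (if s = 0 then 1 else 0) + (if t = 0 then 1 else 0) + 1 = r
      then (k : ℝ) else 0) = (k : ℝ) * (((if u = 0 ∧ (if s = 0 then 1 else 0)
        + (if t = 0 then 1 else 0) + 1 = r then 1 else 0) : ℕ) : ℝ) := by
    split_ifs <;> simp
  rw [hif]
  have key' := congrArg (fun n : ℕ => (k : ℝ) * (n : ℝ)) key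
  simp only [Nat.cast_add, mul_add] at key'
  simp only [tsl, sl]
  rw [abs_le] at *
  constructor
  · linarith [e1.1, e1.2, e2.1, e2.2, e3.1, e3.2, e4.1, e4.2]
  · linarith [e1.1, e1.2, e2.1, e2.2, e3.1, e3.2, e4.1, e4.2]

end RapidDecay
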