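import Pool.Agent.Lib.MP_fee02f_an.AR.C4
import Pool.Agent.Lib.MP_fee02f_an.AR.C0

/-!
C9: lower bounds for determinants after the move (75 min).

PROOF. fr A may be replaced by fr e (DD_congr, Nf_unitary) and fr M j = μ_j fr e j with μ_j = exp(-k) for
j ≥ 4-r and μ_j = 1 otherwise.  `MvA_mono`: Nf (fr M) φ = ∑ μ_j^2 |φ(e_j)|^2 ≤ Nf (fr e) φ.
`MvA_low1`: Nf (fr e) φ ≤ exp(2k) Nf (fr M) φ.
The others: termwise in the sums over the indices of the slots A, M.  A term with two equal indices is 0 (dt of two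
equal rows, resp. of proportional rows; DD_smul).  LOW: among i distinct indices at most min(i, r) are ≥ 4-r, so the
product of the μ^2 is at least exp(-2k min(i,r)).  STAR: among r+s distinct indices there are s which are < 4-r;
hence ‖dt‖^2 ≤ the sum over the choices of the s slots M among the r+s slots of the products of the μ^2 times
‖dt‖^2, and each of these binom(r+s,s) sums equals the right-hand DD by symmetry.  E.g. r=2, s=1: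
‖dt e_i e_j e_l d‖^2 ≤ (μ_i^2 + μ_j^2 + μ_l^2) ‖dt e_i e_j e_l d‖^2 for i, j, l distinct, so
DD e e e d ≤ DD M e e d + DD e M e d + DD e e M d = 3 DD e e M d.
-/

set_option autoImplicit false

namespace RapidDecay

variable {𝕜 : Type*} [RCLike 𝕜] {p q u : ℕ}

/-! ### determinants with multiples of rows -/

theorem C9_dt_smul (a b c d : ℝ) (x y z t : Fin 4 → 𝕜) :
    ‖dt ((a : 𝕜) • x) ((b : 𝕜) • y) ((c : 𝕜) • z) ((d : 𝕜) • t)‖ ^ 2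
      = (a * b * c * d) ^ 2 * ‖dt x y z t‖ ^ 2 := by
  have h : dt ((a : 𝕜) • x) ((b : 𝕜) • y) ((c : 𝕜) • z) ((d : 𝕜) • t)
      = ((a * b * c * d : ℝ) : 𝕜) * dt x y z t := by
    unfold dt
    have h1 : Matrix.of ![(a : 𝕜) • x, (b : 𝕜) • y, (c : 𝕜) • z, (d : 𝕜) • t]
        = Matrix.of (fun i j => (![(a : 𝕜), b, c, d] i) * (Matrix.of ![x, y, z, t]) i j) := by
      ext i j
      fin_cases i <;> simp [RCLike.real_smul_eq_coe_mul]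
    rw [h1, Matrix.det_mul_column, Fin.prod_univ_four]
    simp
  rw [h, norm_mul, mul_pow, RCLike.norm_ofReal, sq_abs]

theorem C9_dt_eq {x y z t : Fin 4 → 𝕜} {i j : Fin 4} (hij : i ≠ j)
    (h : (![x, y, z, t] : Fin 4 → Fin 4 → 𝕜) i = ![x, y, z, t] j) : dt x y z t = 0 := by
  unfold dt
  exact Matrix.det_zero_of_row_eq hij h

theorem C9_12 (x z t : Fin 4 → 𝕜) : dt x x z t = 0 :=
  C9_dt_eq (i := 0) (j := 1) (by decide) rfl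
theorem C9_13 (x y t : Fin 4 → 𝕜) : dt x y x t = 0 :=
  C9_dt_eq (i := 0) (j := 2) (by decide) rfl
theorem C9_14 (x y z : Fin 4 → 𝕜) : dt x y z x = 0 :=
  C9_dt_eq (i := 0) (j := 3) (by decide) rfl
theorem C9_23 (x y t : Fin 4 → 𝕜) : dt x y y t = 0 :=
  C9_dt_eq (i := 1) (j := 2) (by decide) rfl
theorem C9_24 (x y z : Fin 4 → 𝕜) : dt x y z y = 0 :=
  C9_dt_eq (i := 1) (j := 3) (by decide) rfl
theorem C9_34 (x y z : Fin 4 → 𝕜) : dt x y z z = 0 :=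
  C9_dt_eq (i := 2) (j := 3) (by decide) rfl

/-! ### weighted families -/

/-- the family `e` with weights `a` -/
def C9_w (a : Fin 4 → ℝ) (e : Fin 4 → Fin 4 → 𝕜) : Fin 4 → Fin 4 → 𝕜 := fun j => (a j : 𝕜) • e j

theorem C9_w_one (e : Fin 4 → Fin 4 → 𝕜) : C9_w (fun _ => 1) e = e := by
  funext j
  simp [C9_w]

theorem C9_t2 (e : Fin 4 → Fin 4 → 𝕜) (a b : Fin 4 → ℝ) (c : Fin p → Fin 4 → 𝕜)
    (d : Fin q → Fin 4 → 𝕜) (i j : Fin 4) (k : Fin p) (l : Fin q) :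
    ‖dt (C9_w a e i) (C9_w b e j) (c k) (d l)‖ ^ 2
      = (a i * b j) ^ 2 * ‖dt (e i) (e j) (c k) (d l)‖ ^ 2 := by
  have h := C9_dt_smul (a i) (b j) 1 1 (e i) (e j) (c k) (d l)
  simp only [RCLike.ofReal_one, one_smul, mul_one] at h
  exact h

theorem C9_t3 (e : Fin 4 → Fin 4 → 𝕜) (a b c : Fin 4 → ℝ)
    (d : Fin q → Fin 4 → 𝕜) (i j k : Fin 4) (l : Fin q) :
    ‖dt (C9_w a e i) (C9_w b e j) (C9_w c e k) (d l)‖ ^ 2
      = (a i * b j * c k) ^ 2 * ‖dt (e i) (e j) (e k) (d l)‖ ^ 2 := by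
  have h := C9_dt_smul (a i) (b j) (c k) 1 (e i) (e j) (e k) (d l)
  simp only [RCLike.ofReal_one, one_smul, mul_one] at h
  exact h

theorem C9_t4 (e : Fin 4 → Fin 4 → 𝕜) (a b c d : Fin 4 → ℝ) (i j k l : Fin 4) :
    ‖dt (C9_w a e i) (C9_w b e j) (C9_w c e k) (C9_w d e l)‖ ^ 2
      = (a i * b j * c k * d l) ^ 2 * ‖dt (e i) (e j) (e k) (e l)‖ ^ 2 :=
  C9_dt_smul (a i) (b j) (c k) (d l) (e i) (e j) (e k) (e l)

theorem C9_sum4 {α β γ δ : Type*} [Fintype α] [Fintype β] [Fintype γ] [Fintype δ]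
    (f g : α → β → γ → δ → ℝ) (h : ∀ i j k l, f i j k l ≤ g i j k l) :
    ∑ i, ∑ j, ∑ k, ∑ l, f i j k l ≤ ∑ i, ∑ j, ∑ k, ∑ l, g i j k l :=
  Finset.sum_le_sum fun i _ => Finset.sum_le_sum fun j _ => Finset.sum_le_sum fun k _ =>
    Finset.sum_le_sum fun l _ => h i j k l

theorem C9_low2 (e : Fin 4 → Fin 4 → 𝕜) (μ : Fin 4 → ℝ) (G : ℝ)
    (h : ∀ i j, i ≠ j → 1 ≤ G * (μ i * μ j) ^ 2) (c : Fin p → Fin 4 → 𝕜)
    (d : Fin q → Fin 4 → 𝕜) : DD e e c d ≤ G * DD (C9_w μ e) (C9_w μ e) c d := by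
  unfold DD
  simp only [Finset.mul_sum]
  refine C9_sum4 _ _ fun i j k l => ?_
  rw [C9_t2]
  by_cases hij : i = j
  · rw [hij, C9_12]; simp
  · nlinarith [h i j hij, sq_nonneg ‖dt (e i) (e j) (c k) (d l)‖]

theorem C9_low3 (e : Fin 4 → Fin 4 → 𝕜) (μ : Fin 4 → ℝ) (G : ℝ)
    (h : ∀ i j k, i ≠ j → i ≠ k → j ≠ k → 1 ≤ G * (μ i * μ j * μ k) ^ 2)
    (d : Fin q → Fin 4 → 𝕜) : DD e e e d ≤ G * DD (C9_w μ e) (C9_w μ e) (C9_w μ e) d := by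
  unfold DD
  simp only [Finset.mul_sum]
  refine C9_sum4 _ _ fun i j k l => ?_
  rw [C9_t3]
  by_cases hij : i = j
  · rw [hij, C9_12]; simp
  by_cases hik : i = k
  · rw [hik, C9_13]; simp
  by_cases hjk : j = k
  · rw [hjk, C9_23]; simp
  · nlinarith [h i j k hij hik hjk, sq_nonneg ‖dt (e i) (e j) (e k) (d l)‖]

theorem C9_low4 (e : Fin 4 → Fin 4 → 𝕜) (μ : Fin 4 → ℝ) (G : ℝ)
    (h : ∀ i j k l, i ≠ j → i ≠ k → i ≠ l → j ≠ k → j ≠ l → k ≠ l →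
      1 ≤ G * (μ i * μ j * μ k * μ l) ^ 2) :
    DD e e e e ≤ G * DD (C9_w μ e) (C9_w μ e) (C9_w μ e) (C9_w μ e) := by
  unfold DD
  simp only [Finset.mul_sum]
  refine C9_sum4 _ _ fun i j k l => ?_
  rw [C9_t4]
  by_cases hij : i = j
  · rw [hij, C9_12]; simp
  by_cases hik : i = k
  · rw [hik, C9_13]; simp
  by_cases hil : i = l
  · rw [hil, C9_14]; simp
  by_cases hjk : j = k
  · rw [hjk, C9_23]; simp
  by_cases hjl : j = l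
  · rw [hjl, C9_24]; simp
  by_cases hkl : k = l
  · rw [hkl, C9_34]; simp
  · nlinarith [h i j k l hij hik hil hjk hjl hkl, sq_nonneg ‖dt (e i) (e j) (e k) (e l)‖]

/-! ### the exponents -/

/-- exponent of the weight -/
def C9_c (r : ℕ) (i : Fin 4) : ℕ := if 4 - r ≤ (i : ℕ) then 1 else 0

theorem C9_d1 : ∀ i j l n : Fin 4, (i ≠ j ∧ i ≠ l ∧ i ≠ n ∧ j ≠ l ∧ j ≠ n ∧ l ≠ n) →
    C9_c 1 i + C9_c 1 j + C9_c 1 l + C9_c 1 n ≤ 1 := by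
  decide

theorem C9_d2 : ∀ i j l n : Fin 4, (i ≠ j ∧ i ≠ l ∧ i ≠ n ∧ j ≠ l ∧ j ≠ n ∧ l ≠ n) →
    C9_c 2 i + C9_c 2 j + C9_c 2 l + C9_c 2 n ≤ 2 := by
  decide

theorem C9_d3 : ∀ i j l n : Fin 4, (i ≠ j ∧ i ≠ l ∧ i ≠ n ∧ j ≠ l ∧ j ≠ n ∧ l ≠ n) →
    C9_c 3 i + C9_c 3 j + C9_c 3 l + C9_c 3 n ≤ 3 := by
  decide

theorem C9_muk (r k : ℕ) (i : Fin 4) : muk r k i = Real.exp (-(k : ℝ)) ^ C9_c r i := by
  unfold muk C9_c
  split_ifs <;> simp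

theorem C9_pow (k n m : ℕ) (h : n ≤ m) :
    1 ≤ Real.exp (2 * k) ^ m * (Real.exp (-(k : ℝ)) ^ n) ^ 2 := by
  rw [← Real.exp_nat_mul, ← Real.exp_nat_mul, ← Real.exp_nat_mul, ← Real.exp_add]
  apply Real.one_le_exp
  have h1 : (n : ℝ) ≤ m := by exact_mod_cast h
  have h2 : (0 : ℝ) ≤ k := Nat.cast_nonneg k
  push_cast
  nlinarith [mul_le_mul_of_nonneg_right h1 h2]

theorem C9_exp2 (k : ℕ) : Real.exp (2 * k) = Real.exp (2 * k) ^ 1 := (pow_one _).symm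

theorem C9_exp4 (k : ℕ) : Real.exp (4 * k) = Real.exp (2 * k) ^ 2 := by
  rw [← Real.exp_nat_mul]; congr 1; push_cast; ring

theorem C9_exp6 (k : ℕ) : Real.exp (6 * k) = Real.exp (2 * k) ^ 3 := by
  rw [← Real.exp_nat_mul]; congr 1; push_cast; ring

theorem C9_v2 (k r m : ℕ) (i j : Fin 4) (h : C9_c r i + C9_c r j ≤ m) :
    1 ≤ Real.exp (2 * k) ^ m * (muk r k i * muk r k j) ^ 2 := by
  rw [C9_muk, C9_muk, ← pow_add]
  exact C9_pow k _ m h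

theorem C9_v3 (k r m : ℕ) (i j l : Fin 4) (h : C9_c r i + C9_c r j + C9_c r l ≤ m) :
    1 ≤ Real.exp (2 * k) ^ m * (muk r k i * muk r k j * muk r k l) ^ 2 := by
  rw [C9_muk, C9_muk, C9_muk, ← pow_add, ← pow_add]
  exact C9_pow k _ m h

theorem C9_v4 (k r m : ℕ) (i j l n : Fin 4)
    (h : C9_c r i + C9_c r j + C9_c r l + C9_c r n ≤ m) :
    1 ≤ Real.exp (2 * k) ^ m * (muk r k i * muk r k j * muk r k l * muk r k n) ^ 2 := by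
  rw [C9_muk, C9_muk, C9_muk, C9_muk, ← pow_add, ← pow_add, ← pow_add]
  exact C9_pow k _ m h

theorem C9_muk_one {r k : ℕ} {i : Fin 4} (h : C9_c r i = 0) : muk r k i = 1 := by
  rw [C9_muk, h, pow_zero]

/-! ### the moved frame -/

/-- the frame `A` may be replaced by `e`, and `M` is `e` with weights -/
theorem C9_frames {A B M : GL (Fin 4) 𝕜} {r k : ℕ} (h : MvA r k A B M) :
    ∃ e : Fin 4 → Fin 4 → 𝕜, (∀ φ, Nf (fr A) φ = Nf e φ) ∧ fr M = C9_w (muk r k) e := by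
  obtain ⟨e, s, ⟨_, _, ⟨U, hU, hUe⟩, _⟩, hM⟩ := h
  refine ⟨fr e, fun φ => ?_, funext fun j => hM j⟩
  have h1 := Nf_unitary A.1 U hU φ
  have h2 : fr e = fun j i => (A.1 * U) i j := by
    unfold fr
    rw [hUe]
  rw [h2, h1]
  rfl

theorem C9_rep2 {A : GL (Fin 4) 𝕜} {e : Fin 4 → Fin 4 → 𝕜} (h : ∀ φ, Nf (fr A) φ = Nf e φ)
    (c : Fin p → Fin 4 → 𝕜) (d : Fin q → Fin 4 → 𝕜) : DD (fr A) (fr A) c d = DD e e c d := by
  rw [DD_congr h, DD_s12, DD_congr h]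

theorem C9_rep3 {A : GL (Fin 4) 𝕜} {e : Fin 4 → Fin 4 → 𝕜} (h : ∀ φ, Nf (fr A) φ = Nf e φ)
    (d : Fin q → Fin 4 → 𝕜) : DD (fr A) (fr A) (fr A) d = DD e e e d := by
  rw [C9_rep2 h, DD_s23, DD_s12, DD_congr h]

theorem C9_rep4 {A : GL (Fin 4) 𝕜} {e : Fin 4 → Fin 4 → 𝕜} (h : ∀ φ, Nf (fr A) φ = Nf e φ) :
    DD (fr A) (fr A) (fr A) (fr A) = DD e e e e := by
  rw [C9_rep3 h, DD_s34, DD_s23, DD_s12, DD_congr h]

theorem C9_Nf_w (a : Fin 4 → ℝ) (e : Fin 4 → Fin 4 → 𝕜) (φ : Fin 4 → 𝕜) :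
    Nf (C9_w a e) φ = ∑ i, a i ^ 2 * ‖dotProduct φ (e i)‖ ^ 2 := by
  unfold Nf C9_w
  refine Finset.sum_congr rfl fun i _ => ?_
  rw [dotProduct_smul, norm_smul, mul_pow, RCLike.norm_ofReal, sq_abs]

theorem MvA_mono {A B M : GL (Fin 4) 𝕜} {r k : ℕ} (h : MvA r k A B M)
    (b : Fin p → Fin 4 → 𝕜) (c : Fin q → Fin 4 → 𝕜) (d : Fin u → Fin 4 → 𝕜) :
    DD (fr M) b c d ≤ DD (fr A) b c d := by
  obtain ⟨e, he, hM⟩ := C9_frames h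
  have h1 : DD (fr M) b c d ≤ 1 * DD (fr A) b c d := by
    apply DD_mono
    intro φ
    rw [he, hM, C9_Nf_w, one_mul]
    unfold Nf
    refine Finset.sum_le_sum fun i _ => ?_
    have h2 : muk r k i ^ 2 ≤ 1 := pow_le_one₀ (muk_pos r k i).le (muk_le_one r k i)
    nlinarith [sq_nonneg ‖dotProduct φ (e i)‖]
  linarith

theorem MvA_low1 {A B M : GL (Fin 4) 𝕜} {r k : ℕ} (h : MvA r k A B M)
    (b : Fin p → Fin 4 → 𝕜) (c : Fin q → Fin 4 → 𝕜) (d : Fin u → Fin 4 → 𝕜) :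
    DD (fr A) b c d ≤ Real.exp (2 * k) * DD (fr M) b c d := by
  obtain ⟨e, he, hM⟩ := C9_frames h
  apply DD_mono
  intro φ
  rw [he, hM, C9_Nf_w]
  unfold Nf
  rw [Finset.mul_sum]
  refine Finset.sum_le_sum fun i _ => ?_
  have h2 : 1 ≤ Real.exp (2 * k) ^ 1 * muk r k i ^ 2 := by
    rw [C9_muk]
    apply C9_pow
    unfold C9_c
    split_ifs <;> simp
  rw [pow_one] at h2
  nlinarith [sq_nonneg ‖dotProduct φ (e i)‖]

theorem MvA_low_r1 {A B M : GL (Fin 4) 𝕜} {k : ℕ} (h : MvA 1 k A B M) :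
    (∀ (c : Fin p → Fin 4 → 𝕜) (d : Fin q → Fin 4 → 𝕜),
      DD (fr A) (fr A) c d ≤ Real.exp (2 * k) * DD (fr M) (fr M) c d) ∧
    (∀ d : Fin p → Fin 4 → 𝕜,
      DD (fr A) (fr A) (fr A) d ≤ Real.exp (2 * k) * DD (fr M) (fr M) (fr M) d) ∧
    DD (fr A) (fr A) (fr A) (fr A) ≤ Real.exp (2 * k) * DD (fr M) (fr M) (fr M) (fr M) := by
  obtain ⟨e, he, hM⟩ := C9_frames h
  rw [C9_exp2]
  refine ⟨fun c d => ?_, fun d => ?_, ?_⟩
  · rw [C9_rep2 he, hM]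
    refine C9_low2 e _ _ (fun i j hij => C9_v2 k 1 1 i j ?_) c d
    revert i j; decide
  · rw [C9_rep3 he, hM]
    refine C9_low3 e _ _ (fun i j l h1 h2 h3 => C9_v3 k 1 1 i j l ?_) d
    revert i j l; decide
  · rw [C9_rep4 he, hM]
    refine C9_low4 e _ _ (fun i j l n h1 h2 h3 h4 h5 h6 => C9_v4 k 1 1 i j l n
      (C9_d1 i j l n ⟨h1, h2, h3, h4, h5, h6⟩))

theorem MvA_low_r2 {A B M : GL (Fin 4) 𝕜} {k : ℕ} (h : MvA 2 k A B M) :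
    (∀ d : Fin p → Fin 4 → 𝕜,
      DD (fr A) (fr A) (fr A) d ≤ Real.exp (4 * k) * DD (fr M) (fr M) (fr M) d) ∧
    DD (fr A) (fr A) (fr A) (fr A) ≤ Real.exp (4 * k) * DD (fr M) (fr M) (fr M) (fr M) := by
  obtain ⟨e, he, hM⟩ := C9_frames h
  rw [C9_exp4]
  refine ⟨fun d => ?_, ?_⟩
  · rw [C9_rep3 he, hM]
    refine C9_low3 e _ _ (fun i j l h1 h2 h3 => C9_v3 k 2 2 i j l ?_) d
    revert i j l; decide
  · rw [C9_rep4 he, hM]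
    refine C9_low4 e _ _ (fun i j l n h1 h2 h3 h4 h5 h6 => C9_v4 k 2 2 i j l n
      (C9_d2 i j l n ⟨h1, h2, h3, h4, h5, h6⟩))

theorem MvA_low_r3 {A B M : GL (Fin 4) 𝕜} {k : ℕ} (h : MvA 3 k A B M) :
    DD (fr A) (fr A) (fr A) (fr A) ≤ Real.exp (6 * k) * DD (fr M) (fr M) (fr M) (fr M) := by
  obtain ⟨e, he, hM⟩ := C9_frames h
  rw [C9_exp6, C9_rep4 he, hM]
  refine C9_low4 e _ _ (fun i j l n h1 h2 h3 h4 h5 h6 => C9_v4 k 3 3 i j l n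
    (C9_d3 i j l n ⟨h1, h2, h3, h4, h5, h6⟩))

/-! ### keeping some of the slots -/

theorem C9_star2 (e : Fin 4 → Fin 4 → 𝕜) (μ : Fin 4 → ℝ)
    (h : ∀ i j, i ≠ j → 1 ≤ μ i ^ 2 + μ j ^ 2) (c : Fin p → Fin 4 → 𝕜)
    (d : Fin q → Fin 4 → 𝕜) : DD e e c d ≤ 2 * DD e (C9_w μ e) c d := by
  have h0 : DD e e c d ≤ DD (C9_w μ e) (C9_w (fun _ => 1) e) c d
      + DD (C9_w (fun _ => 1) e) (C9_w μ e) c d := by
    unfold DD
    simp only [← Finset.sum_add_distrib]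
    refine C9_sum4 _ _ fun i j k l => ?_
    rw [C9_t2, C9_t2]
    by_cases hij : i = j
    · rw [hij, C9_12]; simp
    · nlinarith [h i j hij, sq_nonneg ‖dt (e i) (e j) (c k) (d l)‖]
  rw [C9_w_one, DD_s12 (C9_w μ e)] at h0
  linarith

theorem C9_star3a (e : Fin 4 → Fin 4 → 𝕜) (μ : Fin 4 → ℝ)
    (h : ∀ i j k, i ≠ j → i ≠ k → j ≠ k → 1 ≤ μ i ^ 2 + μ j ^ 2 + μ k ^ 2)
    (d : Fin q → Fin 4 → 𝕜) : DD e e e d ≤ 3 * DD e e (C9_w μ e) d := by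
  have h0 : DD e e e d ≤ DD (C9_w μ e) (C9_w (fun _ => 1) e) (C9_w (fun _ => 1) e) d
      + DD (C9_w (fun _ => 1) e) (C9_w μ e) (C9_w (fun _ => 1) e) d
      + DD (C9_w (fun _ => 1) e) (C9_w (fun _ => 1) e) (C9_w μ e) d := by
    unfold DD
    simp only [← Finset.sum_add_distrib]
    refine C9_sum4 _ _ fun i j k l => ?_
    rw [C9_t3, C9_t3, C9_t3]
    by_cases hij : i = j
    · rw [hij, C9_12]; simp
    by_cases hik : i = k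
    · rw [hik, C9_13]; simp
    by_cases hjk : j = k
    · rw [hjk, C9_23]; simp
    · nlinarith [h i j k hij hik hjk, sq_nonneg ‖dt (e i) (e j) (e k) (d l)‖]
  rw [C9_w_one, DD_s12 (C9_w μ e), DD_s23 e (C9_w μ e)] at h0
  linarith

theorem C9_star3b (e : Fin 4 → Fin 4 → 𝕜) (μ : Fin 4 → ℝ)
    (h : ∀ i j k, i ≠ j → i ≠ k → j ≠ k →
      1 ≤ (μ i * μ j) ^ 2 + (μ i * μ k) ^ 2 + (μ j * μ k) ^ 2)
    (d : Fin q → Fin 4 → 𝕜) : DD e e e d ≤ 3 * DD e (C9_w μ e) (C9_w μ e) d := by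
  have h0 : DD e e e d ≤ DD (C9_w μ e) (C9_w μ e) (C9_w (fun _ => 1) e) d
      + DD (C9_w μ e) (C9_w (fun _ => 1) e) (C9_w μ e) d
      + DD (C9_w (fun _ => 1) e) (C9_w μ e) (C9_w μ e) d := by
    unfold DD
    simp only [← Finset.sum_add_distrib]
    refine C9_sum4 _ _ fun i j k l => ?_
    rw [C9_t3, C9_t3, C9_t3]
    by_cases hij : i = j
    · rw [hij, C9_12]; simp
    by_cases hik : i = k
    · rw [hik, C9_13]; simp
    by_cases hjk : j = k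
    · rw [hjk, C9_23]; simp
    · nlinarith [h i j k hij hik hjk, sq_nonneg ‖dt (e i) (e j) (e k) (d l)‖]
  rw [C9_w_one, DD_s23 (C9_w μ e) (C9_w μ e), DD_s12 (C9_w μ e) e] at h0
  linarith

theorem C9_star4a (e : Fin 4 → Fin 4 → 𝕜) (μ : Fin 4 → ℝ)
    (h : ∀ i j k l, i ≠ j → i ≠ k → i ≠ l → j ≠ k → j ≠ l → k ≠ l →
      1 ≤ μ i ^ 2 + μ j ^ 2 + μ k ^ 2 + μ l ^ 2) :
    DD e e e e ≤ 4 * DD e e e (C9_w μ e) := by
  have h0 : DD e e e e ≤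
      DD (C9_w μ e) (C9_w (fun _ => 1) e) (C9_w (fun _ => 1) e) (C9_w (fun _ => 1) e)
      + DD (C9_w (fun _ => 1) e) (C9_w μ e) (C9_w (fun _ => 1) e) (C9_w (fun _ => 1) e)
      + DD (C9_w (fun _ => 1) e) (C9_w (fun _ => 1) e) (C9_w μ e) (C9_w (fun _ => 1) e)
      + DD (C9_w (fun _ => 1) e) (C9_w (fun _ => 1) e) (C9_w (fun _ => 1) e) (C9_w μ e) := by
    unfold DD
    simp only [← Finset.sum_add_distrib]
    refine C9_sum4 _ _ fun i j k l => ?_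
    rw [C9_t4, C9_t4, C9_t4, C9_t4]
    by_cases hij : i = j
    · rw [hij, C9_12]; simp
    by_cases hik : i = k
    · rw [hik, C9_13]; simp
    by_cases hil : i = l
    · rw [hil, C9_14]; simp
    by_cases hjk : j = k
    · rw [hjk, C9_23]; simp
    by_cases hjl : j = l
    · rw [hjl, C9_24]; simp
    by_cases hkl : k = l
    · rw [hkl, C9_34]; simp
    · nlinarith [h i j k l hij hik hil hjk hjl hkl, sq_nonneg ‖dt (e i) (e j) (e k) (e l)‖]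
  rw [C9_w_one, DD_s12 (C9_w μ e), DD_s23 e (C9_w μ e), DD_s34 e e (C9_w μ e)] at h0
  linarith

theorem C9_star4b (e : Fin 4 → Fin 4 → 𝕜) (μ : Fin 4 → ℝ)
    (h : ∀ i j k l, i ≠ j → i ≠ k → i ≠ l → j ≠ k → j ≠ l → k ≠ l →
      1 ≤ (μ j * μ k * μ l) ^ 2 + (μ i * μ k * μ l) ^ 2 + (μ i * μ j * μ l) ^ 2
        + (μ i * μ j * μ k) ^ 2) :
    DD e e e e ≤ 4 * DD e (C9_w μ e) (C9_w μ e) (C9_w μ e) := by
  have h0 : DD e e e e ≤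
      DD (C9_w (fun _ => 1) e) (C9_w μ e) (C9_w μ e) (C9_w μ e)
      + DD (C9_w μ e) (C9_w (fun _ => 1) e) (C9_w μ e) (C9_w μ e)
      + DD (C9_w μ e) (C9_w μ e) (C9_w (fun _ => 1) e) (C9_w μ e)
      + DD (C9_w μ e) (C9_w μ e) (C9_w μ e) (C9_w (fun _ => 1) e) := by
    unfold DD
    simp only [← Finset.sum_add_distrib]
    refine C9_sum4 _ _ fun i j k l => ?_
    rw [C9_t4, C9_t4, C9_t4, C9_t4]
    by_cases hij : i = j
    · rw [hij, C9_12]; simp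
    by_cases hik : i = k
    · rw [hik, C9_13]; simp
    by_cases hil : i = l
    · rw [hil, C9_14]; simp
    by_cases hjk : j = k
    · rw [hjk, C9_23]; simp
    by_cases hjl : j = l
    · rw [hjl, C9_24]; simp
    by_cases hkl : k = l
    · rw [hkl, C9_34]; simp
    · nlinarith [h i j k l hij hik hil hjk hjl hkl, sq_nonneg ‖dt (e i) (e j) (e k) (e l)‖]
  rw [C9_w_one, DD_s34 (C9_w μ e) (C9_w μ e) (C9_w μ e), DD_s23 (C9_w μ e) (C9_w μ e) e,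
    DD_s12 (C9_w μ e) e] at h0
  linarith

theorem C9_star4c (e : Fin 4 → Fin 4 → 𝕜) (μ : Fin 4 → ℝ)
    (h : ∀ i j k l, i ≠ j → i ≠ k → i ≠ l → j ≠ k → j ≠ l → k ≠ l →
      1 ≤ (μ i * μ j) ^ 2 + (μ i * μ k) ^ 2 + (μ i * μ l) ^ 2
        + (μ j * μ k) ^ 2 + (μ j * μ l) ^ 2 + (μ k * μ l) ^ 2) :
    DD e e e e ≤ 6 * DD e e (C9_w μ e) (C9_w μ e) := by
  have h0 : DD e e e e ≤
      DD (C9_w μ e) (C9_w μ e) (C9_w (fun _ => 1) e) (C9_w (fun _ => 1) e)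
      + DD (C9_w μ e) (C9_w (fun _ => 1) e) (C9_w μ e) (C9_w (fun _ => 1) e)
      + DD (C9_w μ e) (C9_w (fun _ => 1) e) (C9_w (fun _ => 1) e) (C9_w μ e)
      + DD (C9_w (fun _ => 1) e) (C9_w μ e) (C9_w μ e) (C9_w (fun _ => 1) e)
      + DD (C9_w (fun _ => 1) e) (C9_w μ e) (C9_w (fun _ => 1) e) (C9_w μ e)
      + DD (C9_w (fun _ => 1) e) (C9_w (fun _ => 1) e) (C9_w μ e) (C9_w μ e) := by
    unfold DD
    simp only [← Finset.sum_add_distrib]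
    refine C9_sum4 _ _ fun i j k l => ?_
    rw [C9_t4, C9_t4, C9_t4, C9_t4, C9_t4, C9_t4]
    by_cases hij : i = j
    · rw [hij, C9_12]; simp
    by_cases hik : i = k
    · rw [hik, C9_13]; simp
    by_cases hil : i = l
    · rw [hil, C9_14]; simp
    by_cases hjk : j = k
    · rw [hjk, C9_23]; simp
    by_cases hjl : j = l
    · rw [hjl, C9_24]; simp
    by_cases hkl : k = l
    · rw [hkl, C9_34]; simp
    · nlinarith [h i j k l hij hik hil hjk hjl hkl, sq_nonneg ‖dt (e i) (e j) (e k) (e l)‖]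
  have e5 : DD e (C9_w μ e) e (C9_w μ e) = DD e e (C9_w μ e) (C9_w μ e) := DD_s23 _ _ _ _
  have e4 : DD e (C9_w μ e) (C9_w μ e) e = DD e e (C9_w μ e) (C9_w μ e) := by
    rw [DD_s34, DD_s23]
  have e3 : DD (C9_w μ e) e e (C9_w μ e) = DD e e (C9_w μ e) (C9_w μ e) := by
    rw [DD_s12, DD_s23]
  have e2 : DD (C9_w μ e) e (C9_w μ e) e = DD e e (C9_w μ e) (C9_w μ e) := by
    rw [DD_s12, DD_s34, DD_s23]
  have e1 : DD (C9_w μ e) (C9_w μ e) e e = DD e e (C9_w μ e) (C9_w μ e) := by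
    rw [DD_s23, DD_s12, DD_s34, DD_s23]
  rw [C9_w_one, e1, e2, e3, e4, e5] at h0
  linarith

/-! ### at least one of the weights is `1` -/

theorem C9_f2 : ∀ i j : Fin 4, i ≠ j → C9_c 1 i = 0 ∨ C9_c 1 j = 0 := by
  decide

theorem C9_f3b : ∀ i j l : Fin 4, i ≠ j → i ≠ l → j ≠ l →
    (C9_c 1 i = 0 ∧ C9_c 1 j = 0) ∨ (C9_c 1 i = 0 ∧ C9_c 1 l = 0) ∨
      (C9_c 1 j = 0 ∧ C9_c 1 l = 0) := by
  decide

theorem C9_f3a : ∀ i j l : Fin 4, i ≠ j → i ≠ l → j ≠ l →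
    C9_c 2 i = 0 ∨ C9_c 2 j = 0 ∨ C9_c 2 l = 0 := by
  decide

theorem C9_f4b : ∀ i j l n : Fin 4, (i ≠ j ∧ i ≠ l ∧ i ≠ n ∧ j ≠ l ∧ j ≠ n ∧ l ≠ n) →
    (C9_c 1 j = 0 ∧ C9_c 1 l = 0 ∧ C9_c 1 n = 0) ∨
    (C9_c 1 i = 0 ∧ C9_c 1 l = 0 ∧ C9_c 1 n = 0) ∨
    (C9_c 1 i = 0 ∧ C9_c 1 j = 0 ∧ C9_c 1 n = 0) ∨
    (C9_c 1 i = 0 ∧ C9_c 1 j = 0 ∧ C9_c 1 l = 0) := by
  decide

theorem C9_f4c : ∀ i j l n : Fin 4, (i ≠ j ∧ i ≠ l ∧ i ≠ n ∧ j ≠ l ∧ j ≠ n ∧ l ≠ n) →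
    (C9_c 2 i = 0 ∧ C9_c 2 j = 0) ∨ (C9_c 2 i = 0 ∧ C9_c 2 l = 0) ∨
    (C9_c 2 i = 0 ∧ C9_c 2 n = 0) ∨ (C9_c 2 j = 0 ∧ C9_c 2 l = 0) ∨
    (C9_c 2 j = 0 ∧ C9_c 2 n = 0) ∨ (C9_c 2 l = 0 ∧ C9_c 2 n = 0) := by
  decide

theorem C9_f4a : ∀ i j l n : Fin 4, (i ≠ j ∧ i ≠ l ∧ i ≠ n ∧ j ≠ l ∧ j ≠ n ∧ l ≠ n) →
    C9_c 3 i = 0 ∨ C9_c 3 j = 0 ∨ C9_c 3 l = 0 ∨ C9_c 3 n = 0 := by
  decide

theorem MvA_star_r1 {A B M : GL (Fin 4) 𝕜} {k : ℕ} (h : MvA 1 k A B M) :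
    (∀ (c : Fin p → Fin 4 → 𝕜) (d : Fin q → Fin 4 → 𝕜),
      DD (fr A) (fr A) c d ≤ 2 * DD (fr A) (fr M) c d) ∧
    (∀ d : Fin p → Fin 4 → 𝕜, DD (fr A) (fr A) (fr A) d ≤ 3 * DD (fr A) (fr M) (fr M) d) ∧
    DD (fr A) (fr A) (fr A) (fr A) ≤ 4 * DD (fr A) (fr M) (fr M) (fr M) := by
  obtain ⟨e, he, hM⟩ := C9_frames h
  refine ⟨fun c d => ?_, fun d => ?_, ?_⟩
  · rw [C9_rep2 he, hM, DD_congr he]
    refine C9_star2 e _ (fun i j hij => ?_) c d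
    rcases C9_f2 i j hij with h1 | h1
    · rw [C9_muk_one (k := k) h1]; nlinarith [sq_nonneg (muk 1 k j)]
    · rw [C9_muk_one (k := k) h1]; nlinarith [sq_nonneg (muk 1 k i)]
  · rw [C9_rep3 he, hM, DD_congr he]
    refine C9_star3b e _ (fun i j l h1 h2 h3 => ?_) d
    rcases C9_f3b i j l h1 h2 h3 with h4 | h4 | h4 <;>
      rw [C9_muk_one (k := k) h4.1, C9_muk_one (k := k) h4.2]
    · nlinarith [sq_nonneg (muk 1 k l)]
    · nlinarith [sq_nonneg (muk 1 k j)]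
    · nlinarith [sq_nonneg (muk 1 k i)]
  · rw [C9_rep4 he, hM, DD_congr he]
    refine C9_star4b e _ (fun i j l n h1 h2 h3 h4 h5 h6 => ?_)
    rcases C9_f4b i j l n ⟨h1, h2, h3, h4, h5, h6⟩ with h7 | h7 | h7 | h7 <;>
      rw [C9_muk_one (k := k) h7.1, C9_muk_one (k := k) h7.2.1, C9_muk_one (k := k) h7.2.2]
    · nlinarith [sq_nonneg (muk 1 k i)]
    · nlinarith [sq_nonneg (muk 1 k j)]
    · nlinarith [sq_nonneg (muk 1 k l)]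
    · nlinarith [sq_nonneg (muk 1 k n)]

theorem MvA_star_r2 {A B M : GL (Fin 4) 𝕜} {k : ℕ} (h : MvA 2 k A B M) :
    (∀ d : Fin p → Fin 4 → 𝕜, DD (fr A) (fr A) (fr A) d ≤ 3 * DD (fr A) (fr A) (fr M) d) ∧
    DD (fr A) (fr A) (fr A) (fr A) ≤ 6 * DD (fr A) (fr A) (fr M) (fr M) := by
  obtain ⟨e, he, hM⟩ := C9_frames h
  refine ⟨fun d => ?_, ?_⟩
  · rw [C9_rep3 he, hM, C9_rep2 he]
    refine C9_star3a e _ (fun i j l h1 h2 h3 => ?_) d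
    rcases C9_f3a i j l h1 h2 h3 with h4 | h4 | h4 <;> rw [C9_muk_one (k := k) h4]
    · nlinarith [sq_nonneg (muk 2 k l), sq_nonneg (muk 2 k j)]
    · nlinarith [sq_nonneg (muk 2 k l), sq_nonneg (muk 2 k i)]
    · nlinarith [sq_nonneg (muk 2 k i), sq_nonneg (muk 2 k j)]
  · rw [C9_rep4 he, hM, C9_rep2 he]
    refine C9_star4c e _ (fun i j l n h1 h2 h3 h4 h5 h6 => ?_)
    have hp : ∀ x y : ℝ, 0 ≤ (x * y) ^ 2 := fun x y => sq_nonneg _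
    have g1 := hp (muk 2 k i) (muk 2 k j)
    have g2 := hp (muk 2 k i) (muk 2 k l)
    have g3 := hp (muk 2 k i) (muk 2 k n)
    have g4 := hp (muk 2 k j) (muk 2 k l)
    have g5 := hp (muk 2 k j) (muk 2 k n)
    have g6 := hp (muk 2 k l) (muk 2 k n)
    rcases C9_f4c i j l n ⟨h1, h2, h3, h4, h5, h6⟩ with h7 | h7 | h7 | h7 | h7 | h7 <;>
      rw [C9_muk_one (k := k) h7.1, C9_muk_one (k := k) h7.2] at * <;> linarith

theorem MvA_star_r3 {A B M : GL (Fin 4) 𝕜} {k : ℕ} (h : MvA 3 k A B M) :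
    DD (fr A) (fr A) (fr A) (fr A) ≤ 4 * DD (fr A) (fr A) (fr A) (fr M) := by
  obtain ⟨e, he, hM⟩ := C9_frames h
  rw [C9_rep4 he, hM, C9_rep3 he]
  refine C9_star4a e _ (fun i j l n h1 h2 h3 h4 h5 h6 => ?_)
  have g1 := sq_nonneg (muk 3 k i)
  have g2 := sq_nonneg (muk 3 k j)
  have g3 := sq_nonneg (muk 3 k l)
  have g4 := sq_nonneg (muk 3 k n)
  rcases C9_f4a i j l n ⟨h1, h2, h3, h4, h5, h6⟩ with h7 | h7 | h7 | h7 <;>
    rw [C9_muk_one (k := k) h7] at * <;> linarith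

end RapidDecay
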