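import Pool.Agent.Lib.MP_fee02f_an.AR.C8
import Pool.Agent.Lib.MP_fee02f_an.AR.C9
import Pool.Agent.Lib.MP_fee02f_an.AR.C11

/-!
C12: the slack formulas for frames (45 min).

PROOF. `MvHyp HA 7 r k A M B C` holds: HA_le_of_DD with the factors 1, exp(2k), 189540 exp(-2k), exp(2k), exp(4k), exp(6k),
2, 3, 4, 6 (log 189540 ≤ 14, so κ = 7 works).  Then move_slacks with e = log 4 ≤ 2: 80 * 9 = 720 ≤ 1000.
GroupGe implies r = 1, 2 or 3.
-/

set_option autoImplicit false

namespace RapidDecay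

variable {𝕜 : Type*} [RCLike 𝕜]

theorem C12_aux {A B C E A' B' C' E' : GL (Fin 4) 𝕜} {κ c : ℝ} (hκ : 0 < κ)
    (h : DD (fr A') (fr B') (fr C') (fr E') ≤ κ * DD (fr A) (fr B) (fr C) (fr E))
    (hc : 1 / 2 * Real.log κ ≤ c) : HA A B C E ≤ HA A' B' C' E' + c := by
  have := HA_le_of_DD hκ h
  linarith

theorem C12_log_num {x : ℝ} (h0 : 0 < x) (h1 : x ≤ 8) : 1 / 2 * Real.log x ≤ 7 := by
  have := Real.log_le_sub_one_of_pos h0
  linarith

theorem C12_log_big (k : ℕ) :
    1 / 2 * Real.log (189540 * Real.exp (-(2 * (k : ℝ)))) ≤ 7 - k := by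
  rw [Real.log_mul (by norm_num) (Real.exp_pos _).ne', Real.log_exp]
  have h1 : Real.log 189540 ≤ 14 := by
    rw [Real.log_le_iff_le_exp (by norm_num)]
    have h2 : (2.7 : ℝ) < Real.exp 1 := by
      have := Real.exp_one_gt_d9
      linarith
    have h3 : Real.exp 14 = Real.exp 1 ^ 14 := by
      rw [← Real.exp_nat_mul]; norm_num
    rw [h3]
    calc (189540 : ℝ) ≤ (2.7 : ℝ) ^ 14 := by norm_num
      _ ≤ Real.exp 1 ^ 14 := pow_le_pow_left₀ (by norm_num) h2.le 14
  linarith

theorem C12_log_exp (k : ℕ) (c : ℝ) :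
    1 / 2 * Real.log (Real.exp (2 * c * k)) ≤ c * k + 7 := by
  rw [Real.log_exp]
  linarith

theorem MvA_hyp {A B C M : GL (Fin 4) 𝕜} {r k : ℕ} (h : GroupGe HA A B C r k)
    (hM : MvA r k A B M) : MvHyp HA 7 r k A M B C := by
  have hup := MvA_up h hM
  have e1 : 1 / 2 * Real.log (Real.exp (2 * (k : ℝ))) ≤ k + 7 := by
    rw [Real.log_exp]; linarith
  have e2 : 1 / 2 * Real.log (Real.exp (4 * (k : ℝ))) ≤ 2 * k + 7 := by
    rw [Real.log_exp]; linarith
  have e3 : 1 / 2 * Real.log (Real.exp (6 * (k : ℝ))) ≤ 3 * k + 7 := by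
    rw [Real.log_exp]; linarith
  have hb := C12_log_big k
  have hbpos : (0 : ℝ) < 189540 * Real.exp (-(2 * (k : ℝ))) := by positivity
  constructor
  · intro x y z
    exact C12_aux (κ := 1) one_pos (by rw [one_mul]; exact MvA_mono hM _ _ _) (by simp)
  · intro x y z
    have := C12_aux (Real.exp_pos _) (MvA_low1 hM (fr x) (fr y) (fr z)) e1
    linarith
  · intro hr p q t hp hq ht
    have := C12_aux hbpos (hup.1 hr p q t hp hq ht) hb
    linarith
  · intro hr q t hq ht
    have := C12_aux hbpos (hup.2.1 hr q t hq ht) hb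
    linarith
  · intro hr t ht
    have := C12_aux hbpos (hup.2.2 hr t ht) hb
    linarith
  · intro hr
    subst hr
    refine ⟨fun z t => ?_, fun t => ?_, ?_⟩
    · have := C12_aux (Real.exp_pos _) ((MvA_low_r1 (p := 4) (q := 4) hM).1 (fr z) (fr t)) e1
      linarith
    · have := C12_aux (Real.exp_pos _) ((MvA_low_r1 (p := 4) (q := 4) hM).2.1 (fr t)) e1
      linarith
    · have := C12_aux (Real.exp_pos _) ((MvA_low_r1 (p := 4) (q := 4) hM).2.2) e1
      linarith
  · intro hr
    subst hr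
    refine ⟨fun t => ?_, ?_⟩
    · have := C12_aux (Real.exp_pos _) ((MvA_low_r2 (p := 4) hM).1 (fr t)) e2
      linarith
    · have := C12_aux (Real.exp_pos _) ((MvA_low_r2 (p := 4) hM).2) e2
      linarith
  · intro hr
    subst hr
    have := C12_aux (Real.exp_pos _) (MvA_low_r3 hM) e3
    linarith
  · intro hr
    subst hr
    refine ⟨fun z t => ?_, fun t => ?_, ?_⟩
    · exact C12_aux (by norm_num) ((MvA_star_r1 (p := 4) (q := 4) hM).1 (fr z) (fr t))
        (C12_log_num (by norm_num) (by norm_num))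
    · exact C12_aux (by norm_num) ((MvA_star_r1 (p := 4) (q := 4) hM).2.1 (fr t))
        (C12_log_num (by norm_num) (by norm_num))
    · exact C12_aux (by norm_num) ((MvA_star_r1 (p := 4) (q := 4) hM).2.2)
        (C12_log_num (by norm_num) (by norm_num))
  · intro hr
    subst hr
    refine ⟨fun t => ?_, ?_⟩
    · exact C12_aux (by norm_num) ((MvA_star_r2 (p := 4) hM).1 (fr t))
        (C12_log_num (by norm_num) (by norm_num))
    · exact C12_aux (by norm_num) ((MvA_star_r2 (p := 4) hM).2)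
        (C12_log_num (by norm_num) (by norm_num))
  · intro hr
    subst hr
    exact C12_aux (by norm_num) (MvA_star_r3 hM) (C12_log_num (by norm_num) (by norm_num))

theorem MvA_sl {A B C M : GL (Fin 4) 𝕜} {r k : ℕ} (h : GroupGe HA A B C r k)
    (hM : MvA r k A B M) (u v w s t : Fin 3) (huv : u ≠ v) (hvw : v ≠ w) (huw : u ≠ w) :
    |tsl HA ![M, B, C] (u, v, w, s, t)
        - (tsl HA ![A, B, C] (u, v, w, s, t)
          - (if u = 0 ∧ (if s = 0 then 1 else 0) + (if t = 0 then 1 else 0) + 1 = r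
              then (k : ℝ) else 0))| ≤ 1000 := by
  have hr : r = 1 ∨ r = 2 ∨ r = 3 := by
    rcases h with h | h | h
    · exact Or.inl h.1
    · exact Or.inr (Or.inl h.1)
    · exact Or.inr (Or.inr h.1)
  have h1 := move_slacks (HA_hive (𝕜 := 𝕜)) (κ := 7) (by norm_num) hr (MvA_hyp h hM) u v w s t
    huv hvw huw
  have h2 : Real.log 4 ≤ 3 := by
    have := Real.log_le_sub_one_of_pos (show (0 : ℝ) < 4 by norm_num)
    linarith
  linarith

end RapidDecay
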