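import Pool.Agent.Lib.MP_fee02f_an.AR.C3

/-!
C13: exponential growth of the space of frames up to bounded distance (75 min).

PROOF. By HA_mul the distance is invariant, so take A = 1 (the set S for A is A * (set for 1)).
dst HA 1 B ≤ m means SS B * SS B⁻¹ ≤ 16 exp(2m).  Put B' = t B with t = SS(B)^(-1/2): SS B' = 1,
SS B'⁻¹ ≤ 16 exp(2m), dst HA B' B = 0.  Put N = 64 * 3^m and let Z(B') be the family of the integers
⌊N re B'_ij⌋, ⌊N im B'_ij⌋, in [-N, N].  If B', B'' have the same Z then SS(B' - B'') ≤ 32/N^2,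
B'⁻¹ B'' = 1 + E with SS E ≤ SS(B'⁻¹) SS(B'' - B') ≤ 16 * 9^m * 32 / (4096 * 9^m) = 1/8 (SS is submultiplicative
by Cauchy-Schwarz; exp(2m) ≤ 9^m), so SS(B'⁻¹ B'') ≤ 2 SS 1 + 2 SS E ≤ 9, the same for B''⁻¹ B', and
dst ≤ 1/2 log(81/16) ≤ 1.  For every Z in the box for which it exists choose one such B_Z; S = {B_Z}, of cardinality
at most (2N+1)^32 ≤ (129 * 3^m)^32 ≤ C^(m+1).
-/

set_option autoImplicit false

namespace RapidDecay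

variable {𝕜 : Type*} [RCLike 𝕜]

theorem C13_smul (c : 𝕜) (A : Matrix (Fin 4) (Fin 4) 𝕜) : SS (c • A) = ‖c‖ ^ 2 * SS A := by
  unfold SS
  simp only [Finset.mul_sum, Matrix.smul_apply, smul_eq_mul, norm_mul, mul_pow]

theorem C13_nonneg (A : Matrix (Fin 4) (Fin 4) 𝕜) : 0 ≤ SS A := by
  unfold SS
  positivity

theorem C13_add_le (A B : Matrix (Fin 4) (Fin 4) 𝕜) : SS (A + B) ≤ 2 * SS A + 2 * SS B := by
  unfold SS
  rw [Finset.mul_sum, Finset.mul_sum, ← Finset.sum_add_distrib]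
  refine Finset.sum_le_sum (fun i _ => ?_)
  rw [Finset.mul_sum, Finset.mul_sum, ← Finset.sum_add_distrib]
  refine Finset.sum_le_sum (fun j _ => ?_)
  rw [Matrix.add_apply]
  have h := norm_add_le (A i j) (B i j)
  nlinarith [norm_nonneg (A i j + B i j), norm_nonneg (A i j), norm_nonneg (B i j),
    sq_nonneg (‖A i j‖ - ‖B i j‖)]

theorem C13_one : SS (1 : Matrix (Fin 4) (Fin 4) 𝕜) = 4 := by
  unfold SS
  have : ∀ i : Fin 4, ∑ j : Fin 4, ‖(1 : Matrix (Fin 4) (Fin 4) 𝕜) i j‖ ^ 2 = 1 := by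
    intro i
    rw [Finset.sum_eq_single i]
    · simp
    · intro j _ hj
      rw [Matrix.one_apply_ne' hj]
      simp
    · simp
  simp [this]

theorem SS_mul_le (A B : Matrix (Fin 4) (Fin 4) 𝕜) : SS (A * B) ≤ SS A * SS B := by
  have hB : SS B = ∑ j, ∑ k, ‖B k j‖ ^ 2 := Finset.sum_comm
  rw [hB]
  unfold SS
  rw [Finset.sum_mul_sum]
  refine Finset.sum_le_sum (fun i _ => Finset.sum_le_sum (fun j _ => ?_))
  rw [Matrix.mul_apply]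
  have h1 : ‖∑ k, A i k * B k j‖ ≤ ∑ k, ‖A i k‖ * ‖B k j‖ := by
    refine (norm_sum_le _ _).trans (le_of_eq ?_)
    exact Finset.sum_congr rfl (fun k _ => norm_mul _ _)
  calc ‖∑ k, A i k * B k j‖ ^ 2 ≤ (∑ k, ‖A i k‖ * ‖B k j‖) ^ 2 :=
        pow_le_pow_left₀ (norm_nonneg _) h1 2
    _ ≤ _ := Finset.sum_mul_sq_le_sq_mul_sq _ _ _

/-- two normalised frames which are close have quotient close to one -/
theorem C13_near (P Q : GL (Fin 4) 𝕜) {tP tQ K ε : ℝ} (htP : 0 < tP)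
    (hP : tP ^ 2 * SS P.1 = 1) (hK : SS P.1 * SS (P⁻¹).1 ≤ K)
    (hΔ : SS ((tQ : 𝕜) • Q.1 - (tP : 𝕜) • P.1) ≤ ε) (hKε : K * ε ≤ 1 / 8) :
    (tQ / tP) ^ 2 * SS (P⁻¹ * Q).1 ≤ 9 := by
  have hne : (tP : 𝕜) ≠ 0 := by
    rw [Ne, RCLike.ofReal_eq_zero]
    exact htP.ne'
  have hPP : (P⁻¹).1 * P.1 = 1 := P.inv_mul
  have e1 : ((tQ / tP : ℝ) : 𝕜) • (P⁻¹ * Q).1 =
      1 + ((tP⁻¹ : ℝ) : 𝕜) • ((P⁻¹).1 * ((tQ : 𝕜) • Q.1 - (tP : 𝕜) • P.1)) := by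
    have e2 : (P⁻¹ * Q).1 = (P⁻¹).1 * Q.1 := rfl
    rw [e2, Matrix.mul_sub, Matrix.mul_smul, Matrix.mul_smul, hPP, smul_sub, smul_smul, smul_smul]
    have e3 : ((tP⁻¹ : ℝ) : 𝕜) * (tP : 𝕜) = 1 := by
      rw [RCLike.ofReal_inv]
      exact inv_mul_cancel₀ hne
    rw [e3, one_smul]
    have e4 : ((tP⁻¹ : ℝ) : 𝕜) * (tQ : 𝕜) = ((tQ / tP : ℝ) : 𝕜) := by
      rw [← RCLike.ofReal_mul]
      congr 1
      ring
    rw [e4]
    abel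
  have h1 : SS (((tQ / tP : ℝ) : 𝕜) • (P⁻¹ * Q).1) = (tQ / tP) ^ 2 * SS (P⁻¹ * Q).1 := by
    rw [C13_smul, RCLike.norm_ofReal, sq_abs]
  rw [← h1, e1]
  refine (C13_add_le _ _).trans ?_
  rw [C13_one, C13_smul, RCLike.norm_ofReal, sq_abs]
  have h2 := SS_mul_le (P⁻¹).1 ((tQ : 𝕜) • Q.1 - (tP : 𝕜) • P.1)
  have h3 : (tP⁻¹) ^ 2 = SS P.1 := by
    have : tP ^ 2 ≠ 0 := by positivity
    rw [inv_pow]
    field_simp
    linarith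
  rw [h3]
  have n1 := C13_nonneg P.1
  have n2 := C13_nonneg (P⁻¹).1
  have n3 := C13_nonneg ((tQ : 𝕜) • Q.1 - (tP : 𝕜) • P.1)
  have h4 : SS P.1 * SS ((P⁻¹).1 * ((tQ : 𝕜) • Q.1 - (tP : 𝕜) • P.1)) ≤ K * ε := by
    calc SS P.1 * SS ((P⁻¹).1 * ((tQ : 𝕜) • Q.1 - (tP : 𝕜) • P.1)) ≤
        SS P.1 * (SS (P⁻¹).1 * SS ((tQ : 𝕜) • Q.1 - (tP : 𝕜) • P.1)) :=
          mul_le_mul_of_nonneg_left h2 n1
      _ = (SS P.1 * SS (P⁻¹).1) * SS ((tQ : 𝕜) • Q.1 - (tP : 𝕜) • P.1) := by ring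
      _ ≤ K * ε := mul_le_mul hK hΔ n3 (le_trans (mul_nonneg n1 n2) hK)
  linarith

/-- the normalising factor -/
noncomputable def C13_t (P : GL (Fin 4) 𝕜) : ℝ := (Real.sqrt (SS P.1))⁻¹

theorem C13_t_pos (P : GL (Fin 4) 𝕜) : 0 < C13_t P := by
  unfold C13_t
  exact inv_pos.2 (Real.sqrt_pos.2 (SS_pos P))

theorem C13_t_sq (P : GL (Fin 4) 𝕜) : C13_t P ^ 2 * SS P.1 = 1 := by
  unfold C13_t
  rw [inv_pow, Real.sq_sqrt (SS_pos P).le]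
  exact inv_mul_cancel₀ (SS_pos P).ne'

/-- the address of a frame in the grid -/
noncomputable def C13_Z (N : ℕ) (P : GL (Fin 4) 𝕜) : Fin 4 → Fin 4 → ℤ × ℤ := fun i j =>
  (⌊(N : ℝ) * RCLike.re ((C13_t P : 𝕜) * P.1 i j)⌋, ⌊(N : ℝ) * RCLike.im ((C13_t P : 𝕜) * P.1 i j)⌋)

/-- the grid -/
noncomputable def C13_box (N : ℕ) : Finset (Fin 4 → Fin 4 → ℤ × ℤ) :=
  Fintype.piFinset (fun _ => Fintype.piFinset (fun _ =>
    Finset.Icc (-(N : ℤ)) N ×ˢ Finset.Icc (-(N : ℤ)) N))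

theorem C13_card_box (N : ℕ) : (C13_box N).card = (2 * N + 1) ^ 32 := by
  unfold C13_box
  simp only [Fintype.card_piFinset, Finset.card_product, Int.card_Icc, Finset.prod_const,
    Finset.card_univ, Fintype.card_fin]
  have : ((N : ℤ) + 1 - -(N : ℤ)).toNat = 2 * N + 1 := by omega
  rw [this]
  ring

theorem C13_entry_le (P : GL (Fin 4) 𝕜) (i j : Fin 4) : ‖(C13_t P : 𝕜) * P.1 i j‖ ^ 2 ≤ 1 := by
  have h1 : SS ((C13_t P : 𝕜) • P.1) = 1 := by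
    rw [C13_smul, RCLike.norm_ofReal, sq_abs]
    exact C13_t_sq P
  rw [← h1]
  unfold SS
  have h2 : ‖((C13_t P : 𝕜) • P.1) i j‖ ^ 2 ≤ ∑ j', ‖((C13_t P : 𝕜) • P.1) i j'‖ ^ 2 :=
    Finset.single_le_sum (f := fun j' => ‖((C13_t P : 𝕜) • P.1) i j'‖ ^ 2)
      (fun _ _ => by positivity) (Finset.mem_univ j)
  have h3 : ∑ j', ‖((C13_t P : 𝕜) • P.1) i j'‖ ^ 2 ≤
      ∑ i', ∑ j', ‖((C13_t P : 𝕜) • P.1) i' j'‖ ^ 2 :=
    Finset.single_le_sum (f := fun i' => ∑ j', ‖((C13_t P : 𝕜) • P.1) i' j'‖ ^ 2)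
      (fun _ _ => by positivity) (Finset.mem_univ i)
  exact h2.trans h3

theorem C13_floor_mem (N : ℕ) {x : ℝ} (hx : x ^ 2 ≤ 1) :
    ⌊(N : ℝ) * x⌋ ∈ Finset.Icc (-(N : ℤ)) N := by
  have hx' := abs_le_one_iff_mul_self_le_one.2 (by nlinarith : x * x ≤ 1)
  have h1 := (abs_le.1 hx').1
  have h2 := (abs_le.1 hx').2
  have hN : (0 : ℝ) ≤ N := Nat.cast_nonneg N
  rw [Finset.mem_Icc]
  constructor
  · rw [Int.le_floor]
    push_cast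
    nlinarith
  · rw [← Int.lt_add_one_iff, Int.floor_lt]
    push_cast
    nlinarith

theorem C13_Z_mem (N : ℕ) (P : GL (Fin 4) 𝕜) : C13_Z N P ∈ C13_box N := by
  unfold C13_box
  rw [Fintype.mem_piFinset]
  intro i
  rw [Fintype.mem_piFinset]
  intro j
  have h := C13_entry_le P i j
  rw [RCLike.norm_sq_eq_def] at h
  rw [Finset.mem_product]
  constructor
  · exact C13_floor_mem N (by nlinarith [mul_self_nonneg (RCLike.im ((C13_t P : 𝕜) * P.1 i j))])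
  · exact C13_floor_mem N (by nlinarith [mul_self_nonneg (RCLike.re ((C13_t P : 𝕜) * P.1 i j))])

theorem C13_floor_close {N : ℕ} (hN : 0 < N) {x y : ℝ} (h : ⌊(N : ℝ) * x⌋ = ⌊(N : ℝ) * y⌋) :
    (x - y) * (x - y) ≤ 1 / (N : ℝ) ^ 2 := by
  have hN' : (0 : ℝ) < N := Nat.cast_pos.2 hN
  have h1 := Int.abs_sub_lt_one_of_floor_eq_floor h
  have h2 : (N : ℝ) * x - N * y = N * (x - y) := by ring
  rw [h2, abs_mul, abs_of_pos hN'] at h1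
  rw [le_div_iff₀ (by positivity)]
  have h3 : (x - y) * (x - y) * (N : ℝ) ^ 2 = (N * |x - y|) ^ 2 := by
    rw [mul_pow, sq_abs]
    ring
  rw [h3]
  have h4 : 0 ≤ N * |x - y| := by positivity
  nlinarith

theorem C13_close {N : ℕ} (hN : 0 < N) (P Q : GL (Fin 4) 𝕜) (h : C13_Z N P = C13_Z N Q) :
    SS ((C13_t Q : 𝕜) • Q.1 - (C13_t P : 𝕜) • P.1) ≤ 32 / (N : ℝ) ^ 2 := by
  have hN' : (0 : ℝ) < N := Nat.cast_pos.2 hN
  have key : ∀ i j, ‖((C13_t Q : 𝕜) • Q.1 - (C13_t P : 𝕜) • P.1) i j‖ ^ 2 ≤ 2 / (N : ℝ) ^ 2 := by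
    intro i j
    have hij := congrFun (congrFun h i) j
    unfold C13_Z at hij
    rw [Prod.mk.injEq] at hij
    have h1 := C13_floor_close hN hij.1.symm
    have h2 := C13_floor_close hN hij.2.symm
    rw [RCLike.norm_sq_eq_def, Matrix.sub_apply, Matrix.smul_apply, Matrix.smul_apply,
      smul_eq_mul, smul_eq_mul, map_sub, map_sub]
    have e : (2 : ℝ) / (N : ℝ) ^ 2 = 1 / (N : ℝ) ^ 2 + 1 / (N : ℝ) ^ 2 := by ring
    rw [e]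
    exact add_le_add h1 h2
  unfold SS
  calc ∑ i, ∑ j, ‖((C13_t Q : 𝕜) • Q.1 - (C13_t P : 𝕜) • P.1) i j‖ ^ 2 ≤
      ∑ _i : Fin 4, ∑ _j : Fin 4, 2 / (N : ℝ) ^ 2 :=
        Finset.sum_le_sum (fun i _ => Finset.sum_le_sum (fun j _ => key i j))
    _ = 32 / (N : ℝ) ^ 2 := by
        simp only [Finset.sum_const, Finset.card_univ, Fintype.card_fin, nsmul_eq_mul]
        push_cast
        ring

theorem C13_exp_le (m : ℕ) : Real.exp (2 * m) ≤ 9 ^ m := by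
  have h1 : Real.exp (2 * m) = (Real.exp 2) ^ m := by
    rw [← Real.exp_nat_mul]
    congr 1
    ring
  have h2 : Real.exp 2 ≤ 9 := by
    have e : Real.exp 2 = Real.exp 1 * Real.exp 1 := by
      rw [← Real.exp_add]
      norm_num
    have h3 := Real.exp_one_lt_d9
    have h4 := Real.exp_pos 1
    rw [e]
    nlinarith
  rw [h1]
  exact pow_le_pow_left₀ (Real.exp_pos _).le h2 m

theorem C13_of_dst {A B : GL (Fin 4) 𝕜} {m : ℕ} (h : dst HA A B ≤ m) :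
    SS (A⁻¹ * B).1 * SS ((A⁻¹ * B)⁻¹).1 ≤ 16 * 9 ^ m := by
  rw [dst_HA] at h
  have e : (A⁻¹ * B)⁻¹ = B⁻¹ * A := by rw [mul_inv_rev, inv_inv]
  rw [e]
  have hpos : 0 < SS (A⁻¹ * B).1 * SS (B⁻¹ * A).1 / 16 := by
    have := SS_pos (A⁻¹ * B)
    have := SS_pos (B⁻¹ * A)
    positivity
  have h1 : Real.log (SS (A⁻¹ * B).1 * SS (B⁻¹ * A).1 / 16) ≤ 2 * m := by linarith
  have h2 := (Real.log_le_iff_le_exp hpos).1 h1
  have h3 := C13_exp_le m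
  linarith

open Classical in
theorem C13_main (A : GL (Fin 4) 𝕜) (m : ℕ) : ∃ S : Finset (GL (Fin 4) 𝕜),
    S.card ≤ (2 * (64 * 3 ^ m) + 1) ^ 32 ∧ ∀ B, dst HA A B ≤ m → ∃ s ∈ S, dst HA s B ≤ 1000 := by
  obtain ⟨N, hNd⟩ : ∃ N : ℕ, N = 64 * 3 ^ m := ⟨_, rfl⟩
  have hN : 0 < N := by rw [hNd]; positivity
  obtain ⟨F, hF⟩ : ∃ F : (Fin 4 → Fin 4 → ℤ × ℤ) → GL (Fin 4) 𝕜,
      ∀ z, (∃ B, dst HA A B ≤ m ∧ C13_Z N (A⁻¹ * B) = z) →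
        dst HA A (F z) ≤ m ∧ C13_Z N (A⁻¹ * F z) = z := by
    have : ∀ z : Fin 4 → Fin 4 → ℤ × ℤ, ∃ B' : GL (Fin 4) 𝕜,
        (∃ B, dst HA A B ≤ m ∧ C13_Z N (A⁻¹ * B) = z) →
        dst HA A B' ≤ m ∧ C13_Z N (A⁻¹ * B') = z := by
      intro z
      by_cases h : ∃ B, dst HA A B ≤ m ∧ C13_Z N (A⁻¹ * B) = z
      · obtain ⟨B, hB⟩ := h
        exact ⟨B, fun _ => hB⟩
      · exact ⟨A, fun h' => absurd h' h⟩
    choose F hF using this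
    exact ⟨F, hF⟩
  refine ⟨(C13_box N).image F, ?_, fun B hB => ?_⟩
  · refine Finset.card_image_le.trans ?_
    rw [C13_card_box, hNd]
  · refine ⟨F (C13_Z N (A⁻¹ * B)), Finset.mem_image_of_mem F (C13_Z_mem N _), ?_⟩
    obtain ⟨h1, h2⟩ := hF (C13_Z N (A⁻¹ * B)) ⟨B, hB, rfl⟩
    obtain ⟨s, hs⟩ : ∃ s, s = F (C13_Z N (A⁻¹ * B)) := ⟨_, rfl⟩
    rw [← hs] at h1 h2 ⊢
    obtain ⟨P, hP⟩ : ∃ P, P = A⁻¹ * s := ⟨_, rfl⟩
    obtain ⟨Q, hQ⟩ : ∃ Q, Q = A⁻¹ * B := ⟨_, rfl⟩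
    have hKP : SS P.1 * SS (P⁻¹).1 ≤ 16 * 9 ^ m := by rw [hP]; exact C13_of_dst h1
    have hKQ : SS Q.1 * SS (Q⁻¹).1 ≤ 16 * 9 ^ m := by rw [hQ]; exact C13_of_dst hB
    rw [← hP, ← hQ] at h2
    have hKε : (16 * 9 ^ m : ℝ) * (32 / (N : ℝ) ^ 2) ≤ 1 / 8 := by
      rw [hNd]
      push_cast
      have e9 : ((3 : ℝ) ^ m) ^ 2 = 9 ^ m := by
        rw [← pow_mul, mul_comm m 2, pow_mul]
        norm_num
      rw [mul_pow, e9]
      have : (0 : ℝ) < 9 ^ m := by positivity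
      rw [← mul_div_assoc, div_le_div_iff₀ (by positivity) (by norm_num)]
      nlinarith
    have a1 := C13_near P Q (C13_t_pos P) (C13_t_sq P) hKP (C13_close hN P Q h2) hKε
    have a2 := C13_near Q P (C13_t_pos Q) (C13_t_sq Q) hKQ (C13_close hN Q P h2.symm) hKε
    have hsB : s⁻¹ * B = P⁻¹ * Q := by rw [hP, hQ]; group
    have hBs : B⁻¹ * s = Q⁻¹ * P := by rw [hP, hQ]; group
    rw [dst_HA, hsB, hBs]
    have p1 := SS_pos (P⁻¹ * Q)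
    have p2 := SS_pos (Q⁻¹ * P)
    have t1 := C13_t_pos P
    have t2 := C13_t_pos Q
    have hprod : SS (P⁻¹ * Q).1 * SS (Q⁻¹ * P).1 ≤ 81 := by
      have e : SS (P⁻¹ * Q).1 * SS (Q⁻¹ * P).1 = ((C13_t Q / C13_t P) ^ 2 * SS (P⁻¹ * Q).1) *
          ((C13_t P / C13_t Q) ^ 2 * SS (Q⁻¹ * P).1) := by
        field_simp
      rw [e]
      calc ((C13_t Q / C13_t P) ^ 2 * SS (P⁻¹ * Q).1) *
          ((C13_t P / C13_t Q) ^ 2 * SS (Q⁻¹ * P).1) ≤ 9 * 9 :=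
            mul_le_mul a1 a2 (by positivity) (by norm_num)
        _ = 81 := by norm_num
    have hpos : 0 < SS (P⁻¹ * Q).1 * SS (Q⁻¹ * P).1 / 16 := by positivity
    have hlog := Real.log_le_sub_one_of_pos hpos
    linarith

theorem cover_HA : ∃ C : ℕ, ∀ (A : GL (Fin 4) 𝕜) (m : ℕ), ∃ S : Finset (GL (Fin 4) 𝕜),
    S.card ≤ C ^ (m + 1) ∧ ∀ B, dst HA A B ≤ m → ∃ s ∈ S, dst HA s B ≤ 1000 := by
  refine ⟨387 ^ 32, fun A m => ?_⟩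
  obtain ⟨S, h1, h2⟩ := C13_main A m
  refine ⟨S, h1.trans ?_, h2⟩
  have h3 : 2 * (64 * 3 ^ m) + 1 ≤ 387 ^ (m + 1) := by
    have h4 : 3 ^ m ≤ 387 ^ m := Nat.pow_le_pow_left (by norm_num) m
    have h5 : 1 ≤ 3 ^ m := Nat.one_le_pow _ _ (by norm_num)
    rw [pow_succ]
    omega
  calc (2 * (64 * 3 ^ m) + 1) ^ 32 ≤ (387 ^ (m + 1)) ^ 32 := Nat.pow_le_pow_left h3 32
    _ = (387 ^ 32) ^ (m + 1) := by rw [← pow_mul, ← pow_mul, mul_comm]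

end RapidDecay
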