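import Pool.Agent.Lib.MP_fee02f_an.AR.C12
import Pool.Agent.Lib.MP_fee02f_an.AR.C13

/-!
C14: the approximate hive space of frames (20 min).

PROOF. Collect HA_hive (log 4 ≤ 1000), sl_HA_mul, MvA_mul, MvA_ex, MvA_near (log 568620 ≤ 1000), MvA_sl, cover_HA.
Here `GL (Fin 4) 𝕜` acts on itself by left multiplication (`g • a = g * a` is `smul_eq_mul`).
-/

set_option autoImplicit false

namespace RapidDecay

variable (𝕜 : Type*) [RCLike 𝕜]

theorem exists_frSpace : ∃ S : AHSpace (GL (Fin 4) 𝕜) (GL (Fin 4) 𝕜), S.H = HA ∧ S.c = 1000 ∧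
    S.Mvr = MvA := by
  have hlog4 : Real.log 4 ≤ 1000 := by
    have := Real.log_le_sub_one_of_pos (show (0 : ℝ) < 4 by norm_num)
    linarith
  have hlog : Real.log 568620 ≤ 1000 := by
    have h1 : Real.log 568620 ≤ Real.log ((2 : ℝ) ^ 20) :=
      Real.log_le_log (by norm_num) (by norm_num)
    have h2 : Real.log 2 ≤ 1 := by
      have := Real.log_le_sub_one_of_pos (show (0 : ℝ) < 2 by norm_num)
      linarith
    rw [Real.log_pow] at h1
    push_cast at h1
    linarith
  refine ⟨
    { H := HA
      c := 1000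
      hive := ?_
      inv := ?_
      Mvr := MvA
      Mvr_smul := ?_
      Mvr_ex := ?_
      Mvr_near := ?_
      Mvr_sl := ?_
      cover := cover_HA }, rfl, rfl, rfl⟩
  · have h := HA_hive (𝕜 := 𝕜)
    refine ⟨h.s12, h.s23, h.s34, fun s t a b c d => ?_⟩
    have := h.pl s t a b c d
    linarith
  · intro g a b b' s t
    exact sl_HA_mul g a b b' s t
  · intro g r k a b m h
    exact MvA_mul g r k h
  · intro r k a b
    exact MvA_ex r k a b
  · intro r k a b b' m m' h hm hm'
    exact (MvA_near h hm hm').trans hlog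
  · intro r k a b b' m h hm u v w s t huv hvw huw
    exact MvA_sl h hm u v w s t huv hvw huw

end RapidDecay
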