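import Pool.Agent.Lib.MP_fee02f_an.AR.C1

/-!
C2: the approximate hive of frames (45 min).

PROOFS. `HA_hive`: symmetry by DD_s12, DD_s23, DD_s34.  PL: by DD_pl the product
DD s t a b * DD s t c d is at most 16 max(..); take -(1/2) log, log 16 / 2 = log 4
(Real.log_mul, DD_pos; 16 = 4^2).
`sl_HA`, `le_sl_HA_iff`: Real.log_mul, Real.log_div, Real.log_le_log_iff, DD_pos.
`sl_HA_smul`: DD_fr_mul, the factor ‖det g‖^2 cancels.
-/

set_option autoImplicit false

namespace RapidDecay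

variable {𝕜 : Type*} [RCLike 𝕜]

theorem C2_ne (A B C E : GL (Fin 4) 𝕜) : DD (fr A) (fr B) (fr C) (fr E) ≠ 0 :=
  (DD_pos A B C E).ne'

theorem HA_hive : AHive (Real.log 4) (HA : GL (Fin 4) 𝕜 → GL (Fin 4) 𝕜 → GL (Fin 4) 𝕜 →
    GL (Fin 4) 𝕜 → ℝ) := by
  refine ⟨fun a b c d => ?_, fun a b c d => ?_, fun a b c d => ?_, fun s t a b c d => ?_⟩
  · unfold HA
    rw [DD_s12]
  · unfold HA
    rw [DD_s23]
  · unfold HA
    rw [DD_s34]
  · have h1 := DD_pl (fr s) (fr t) (fr a) (fr b) (fr c) (fr d)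
    obtain ⟨X, hX⟩ : ∃ X, X = DD (fr s) (fr t) (fr a) (fr c) * DD (fr s) (fr t) (fr b) (fr d) :=
      ⟨_, rfl⟩
    obtain ⟨Y, hY⟩ : ∃ Y, Y = DD (fr s) (fr t) (fr a) (fr d) * DD (fr s) (fr t) (fr b) (fr c) :=
      ⟨_, rfl⟩
    rw [← hX, ← hY] at h1
    have hX0 : 0 < X := by rw [hX]; exact mul_pos (DD_pos _ _ _ _) (DD_pos _ _ _ _)
    have hY0 : 0 < Y := by rw [hY]; exact mul_pos (DD_pos _ _ _ _) (DD_pos _ _ _ _)
    have hL0 : 0 < DD (fr s) (fr t) (fr a) (fr b) * DD (fr s) (fr t) (fr c) (fr d) :=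
      mul_pos (DD_pos _ _ _ _) (DD_pos _ _ _ _)
    have e1 : HA s t a c + HA s t b d = -(1 / 2) * Real.log X := by
      unfold HA
      rw [hX, Real.log_mul (C2_ne _ _ _ _) (C2_ne _ _ _ _)]
      ring
    have e2 : HA s t a d + HA s t b c = -(1 / 2) * Real.log Y := by
      unfold HA
      rw [hY, Real.log_mul (C2_ne _ _ _ _) (C2_ne _ _ _ _)]
      ring
    have e3 : HA s t a b + HA s t c d = -(1 / 2) *
        Real.log (DD (fr s) (fr t) (fr a) (fr b) * DD (fr s) (fr t) (fr c) (fr d)) := by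
      unfold HA
      rw [Real.log_mul (C2_ne _ _ _ _) (C2_ne _ _ _ _)]
      ring
    rw [e1, e2, e3]
    have h16 : Real.log 16 = 2 * Real.log 4 := by
      rw [show (16 : ℝ) = 4 ^ 2 by norm_num, Real.log_pow]
      norm_num
    rcases le_total X Y with h | h
    · have h2 : Real.log (DD (fr s) (fr t) (fr a) (fr b) * DD (fr s) (fr t) (fr c) (fr d)) ≤
          Real.log 16 + Real.log Y := by
        rw [← Real.log_mul (by norm_num) hY0.ne']
        apply Real.log_le_log hL0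
        linarith
      have h3 := min_le_right (-(1 / 2) * Real.log X) (-(1 / 2) * Real.log Y)
      linarith
    · have h2 : Real.log (DD (fr s) (fr t) (fr a) (fr b) * DD (fr s) (fr t) (fr c) (fr d)) ≤
          Real.log 16 + Real.log X := by
        rw [← Real.log_mul (by norm_num) hX0.ne']
        apply Real.log_le_log hL0
        linarith
      have h3 := min_le_left (-(1 / 2) * Real.log X) (-(1 / 2) * Real.log Y)
      linarith

/-- a lower bound for a slack as an inequality between determinants -/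
theorem le_sl_HA_iff (A B C S T : GL (Fin 4) 𝕜) (k : ℝ) :
    k ≤ sl HA A B C S T ↔
      DD (fr S) (fr T) (fr A) (fr A) * DD (fr S) (fr T) (fr B) (fr C)
        ≤ Real.exp (-(2 * k)) * (DD (fr S) (fr T) (fr A) (fr B) * DD (fr S) (fr T) (fr A) (fr C)) :=
  by
  have h1 : 0 < DD (fr S) (fr T) (fr A) (fr A) * DD (fr S) (fr T) (fr B) (fr C) :=
    mul_pos (DD_pos _ _ _ _) (DD_pos _ _ _ _)
  have h2 : 0 < DD (fr S) (fr T) (fr A) (fr B) * DD (fr S) (fr T) (fr A) (fr C) :=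
    mul_pos (DD_pos _ _ _ _) (DD_pos _ _ _ _)
  rw [← Real.log_le_log_iff h1 (mul_pos (Real.exp_pos _) h2),
    Real.log_mul (Real.exp_pos _).ne' h2.ne', Real.log_exp,
    Real.log_mul (C2_ne _ _ _ _) (C2_ne _ _ _ _), Real.log_mul (C2_ne _ _ _ _) (C2_ne _ _ _ _)]
  unfold sl HA
  constructor
  · intro h
    linarith
  · intro h
    linarith

theorem HA_mul (g A B C E : GL (Fin 4) 𝕜) :
    HA (g * A) (g * B) (g * C) (g * E) = HA A B C E - Real.log ‖g.1.det‖ := by
  have hg : ‖g.1.det‖ ≠ 0 := by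
    rw [norm_ne_zero_iff]
    exact g.isUnit.map Matrix.detMonoidHom |>.ne_zero
  unfold HA
  rw [DD_fr_mul, Real.log_mul (pow_ne_zero 2 hg) (C2_ne _ _ _ _), Real.log_pow]
  push_cast
  ring

theorem sl_HA_mul (g A B C S T : GL (Fin 4) 𝕜) :
    sl HA (g * A) (g * B) (g * C) (g * S) (g * T) = sl HA A B C S T := by
  unfold sl
  simp only [HA_mul]
  ring

/-- an inequality between determinants as an inequality for `HA` -/
theorem HA_le_of_DD {A B C E A' B' C' E' : GL (Fin 4) 𝕜} {κ : ℝ} (hκ : 0 < κ)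
    (h : DD (fr A') (fr B') (fr C') (fr E') ≤ κ * DD (fr A) (fr B) (fr C) (fr E)) :
    HA A B C E ≤ HA A' B' C' E' + 1 / 2 * Real.log κ := by
  have h1 := Real.log_le_log (DD_pos A' B' C' E') h
  rw [Real.log_mul hκ.ne' (C2_ne _ _ _ _)] at h1
  unfold HA
  linarith

end RapidDecay
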