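import Pool.Agent.Lib.MP_fee02f_an.AR.C2

/-!
C3: coordinates and the distance of frames (60 min).

PROOFS. `DD_vec_le`: x = ∑ i (A⁻¹ x)_i • fr A i, so |dt x b c d|^2 ≤ QA A x * ∑ i |dt (a i) b c d|^2 by
Cauchy-Schwarz (`inner_mul_le_norm_mul_norm` or `Finset.sum_mul_sq_le_sq_mul_sq` for the norms).
`QA_sum`: the columns of A⁻¹ B are A⁻¹ (fr B j).
`dst_HA`: DD (fr A) (fr A) (fr A) (fr B) = ‖det A‖^2 * DD 1 1 1 (A⁻¹ B) by DD_fr_mul and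
DD (fr 1) (fr 1) (fr 1) (fr X) = 6 * SS X, because dt (e_i) (e_j) (e_k) y = ± y_l for {i,j,k,l} = all
and 0 if two of i,j,k coincide; DD (fr A)(fr A)(fr A)(fr A) = 24 ‖det A‖^2 (SS 1 = 4).
dst = -1/2 log(24|det A|^2 * 24 |det B|^2) + 1/2 log (36 |det A|^2 |det B|^2 SS(A⁻¹B) SS(B⁻¹A)).
`dst_le_of_QA`: SS(M⁻¹ M') = ∑_j QA M (fr M' j) ≤ κ ∑_j QA M' (fr M' j) = 4 κ, so
dst ≤ 1/2 log (16 κ^2 / 16) = log κ.
-/

set_option autoImplicit false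

namespace RapidDecay

variable {𝕜 : Type*} [RCLike 𝕜]

theorem QA_nonneg (A : GL (Fin 4) 𝕜) (x : Fin 4 → 𝕜) : 0 ≤ QA A x :=
  Finset.sum_nonneg fun _ _ => sq_nonneg _

theorem vec_eq_sum (A : GL (Fin 4) 𝕜) (x : Fin 4 → 𝕜) :
    x = ∑ i, (A⁻¹).1.mulVec x i • fr A i := by
  have h1 : A.1.mulVec ((A⁻¹).1.mulVec x) = x := by
    rw [Matrix.mulVec_mulVec]
    have : A.1 * (A⁻¹).1 = 1 := Units.mul_inv A
    rw [this, Matrix.one_mulVec]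
  conv_lhs => rw [← h1]
  ext j
  rw [Finset.sum_apply]
  unfold fr
  simp only [Pi.smul_apply, smul_eq_mul]
  conv_lhs => unfold Matrix.mulVec dotProduct
  refine Finset.sum_congr rfl fun i _ => mul_comm _ _

theorem C3_Nf_vec (A : GL (Fin 4) 𝕜) (x φ : Fin 4 → 𝕜) :
    Nf (vec1 x) φ ≤ QA A x * Nf (fr A) φ := by
  have h1 : Nf (vec1 x) φ = ‖dotProduct φ x‖ ^ 2 := by
    unfold Nf vec1
    rw [Fin.sum_univ_one]
  have h2 : dotProduct φ x = ∑ i, (A⁻¹).1.mulVec x i * dotProduct φ (fr A i) := by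
    conv_lhs => rw [vec_eq_sum A x]
    rw [dotProduct_sum]
    refine Finset.sum_congr rfl fun i _ => ?_
    rw [dotProduct_smul, smul_eq_mul]
  rw [h1, h2]
  unfold QA Nf
  calc ‖∑ i, (A⁻¹).1.mulVec x i * dotProduct φ (fr A i)‖ ^ 2
      ≤ (∑ i, ‖(A⁻¹).1.mulVec x i‖ * ‖dotProduct φ (fr A i)‖) ^ 2 := by
        gcongr
        refine (norm_sum_le _ _).trans (le_of_eq ?_)
        exact Finset.sum_congr rfl fun i _ => norm_mul _ _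
    _ ≤ _ := Finset.sum_mul_sq_le_sq_mul_sq _ _ _

theorem DD_vec_le {q r s : ℕ} (A : GL (Fin 4) 𝕜) (x : Fin 4 → 𝕜) (b : Fin q → Fin 4 → 𝕜)
    (c : Fin r → Fin 4 → 𝕜) (d : Fin s → Fin 4 → 𝕜) :
    DD (vec1 x) b c d ≤ QA A x * DD (fr A) b c d :=
  DD_mono (C3_Nf_vec A x) b c d

theorem C3_mulVec_fr (A B : GL (Fin 4) 𝕜) (j i : Fin 4) :
    (A⁻¹).1.mulVec (fr B j) i = (A⁻¹ * B).1 i j := rfl

theorem QA_self (A : GL (Fin 4) 𝕜) (j : Fin 4) : QA A (fr A j) = 1 := by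
  unfold QA
  have h1 : ∀ i, (A⁻¹).1.mulVec (fr A j) i = if i = j then 1 else 0 := by
    intro i
    rw [C3_mulVec_fr, inv_mul_cancel]
    rw [Units.val_one, Matrix.one_apply]
  have h2 : ∀ i, ‖(A⁻¹).1.mulVec (fr A j) i‖ ^ 2 = if i = j then (1 : ℝ) else 0 := by
    intro i
    rw [h1]
    split_ifs
    · simp
    · simp
  rw [Finset.sum_congr rfl fun i _ => h2 i]
  simp

theorem QA_sum (A B : GL (Fin 4) 𝕜) : ∑ j, QA A (fr B j) = SS (A⁻¹ * B).1 := by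
  unfold QA SS
  rw [Finset.sum_comm]
  rfl

theorem C3_unitary (U : Matrix (Fin 4) (Fin 4) 𝕜) (hU : U ∈ Matrix.unitaryGroup (Fin 4) 𝕜)
    (x : Fin 4 → 𝕜) : ∑ j, ‖(star U).mulVec x j‖ ^ 2 = ∑ j, ‖x j‖ ^ 2 := by
  have h1 : ∀ y : Fin 4 → 𝕜, ((∑ j, ‖y j‖ ^ 2 : ℝ) : 𝕜) = dotProduct (star y) y := by
    intro y
    unfold dotProduct
    push_cast
    refine Finset.sum_congr rfl fun j _ => ?_
    rw [Pi.star_apply, RCLike.star_def, RCLike.conj_mul]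
  have h2 : ((∑ j, ‖(star U).mulVec x j‖ ^ 2 : ℝ) : 𝕜) = ((∑ j, ‖x j‖ ^ 2 : ℝ) : 𝕜) := by
    have h3 : U * star U = 1 := (Matrix.mem_unitaryGroup_iff).1 hU
    rw [h1, h1, Matrix.star_mulVec, Matrix.star_eq_conjTranspose,
      Matrix.conjTranspose_conjTranspose, Matrix.dotProduct_mulVec, Matrix.vecMul_vecMul,
      ← Matrix.star_eq_conjTranspose, h3, Matrix.vecMul_one]
  exact_mod_cast h2

theorem QA_unitary (A e : GL (Fin 4) 𝕜) (U : Matrix (Fin 4) (Fin 4) 𝕜)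
    (hU : U ∈ Matrix.unitaryGroup (Fin 4) 𝕜) (h : e.1 = A.1 * U) (x : Fin 4 → 𝕜) :
    QA e x = QA A x := by
  have h1 : (e⁻¹).1 = star U * (A⁻¹).1 := by
    have h2 : (star U * (A⁻¹).1) * e.1 = 1 := by
      have h3 : star U * U = 1 := (Matrix.mem_unitaryGroup_iff').1 hU
      have h4 : (A⁻¹).1 * A.1 = 1 := Units.inv_mul A
      rw [h, Matrix.mul_assoc, ← Matrix.mul_assoc (A⁻¹).1, h4, Matrix.one_mul, h3]
    calc (e⁻¹).1 = 1 * (e⁻¹).1 := (Matrix.one_mul _).symm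
      _ = (star U * (A⁻¹).1) * e.1 * (e⁻¹).1 := by rw [h2]
      _ = (star U * (A⁻¹).1) * (e.1 * (e⁻¹).1) := Matrix.mul_assoc _ _ _
      _ = star U * (A⁻¹).1 := by
          have : e.1 * (e⁻¹).1 = 1 := Units.mul_inv e
          rw [this, Matrix.mul_one]
  unfold QA
  rw [h1, ← Matrix.mulVec_mulVec]
  exact C3_unitary U hU _

theorem SS_pos (A : GL (Fin 4) 𝕜) : 0 < SS A.1 := by
  have h1 : A.1 ≠ 0 := Units.ne_zero A
  obtain ⟨i, j, hij⟩ : ∃ i j, A.1 i j ≠ 0 := by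
    by_contra hcon
    push Not at hcon
    exact h1 (by ext i j; exact hcon i j)
  unfold SS
  have h2 : ‖A.1 i j‖ ^ 2 ≤ ∑ i, ∑ j, ‖A.1 i j‖ ^ 2 :=
    (Finset.single_le_sum (f := fun j => ‖A.1 i j‖ ^ 2) (fun _ _ => sq_nonneg _)
      (Finset.mem_univ j)).trans (Finset.single_le_sum (f := fun i => ∑ j, ‖A.1 i j‖ ^ 2)
      (fun _ _ => Finset.sum_nonneg fun _ _ => sq_nonneg _) (Finset.mem_univ i))
  have h3 : 0 < ‖A.1 i j‖ := norm_pos_iff.2 hij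
  have h4 : 0 < ‖A.1 i j‖ ^ 2 := by positivity
  linarith

theorem C3_basis (y : Fin 4 → 𝕜) :
    ∑ i, ∑ j, ∑ k, ‖dt (fr (1 : GL (Fin 4) 𝕜) i) (fr (1 : GL (Fin 4) 𝕜) j)
      (fr (1 : GL (Fin 4) 𝕜) k) y‖ ^ 2 = 6 * ∑ m, ‖y m‖ ^ 2 := by
  have e : ∀ x y z t : Fin 4 → 𝕜, dt x y z t =
      (x 0 * y 1 - x 1 * y 0) * (z 2 * t 3 - z 3 * t 2)
      - (x 0 * y 2 - x 2 * y 0) * (z 1 * t 3 - z 3 * t 1)
      + (x 0 * y 3 - x 3 * y 0) * (z 1 * t 2 - z 2 * t 1)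
      + (x 1 * y 2 - x 2 * y 1) * (z 0 * t 3 - z 3 * t 0)
      - (x 1 * y 3 - x 3 * y 1) * (z 0 * t 2 - z 2 * t 0)
      + (x 2 * y 3 - x 3 * y 2) * (z 0 * t 1 - z 1 * t 0) := fun x y z t => L2b_expand x y z t
  have h1 : ∀ i j : Fin 4, fr (1 : GL (Fin 4) 𝕜) i j = if j = i then 1 else 0 := by
    intro i j
    unfold fr
    rw [Units.val_one, Matrix.one_apply]
  simp only [Fin.sum_univ_four, e, h1]
  simp
  ring

theorem C3_DD (A B : GL (Fin 4) 𝕜) :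
    DD (fr A) (fr A) (fr A) (fr B) = 6 * ‖A.1.det‖ ^ 2 * SS (A⁻¹ * B).1 := by
  have h1 := DD_fr_mul A 1 1 1 (A⁻¹ * B)
  rw [mul_one, mul_inv_cancel_left] at h1
  rw [h1]
  have h2 : DD (fr (1 : GL (Fin 4) 𝕜)) (fr (1 : GL (Fin 4) 𝕜)) (fr (1 : GL (Fin 4) 𝕜))
      (fr (A⁻¹ * B)) = 6 * SS (A⁻¹ * B).1 := by
    unfold DD
    have h3 : ∑ i, ∑ j, ∑ k, ∑ l, ‖dt (fr (1 : GL (Fin 4) 𝕜) i) (fr (1 : GL (Fin 4) 𝕜) j)
        (fr (1 : GL (Fin 4) 𝕜) k) (fr (A⁻¹ * B) l)‖ ^ 2 =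
        ∑ l, ∑ i, ∑ j, ∑ k, ‖dt (fr (1 : GL (Fin 4) 𝕜) i) (fr (1 : GL (Fin 4) 𝕜) j)
        (fr (1 : GL (Fin 4) 𝕜) k) (fr (A⁻¹ * B) l)‖ ^ 2 := by
      rw [Finset.sum_comm (s := (Finset.univ : Finset (Fin 4))) (t := Finset.univ)
        (f := fun l i => ∑ j, ∑ k, ‖dt (fr (1 : GL (Fin 4) 𝕜) i) (fr (1 : GL (Fin 4) 𝕜) j)
        (fr (1 : GL (Fin 4) 𝕜) k) (fr (A⁻¹ * B) l)‖ ^ 2)]
      refine Finset.sum_congr rfl fun i _ => ?_
      rw [Finset.sum_comm (s := (Finset.univ : Finset (Fin 4))) (t := Finset.univ)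
        (f := fun l j => ∑ k, ‖dt (fr (1 : GL (Fin 4) 𝕜) i) (fr (1 : GL (Fin 4) 𝕜) j)
        (fr (1 : GL (Fin 4) 𝕜) k) (fr (A⁻¹ * B) l)‖ ^ 2)]
      refine Finset.sum_congr rfl fun j _ => ?_
      rw [Finset.sum_comm]
    rw [h3, Finset.sum_congr rfl fun l _ => C3_basis (fr (A⁻¹ * B) l), ← Finset.mul_sum]
    congr 1
    unfold SS
    rw [Finset.sum_comm]
    rfl
  rw [h2]
  ring

theorem C3_SS_one : SS (1 : Matrix (Fin 4) (Fin 4) 𝕜) = 4 := by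
  unfold SS
  simp only [Fin.sum_univ_four, Matrix.one_apply]
  simp
  norm_num

theorem dst_HA (A B : GL (Fin 4) 𝕜) :
    dst HA A B = 1 / 2 * Real.log (SS (A⁻¹ * B).1 * SS (B⁻¹ * A).1 / 16) := by
  have hdet : ∀ g : GL (Fin 4) 𝕜, 0 < ‖g.1.det‖ ^ 2 := by
    intro g
    have hg : ‖g.1.det‖ ≠ 0 := by
      rw [norm_ne_zero_iff]
      exact g.isUnit.map Matrix.detMonoidHom |>.ne_zero
    positivity
  have hA := hdet A
  have hB := hdet B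
  have h1 := C3_DD A B
  have h2 := C3_DD B A
  have h3 := C3_DD A A
  have h4 := C3_DD B B
  rw [inv_mul_cancel, Units.val_one, C3_SS_one] at h3 h4
  have h5 : DD (fr A) (fr B) (fr B) (fr B) = DD (fr B) (fr B) (fr B) (fr A) := by
    rw [DD_s12, DD_s23, DD_s34]
  have s1 := SS_pos (A⁻¹ * B)
  have s2 := SS_pos (B⁻¹ * A)
  unfold dst HA
  rw [h5, h1, h2, h3, h4]
  obtain ⟨a, ha⟩ : ∃ a, a = ‖A.1.det‖ ^ 2 := ⟨_, rfl⟩
  obtain ⟨b, hb⟩ : ∃ b, b = ‖B.1.det‖ ^ 2 := ⟨_, rfl⟩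
  obtain ⟨x, hx⟩ : ∃ x, x = SS (A⁻¹ * B).1 := ⟨_, rfl⟩
  obtain ⟨y, hy⟩ : ∃ y, y = SS (B⁻¹ * A).1 := ⟨_, rfl⟩
  rw [← ha] at hA
  rw [← hb] at hB
  rw [← hx] at s1
  rw [← hy] at s2
  rw [← ha, ← hb, ← hx, ← hy]
  have e1 : Real.log (6 * a * 4) = Real.log 6 + Real.log a + Real.log 4 := by
    rw [Real.log_mul (by positivity) (by norm_num), Real.log_mul (by norm_num) hA.ne']
  have e2 : Real.log (6 * b * 4) = Real.log 6 + Real.log b + Real.log 4 := by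
    rw [Real.log_mul (by positivity) (by norm_num), Real.log_mul (by norm_num) hB.ne']
  have e3 : Real.log (6 * a * x) = Real.log 6 + Real.log a + Real.log x := by
    rw [Real.log_mul (by positivity) s1.ne', Real.log_mul (by norm_num) hA.ne']
  have e4 : Real.log (6 * b * y) = Real.log 6 + Real.log b + Real.log y := by
    rw [Real.log_mul (by positivity) s2.ne', Real.log_mul (by norm_num) hB.ne']
  have e5 : Real.log (x * y / 16) = Real.log x + Real.log y - 2 * Real.log 4 := by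
    rw [Real.log_div (mul_pos s1 s2).ne' (by norm_num), Real.log_mul s1.ne' s2.ne',
      show (16 : ℝ) = 4 ^ 2 by norm_num, Real.log_pow]
    norm_num
  rw [e1, e2, e3, e4, e5]
  ring

theorem dst_le_of_QA (M M' : GL (Fin 4) 𝕜) (κ : ℝ) (hκ : 0 < κ)
    (h : ∀ x, QA M x ≤ κ * QA M' x) (h' : ∀ x, QA M' x ≤ κ * QA M x) :
    dst HA M M' ≤ Real.log κ := by
  have key : ∀ {M M' : GL (Fin 4) 𝕜}, (∀ x, QA M x ≤ κ * QA M' x) →
      SS (M⁻¹ * M').1 ≤ 4 * κ := by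
    intro M M' h
    rw [← QA_sum]
    calc ∑ j, QA M (fr M' j) ≤ ∑ j, κ * QA M' (fr M' j) := Finset.sum_le_sum fun j _ => h _
      _ = 4 * κ := by
          simp only [QA_self, mul_one, Finset.sum_const, Finset.card_univ, Fintype.card_fin,
            nsmul_eq_mul]
          norm_num
  have h1 := key h
  have h2 := key h'
  rw [dst_HA]
  have s1 := SS_pos (M⁻¹ * M')
  have s2 := SS_pos (M'⁻¹ * M)
  have h3 : SS (M⁻¹ * M').1 * SS (M'⁻¹ * M).1 / 16 ≤ κ ^ 2 := by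
    rw [div_le_iff₀ (by norm_num)]
    calc SS (M⁻¹ * M').1 * SS (M'⁻¹ * M).1 ≤ (4 * κ) * (4 * κ) :=
          mul_le_mul h1 h2 s2.le (by positivity)
      _ = κ ^ 2 * 16 := by ring
  have h4 := Real.log_le_log (by positivity) h3
  rw [Real.log_pow, Nat.cast_ofNat] at h4
  linarith

end RapidDecay
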