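import Pool.Agent.Lib.MP_fee02f_an.AR.Defs

/-!
C4: existence of singular value frames (75 min).

PROOF of `exists_svd`. X = A⁻¹ B, Y = X * Xᴴ is Hermitian and positive definite
(`Matrix.PosDef`, X invertible).  Spectral theorem: Y = U * diagonal d * Uᴴ with U unitary, d i > 0
(`Matrix.IsHermitian.spectral_theorem`, `eigenvectorUnitary`, `PosDef.eigenvalues_pos`).  Sort: there is a
permutation σ with d ∘ σ decreasing (`Tuple.sort` applied to -d, or eigenvalues₀_antitone); replace U by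
U * (permutation matrix of σ) (again unitary).  Put s i = sqrt (d i), e = A * U,
V = diagonal (s⁻¹) * Uᴴ * X; V Vᴴ = s⁻¹ Uᴴ Y U s⁻¹ = 1 so V is unitary
(`Matrix.mem_unitaryGroup_iff`), and e * diagonal s * V = A * U * Uᴴ * X = B.
`svd_mul`: multiply all matrices by g on the left.
`MvA_ex`: e, s from exists_svd, M = e * diagonal (muk r k) (invertible since muk > 0).
`MvA_mul`: fr (g * M) j = g (fr M j).
-/

set_option autoImplicit false

namespace RapidDecay

variable {𝕜 : Type*} [RCLike 𝕜]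

open Matrix in
open scoped ComplexOrder in
/-- spectral theorem with decreasing eigenvalues -/
theorem C4_spectral (Y : Matrix (Fin 4) (Fin 4) 𝕜) (hY : Y.PosDef) :
    ∃ (U : Matrix (Fin 4) (Fin 4) 𝕜) (d : Fin 4 → ℝ), star U * U = 1 ∧ U * star U = 1 ∧
      (∀ i, 0 < d i) ∧ Antitone d ∧ Y = U * Matrix.diagonal (fun i => (d i : 𝕜)) * star U := by
  obtain ⟨W, hW⟩ : ∃ W : Matrix (Fin 4) (Fin 4) 𝕜, W = (hY.1.eigenvectorUnitary :
    Matrix (Fin 4) (Fin 4) 𝕜) := ⟨_, rfl⟩
  have hW1 : star W * W = 1 := by rw [hW]; exact Unitary.coe_star_mul_self _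
  have hspec : Y = W * Matrix.diagonal (fun i => (hY.1.eigenvalues i : 𝕜)) * star W := by
    have := hY.1.spectral_theorem
    rw [Unitary.conjStarAlgAut_apply] at this
    rw [hW]
    exact this
  obtain ⟨σ, hσ⟩ : ∃ σ : Equiv.Perm (Fin 4), σ = Tuple.sort (fun i => -(hY.1.eigenvalues i)) :=
    ⟨_, rfl⟩
  have hmono := Tuple.monotone_sort (fun i => -(hY.1.eigenvalues i))
  rw [← hσ] at hmono
  have hstar : star (W.submatrix id σ) = (star W).submatrix σ id := by
    ext i j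
    simp [Matrix.star_eq_conjTranspose, Matrix.conjTranspose_apply]
  have h1 : star (W.submatrix id σ) * W.submatrix id σ = 1 := by
    rw [hstar]
    have e := Matrix.submatrix_mul_equiv (star W) W σ (Equiv.refl (Fin 4)) σ
    rw [Equiv.coe_refl] at e
    rw [e, hW1]
    exact Matrix.submatrix_one_equiv σ
  refine ⟨W.submatrix id σ, fun i => hY.1.eigenvalues (σ i), h1, ?_, ?_, ?_, ?_⟩
  · exact mul_eq_one_comm.1 h1
  · intro i
    exact hY.eigenvalues_pos _
  · intro i j hij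
    have := hmono hij
    simp only [Function.comp] at this
    linarith
  · rw [hstar]
    have hd : Matrix.diagonal (fun i => (hY.1.eigenvalues (σ i) : 𝕜)) =
        (Matrix.diagonal (fun i => (hY.1.eigenvalues i : 𝕜))).submatrix σ σ := by
      rw [Matrix.submatrix_diagonal_equiv]
      rfl
    rw [hd, Matrix.submatrix_mul_equiv, Matrix.submatrix_mul_equiv, Matrix.submatrix_id_id]
    exact hspec

open scoped ComplexOrder in
theorem exists_svd (A B : GL (Fin 4) 𝕜) : ∃ (e : GL (Fin 4) 𝕜) (s : Fin 4 → ℝ), SvdFr A B e s := by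
  obtain ⟨X, hX⟩ : ∃ X : GL (Fin 4) 𝕜, X = A⁻¹ * B := ⟨_, rfl⟩
  have hinj : Function.Injective (Matrix.vecMul · X.1) := by
    intro v w h
    have h2 : Matrix.vecMul (Matrix.vecMul v X.1) (X⁻¹).1 =
      Matrix.vecMul (Matrix.vecMul w X.1) (X⁻¹).1 := by
      simp only at h
      rw [h]
    rw [Matrix.vecMul_vecMul, Matrix.vecMul_vecMul] at h2
    have h3 : X.1 * (X⁻¹).1 = 1 := X.mul_inv
    rwa [h3, Matrix.vecMul_one, Matrix.vecMul_one] at h2
  have hY : (X.1 * X.1.conjTranspose).PosDef :=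
    Matrix.PosDef.mul_conjTranspose_self X.1 hinj
  obtain ⟨U, d, hU1, hU2, hd, hanti, hspec⟩ := C4_spectral _ hY
  have hs : ∀ i, 0 < Real.sqrt (d i) := fun i => Real.sqrt_pos.2 (hd i)
  have hs0 : ∀ i, ((Real.sqrt (d i) : ℝ) : 𝕜) ≠ 0 := fun i => by
    rw [Ne, RCLike.ofReal_eq_zero]
    exact (hs i).ne'
  obtain ⟨Uu, hUu⟩ : ∃ Uu : GL (Fin 4) 𝕜, Uu.1 = U := ⟨⟨U, star U, hU2, hU1⟩, rfl⟩
  have hBX : A.1 * X.1 = B.1 := by
    have : A * X = B := by rw [hX, mul_inv_cancel_left]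
    rw [← this]
    rfl
  have hSS : Matrix.diagonal (fun i => ((Real.sqrt (d i) : ℝ) : 𝕜)) *
      Matrix.diagonal (fun i => (((Real.sqrt (d i) : ℝ) : 𝕜))⁻¹) = 1 := by
    rw [Matrix.diagonal_mul_diagonal, ← Matrix.diagonal_one]
    congr 1
    funext i
    exact mul_inv_cancel₀ (hs0 i)
  refine ⟨A * Uu, fun i => Real.sqrt (d i), hs, ?_, ⟨U, ?_, ?_⟩, ?_⟩
  · intro i j hij
    exact Real.sqrt_le_sqrt (hanti hij)
  · rw [Matrix.mem_unitaryGroup_iff]
    exact hU2
  · rw [← hUu]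
    rfl
  · refine ⟨Matrix.diagonal (fun i => (((Real.sqrt (d i) : ℝ) : 𝕜))⁻¹) * star U * X.1, ?_, ?_⟩
    · rw [Matrix.mem_unitaryGroup_iff]
      have e1 : star (Matrix.diagonal (fun i => (((Real.sqrt (d i) : ℝ) : 𝕜))⁻¹) * star U * X.1) =
          star X.1 * U * Matrix.diagonal (fun i => (((Real.sqrt (d i) : ℝ) : 𝕜))⁻¹) := by
        rw [star_mul, star_mul, star_star, Matrix.star_eq_conjTranspose (Matrix.diagonal _),
          Matrix.diagonal_conjTranspose, mul_assoc]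
        congr 3
        funext i
        simp
      rw [e1]
      have e2 : X.1 * star X.1 = U * Matrix.diagonal (fun i => (d i : 𝕜)) * star U := hspec
      calc Matrix.diagonal (fun i => (((Real.sqrt (d i) : ℝ) : 𝕜))⁻¹) * star U * X.1 *
            (star X.1 * U * Matrix.diagonal (fun i => (((Real.sqrt (d i) : ℝ) : 𝕜))⁻¹)) =
          Matrix.diagonal (fun i => (((Real.sqrt (d i) : ℝ) : 𝕜))⁻¹) * star U *
            (X.1 * star X.1) * U * Matrix.diagonal (fun i => (((Real.sqrt (d i) : ℝ) : 𝕜))⁻¹) := by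
            simp only [mul_assoc]
        _ = Matrix.diagonal (fun i => (((Real.sqrt (d i) : ℝ) : 𝕜))⁻¹) * (star U * U) *
            Matrix.diagonal (fun i => (d i : 𝕜)) * (star U * U) *
              Matrix.diagonal (fun i => (((Real.sqrt (d i) : ℝ) : 𝕜))⁻¹) := by
            rw [e2]
            simp only [mul_assoc]
        _ = 1 := by
            rw [hU1, mul_one, mul_one, Matrix.diagonal_mul_diagonal, Matrix.diagonal_mul_diagonal,
              ← Matrix.diagonal_one]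
            congr 1
            funext i
            have h1 : (d i : 𝕜) = ((Real.sqrt (d i) : ℝ) : 𝕜) * ((Real.sqrt (d i) : ℝ) : 𝕜) := by
              rw [← RCLike.ofReal_mul, Real.mul_self_sqrt (hd i).le]
            rw [h1]
            field_simp [hs0 i]
    · have e3 : (A * Uu).1 = A.1 * U := by rw [← hUu]; rfl
      rw [e3]
      calc B.1 = A.1 * X.1 := hBX.symm
        _ = A.1 * (U * star U) * X.1 := by rw [hU2, mul_one]
        _ = A.1 * U * (Matrix.diagonal (fun i => ((Real.sqrt (d i) : ℝ) : 𝕜)) *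
            Matrix.diagonal (fun i => (((Real.sqrt (d i) : ℝ) : 𝕜))⁻¹)) * star U * X.1 := by
            rw [hSS, mul_one]
            simp only [mul_assoc]
        _ = A.1 * U * Matrix.diagonal (fun i => ((Real.sqrt (d i) : ℝ) : 𝕜)) *
            (Matrix.diagonal (fun i => (((Real.sqrt (d i) : ℝ) : 𝕜))⁻¹) * star U * X.1) := by
            simp only [mul_assoc]

theorem svd_mul (g : GL (Fin 4) 𝕜) {A B e : GL (Fin 4) 𝕜} {s : Fin 4 → ℝ} (h : SvdFr A B e s) :
    SvdFr (g * A) (g * B) (g * e) s := by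
  obtain ⟨h1, h2, ⟨U, hU, hUe⟩, V, hV, hVe⟩ := h
  refine ⟨h1, h2, ⟨U, hU, ?_⟩, V, hV, ?_⟩
  · show g.1 * e.1 = g.1 * A.1 * U
    rw [hUe, mul_assoc]
  · show g.1 * B.1 = g.1 * e.1 * Matrix.diagonal (fun i => (s i : 𝕜)) * V
    rw [hVe]
    simp only [mul_assoc]

theorem muk_pos (r k : ℕ) (i : Fin 4) : 0 < muk r k i := by
  unfold muk
  split_ifs
  · exact Real.exp_pos _
  · exact one_pos

theorem muk_le_one (r k : ℕ) (i : Fin 4) : muk r k i ≤ 1 := by
  unfold muk
  split_ifs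
  · rw [Real.exp_le_one_iff]
    have : (0 : ℝ) ≤ k := Nat.cast_nonneg k
    linarith
  · exact le_refl _

theorem MvA_ex (r k : ℕ) (A B : GL (Fin 4) 𝕜) : ∃ M, MvA r k A B M := by
  obtain ⟨e, s, h⟩ := exists_svd A B
  have h0 : ∀ i, ((muk r k i : ℝ) : 𝕜) ≠ 0 := fun i => by
    rw [Ne, RCLike.ofReal_eq_zero]
    exact (muk_pos r k i).ne'
  obtain ⟨D, hD⟩ : ∃ D : GL (Fin 4) 𝕜, D.1 = Matrix.diagonal (fun i => ((muk r k i : ℝ) : 𝕜)) := by
    refine ⟨⟨Matrix.diagonal (fun i => ((muk r k i : ℝ) : 𝕜)),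
      Matrix.diagonal (fun i => (((muk r k i : ℝ) : 𝕜))⁻¹), ?_, ?_⟩, rfl⟩
    · rw [Matrix.diagonal_mul_diagonal, ← Matrix.diagonal_one]
      congr 1
      funext i
      exact mul_inv_cancel₀ (h0 i)
    · rw [Matrix.diagonal_mul_diagonal, ← Matrix.diagonal_one]
      congr 1
      funext i
      exact inv_mul_cancel₀ (h0 i)
  refine ⟨e * D, e, s, h, fun j => ?_⟩
  funext i
  show (e.1 * D.1) i j = (muk r k j : 𝕜) * e.1 i j
  rw [hD, Matrix.mul_diagonal, mul_comm]

theorem MvA_mul (g : GL (Fin 4) 𝕜) (r k : ℕ) {A B M : GL (Fin 4) 𝕜} (h : MvA r k A B M) :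
    MvA r k (g * A) (g * B) (g * M) := by
  obtain ⟨e, s, hs, hM⟩ := h
  refine ⟨g * e, s, svd_mul g hs, fun j => ?_⟩
  funext i
  show (g.1 * M.1) i j = (muk r k j : 𝕜) * (g.1 * e.1) i j
  rw [Matrix.mul_apply, Matrix.mul_apply, Finset.mul_sum]
  refine Finset.sum_congr rfl (fun l _ => ?_)
  have : M.1 l j = (muk r k j : 𝕜) * e.1 l j := congrFun (hM j) l
  rw [this]
  ring

end RapidDecay
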