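import Pool.Agent.Lib.MP_fee02f_an.AR.C3

/-!
C5: determinants in a singular value frame (75 min).

PROOF. Let y = e⁻¹ x.  By `DD_congr` and `Nf_unitary` (A = e U⁻¹, B = e diag(s) V) the family fr A may be
replaced by fr e and fr B by the family i ↦ (s i) • fr e i (DD_s12, DD_s23, DD_s34 bring the slot to the
front).  fr e i = e (δ_i), x = e y, so `DD_map` with g = e reduces everything to the standard basis: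
‖det e‖^2 * ∑ ‖dt y (u_j δ_j) (v_k δ_k) (w_l δ_l)‖^2, where dt y δ_j δ_k δ_l = ± y_i if {i,j,k,l} = all and
0 if two of j,k,l are equal (simp [dt, Matrix.det_succ_row_zero, Fin.sum_univ_succ]).  It is best to
prove first one general formula for DD (vec1 y) (fun i => (u i : 𝕜) • Pi.single i 1) (v) (w) (24 terms).
The five full determinants follow from the formulas for vec1 by `DD_eq_sum` (x = fr A i resp. one column of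
e), or directly in the same way.
-/

set_option autoImplicit false

namespace RapidDecay

variable {𝕜 : Type*} [RCLike 𝕜]

/-- the six products -/
noncomputable def C5_perm (u v w : Fin 4 → ℝ) (a b c : Fin 4) : ℝ :=
  u a ^ 2 * v b ^ 2 * w c ^ 2 + u a ^ 2 * v c ^ 2 * w b ^ 2 + u b ^ 2 * v a ^ 2 * w c ^ 2
    + u b ^ 2 * v c ^ 2 * w a ^ 2 + u c ^ 2 * v a ^ 2 * w b ^ 2 + u c ^ 2 * v b ^ 2 * w a ^ 2

theorem C5_dt (x y z t : Fin 4 → 𝕜) : dt x y z t =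
    x 0 * (y 1 * (z 2 * t 3 - z 3 * t 2) - y 2 * (z 1 * t 3 - z 3 * t 1)
      + y 3 * (z 1 * t 2 - z 2 * t 1))
    - x 1 * (y 0 * (z 2 * t 3 - z 3 * t 2) - y 2 * (z 0 * t 3 - z 3 * t 0)
      + y 3 * (z 0 * t 2 - z 2 * t 0))
    + x 2 * (y 0 * (z 1 * t 3 - z 3 * t 1) - y 1 * (z 0 * t 3 - z 3 * t 0)
      + y 3 * (z 0 * t 1 - z 1 * t 0))
    - x 3 * (y 0 * (z 1 * t 2 - z 2 * t 1) - y 1 * (z 0 * t 2 - z 2 * t 0)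
      + y 2 * (z 0 * t 1 - z 1 * t 0)) := by
  unfold dt
  rw [Matrix.det_succ_row_zero]
  simp [Fin.sum_univ_succ, Matrix.det_fin_three, Fin.succAbove]
  ring

theorem C5_std (y : Fin 4 → 𝕜) (u v w : Fin 4 → ℝ) :
    DD (vec1 y) (fun i => (u i : 𝕜) • (Pi.single i 1 : Fin 4 → 𝕜))
      (fun i => (v i : 𝕜) • (Pi.single i 1 : Fin 4 → 𝕜))
      (fun i => (w i : 𝕜) • (Pi.single i 1 : Fin 4 → 𝕜)) =
    ‖y 0‖ ^ 2 * C5_perm u v w 1 2 3 + ‖y 1‖ ^ 2 * C5_perm u v w 0 2 3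
      + ‖y 2‖ ^ 2 * C5_perm u v w 0 1 3 + ‖y 3‖ ^ 2 * C5_perm u v w 0 1 2 := by
  unfold DD C5_perm vec1
  simp only [Fin.sum_univ_one, C5_dt]
  simp only [Fin.sum_univ_four, Pi.smul_apply, Pi.single_apply, smul_eq_mul]
  simp
  simp only [mul_pow, sq_abs]
  ring

theorem C5_congr2 {p q r s q' : ℕ} (a : Fin p → Fin 4 → 𝕜) {b : Fin q → Fin 4 → 𝕜}
    {b' : Fin q' → Fin 4 → 𝕜} (h : ∀ φ, Nf b φ = Nf b' φ) (c : Fin r → Fin 4 → 𝕜)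
    (d : Fin s → Fin 4 → 𝕜) : DD a b c d = DD a b' c d := by
  rw [DD_s12, DD_congr h, DD_s12]

theorem C5_congr3 {p q r s r' : ℕ} (a : Fin p → Fin 4 → 𝕜) (b : Fin q → Fin 4 → 𝕜)
    {c : Fin r → Fin 4 → 𝕜} {c' : Fin r' → Fin 4 → 𝕜} (h : ∀ φ, Nf c φ = Nf c' φ)
    (d : Fin s → Fin 4 → 𝕜) : DD a b c d = DD a b c' d := by
  rw [DD_s23, C5_congr2 a h, DD_s23]

theorem C5_congr4 {p q r s s' : ℕ} (a : Fin p → Fin 4 → 𝕜) (b : Fin q → Fin 4 → 𝕜)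
    (c : Fin r → Fin 4 → 𝕜) {d : Fin s → Fin 4 → 𝕜} {d' : Fin s' → Fin 4 → 𝕜}
    (h : ∀ φ, Nf d φ = Nf d' φ) : DD a b c d = DD a b c d' := by
  rw [DD_s34, C5_congr3 a b h, DD_s34]

theorem C5_e (e : GL (Fin 4) 𝕜) (t : 𝕜) (j : Fin 4) :
    t • fr e j = e.1.mulVec (t • (Pi.single j 1 : Fin 4 → 𝕜)) := by
  rw [Matrix.mulVec_smul, Matrix.mulVec_single_one]
  rfl

theorem C5_x (e : GL (Fin 4) 𝕜) (x : Fin 4 → 𝕜) : x = e.1.mulVec ((e⁻¹).1.mulVec x) := by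
  rw [Matrix.mulVec_mulVec]
  have h : e.1 * (e⁻¹).1 = 1 := by
    rw [← Units.val_mul, mul_inv_cancel, Units.val_one]
  rw [h, Matrix.one_mulVec]

/-- the general formula for one vector -/
theorem C5_vec (e : GL (Fin 4) 𝕜) (x : Fin 4 → 𝕜) {b c d : Fin 4 → Fin 4 → 𝕜}
    (u v w : Fin 4 → ℝ) (hb : ∀ φ, Nf b φ = Nf (fun i => (u i : 𝕜) • fr e i) φ)
    (hc : ∀ φ, Nf c φ = Nf (fun i => (v i : 𝕜) • fr e i) φ)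
    (hd : ∀ φ, Nf d φ = Nf (fun i => (w i : 𝕜) • fr e i) φ) :
    DD (vec1 x) b c d = ‖e.1.det‖ ^ 2 *
      (‖(e⁻¹).1.mulVec x 0‖ ^ 2 * C5_perm u v w 1 2 3
        + ‖(e⁻¹).1.mulVec x 1‖ ^ 2 * C5_perm u v w 0 2 3
        + ‖(e⁻¹).1.mulVec x 2‖ ^ 2 * C5_perm u v w 0 1 3
        + ‖(e⁻¹).1.mulVec x 3‖ ^ 2 * C5_perm u v w 0 1 2) := by
  rw [C5_congr2 _ hb, C5_congr3 _ _ hc, C5_congr4 _ _ _ hd, ← C5_std, ← DD_map]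
  have h1 : vec1 x = fun i => e.1.mulVec (vec1 ((e⁻¹).1.mulVec x) i) := by
    funext i
    exact C5_x e x
  rw [← h1]
  congr 1
  · funext i; exact C5_e e _ i
  · funext i; exact C5_e e _ i
  · funext i; exact C5_e e _ i

/-- the general formula for four families -/
theorem C5_full (e : GL (Fin 4) 𝕜) {a b c d : Fin 4 → Fin 4 → 𝕜}
    (t u v w : Fin 4 → ℝ) (ha : ∀ φ, Nf a φ = Nf (fun i => (t i : 𝕜) • fr e i) φ)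
    (hb : ∀ φ, Nf b φ = Nf (fun i => (u i : 𝕜) • fr e i) φ)
    (hc : ∀ φ, Nf c φ = Nf (fun i => (v i : 𝕜) • fr e i) φ)
    (hd : ∀ φ, Nf d φ = Nf (fun i => (w i : 𝕜) • fr e i) φ) :
    DD a b c d = ‖e.1.det‖ ^ 2 *
      (t 0 ^ 2 * C5_perm u v w 1 2 3 + t 1 ^ 2 * C5_perm u v w 0 2 3
        + t 2 ^ 2 * C5_perm u v w 0 1 3 + t 3 ^ 2 * C5_perm u v w 0 1 2) := by
  rw [DD_congr ha, DD_eq_sum]
  have h1 : ∀ i j : Fin 4, ‖(e⁻¹).1.mulVec ((t i : 𝕜) • fr e i) j‖ ^ 2 =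
      if i = j then t i ^ 2 else 0 := by
    intro i j
    have h2 : (e⁻¹).1.mulVec ((t i : 𝕜) • fr e i) = (t i : 𝕜) • (Pi.single i 1 : Fin 4 → 𝕜) := by
      rw [C5_e, Matrix.mulVec_mulVec]
      have h : (e⁻¹).1 * e.1 = 1 := by
        rw [← Units.val_mul, inv_mul_cancel, Units.val_one]
      rw [h, Matrix.one_mulVec]
    rw [h2, Pi.smul_apply, Pi.single_apply]
    by_cases hij : i = j
    · rw [if_pos hij.symm, if_pos hij, smul_eq_mul, mul_one, RCLike.norm_ofReal, sq_abs]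
    · rw [if_neg (fun h => hij h.symm), if_neg hij]
      simp
  simp only [C5_vec e _ u v w hb hc hd, h1]
  rw [Fin.sum_univ_four]
  simp
  ring

theorem C5_A {A B e : GL (Fin 4) 𝕜} {s : Fin 4 → ℝ} (h : SvdFr A B e s) :
    ∀ φ, Nf (fr A) φ = Nf (fun i => (((fun _ => 1 : Fin 4 → ℝ) i : ℝ) : 𝕜) • fr e i) φ := by
  intro φ
  obtain ⟨_, _, ⟨U, hU, hUe⟩, _⟩ := h
  have h1 : (fr e) = fun j i => (A.1 * U) i j := by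
    funext j i
    unfold fr
    rw [hUe]
  have h2 : (fun i => (((fun _ => 1 : Fin 4 → ℝ) i : ℝ) : 𝕜) • fr e i) = fr e := by
    funext i
    simp
  rw [h2, h1, Nf_unitary A.1 U hU]
  rfl

theorem C5_B {A B e : GL (Fin 4) 𝕜} {s : Fin 4 → ℝ} (h : SvdFr A B e s) :
    ∀ φ, Nf (fr B) φ = Nf (fun i => (s i : 𝕜) • fr e i) φ := by
  intro φ
  obtain ⟨_, _, _, ⟨V, hV, hVe⟩⟩ := h
  have h1 : (fr B) = fun j i => ((e.1 * Matrix.diagonal (fun i => (s i : 𝕜))) * V) i j := by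
    funext j i
    unfold fr
    rw [hVe]
  rw [h1, Nf_unitary _ V hV]
  congr 1
  funext j i
  rw [Matrix.mul_diagonal, Pi.smul_apply, smul_eq_mul, mul_comm]
  rfl

theorem svd_r1 {A B e : GL (Fin 4) 𝕜} {s : Fin 4 → ℝ} (h : SvdFr A B e s) (x : Fin 4 → 𝕜) :
    DD (vec1 x) (fr B) (fr B) (fr B) = 6 * ‖e.1.det‖ ^ 2 *
      (‖(e⁻¹).1.mulVec x 0‖ ^ 2 * (s 1 ^ 2 * s 2 ^ 2 * s 3 ^ 2)
      + ‖(e⁻¹).1.mulVec x 1‖ ^ 2 * (s 0 ^ 2 * s 2 ^ 2 * s 3 ^ 2)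
      + ‖(e⁻¹).1.mulVec x 2‖ ^ 2 * (s 0 ^ 2 * s 1 ^ 2 * s 3 ^ 2)
      + ‖(e⁻¹).1.mulVec x 3‖ ^ 2 * (s 0 ^ 2 * s 1 ^ 2 * s 2 ^ 2)) := by
  rw [C5_vec e x s s s (C5_B h) (C5_B h) (C5_B h)]
  unfold C5_perm
  ring

theorem svd_r2 {A B e : GL (Fin 4) 𝕜} {s : Fin 4 → ℝ} (h : SvdFr A B e s) (x : Fin 4 → 𝕜) :
    DD (vec1 x) (fr A) (fr B) (fr B) = 2 * ‖e.1.det‖ ^ 2 *
      (‖(e⁻¹).1.mulVec x 0‖ ^ 2 * (s 1 ^ 2 * s 2 ^ 2 + s 1 ^ 2 * s 3 ^ 2 + s 2 ^ 2 * s 3 ^ 2)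
      + ‖(e⁻¹).1.mulVec x 1‖ ^ 2 * (s 0 ^ 2 * s 2 ^ 2 + s 0 ^ 2 * s 3 ^ 2 + s 2 ^ 2 * s 3 ^ 2)
      + ‖(e⁻¹).1.mulVec x 2‖ ^ 2 * (s 0 ^ 2 * s 1 ^ 2 + s 0 ^ 2 * s 3 ^ 2 + s 1 ^ 2 * s 3 ^ 2)
      + ‖(e⁻¹).1.mulVec x 3‖ ^ 2 * (s 0 ^ 2 * s 1 ^ 2 + s 0 ^ 2 * s 2 ^ 2 + s 1 ^ 2 * s 2 ^ 2)) := by
  rw [C5_vec e x _ s s (C5_A h) (C5_B h) (C5_B h)]
  unfold C5_perm
  ring

theorem svd_r3 {A B e : GL (Fin 4) 𝕜} {s : Fin 4 → ℝ} (h : SvdFr A B e s) (x : Fin 4 → 𝕜) :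
    DD (vec1 x) (fr A) (fr A) (fr B) = 2 * ‖e.1.det‖ ^ 2 *
      (‖(e⁻¹).1.mulVec x 0‖ ^ 2 * (s 1 ^ 2 + s 2 ^ 2 + s 3 ^ 2)
      + ‖(e⁻¹).1.mulVec x 1‖ ^ 2 * (s 0 ^ 2 + s 2 ^ 2 + s 3 ^ 2)
      + ‖(e⁻¹).1.mulVec x 2‖ ^ 2 * (s 0 ^ 2 + s 1 ^ 2 + s 3 ^ 2)
      + ‖(e⁻¹).1.mulVec x 3‖ ^ 2 * (s 0 ^ 2 + s 1 ^ 2 + s 2 ^ 2)) := by
  rw [C5_vec e x _ _ s (C5_A h) (C5_A h) (C5_B h)]
  unfold C5_perm
  ring

theorem svd_AAAA {A B e : GL (Fin 4) 𝕜} {s : Fin 4 → ℝ} (h : SvdFr A B e s) :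
    DD (fr A) (fr A) (fr A) (fr A) = 24 * ‖e.1.det‖ ^ 2 := by
  rw [C5_full e _ _ _ _ (C5_A h) (C5_A h) (C5_A h) (C5_A h)]
  unfold C5_perm
  ring

theorem svd_AAAB {A B e : GL (Fin 4) 𝕜} {s : Fin 4 → ℝ} (h : SvdFr A B e s) :
    DD (fr A) (fr A) (fr A) (fr B)
      = 6 * ‖e.1.det‖ ^ 2 * (s 0 ^ 2 + s 1 ^ 2 + s 2 ^ 2 + s 3 ^ 2) := by
  rw [C5_full e _ _ _ _ (C5_A h) (C5_A h) (C5_A h) (C5_B h)]
  unfold C5_perm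
  ring

theorem svd_AABB {A B e : GL (Fin 4) 𝕜} {s : Fin 4 → ℝ} (h : SvdFr A B e s) :
    DD (fr A) (fr A) (fr B) (fr B) = 4 * ‖e.1.det‖ ^ 2 *
      (s 0 ^ 2 * s 1 ^ 2 + s 0 ^ 2 * s 2 ^ 2 + s 0 ^ 2 * s 3 ^ 2 + s 1 ^ 2 * s 2 ^ 2
        + s 1 ^ 2 * s 3 ^ 2 + s 2 ^ 2 * s 3 ^ 2) := by
  rw [C5_full e _ _ _ _ (C5_A h) (C5_A h) (C5_B h) (C5_B h)]
  unfold C5_perm
  ring

theorem svd_ABBB {A B e : GL (Fin 4) 𝕜} {s : Fin 4 → ℝ} (h : SvdFr A B e s) :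
    DD (fr A) (fr B) (fr B) (fr B) = 6 * ‖e.1.det‖ ^ 2 *
      (s 0 ^ 2 * s 1 ^ 2 * s 2 ^ 2 + s 0 ^ 2 * s 1 ^ 2 * s 3 ^ 2 + s 0 ^ 2 * s 2 ^ 2 * s 3 ^ 2
        + s 1 ^ 2 * s 2 ^ 2 * s 3 ^ 2) := by
  rw [C5_full e _ _ _ _ (C5_A h) (C5_B h) (C5_B h) (C5_B h)]
  unfold C5_perm
  ring

theorem svd_BBBB {A B e : GL (Fin 4) 𝕜} {s : Fin 4 → ℝ} (h : SvdFr A B e s) :
    DD (fr B) (fr B) (fr B) (fr B)
      = 24 * ‖e.1.det‖ ^ 2 * (s 0 ^ 2 * s 1 ^ 2 * s 2 ^ 2 * s 3 ^ 2) := by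
  rw [C5_full e _ _ _ _ (C5_B h) (C5_B h) (C5_B h) (C5_B h)]
  unfold C5_perm
  ring

end RapidDecay
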