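import Pool.Agent.Lib.MP_fee02f_an.AR.C4
import Pool.Agent.Lib.MP_fee02f_an.AR.C5

/-!
C6: the moved frame and the form `FA` (75 min).

PROOF. Notation p_i = (s i)^2, p0 ≥ p1 ≥ p2 ≥ p3 > 0, n_i = ‖(e⁻¹ x)_i‖^2, e_j elementary symmetric
polynomials of the p_i, e_j(≠i) of the three others.  fr M j = μ_j fr e j gives
QA M x = ∑ μ_i⁻² n_i (`QA_of_fr`), μ_i = exp(-k) for i ≥ 4-r and 1 otherwise; QA A x = QA e x = ∑ n_i
(QA_unitary).  By C5  nA = ∑ c_i n_i with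
  r=1: c_i = e_3(≠i)/e_3,  r=2: c_i = e_2(≠i)/(2 e_2),  r=3: c_i = e_1(≠i)/(3 e_1);  all c_i ≤ 1.
(F2) c_i ≥ 1/12 for i ≥ 4-r: r=1, i=3: e_3(≠3) = p0p1p2 ≥ e_3/4.  r=2, i=2,3: e_2(≠i) ≥ p0p1 ≥ e_2/6.
     r=3, i=1,2,3: e_1(≠i) ≥ p0 ≥ e_1/4.
(F3) under GapA: c_i ≤ 64 exp(-2k) for i < 4-r:
     r=1: GapA says 96 e_2e_4 ≤ 16 E 36 e_3^2 (E = exp(-2k)), c_i = e_4/(p_i e_3) and e_3 ≤ 2 p_i e_2 for i ≤ 2
          (e_3 ≤ p2(2p0p1+p0p3+p1p3)), so c_i ≤ 2 e_2e_4/e_3^2 ≤ 12 E.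
     r=2: GapA: 36 e_1e_3 ≤ 256 E e_2^2; for i ≤ 1: e_2(≠i) ≤ 3 p0p2, e_2 ≤ 6p0p1, e_1 ≥ p0, e_3 ≥ p0p1p2, so
          e_2(≠i) e_2 ≤ 18 e_1e_3 and c_i ≤ 9 e_1e_3/e_2^2 ≤ 64 E.
     r=3: GapA: 96 e_2 ≤ 16 E 36 e_1^2; e_1(≠0) e_1 ≤ 4 p0 (p1+p2+p3) ≤ 4 e_2, c_0 ≤ 4e_2/(3e_1^2) ≤ 8 E.
QA M ≤ 12 FA: coefficientwise: i < 4-r: 1 ≤ 12;  i ≥ 4-r: exp(2k) ≤ 12 exp(2k) c_i.
FA ≤ 65 QA M: i < 4-r: 1 + exp(2k) c_i ≤ 65;  i ≥ 4-r: 1 + exp(2k) c_i ≤ 2 exp(2k).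
-/

set_option autoImplicit false

namespace RapidDecay

variable {𝕜 : Type*} [RCLike 𝕜]

/-- the `r`-th gap of `A`, `B` is at least `k` (up to the factor 16) -/
def GapA (r k : ℕ) (A B : GL (Fin 4) 𝕜) : Prop :=
  (r = 1 → DD (fr A) (fr A) (fr B) (fr B) * DD (fr B) (fr B) (fr B) (fr B)
    ≤ 16 * Real.exp (-(2 * k)) * DD (fr A) (fr B) (fr B) (fr B) ^ 2) ∧
  (r = 2 → DD (fr A) (fr A) (fr A) (fr B) * DD (fr A) (fr B) (fr B) (fr B)
    ≤ 16 * Real.exp (-(2 * k)) * DD (fr A) (fr A) (fr B) (fr B) ^ 2) ∧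
  (r = 3 → DD (fr A) (fr A) (fr A) (fr A) * DD (fr A) (fr A) (fr B) (fr B)
    ≤ 16 * Real.exp (-(2 * k)) * DD (fr A) (fr A) (fr A) (fr B) ^ 2)

theorem QA_of_fr (e M : GL (Fin 4) 𝕜) (μ : Fin 4 → ℝ) (hμ : ∀ i, 0 < μ i)
    (h : ∀ j, fr M j = (μ j : 𝕜) • fr e j) (x : Fin 4 → 𝕜) :
    QA M x = ∑ i, (μ i)⁻¹ ^ 2 * ‖(e⁻¹).1.mulVec x i‖ ^ 2 := by
  have hM : M.1 = e.1 * Matrix.diagonal (fun i => (μ i : 𝕜)) := by
    ext i j
    have h1 := congrFun (h j) i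
    rw [Matrix.mul_diagonal]
    have h2 : M.1 i j = (μ j : 𝕜) * e.1 i j := h1
    rw [h2, mul_comm]
  have key : ∀ i, (e⁻¹).1.mulVec x i = (μ i : 𝕜) * (M⁻¹).1.mulVec x i := by
    intro i
    have h1 : (e⁻¹).1 = Matrix.diagonal (fun i => (μ i : 𝕜)) * (M⁻¹).1 := by
      have h2 : e.1 * (Matrix.diagonal (fun i => (μ i : 𝕜)) * (M⁻¹).1) = 1 := by
        rw [← Matrix.mul_assoc, ← hM]
        exact M.mul_inv
      have h3 : (e⁻¹).1 * e.1 = 1 := e.inv_mul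
      calc (e⁻¹).1 = (e⁻¹).1 * (e.1 * (Matrix.diagonal (fun i => (μ i : 𝕜)) * (M⁻¹).1)) := by
            rw [h2, Matrix.mul_one]
        _ = _ := by rw [← Matrix.mul_assoc, h3, Matrix.one_mul]
    rw [h1, ← Matrix.mulVec_mulVec, Matrix.mulVec_diagonal]
  unfold QA
  apply Finset.sum_congr rfl
  intro i _
  rw [key i, norm_mul, RCLike.norm_ofReal, abs_of_pos (hμ i), mul_pow, ← mul_assoc, ← mul_pow,
    inv_mul_cancel₀ (hμ i).ne', one_pow, one_mul]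

theorem c6_forall {p : Fin 4 → Prop} : (∀ i, p i) ↔ p 0 ∧ p 1 ∧ p 2 ∧ p 3 :=
  ⟨fun h => ⟨h 0, h 1, h 2, h 3⟩, fun h i => by
    fin_cases i
    · exact h.1
    · exact h.2.1
    · exact h.2.2.1
    · exact h.2.2.2⟩

theorem c6_le (n c m : Fin 4 → ℝ) (E : ℝ) (hn : ∀ i, 0 ≤ n i) (hE : 1 ≤ E) (hc : ∀ i, 0 ≤ c i)
    (hm : ∀ i, m i = 1 ∨ (m i = E ∧ 1 / 12 ≤ c i)) :
    ∑ i, m i * n i ≤ 12 * (∑ i, n i + E * ∑ i, n i * c i) := by
  rw [Finset.mul_sum, ← Finset.sum_add_distrib, Finset.mul_sum]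
  apply Finset.sum_le_sum
  intro i _
  have h0 : 0 ≤ E * (n i * c i) := mul_nonneg (by linarith) (mul_nonneg (hn i) (hc i))
  rcases hm i with h | ⟨h, h'⟩
  · rw [h]
    linarith [hn i]
  · rw [h]
    have h1 : E * n i * (1 / 12) ≤ E * n i * c i :=
      mul_le_mul_of_nonneg_left h' (mul_nonneg (by linarith) (hn i))
    nlinarith [hn i]

theorem c6_ge (n c m : Fin 4 → ℝ) (E : ℝ) (hn : ∀ i, 0 ≤ n i) (hE : 1 ≤ E)
    (hm : ∀ i, (m i = 1 ∧ E * c i ≤ 64) ∨ (m i = E ∧ c i ≤ 1)) :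
    ∑ i, n i + E * ∑ i, n i * c i ≤ 65 * ∑ i, m i * n i := by
  rw [Finset.mul_sum, ← Finset.sum_add_distrib, Finset.mul_sum]
  apply Finset.sum_le_sum
  intro i _
  rcases hm i with ⟨h, h'⟩ | ⟨h, h'⟩
  · rw [h]
    have h1 := mul_le_mul_of_nonneg_left h' (hn i)
    linarith
  · rw [h]
    have h1 : E * n i * c i ≤ E * n i * 1 :=
      mul_le_mul_of_nonneg_left h' (mul_nonneg (by linarith) (hn i))
    have h2 : n i ≤ E * n i := le_mul_of_one_le_left (hn i) hE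
    have h3 := hn i
    linarith

theorem c6_gap {X Y E E' q a b : ℝ} (hX : 0 < X) (hE' : 0 < E') (hEE : E * E' = 1) (ha : 0 ≤ a)
    (h1 : q * X ≤ a * Y) (h2 : Y ≤ b * E * X ^ 2) : E' * q ≤ a * b * X := by
  have h3 : q * X ≤ (a * b * E * X) * X := by
    have := mul_le_mul_of_nonneg_left h2 ha
    calc q * X ≤ a * Y := h1
      _ ≤ a * (b * E * X ^ 2) := this
      _ = _ := by ring
  have h4 := le_of_mul_le_mul_right h3 hX
  have h5 := mul_le_mul_of_nonneg_left h4 hE'.le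
  calc E' * q ≤ E' * (a * b * E * X) := h5
    _ = a * b * X * (E * E') := by ring
    _ = _ := by rw [hEE, mul_one]

theorem c6_exp (k : ℕ) : (Real.exp (-(k : ℝ)))⁻¹ ^ 2 = Real.exp (2 * k) := by
  rw [← Real.exp_neg, neg_neg, ← Real.exp_nat_mul]
  norm_num

theorem c6_exp1 (k : ℕ) : 1 ≤ Real.exp (2 * (k : ℝ)) := Real.one_le_exp (by positivity)

theorem c6_expE (k : ℕ) : Real.exp (-(2 * (k : ℝ))) * Real.exp (2 * (k : ℝ)) = 1 := by
  rw [← Real.exp_add]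
  simp

/-- the facts about the squares of the singular values -/
theorem c6_anti {s : Fin 4 → ℝ} (hs : ∀ i, 0 < s i) (ha : Antitone s) :
    0 < s 3 ^ 2 ∧ s 3 ^ 2 ≤ s 2 ^ 2 ∧ s 2 ^ 2 ≤ s 1 ^ 2 ∧ s 1 ^ 2 ≤ s 0 ^ 2 := by
  refine ⟨pow_pos (hs 3) 2, ?_, ?_, ?_⟩
  · exact pow_le_pow_left₀ (hs 3).le (ha (by decide)) 2
  · exact pow_le_pow_left₀ (hs 2).le (ha (by decide)) 2
  · exact pow_le_pow_left₀ (hs 1).le (ha (by decide)) 2

/-- the form in the singular value frame -/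
theorem c6_QA {A B e M : GL (Fin 4) 𝕜} {s : Fin 4 → ℝ} (h : SvdFr A B e s) {r k : ℕ}
    (hM : ∀ j, fr M j = (muk r k j : 𝕜) • fr e j) (x : Fin 4 → 𝕜) :
    QA M x = ∑ i, (muk r k i)⁻¹ ^ 2 * ‖(e⁻¹).1.mulVec x i‖ ^ 2 ∧
      QA A x = ∑ i, ‖(e⁻¹).1.mulVec x i‖ ^ 2 := by
  constructor
  · exact QA_of_fr e M _ (muk_pos r k) hM x
  · obtain ⟨_, _, ⟨U, hU, hUe⟩, _⟩ := h
    rw [← QA_unitary A e U hU hUe x]
    rfl

theorem c6_det (e : GL (Fin 4) 𝕜) : 0 < ‖e.1.det‖ ^ 2 := by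
  have h1 : e.1.det ≠ 0 := by
    have h2 : IsUnit e.1.det := (Matrix.isUnit_iff_isUnit_det _).1 ⟨e, rfl⟩
    exact h2.ne_zero
  exact pow_pos (norm_pos_iff.2 h1) 2

/-- the coefficients of the three forms -/
noncomputable def c6_c1 (a b c d : ℝ) : Fin 4 → ℝ :=
  ![b * c * d / (a * b * c + a * b * d + a * c * d + b * c * d),
    a * c * d / (a * b * c + a * b * d + a * c * d + b * c * d),
    a * b * d / (a * b * c + a * b * d + a * c * d + b * c * d),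
    a * b * c / (a * b * c + a * b * d + a * c * d + b * c * d)]

/-- the coefficients for `r = 2` -/
noncomputable def c6_c2 (a b c d : ℝ) : Fin 4 → ℝ :=
  ![(b * c + b * d + c * d) / (2 * (a * b + a * c + a * d + b * c + b * d + c * d)),
    (a * c + a * d + c * d) / (2 * (a * b + a * c + a * d + b * c + b * d + c * d)),
    (a * b + a * d + b * d) / (2 * (a * b + a * c + a * d + b * c + b * d + c * d)),
    (a * b + a * c + b * c) / (2 * (a * b + a * c + a * d + b * c + b * d + c * d))]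

/-- the coefficients for `r = 3` -/
noncomputable def c6_c3 (a b c d : ℝ) : Fin 4 → ℝ :=
  ![(b + c + d) / (3 * (a + b + c + d)), (a + c + d) / (3 * (a + b + c + d)),
    (a + b + d) / (3 * (a + b + c + d)), (a + b + c) / (3 * (a + b + c + d))]

theorem c6_nA1 {A B e : GL (Fin 4) 𝕜} {s : Fin 4 → ℝ} (h : SvdFr A B e s) (x : Fin 4 → 𝕜) :
    nA A (fr B) (fr B) (fr B) x = ∑ i, ‖(e⁻¹).1.mulVec x i‖ ^ 2 *
      c6_c1 (s 0 ^ 2) (s 1 ^ 2) (s 2 ^ 2) (s 3 ^ 2) i := by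
  have hD := c6_det e
  have hs := h.1
  have h0 := hs 0
  have h1 := hs 1
  have h2 := hs 2
  have h3 := hs 3
  rw [nA, svd_r1 h x, svd_ABBB h, Fin.sum_univ_four]
  simp only [c6_c1, Matrix.cons_val_zero, Matrix.cons_val_one, Matrix.cons_val]
  generalize ‖e.1.det‖ ^ 2 = D at *
  field_simp

theorem c6_nA2 {A B e : GL (Fin 4) 𝕜} {s : Fin 4 → ℝ} (h : SvdFr A B e s) (x : Fin 4 → 𝕜) :
    nA A (fr A) (fr B) (fr B) x = ∑ i, ‖(e⁻¹).1.mulVec x i‖ ^ 2 *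
      c6_c2 (s 0 ^ 2) (s 1 ^ 2) (s 2 ^ 2) (s 3 ^ 2) i := by
  have hD := c6_det e
  have hs := h.1
  have h0 := hs 0
  have h1 := hs 1
  have h2 := hs 2
  have h3 := hs 3
  rw [nA, svd_r2 h x, svd_AABB h, Fin.sum_univ_four]
  simp only [c6_c2, Matrix.cons_val_zero, Matrix.cons_val_one, Matrix.cons_val]
  generalize ‖e.1.det‖ ^ 2 = D at *
  field_simp
  ring

theorem c6_nA3 {A B e : GL (Fin 4) 𝕜} {s : Fin 4 → ℝ} (h : SvdFr A B e s) (x : Fin 4 → 𝕜) :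
    nA A (fr A) (fr A) (fr B) x = ∑ i, ‖(e⁻¹).1.mulVec x i‖ ^ 2 *
      c6_c3 (s 0 ^ 2) (s 1 ^ 2) (s 2 ^ 2) (s 3 ^ 2) i := by
  have hD := c6_det e
  have hs := h.1
  have h0 := hs 0
  have h1 := hs 1
  have h2 := hs 2
  have h3 := hs 3
  rw [nA, svd_r3 h x, svd_AAAB h, Fin.sum_univ_four]
  simp only [c6_c3, Matrix.cons_val_zero, Matrix.cons_val_one, Matrix.cons_val]
  generalize ‖e.1.det‖ ^ 2 = D at *
  field_simp
  ring

theorem c6_f1 {a b c d : ℝ} (hd : 0 < d) (hc : d ≤ c) (hb : c ≤ b) (ha : b ≤ a) :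
    (∀ i, 0 ≤ c6_c1 a b c d i) ∧ (∀ i, c6_c1 a b c d i ≤ 1) ∧ 1 / 12 ≤ c6_c1 a b c d 3 ∧
    ∀ E E' : ℝ, 0 < E' → E * E' = 1 →
      (a * b + a * c + a * d + b * c + b * d + c * d) * (a * b * c * d) ≤
        6 * E * (a * b * c + a * b * d + a * c * d + b * c * d) ^ 2 →
      ∀ i : Fin 4, i ≠ 3 → E' * c6_c1 a b c d i ≤ 64 := by
  have hc0 : 0 < c := lt_of_lt_of_le hd hc
  have hb0 : 0 < b := lt_of_lt_of_le hc0 hb
  have ha0 : 0 < a := lt_of_lt_of_le hb0 ha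
  have hX : 0 < a * b * c + a * b * d + a * c * d + b * c * d := by positivity
  have p1 : 0 ≤ a * b * c := by positivity
  have p2 : 0 ≤ a * b * d := by positivity
  have p3 : 0 ≤ a * c * d := by positivity
  have p4 : 0 ≤ b * c * d := by positivity
  refine ⟨?_, ?_, ?_, ?_⟩
  · rw [c6_forall]
    simp only [c6_c1, Matrix.cons_val_zero, Matrix.cons_val_one, Matrix.cons_val]
    refine ⟨?_, ?_, ?_, ?_⟩ <;> positivity
  · rw [c6_forall]
    simp only [c6_c1, Matrix.cons_val_zero, Matrix.cons_val_one, Matrix.cons_val]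
    refine ⟨?_, ?_, ?_, ?_⟩ <;> rw [div_le_one hX] <;> linarith
  · simp only [c6_c1, Matrix.cons_val]
    rw [le_div_iff₀ hX]
    have a1 : a * b * d ≤ a * b * c := by gcongr
    have a2 : a * c * d ≤ a * b * c := by gcongr
    have a3 : b * c * d ≤ a * b * c := by gcongr
    linarith
  · intro E E' hE' hEE hgap
    have a1 : a * b * d ≤ a * b * c := by gcongr
    have base : a * b * c + a * b * d + a * c * d + b * c * d ≤
        2 * c * (a * b + a * c + a * d + b * c + b * d + c * d) := by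
      nlinarith [mul_pos ha0 hc0, mul_pos hb0 hc0, mul_pos hc0 hd, mul_pos (mul_pos ha0 hc0) hc0,
        mul_pos (mul_pos ha0 hc0) hd, mul_pos (mul_pos hb0 hc0) hc0, mul_pos (mul_pos hb0 hc0) hd,
        mul_pos (mul_pos hc0 hc0) hd]
    have hY : 0 ≤ a * b + a * c + a * d + b * c + b * d + c * d := by positivity
    have gen : ∀ t q : ℝ, c ≤ t → 0 ≤ q → q * t = a * b * c * d →
        E' * (q / (a * b * c + a * b * d + a * c * d + b * c * d)) ≤ 64 := by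
      intro t q ht hq htq
      have h1 : q * (a * b * c + a * b * d + a * c * d + b * c * d) ≤
          2 * ((a * b + a * c + a * d + b * c + b * d + c * d) * (a * b * c * d)) := by
        have h2 : 2 * c * (a * b + a * c + a * d + b * c + b * d + c * d) ≤
            2 * t * (a * b + a * c + a * d + b * c + b * d + c * d) := by gcongr
        have h3 := mul_le_mul_of_nonneg_left (base.trans h2) hq
        calc _ ≤ _ := h3
          _ = 2 * (a * b + a * c + a * d + b * c + b * d + c * d) * (q * t) := by ring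
          _ = _ := by rw [htq]; ring
      have h4 := c6_gap hX hE' hEE (by norm_num : (0 : ℝ) ≤ 2) h1 hgap
      rw [← mul_div_assoc, div_le_iff₀ hX]
      linarith
    rw [c6_forall]
    simp only [c6_c1, Matrix.cons_val_zero, Matrix.cons_val_one, Matrix.cons_val]
    refine ⟨fun _ => ?_, fun _ => ?_, fun _ => ?_, fun h => absurd rfl h⟩
    · exact gen a _ (hb.trans ha) p4 (by ring)
    · exact gen b _ hb p3 (by ring)
    · exact gen c _ le_rfl p2 (by ring)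

theorem c6_f2 {a b c d : ℝ} (hd : 0 < d) (hc : d ≤ c) (hb : c ≤ b) (ha : b ≤ a) :
    (∀ i, 0 ≤ c6_c2 a b c d i) ∧ (∀ i, c6_c2 a b c d i ≤ 1) ∧ 1 / 12 ≤ c6_c2 a b c d 2 ∧
    1 / 12 ≤ c6_c2 a b c d 3 ∧
    ∀ E E' : ℝ, 0 < E' → E * E' = 1 →
      (a + b + c + d) * (a * b * c + a * b * d + a * c * d + b * c * d) ≤
        64 / 9 * E * (a * b + a * c + a * d + b * c + b * d + c * d) ^ 2 →
      E' * c6_c2 a b c d 0 ≤ 64 ∧ E' * c6_c2 a b c d 1 ≤ 64 := by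
  have hc0 : 0 < c := lt_of_lt_of_le hd hc
  have hb0 : 0 < b := lt_of_lt_of_le hc0 hb
  have ha0 : 0 < a := lt_of_lt_of_le hb0 ha
  have p1 : 0 < a * b := by positivity
  have p2 : 0 < a * c := by positivity
  have p3 : 0 < a * d := by positivity
  have p4 : 0 < b * c := by positivity
  have p5 : 0 < b * d := by positivity
  have p6 : 0 < c * d := by positivity
  have hX : 0 < a * b + a * c + a * d + b * c + b * d + c * d := by positivity
  have hX2 : 0 < 2 * (a * b + a * c + a * d + b * c + b * d + c * d) := by positivity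
  have q1 : a * c ≤ a * b := by gcongr
  have q2 : a * d ≤ a * c := by gcongr
  have q3 : b * c ≤ a * c := by gcongr
  have q4 : b * d ≤ a * c := by gcongr
  have q5 : c * d ≤ a * c := by
    calc c * d ≤ c * c := by gcongr
      _ ≤ a * c := by
        have : c ≤ a := hb.trans ha
        gcongr
  refine ⟨?_, ?_, ?_, ?_, ?_⟩
  · rw [c6_forall]
    simp only [c6_c2, Matrix.cons_val_zero, Matrix.cons_val_one, Matrix.cons_val]
    refine ⟨?_, ?_, ?_, ?_⟩ <;> positivity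
  · rw [c6_forall]
    simp only [c6_c2, Matrix.cons_val_zero, Matrix.cons_val_one, Matrix.cons_val]
    refine ⟨?_, ?_, ?_, ?_⟩ <;> rw [div_le_one hX2] <;> linarith
  · simp only [c6_c2, Matrix.cons_val]
    rw [le_div_iff₀ hX2]
    linarith
  · simp only [c6_c2, Matrix.cons_val]
    rw [le_div_iff₀ hX2]
    linarith
  · intro E E' hE' hEE hgap
    have gen : ∀ q : ℝ, 0 ≤ q → q ≤ 3 * (a * c) →
        E' * (q / (2 * (a * b + a * c + a * d + b * c + b * d + c * d))) ≤ 64 := by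
      intro q hq hq3
      have h1 : q * (a * b + a * c + a * d + b * c + b * d + c * d) ≤
          18 * ((a + b + c + d) * (a * b * c + a * b * d + a * c * d + b * c * d)) := by
        calc q * (a * b + a * c + a * d + b * c + b * d + c * d)
            ≤ (3 * (a * c)) * (6 * (a * b)) := by
              apply mul_le_mul hq3 (by linarith) hX.le (by positivity)
          _ = 18 * (a * (a * b * c)) := by ring
          _ ≤ 18 * ((a + b + c + d) * (a * b * c + a * b * d + a * c * d + b * c * d)) := by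
              apply mul_le_mul_of_nonneg_left _ (by norm_num)
              apply mul_le_mul
              · linarith
              · have t1 : 0 < a * b * d := by positivity
                have t2 : 0 < a * c * d := by positivity
                have t3 : 0 < b * c * d := by positivity
                linarith
              · positivity
              · positivity
      have h4 := c6_gap hX hE' hEE (by norm_num : (0 : ℝ) ≤ 18) h1 hgap
      rw [← mul_div_assoc, div_le_iff₀ hX2]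
      linarith
    simp only [c6_c2, Matrix.cons_val_zero, Matrix.cons_val_one, Matrix.cons_val]
    refine ⟨gen _ (by positivity) (by linarith), gen _ (by positivity) (by linarith)⟩

theorem c6_f3 {a b c d : ℝ} (hd : 0 < d) (hc : d ≤ c) (hb : c ≤ b) (ha : b ≤ a) :
    (∀ i, 0 ≤ c6_c3 a b c d i) ∧ (∀ i, c6_c3 a b c d i ≤ 1) ∧
    (∀ i : Fin 4, i ≠ 0 → 1 / 12 ≤ c6_c3 a b c d i) ∧
    ∀ E E' : ℝ, 0 < E' → E * E' = 1 →
      (a * b + a * c + a * d + b * c + b * d + c * d) ≤ 6 * E * (a + b + c + d) ^ 2 →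
      E' * c6_c3 a b c d 0 ≤ 64 := by
  have hc0 : 0 < c := lt_of_lt_of_le hd hc
  have hb0 : 0 < b := lt_of_lt_of_le hc0 hb
  have ha0 : 0 < a := lt_of_lt_of_le hb0 ha
  have hX : 0 < a + b + c + d := by positivity
  have hX3 : 0 < 3 * (a + b + c + d) := by positivity
  refine ⟨?_, ?_, ?_, ?_⟩
  · rw [c6_forall]
    simp only [c6_c3, Matrix.cons_val_zero, Matrix.cons_val_one, Matrix.cons_val]
    refine ⟨?_, ?_, ?_, ?_⟩ <;> positivity
  · rw [c6_forall]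
    simp only [c6_c3, Matrix.cons_val_zero, Matrix.cons_val_one, Matrix.cons_val]
    refine ⟨?_, ?_, ?_, ?_⟩ <;> rw [div_le_one hX3] <;> linarith
  · rw [c6_forall]
    simp only [c6_c3, Matrix.cons_val_zero, Matrix.cons_val_one, Matrix.cons_val]
    refine ⟨fun h => absurd rfl h, fun _ => ?_, fun _ => ?_, fun _ => ?_⟩ <;>
      rw [le_div_iff₀ hX3] <;> linarith
  · intro E E' hE' hEE hgap
    have h1 : (b + c + d) * (a + b + c + d) ≤
        4 * (a * b + a * c + a * d + b * c + b * d + c * d) := by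
      nlinarith [mul_pos hb0 hc0, mul_pos hb0 hd, mul_pos hc0 hd, mul_pos ha0 hb0,
        mul_pos ha0 hc0, mul_pos ha0 hd, mul_le_mul_of_nonneg_left ha hb0.le,
        mul_le_mul_of_nonneg_left (hb.trans ha) hc0.le,
        mul_le_mul_of_nonneg_left ((hc.trans hb).trans ha) hd.le]
    have h4 := c6_gap hX hE' hEE (by norm_num : (0 : ℝ) ≤ 4) h1 hgap
    simp only [c6_c3, Matrix.cons_val_zero]
    rw [← mul_div_assoc, div_le_iff₀ hX3]
    linarith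

theorem QA_le_FA (r k : ℕ) (A B M : GL (Fin 4) 𝕜) (h : MvA r k A B M) (x : Fin 4 → 𝕜) :
    (r = 1 → QA M x ≤ 12 * FA k A (fr B) (fr B) (fr B) x) ∧
    (r = 2 → QA M x ≤ 12 * FA k A (fr A) (fr B) (fr B) x) ∧
    (r = 3 → QA M x ≤ 12 * FA k A (fr A) (fr A) (fr B) x) := by
  obtain ⟨e, s, hsv, hM⟩ := h
  obtain ⟨h1, h2⟩ := c6_QA hsv hM x
  obtain ⟨g1, g2, g3, g4⟩ := c6_anti hsv.1 hsv.2.1
  have hn : ∀ i, 0 ≤ ‖(e⁻¹).1.mulVec x i‖ ^ 2 := fun i => by positivity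
  refine ⟨?_, ?_, ?_⟩
  · rintro rfl
    obtain ⟨f1, _, f3, _⟩ := c6_f1 g1 g2 g3 g4
    rw [FA, h1, h2, c6_nA1 hsv x]
    refine c6_le _ _ _ _ hn (c6_exp1 k) f1 ?_
    rw [c6_forall]
    refine ⟨Or.inl ?_, Or.inl ?_, Or.inl ?_, Or.inr ⟨?_, f3⟩⟩
    · simp [muk]
    · simp [muk]
    · simp [muk]
    · rw [← c6_exp k]
      simp [muk]
  · rintro rfl
    obtain ⟨f1, _, f3, f4, _⟩ := c6_f2 g1 g2 g3 g4
    rw [FA, h1, h2, c6_nA2 hsv x]
    refine c6_le _ _ _ _ hn (c6_exp1 k) f1 ?_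
    rw [c6_forall]
    refine ⟨Or.inl ?_, Or.inl ?_, Or.inr ⟨?_, f3⟩, Or.inr ⟨?_, f4⟩⟩
    · simp [muk]
    · simp [muk]
    · rw [← c6_exp k]
      simp [muk]
    · rw [← c6_exp k]
      simp [muk]
  · rintro rfl
    obtain ⟨f1, _, f3, _⟩ := c6_f3 g1 g2 g3 g4
    rw [FA, h1, h2, c6_nA3 hsv x]
    refine c6_le _ _ _ _ hn (c6_exp1 k) f1 ?_
    rw [c6_forall]
    refine ⟨Or.inl ?_, Or.inr ⟨?_, f3 1 (by decide)⟩, Or.inr ⟨?_, f3 2 (by decide)⟩,
      Or.inr ⟨?_, f3 3 (by decide)⟩⟩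
    · simp [muk]
    · rw [← c6_exp k]
      simp [muk]
    · rw [← c6_exp k]
      simp [muk]
    · rw [← c6_exp k]
      simp [muk]

theorem FA_le_QA (r k : ℕ) (A B M : GL (Fin 4) 𝕜) (h : MvA r k A B M) (hg : GapA r k A B)
    (x : Fin 4 → 𝕜) :
    (r = 1 → FA k A (fr B) (fr B) (fr B) x ≤ 65 * QA M x) ∧
    (r = 2 → FA k A (fr A) (fr B) (fr B) x ≤ 65 * QA M x) ∧
    (r = 3 → FA k A (fr A) (fr A) (fr B) x ≤ 65 * QA M x) := by
  obtain ⟨e, s, hsv, hM⟩ := h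
  obtain ⟨h1, h2⟩ := c6_QA hsv hM x
  obtain ⟨g1, g2, g3, g4⟩ := c6_anti hsv.1 hsv.2.1
  have hn : ∀ i, 0 ≤ ‖(e⁻¹).1.mulVec x i‖ ^ 2 := fun i => by positivity
  have hD := c6_det e
  have hD2 : 0 < (‖e.1.det‖ ^ 2) ^ 2 := pow_pos hD 2
  obtain ⟨G1, G2, G3⟩ := hg
  rw [svd_AABB hsv, svd_BBBB hsv, svd_ABBB hsv] at G1
  rw [svd_AAAB hsv, svd_ABBB hsv, svd_AABB hsv] at G2
  rw [svd_AAAA hsv, svd_AABB hsv, svd_AAAB hsv] at G3
  refine ⟨?_, ?_, ?_⟩
  · rintro rfl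
    obtain ⟨_, f2, _, f4⟩ := c6_f1 g1 g2 g3 g4
    have f5 := f4 _ _ (Real.exp_pos (2 * (k : ℝ))) (c6_expE k) (by
      have G := G1 rfl
      apply le_of_mul_le_mul_left _ hD2
      linarith)
    rw [FA, h1, h2, c6_nA1 hsv x]
    refine c6_ge _ _ _ _ hn (c6_exp1 k) ?_
    rw [c6_forall]
    refine ⟨Or.inl ⟨?_, f5 0 (by decide)⟩, Or.inl ⟨?_, f5 1 (by decide)⟩,
      Or.inl ⟨?_, f5 2 (by decide)⟩, Or.inr ⟨?_, f2 3⟩⟩
    · simp [muk]
    · simp [muk]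
    · simp [muk]
    · rw [← c6_exp k]
      simp [muk]
  · rintro rfl
    obtain ⟨_, f2, _, _, f4⟩ := c6_f2 g1 g2 g3 g4
    have f5 := f4 _ _ (Real.exp_pos (2 * (k : ℝ))) (c6_expE k) (by
      have G := G2 rfl
      apply le_of_mul_le_mul_left _ hD2
      linarith)
    rw [FA, h1, h2, c6_nA2 hsv x]
    refine c6_ge _ _ _ _ hn (c6_exp1 k) ?_
    rw [c6_forall]
    refine ⟨Or.inl ⟨?_, f5.1⟩, Or.inl ⟨?_, f5.2⟩, Or.inr ⟨?_, f2 2⟩, Or.inr ⟨?_, f2 3⟩⟩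
    · simp [muk]
    · simp [muk]
    · rw [← c6_exp k]
      simp [muk]
    · rw [← c6_exp k]
      simp [muk]
  · rintro rfl
    obtain ⟨_, f2, _, f4⟩ := c6_f3 g1 g2 g3 g4
    have f5 := f4 _ _ (Real.exp_pos (2 * (k : ℝ))) (c6_expE k) (by
      have G := G3 rfl
      apply le_of_mul_le_mul_left _ hD2
      linarith)
    rw [FA, h1, h2, c6_nA3 hsv x]
    refine c6_ge _ _ _ _ hn (c6_exp1 k) ?_
    rw [c6_forall]
    refine ⟨Or.inl ⟨?_, f5⟩, Or.inr ⟨?_, f2 1⟩, Or.inr ⟨?_, f2 2⟩, Or.inr ⟨?_, f2 3⟩⟩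
    · simp [muk]
    · rw [← c6_exp k]
      simp [muk]
    · rw [← c6_exp k]
      simp [muk]
    · rw [← c6_exp k]
      simp [muk]

end RapidDecay
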