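import Pool.Agent.Lib.MP_fee02f_an.AR.C3
import Pool.Agent.Lib.MP_fee02f_an.AR.C6

/-!
C7: comparison of the forms `FA` for the words of a long group (60 min).  Of C6 only the definition
`GapA` is used.

PROOFS. `FA_step`: DD_pl with the common slots S, T and the vectors x, C, A, B:
DD S T x C * DD S T A B ≤ 8 (DD S T x A * DD S T C B + DD S T x B * DD S T C A);
DD S T x A ≤ QA A x * DD S T A A (DD_vec_le), and by `le_sl_HA_iff`
DD S T A A * DD S T B C ≤ exp(-2k) DD S T A B * DD S T A C.  Divide by DD S T A B * DD S T A C > 0: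
nA A S T C x ≤ 8 exp(-2k) QA A x + 8 nA A S T B x, and FA(C) ≤ 9 QA + 8 exp(2k) nA(B) ≤ 9 FA(B).
(Permute the slots of DD with DD_s12, DD_s23, DD_s34.)
`FA_group`: change the letters B of the word to C one at a time (at most three times); the words
S T = two other letters, e.g. r = 1: BBB → BBC → BCC → CCC with S T = BB, BC, CC; r = 2: ABB → ABC → ACC
with S T = AB, AC; r = 3: AAB → AAC.  (FA is symmetric in P, Q, R.)
`gapA_of_group`: DD_pl gives DD S T B B * DD S T A C ≤ 16 DD S T B A * DD S T B C; multiply with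
DD S T A A * DD S T B C ≤ exp(-2k) DD S T A B * DD S T A C and cancel; S T = BB, AB, AA for r = 1, 2, 3.
-/

set_option autoImplicit false

namespace RapidDecay

variable {𝕜 : Type*} [RCLike 𝕜]

theorem C7_front {p q r s : ℕ} (a : Fin p → Fin 4 → 𝕜) (b : Fin q → Fin 4 → 𝕜)
    (c : Fin r → Fin 4 → 𝕜) (d : Fin s → Fin 4 → 𝕜) : DD a b c d = DD b c a d := by
  rw [DD_s12, DD_s23]

theorem C7_nA (A S T B : GL (Fin 4) 𝕜) (x : Fin 4 → 𝕜) :
    nA A (fr S) (fr T) (fr B) x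
      = DD (fr S) (fr T) (vec1 x) (fr B) / DD (fr S) (fr T) (fr A) (fr B) := by
  unfold nA
  rw [C7_front (vec1 x), C7_front (fr A)]

theorem C7_nA_nonneg (A S T B : GL (Fin 4) 𝕜) (x : Fin 4 → 𝕜) :
    0 ≤ nA A (fr S) (fr T) (fr B) x :=
  div_nonneg (DD_nonneg _ _ _ _) (DD_nonneg _ _ _ _)

theorem FA_step {A B C S T : GL (Fin 4) 𝕜} {k : ℕ} (h : (k : ℝ) ≤ sl HA A B C S T)
    (x : Fin 4 → 𝕜) :
    FA k A (fr S) (fr T) (fr C) x ≤ 9 * FA k A (fr S) (fr T) (fr B) x := by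
  have hsl := (le_sl_HA_iff A B C S T (k : ℝ)).1 h
  have hpl := DD_pl (fr S) (fr T) (vec1 x) (fr C) (fr A) (fr B)
  have hv : DD (fr S) (fr T) (vec1 x) (fr A) ≤ QA A x * DD (fr S) (fr T) (fr A) (fr A) := by
    have h1 := DD_vec_le A x (fr S) (fr T) (fr A)
    rw [C7_front (vec1 x), C7_front (fr A) (fr S)] at h1
    exact h1
  have hQ : 0 ≤ QA A x := QA_nonneg A x
  have hAB : 0 < DD (fr S) (fr T) (fr A) (fr B) := DD_pos S T A B
  have hAC : 0 < DD (fr S) (fr T) (fr A) (fr C) := DD_pos S T A C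
  have hCB : 0 ≤ DD (fr S) (fr T) (fr B) (fr C) := DD_nonneg _ _ _ _
  have hxB : 0 ≤ DD (fr S) (fr T) (vec1 x) (fr B) := DD_nonneg _ _ _ _
  rw [DD_s34 (fr S) (fr T) (fr C) (fr B), DD_s34 (fr S) (fr T) (fr C) (fr A)] at hpl
  have hE : 0 < Real.exp (-(2 * (k : ℝ))) := Real.exp_pos _
  have hEE : Real.exp (2 * (k : ℝ)) * Real.exp (-(2 * (k : ℝ))) = 1 := by
    rw [← Real.exp_add, add_neg_cancel, Real.exp_zero]
  have hE2 : 0 < Real.exp (2 * (k : ℝ)) := Real.exp_pos _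
  unfold FA
  rw [C7_nA, C7_nA]
  generalize Real.exp (-(2 * (k : ℝ))) = E at *
  generalize Real.exp (2 * (k : ℝ)) = F at *
  generalize DD (fr S) (fr T) (fr A) (fr B) = AB at *
  generalize DD (fr S) (fr T) (fr A) (fr C) = AC at *
  generalize DD (fr S) (fr T) (fr B) (fr C) = BC at *
  generalize DD (fr S) (fr T) (fr A) (fr A) = aa at *
  generalize DD (fr S) (fr T) (vec1 x) (fr A) = xA at *
  generalize DD (fr S) (fr T) (vec1 x) (fr B) = xB at *
  generalize DD (fr S) (fr T) (vec1 x) (fr C) = xC at *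
  generalize QA A x = Q at *
  have h1 : xC * AB ≤ 8 * (Q * E * AB * AC + xB * AC) := by
    have h2 : xA * BC ≤ Q * (E * (AB * AC)) := by
      calc xA * BC ≤ Q * aa * BC := mul_le_mul_of_nonneg_right hv hCB
        _ = Q * (aa * BC) := by ring
        _ ≤ Q * (E * (AB * AC)) := mul_le_mul_of_nonneg_left hsl hQ
    nlinarith [h2, hpl]
  have h3 : xC / AC ≤ 8 * Q * E + 8 * (xB / AB) := by
    rw [div_le_iff₀ hAC]
    have h4 : xC ≤ 8 * (Q * E * AB * AC + xB * AC) / AB := by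
      rw [le_div_iff₀ hAB]; exact h1
    calc xC ≤ 8 * (Q * E * AB * AC + xB * AC) / AB := h4
      _ = (8 * Q * E + 8 * (xB / AB)) * AC := by
        field_simp
  have h5 : F * (xC / AC) ≤ 8 * Q + 8 * (F * (xB / AB)) := by
    calc F * (xC / AC) ≤ F * (8 * Q * E + 8 * (xB / AB)) := mul_le_mul_of_nonneg_left h3 hE2.le
      _ = 8 * Q * (F * E) + 8 * (F * (xB / AB)) := by ring
      _ = 8 * Q + 8 * (F * (xB / AB)) := by rw [hEE, mul_one]
  have h6 : 0 ≤ F * (xB / AB) := by positivity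
  linarith

theorem C7_FA_12 (k : ℕ) (A P Q R : GL (Fin 4) 𝕜) (x : Fin 4 → 𝕜) :
    FA k A (fr P) (fr Q) (fr R) x = FA k A (fr Q) (fr P) (fr R) x := by
  unfold FA nA
  rw [DD_s23 (vec1 x), DD_s23 (fr A)]

theorem C7_FA_23 (k : ℕ) (A P Q R : GL (Fin 4) 𝕜) (x : Fin 4 → 𝕜) :
    FA k A (fr P) (fr Q) (fr R) x = FA k A (fr P) (fr R) (fr Q) x := by
  unfold FA nA
  rw [DD_s34 (vec1 x), DD_s34 (fr A)]

theorem C7_FA_nonneg (k : ℕ) (A P Q R : GL (Fin 4) 𝕜) (x : Fin 4 → 𝕜) :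
    0 ≤ FA k A (fr P) (fr Q) (fr R) x :=
  add_nonneg (QA_nonneg A x) (mul_nonneg (Real.exp_pos _).le (C7_nA_nonneg A P Q R x))

theorem C7_min1 {a b c k : ℝ} (h : k ≤ min a (min b c)) : k ≤ a ∧ k ≤ b ∧ k ≤ c :=
  ⟨le_trans h (min_le_left _ _), le_trans h (le_trans (min_le_right _ _) (min_le_left _ _)),
    le_trans h (le_trans (min_le_right _ _) (min_le_right _ _))⟩

theorem C7_group1 {A B C : GL (Fin 4) 𝕜} {k : ℝ} (h : GroupGe HA A B C 1 k) :
    k ≤ sl HA A B C B B ∧ k ≤ sl HA A B C B C ∧ k ≤ sl HA A B C C C := by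
  rcases h with h | h | h
  · exact C7_min1 h.2
  · exact absurd h.1 (by norm_num)
  · exact absurd h.1 (by norm_num)

theorem C7_group2 {A B C : GL (Fin 4) 𝕜} {k : ℝ} (h : GroupGe HA A B C 2 k) :
    k ≤ sl HA A B C A B ∧ k ≤ sl HA A B C A C := by
  rcases h with h | h | h
  · exact absurd h.1 (by norm_num)
  · exact ⟨le_trans h.2 (min_le_left _ _), le_trans h.2 (min_le_right _ _)⟩
  · exact absurd h.1 (by norm_num)

theorem C7_group3 {A B C : GL (Fin 4) 𝕜} {k : ℝ} (h : GroupGe HA A B C 3 k) :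
    k ≤ sl HA A B C A A := by
  rcases h with h | h | h
  · exact absurd h.1 (by norm_num)
  · exact absurd h.1 (by norm_num)
  · exact h.2

theorem FA_group {A B C : GL (Fin 4) 𝕜} {r k : ℕ} (h : GroupGe HA A B C r k) (x : Fin 4 → 𝕜) :
    (r = 1 → ∀ P Q R : GL (Fin 4) 𝕜, (P = B ∨ P = C) → (Q = B ∨ Q = C) → (R = B ∨ R = C) →
      FA k A (fr P) (fr Q) (fr R) x ≤ 729 * FA k A (fr B) (fr B) (fr B) x) ∧
    (r = 2 → ∀ Q R : GL (Fin 4) 𝕜, (Q = B ∨ Q = C) → (R = B ∨ R = C) →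
      FA k A (fr A) (fr Q) (fr R) x ≤ 729 * FA k A (fr A) (fr B) (fr B) x) ∧
    (r = 3 → ∀ R : GL (Fin 4) 𝕜, (R = B ∨ R = C) →
      FA k A (fr A) (fr A) (fr R) x ≤ 729 * FA k A (fr A) (fr A) (fr B) x) := by
  refine ⟨fun hr => ?_, fun hr => ?_, fun hr => ?_⟩
  · subst hr
    obtain ⟨e1, e2, e3⟩ := C7_group1 h
    have s1 := FA_step e1 x
    have s2 := FA_step e2 x
    have s3 := FA_step e3 x
    have n0 := C7_FA_nonneg k A B B B x
    have p1 := C7_FA_23 k A B C B x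
    have q1 := C7_FA_12 k A C B B x
    have q2 := C7_FA_12 k A C B C x
    have q3 := C7_FA_23 k A C C B x
    intro P Q R hP hQ hR
    rcases hP with rfl | rfl <;> rcases hQ with rfl | rfl <;> rcases hR with rfl | rfl <;> linarith
  · subst hr
    obtain ⟨e1, e2⟩ := C7_group2 h
    have s1 := FA_step e1 x
    have s2 := FA_step e2 x
    have n0 := C7_FA_nonneg k A A B B x
    have p1 := C7_FA_23 k A A C B x
    intro Q R hQ hR
    rcases hQ with rfl | rfl <;> rcases hR with rfl | rfl <;> linarith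
  · subst hr
    have s1 := FA_step (C7_group3 h) x
    have n0 := C7_FA_nonneg k A A A B x
    intro R hR
    rcases hR with rfl | rfl <;> linarith

theorem C7_sl_swap (A B C S T : GL (Fin 4) 𝕜) : sl HA A C B S T = sl HA A B C S T := by
  unfold sl
  rw [HA_hive.s34 S T C B]
  ring

theorem C7_sl_swap' (A B C S T : GL (Fin 4) 𝕜) : sl HA A B C T S = sl HA A B C S T := by
  unfold sl
  rw [HA_hive.s12 T S A A, HA_hive.s12 T S B C, HA_hive.s12 T S A B, HA_hive.s12 T S A C]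

/-- the group condition is symmetric in the two other vertices -/
theorem GroupGe_swap {A B C : GL (Fin 4) 𝕜} {r k : ℕ} (h : GroupGe HA A B C r k) :
    GroupGe HA A C B r k := by
  have hr : r = 1 ∨ r = 2 ∨ r = 3 := by
    rcases h with h | h | h
    · exact Or.inl h.1
    · exact Or.inr (Or.inl h.1)
    · exact Or.inr (Or.inr h.1)
  rcases hr with hr | hr | hr
  · subst hr
    obtain ⟨e1, e2, e3⟩ := C7_group1 h
    left
    refine ⟨rfl, ?_⟩
    unfold gm1
    rw [C7_sl_swap A B C C C, C7_sl_swap A B C C B, C7_sl_swap A B C B B, C7_sl_swap' A B C B C]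
    exact le_min e3 (le_min e2 e1)
  · subst hr
    obtain ⟨e1, e2⟩ := C7_group2 h
    right
    left
    refine ⟨rfl, ?_⟩
    unfold gm2
    rw [C7_sl_swap A B C A C, C7_sl_swap A B C A B]
    exact le_min e2 e1
  · subst hr
    right
    right
    refine ⟨rfl, ?_⟩
    unfold gm3
    rw [C7_sl_swap A B C A A]
    exact C7_group3 h

theorem C7_gap {A B C S T : GL (Fin 4) 𝕜} {k : ℝ} (h : k ≤ sl HA A B C S T) :
    DD (fr S) (fr T) (fr A) (fr A) * DD (fr S) (fr T) (fr B) (fr B)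
      ≤ 16 * Real.exp (-(2 * k)) * DD (fr S) (fr T) (fr A) (fr B) ^ 2 := by
  have hsl := (le_sl_HA_iff A B C S T k).1 h
  have hpl := DD_pl (fr S) (fr T) (fr B) (fr B) (fr A) (fr C)
  have hAB : 0 < DD (fr S) (fr T) (fr A) (fr B) := DD_pos S T A B
  have hAC : 0 < DD (fr S) (fr T) (fr A) (fr C) := DD_pos S T A C
  have hBC : 0 < DD (fr S) (fr T) (fr B) (fr C) := DD_pos S T B C
  have hAA : 0 < DD (fr S) (fr T) (fr A) (fr A) := DD_pos S T A A
  have hBB : 0 < DD (fr S) (fr T) (fr B) (fr B) := DD_pos S T B B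
  rw [DD_s34 (fr S) (fr T) (fr B) (fr A)] at hpl
  have hE : 0 < Real.exp (-(2 * k)) := Real.exp_pos _
  generalize Real.exp (-(2 * k)) = E at *
  generalize DD (fr S) (fr T) (fr A) (fr B) = AB at *
  generalize DD (fr S) (fr T) (fr A) (fr C) = AC at *
  generalize DD (fr S) (fr T) (fr B) (fr C) = BC at *
  generalize DD (fr S) (fr T) (fr A) (fr A) = aa at *
  generalize DD (fr S) (fr T) (fr B) (fr B) = BB at *
  have h1 : (BB * AC) * (aa * BC) ≤ (16 * (AB * BC)) * (E * (AB * AC)) := by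
    apply mul_le_mul
    · linarith
    · exact hsl
    · positivity
    · positivity
  have h2 : (aa * BB) * (AC * BC) ≤ (16 * E * AB ^ 2) * (AC * BC) := by
    calc (aa * BB) * (AC * BC) = (BB * AC) * (aa * BC) := by ring
      _ ≤ (16 * (AB * BC)) * (E * (AB * AC)) := h1
      _ = (16 * E * AB ^ 2) * (AC * BC) := by ring
  exact le_of_mul_le_mul_right h2 (mul_pos hAC hBC)

theorem gapA_of_group {A B C : GL (Fin 4) 𝕜} {r k : ℕ} (h : GroupGe HA A B C r k) :
    GapA r k A B := by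
  refine ⟨fun hr => ?_, fun hr => ?_, fun hr => ?_⟩
  · subst hr
    have h1 := C7_gap (C7_group1 h).1
    rw [← C7_front (fr A) (fr B) (fr B) (fr B)] at h1
    have e1 : DD (fr B) (fr B) (fr A) (fr A) = DD (fr A) (fr A) (fr B) (fr B) := by
      rw [DD_s23 (fr B) (fr B), DD_s12 (fr B) (fr A), DD_s34 (fr A) (fr B) (fr B),
        DD_s23 (fr A) (fr B) (fr A)]
    rw [e1] at h1
    exact h1
  · subst hr
    have h1 := C7_gap (C7_group2 h).1
    have e1 : DD (fr A) (fr B) (fr A) (fr A) = DD (fr A) (fr A) (fr A) (fr B) := by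
      rw [DD_s23 (fr A) (fr B), DD_s34 (fr A) (fr A) (fr B)]
    have e2 : DD (fr A) (fr B) (fr A) (fr B) = DD (fr A) (fr A) (fr B) (fr B) := by
      rw [DD_s23 (fr A) (fr B)]
    rw [e1, e2] at h1
    exact h1
  · subst hr
    exact C7_gap (C7_group3 h)

end RapidDecay
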