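import Pool.Agent.Lib.MP_fee02f_an.AR.C7

/-!
C8: the moved frames towards `B` and towards `C` are near; upper bound for determinants (30 min).

PROOFS. `MvA_near`: QA M x ≤ 12 FA_B x ≤ 12 * 729 FA_C x ≤ 12 * 729 * 65 QA M' x, where FA_B, FA_C are the forms
for the words BBB/ABB/AAB and CCC/ACC/AAC (QA_le_FA, FA_group for (A,C,B) by GroupGe_swap,
FA_le_QA with gapA_of_group), and symmetrically; then dst_le_of_QA.
`MvA_up`: DD M P Q R = ∑_j DD (vec1 (fr M j)) P Q R (DD_eq_sum) = ∑_j nA A P Q R (fr M j) * DD A P Q R and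
exp(2k) nA ≤ FA k A P Q R (fr M j) ≤ 729 FA_B ≤ 729 * 65 * QA M (fr M j) = 729 * 65 (QA_self);
4 * 729 * 65 = 189540.
-/

set_option autoImplicit false

namespace RapidDecay

variable {𝕜 : Type*} [RCLike 𝕜]

theorem c8_le {A B C M M' : GL (Fin 4) 𝕜} {r k : ℕ} (h : GroupGe HA A B C r k)
    (hM : MvA r k A B M) (hM' : MvA r k A C M') (x : Fin 4 → 𝕜) :
    QA M x ≤ 568620 * QA M' x := by
  have h' := GroupGe_swap h
  have hg := gapA_of_group h'
  obtain ⟨a1, a2, a3⟩ := QA_le_FA r k A B M hM x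
  obtain ⟨b1, b2, b3⟩ := FA_group h' x
  obtain ⟨c1, c2, c3⟩ := FA_le_QA r k A C M' hM' hg x
  rcases h with ⟨hr, _⟩ | ⟨hr, _⟩ | ⟨hr, _⟩
  · have a := a1 hr
    have b := b1 hr B B B (Or.inr rfl) (Or.inr rfl) (Or.inr rfl)
    have c := c1 hr
    linarith
  · have a := a2 hr
    have b := b2 hr B B (Or.inr rfl) (Or.inr rfl)
    have c := c2 hr
    linarith
  · have a := a3 hr
    have b := b3 hr B (Or.inr rfl)
    have c := c3 hr
    linarith

theorem MvA_near {A B C M M' : GL (Fin 4) 𝕜} {r k : ℕ} (h : GroupGe HA A B C r k)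
    (hM : MvA r k A B M) (hM' : MvA r k A C M') : dst HA M M' ≤ Real.log 568620 :=
  dst_le_of_QA M M' 568620 (by norm_num) (c8_le h hM hM') (c8_le (GroupGe_swap h) hM' hM)

theorem c8_up {A M P Q R : GL (Fin 4) 𝕜} {k : ℕ}
    (h : ∀ x, FA k A (fr P) (fr Q) (fr R) x ≤ 47385 * QA M x) :
    DD (fr M) (fr P) (fr Q) (fr R)
      ≤ 189540 * Real.exp (-(2 * k)) * DD (fr A) (fr P) (fr Q) (fr R) := by
  have hpos := DD_pos A P Q R
  have hE : Real.exp (-(2 * (k : ℝ))) * Real.exp (2 * (k : ℝ)) = 1 := by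
    rw [← Real.exp_add]
    simp
  have hE0 := Real.exp_pos (-(2 * (k : ℝ)))
  have key : ∀ j, DD (vec1 (fr M j)) (fr P) (fr Q) (fr R) ≤
      47385 * Real.exp (-(2 * (k : ℝ))) * DD (fr A) (fr P) (fr Q) (fr R) := by
    intro j
    have h1 := h (fr M j)
    rw [QA_self, FA, mul_one] at h1
    have h2 := QA_nonneg A (fr M j)
    have h3 : Real.exp (2 * (k : ℝ)) * nA A (fr P) (fr Q) (fr R) (fr M j) ≤ 47385 := by
      linarith
    have h4 := mul_le_mul_of_nonneg_left h3 hE0.le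
    rw [← mul_assoc, hE, one_mul] at h4
    have h5 := mul_le_mul_of_nonneg_right h4 hpos.le
    rw [nA, div_mul_cancel₀ _ hpos.ne'] at h5
    linarith
  rw [DD_eq_sum]
  have h6 := Finset.sum_le_sum (fun j (_ : j ∈ (Finset.univ : Finset (Fin 4))) => key j)
  rw [Finset.sum_const, Finset.card_univ, Fintype.card_fin, nsmul_eq_mul] at h6
  refine h6.trans (le_of_eq ?_)
  push_cast
  ring

theorem MvA_up {A B C M : GL (Fin 4) 𝕜} {r k : ℕ} (h : GroupGe HA A B C r k)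
    (hM : MvA r k A B M) :
    (r = 1 → ∀ P Q R : GL (Fin 4) 𝕜, (P = B ∨ P = C) → (Q = B ∨ Q = C) → (R = B ∨ R = C) →
      DD (fr M) (fr P) (fr Q) (fr R)
        ≤ 189540 * Real.exp (-(2 * k)) * DD (fr A) (fr P) (fr Q) (fr R)) ∧
    (r = 2 → ∀ Q R : GL (Fin 4) 𝕜, (Q = B ∨ Q = C) → (R = B ∨ R = C) →
      DD (fr M) (fr A) (fr Q) (fr R)
        ≤ 189540 * Real.exp (-(2 * k)) * DD (fr A) (fr A) (fr Q) (fr R)) ∧
    (r = 3 → ∀ R : GL (Fin 4) 𝕜, (R = B ∨ R = C) →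
      DD (fr M) (fr A) (fr A) (fr R)
        ≤ 189540 * Real.exp (-(2 * k)) * DD (fr A) (fr A) (fr A) (fr R)) := by
  have hg := gapA_of_group h
  refine ⟨?_, ?_, ?_⟩
  · intro hr P Q R hP hQ hR
    apply c8_up
    intro x
    have b := (FA_group h x).1 hr P Q R hP hQ hR
    have c := (FA_le_QA r k A B M hM hg x).1 hr
    linarith
  · intro hr Q R hQ hR
    rw [DD_s12 (fr M), DD_s12 (fr A) (fr A) (fr Q)]
    rw [DD_s12 (fr A) (fr M)]
    apply c8_up
    intro x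
    have b := (FA_group h x).2.1 hr Q R hQ hR
    have c := (FA_le_QA r k A B M hM hg x).2.1 hr
    linarith
  · intro hr R hR
    apply c8_up
    intro x
    have b := (FA_group h x).2.2 hr R hR
    have c := (FA_le_QA r k A B M hM hg x).2.2 hr
    linarith

end RapidDecay
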