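import Pool.Agent.Lib.MP_fee02f_an.AR.A0

/-!
T0: the line as an approximate (even exact) hive space (60 min).

PROOF. H a b c d = - max of the four numbers.  PL (error 0): with u = max s t and a' = max u a etc. it says
max a' b' + max c' d' ≤ max (max a' c' + max b' d') (max a' d' + max b' c'); say a' ≥ b', c' ≥ d': the left side is
a' + c' and max a' d' + max b' c' ≥ a' + c'; the other cases in the same way (or by cases with linarith).
Slacks are invariant under translations.  dst H a b = -a - b + 2 max a b = |a - b|.
Move: m = a - k for r = 1, m = a + k for r = 3, m = a otherwise (Mvr r k a b m := m = that).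
GroupGe r = 1: the slack at b b is max(a,b,c) - max(b,c) ≥ k, so a ≥ max(b,c) + k (or k = 0); a word with i letters a
has H = -a for i ≥ 1, after the move -a + k: all slacks change as required (exactly).
r = 2: the slack at a b is 0, so k = 0.  r = 3: the slack at a a is min(max a b, max a c) - a ≥ k, so a ≤ min(b,c) - k;
words with 1,2,3 letters a do not change, the word aaaa changes by -k, in accordance with the formula.
(In Lean: fin_cases u v w s t, then the maxima by `max_def` with split and linarith, or first rewrite the maxima using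
a ≥ b, a ≥ c, a - k ≥ b, a - k ≥ c resp. the opposite inequalities.)
near: exact (dst = 0).  cover: S = {a + j : j integer, |j| ≤ m + 1}, dst ≤ 1.  c = 1.
-/

set_option autoImplicit false

namespace RapidDecay

/-- action on the line through a homomorphism to the additive group of the reals -/
def lineAct.{u} {G : Type*} [Group G] (l : G →* Multiplicative ℝ) :
    MulAction G (ULift.{u} ℝ) where
  smul g t := ⟨Multiplicative.toAdd (l g) + t.down⟩
  one_smul t := by
    change (⟨Multiplicative.toAdd (l 1) + t.down⟩ : ULift ℝ) = t
    rw [map_one, toAdd_one, zero_add]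
  mul_smul g h t := by
    change (⟨Multiplicative.toAdd (l (g * h)) + t.down⟩ : ULift ℝ)
      = ⟨Multiplicative.toAdd (l g) + (Multiplicative.toAdd (l h) + t.down)⟩
    rw [map_mul, toAdd_mul, add_assoc]

/-- the maximum of four numbers -/
noncomputable def t0M (a b c d : ℝ) : ℝ := max (max a b) (max c d)

theorem t0M_le {a b c d x : ℝ} : t0M a b c d ≤ x ↔ (a ≤ x ∧ b ≤ x) ∧ c ≤ x ∧ d ≤ x := by
  unfold t0M
  rw [max_le_iff, max_le_iff, max_le_iff]

theorem t0M_1 (a b c d : ℝ) : a ≤ t0M a b c d := (t0M_le.1 le_rfl).1.1
theorem t0M_2 (a b c d : ℝ) : b ≤ t0M a b c d := (t0M_le.1 le_rfl).1.2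
theorem t0M_3 (a b c d : ℝ) : c ≤ t0M a b c d := (t0M_le.1 le_rfl).2.1
theorem t0M_4 (a b c d : ℝ) : d ≤ t0M a b c d := (t0M_le.1 le_rfl).2.2

theorem t0M_add (x a b c d : ℝ) : t0M (x + a) (x + b) (x + c) (x + d) = x + t0M a b c d := by
  unfold t0M
  rw [max_add_add_left, max_add_add_left, max_add_add_left]

/-- the hive function of the line -/
noncomputable def t0H.{u} (a b c d : ULift.{u} ℝ) : ℝ := -(t0M a.down b.down c.down d.down)

theorem t0_hive.{u} : AHive 1 t0H.{u} where
  s12 := by
    intro a b c d
    unfold t0H t0M
    rw [max_comm a.down b.down]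
  s23 := by
    intro a b c d
    unfold t0H
    congr 1
    apply le_antisymm <;> rw [t0M_le] <;>
      exact ⟨⟨t0M_1 _ _ _ _, t0M_3 _ _ _ _⟩, t0M_2 _ _ _ _, t0M_4 _ _ _ _⟩
  s34 := by
    intro a b c d
    unfold t0H t0M
    rw [max_comm c.down d.down]
  pl := by
    intro s t a b c d
    unfold t0H
    obtain ⟨M, hM⟩ : ∃ M, M = max s.down t.down := ⟨_, rfl⟩
    have h : ∀ x y : ℝ, t0M s.down t.down x y = max (max M x) (max M y) := by
      intro x y
      apply le_antisymm
      · rw [t0M_le]
        refine ⟨⟨?_, ?_⟩, ?_, ?_⟩
        · exact (le_max_left _ _).trans ((hM.symm.le.trans (le_max_left M x)).trans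
            (le_max_left _ _))
        · exact (le_max_right _ _).trans ((hM.symm.le.trans (le_max_left M x)).trans
            (le_max_left _ _))
        · exact (le_max_right M x).trans (le_max_left _ _)
        · exact (le_max_right M y).trans (le_max_right _ _)
      · have hMle : M ≤ t0M s.down t.down x y := by
          rw [hM]
          exact max_le (t0M_1 _ _ _ _) (t0M_2 _ _ _ _)
        exact max_le (max_le hMle (t0M_3 _ _ _ _)) (max_le hMle (t0M_4 _ _ _ _))
    rw [h, h, h, h, h, h]
    generalize max M a.down = A
    generalize max M b.down = B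
    generalize max M c.down = C
    generalize max M d.down = D
    have a1 := le_max_left A C
    have a2 := le_max_right A C
    have a3 := le_max_left B D
    have a4 := le_max_right B D
    have a5 := le_max_left A D
    have a6 := le_max_right A D
    have a7 := le_max_left B C
    have a8 := le_max_right B C
    have m1 := min_le_left (-(max A C) + -(max B D)) (-(max A D) + -(max B C))
    have m2 := min_le_right (-(max A C) + -(max B D)) (-(max A D) + -(max B C))
    rcases max_cases A B with h1 | h1 <;> rcases max_cases C D with h2 | h2 <;>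
      rw [h1.1, h2.1] <;> linarith

theorem t0_dst.{u} (a b : ULift.{u} ℝ) : dst t0H a b = |a.down - b.down| := by
  unfold dst t0H t0M
  simp only [max_self]
  rcases le_total a.down b.down with h | h
  · have e1 : max a.down b.down = b.down := max_eq_right h
    rw [e1, e1, max_self, abs_of_nonpos (by linarith)]
    ring
  · have e1 : max a.down b.down = a.down := max_eq_left h
    rw [e1, max_self, e1, abs_of_nonneg (by linarith)]
    ring

/-- words with the largest letter -/
theorem t0_big {p : Fin 3 → ℝ} (hp : ∀ i, p i ≤ p 0) {s t x y : Fin 3}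
    (h : s = 0 ∨ t = 0 ∨ x = 0 ∨ y = 0) : t0M (p s) (p t) (p x) (p y) = p 0 := by
  apply le_antisymm
  · rw [t0M_le]
    exact ⟨⟨hp _, hp _⟩, hp _, hp _⟩
  · rcases h with h | h | h | h
    · rw [h]; exact t0M_1 _ _ _ _
    · rw [h]; exact t0M_2 _ _ _ _
    · rw [h]; exact t0M_3 _ _ _ _
    · rw [h]; exact t0M_4 _ _ _ _

/-- words with a letter which is not the smallest one -/
theorem t0_small {p p' : Fin 3 → ℝ} (h0 : p 0 ≤ p' 0) (hp : ∀ i, i ≠ 0 → p' i = p i)
    (hp' : ∀ i, i ≠ 0 → p' 0 ≤ p i) {s t x y : Fin 3}
    (h : ¬(s = 0 ∧ t = 0 ∧ x = 0 ∧ y = 0)) :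
    t0M (p' s) (p' t) (p' x) (p' y) = t0M (p s) (p t) (p x) (p y) := by
  have hle : ∀ i, p i ≤ p' i := by
    intro i
    by_cases hi : i = 0
    · rw [hi]; exact h0
    · exact (hp i hi).ge
  apply le_antisymm
  · -- the letter which is not zero
    have h1 : p' 0 ≤ t0M (p s) (p t) (p x) (p y) := by
      by_cases hs : s = 0
      · by_cases ht : t = 0
        · by_cases hx : x = 0
          · by_cases hy : y = 0
            · exact absurd ⟨hs, ht, hx, hy⟩ h
            · exact (hp' y hy).trans (t0M_4 _ _ _ _)
          · exact (hp' x hx).trans (t0M_3 _ _ _ _)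
        · exact (hp' t ht).trans (t0M_2 _ _ _ _)
      · exact (hp' s hs).trans (t0M_1 _ _ _ _)
    have h2 : ∀ i, p i ≤ t0M (p s) (p t) (p x) (p y) →
        p' i ≤ t0M (p s) (p t) (p x) (p y) := by
      intro i hi
      by_cases h3 : i = 0
      · rw [h3]; exact h1
      · rw [hp i h3]; exact hi
    rw [t0M_le]
    exact ⟨⟨h2 _ (t0M_1 _ _ _ _), h2 _ (t0M_2 _ _ _ _)⟩, h2 _ (t0M_3 _ _ _ _),
      h2 _ (t0M_4 _ _ _ _)⟩
  · rw [t0M_le]
    exact ⟨⟨(hle _).trans (t0M_1 _ _ _ _), (hle _).trans (t0M_2 _ _ _ _)⟩,
      (hle _).trans (t0M_3 _ _ _ _), (hle _).trans (t0M_4 _ _ _ _)⟩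

/-- the slack in terms of the coordinates -/
theorem t0_tsl.{u} (q : Fin 3 → ULift.{u} ℝ) (u v w s t : Fin 3) :
    tsl t0H q (u, v, w, s, t) =
      -(t0M (q s).down (q t).down (q u).down (q u).down) +
      -(t0M (q s).down (q t).down (q v).down (q w).down) -
      -(t0M (q s).down (q t).down (q u).down (q v).down) -
      -(t0M (q s).down (q t).down (q u).down (q w).down) := rfl

theorem t0_one (k : ℝ) (u v w s t : Fin 3) (h1 : u ≠ v) (h2 : v ≠ w) (h3 : u ≠ w) :
    (if s = 0 ∨ t = 0 ∨ u = 0 ∨ u = 0 then k else 0) +
      (if s = 0 ∨ t = 0 ∨ v = 0 ∨ w = 0 then k else 0) -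
      (if s = 0 ∨ t = 0 ∨ u = 0 ∨ v = 0 then k else 0) -
      (if s = 0 ∨ t = 0 ∨ u = 0 ∨ w = 0 then k else 0) =
      -(if u = 0 ∧ (if s = 0 then 1 else 0) + (if t = 0 then 1 else 0) + 1 = 1 then k else 0) := by
  by_cases hs : s = 0 <;> by_cases ht : t = 0 <;> by_cases hu : u = 0 <;>
    by_cases hv : v = 0 <;> by_cases hw : w = 0 <;> simp_all

theorem t0_three (k : ℝ) (u v w s t : Fin 3) (h1 : u ≠ v) (h2 : v ≠ w) (h3 : u ≠ w) :
    (if s = 0 ∧ t = 0 ∧ u = 0 ∧ u = 0 then -k else 0) +
      (if s = 0 ∧ t = 0 ∧ v = 0 ∧ w = 0 then -k else 0) -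
      (if s = 0 ∧ t = 0 ∧ u = 0 ∧ v = 0 then -k else 0) -
      (if s = 0 ∧ t = 0 ∧ u = 0 ∧ w = 0 then -k else 0) =
      -(if u = 0 ∧ (if s = 0 then 1 else 0) + (if t = 0 then 1 else 0) + 1 = 3 then k else 0) := by
  by_cases hs : s = 0 <;> by_cases ht : t = 0 <;> by_cases hu : u = 0 <;>
    by_cases hv : v = 0 <;> by_cases hw : w = 0 <;> simp_all

/-- the move -/
def t0Mv.{u} (r k : ℕ) (a _b m : ULift.{u} ℝ) : Prop :=
  m.down = a.down + (if r = 1 then -(k : ℝ) else if r = 3 then (k : ℝ) else 0)

theorem t0_sl.{u} (r k : ℕ) (a b c m : ULift.{u} ℝ) (hg : GroupGe t0H a b c r k)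
    (hm : t0Mv r k a b m) (u v w s t : Fin 3) (h1 : u ≠ v) (h2 : v ≠ w) (h3 : u ≠ w) :
    tsl t0H ![m, b, c] (u, v, w, s, t) = tsl t0H ![a, b, c] (u, v, w, s, t) -
      (if u = 0 ∧ (if s = 0 then 1 else 0) + (if t = 0 then 1 else 0) + 1 = r
              then (k : ℝ) else 0) := by
  have hk0 : (0 : ℝ) ≤ (k : ℝ) := Nat.cast_nonneg k
  -- the trivial case
  have htriv : (k : ℝ) = 0 → tsl t0H ![m, b, c] (u, v, w, s, t) =
      tsl t0H ![a, b, c] (u, v, w, s, t) -
      (if u = 0 ∧ (if s = 0 then 1 else 0) + (if t = 0 then 1 else 0) + 1 = r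
              then (k : ℝ) else 0) := by
    intro hk
    have e : m = a := by
      apply ULift.ext
      unfold t0Mv at hm
      rw [hm, hk]
      simp
    rw [e, hk]
    simp
  have hq : ∀ i : Fin 3, i ≠ 0 → (![m, b, c] i).down = (![a, b, c] i).down := by
    intro i hi
    fin_cases i
    · exact absurd rfl hi
    · rfl
    · rfl
  rcases hg with ⟨hr, hg⟩ | ⟨hr, hg⟩ | ⟨hr, hg⟩
  · -- type one
    by_cases hk : (k : ℝ) = 0
    · exact htriv hk
    have hkp : 0 < (k : ℝ) := lt_of_le_of_ne hk0 (Ne.symm hk)
    have hsl : (k : ℝ) ≤ sl t0H a b c b b := hg.trans (min_le_left _ _)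
    have e1 : sl t0H a b c b b = max (max a.down b.down) (max a.down c.down) -
        max b.down (max b.down c.down) := by
      unfold sl t0H t0M
      simp only [max_self]
      have e2 : max b.down (max a.down b.down) = max a.down b.down :=
        max_eq_right (le_max_right _ _)
      have e3 : max b.down (max a.down c.down) = max (max a.down b.down) (max a.down c.down) := by
        apply le_antisymm
        · exact max_le ((le_max_right _ _).trans (le_max_left _ _)) (le_max_right _ _)
        · exact max_le (max_le ((le_max_left _ _).trans (le_max_right _ _)) (le_max_left _ _))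
            (le_max_right _ _)
      have e4 : max b.down a.down = max a.down b.down := max_comm _ _
      rw [e2, e3, e4]
      ring
    rw [e1] at hsl
    have hb1 := le_max_left b.down (max b.down c.down)
    have hb2 : c.down ≤ max b.down (max b.down c.down) :=
      (le_max_right b.down c.down).trans (le_max_right _ _)
    have hab : b.down + k ≤ a.down ∧ c.down + k ≤ a.down := by
      rcases max_cases (max a.down b.down) (max a.down c.down) with h4 | h4 <;>
        rw [h4.1] at hsl
      · rcases max_cases a.down b.down with h5 | h5 <;> rw [h5.1] at hsl <;>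
          constructor <;> linarith
      · rcases max_cases a.down c.down with h5 | h5 <;> rw [h5.1] at hsl <;>
          constructor <;> linarith
    have hmd : m.down = a.down - k := by
      unfold t0Mv at hm
      rw [hm, if_pos hr]
      ring
    have hword : ∀ x y z w : Fin 3,
        -(t0M (![m, b, c] x).down (![m, b, c] y).down (![m, b, c] z).down (![m, b, c] w).down) =
        -(t0M (![a, b, c] x).down (![a, b, c] y).down (![a, b, c] z).down (![a, b, c] w).down) +
          (if x = 0 ∨ y = 0 ∨ z = 0 ∨ w = 0 then (k : ℝ) else 0) := by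
      intro x y z w
      by_cases h : x = 0 ∨ y = 0 ∨ z = 0 ∨ w = 0
      · rw [if_pos h]
        have p1 : ∀ i : Fin 3, (![m, b, c] i).down ≤ (![m, b, c] 0).down := by
          intro i
          show (![m, b, c] i).down ≤ m.down
          fin_cases i
          · exact le_rfl
          · show b.down ≤ m.down
            linarith [hab.1]
          · show c.down ≤ m.down
            linarith [hab.2]
        have p2 : ∀ i : Fin 3, (![a, b, c] i).down ≤ (![a, b, c] 0).down := by
          intro i
          show (![a, b, c] i).down ≤ a.down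
          fin_cases i
          · exact le_rfl
          · show b.down ≤ a.down
            linarith [hab.1]
          · show c.down ≤ a.down
            linarith [hab.2]
        rw [t0_big (p := fun i => (![m, b, c] i).down) p1 h,
          t0_big (p := fun i => (![a, b, c] i).down) p2 h]
        show -m.down = -a.down + k
        rw [hmd]
        ring
      · rw [if_neg h, add_zero]
        push Not at h
        rw [hq x h.1, hq y h.2.1, hq z h.2.2.1, hq w h.2.2.2]
    rw [t0_tsl, t0_tsl, hword, hword, hword, hword, hr]
    have := t0_one (k : ℝ) u v w s t h1 h2 h3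
    linarith
  · -- type two
    have h4 : (k : ℝ) ≤ sl t0H a b c a b := hg.trans (min_le_left _ _)
    have h5 : sl t0H a b c a b = 0 := by
      unfold sl t0H t0M
      simp only [max_self]
      have e1 : max (max a.down b.down) a.down = max a.down b.down :=
        max_eq_left (le_max_left _ _)
      have e2 : max (max a.down b.down) (max b.down c.down) =
          max (max a.down b.down) (max a.down c.down) := by
        apply le_antisymm
        · exact max_le (le_max_left _ _) (max_le ((le_max_right _ _).trans (le_max_left _ _))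
            ((le_max_right _ _).trans (le_max_right _ _)))
        · exact max_le (le_max_left _ _) (max_le ((le_max_left _ _).trans (le_max_left _ _))
            ((le_max_right _ _).trans (le_max_right _ _)))
      rw [e1, e2]
      ring
    rw [h5] at h4
    exact htriv (le_antisymm h4 hk0)
  · -- type three
    by_cases hk : (k : ℝ) = 0
    · exact htriv hk
    have hkp : 0 < (k : ℝ) := lt_of_le_of_ne hk0 (Ne.symm hk)
    have hsl : (k : ℝ) ≤ sl t0H a b c a a := hg
    have e1 : sl t0H a b c a a = max a.down b.down + max a.down c.down - a.down -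
        max (max a.down b.down) (max a.down c.down) := by
      unfold sl t0H t0M
      simp only [max_self]
      have e2 : max a.down (max a.down b.down) = max a.down b.down :=
        max_eq_right (le_max_left _ _)
      have e2' : max a.down (max a.down c.down) = max a.down c.down :=
        max_eq_right (le_max_left _ _)
      have e3 : max a.down (max b.down c.down) = max (max a.down b.down) (max a.down c.down) := by
        apply le_antisymm
        · exact max_le ((le_max_left _ _).trans (le_max_left _ _))
            (max_le ((le_max_right _ _).trans (le_max_left _ _))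
              ((le_max_right _ _).trans (le_max_right _ _)))
        · exact max_le (max_le (le_max_left _ _) ((le_max_left _ _).trans (le_max_right _ _)))
            (max_le (le_max_left _ _) ((le_max_right _ _).trans (le_max_right _ _)))
      rw [e2, e2', e3]
      ring
    rw [e1] at hsl
    have hb1 := le_max_left (max a.down b.down) (max a.down c.down)
    have hb2 := le_max_right (max a.down b.down) (max a.down c.down)
    have hab : a.down + k ≤ b.down ∧ a.down + k ≤ c.down := by
      constructor
      · rcases max_cases a.down b.down with h5 | h5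
        · rw [h5.1] at hsl hb2
          linarith
        · rw [h5.1] at hsl hb2
          linarith
      · rcases max_cases a.down c.down with h5 | h5
        · rw [h5.1] at hsl hb1
          linarith
        · rw [h5.1] at hsl hb1
          linarith
    have hmd : m.down = a.down + k := by
      unfold t0Mv at hm
      rw [hm, hr]
      norm_num
    have hword : ∀ x y z w : Fin 3,
        -(t0M (![m, b, c] x).down (![m, b, c] y).down (![m, b, c] z).down (![m, b, c] w).down) =
        -(t0M (![a, b, c] x).down (![a, b, c] y).down (![a, b, c] z).down (![a, b, c] w).down) +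
          (if x = 0 ∧ y = 0 ∧ z = 0 ∧ w = 0 then -(k : ℝ) else 0) := by
      intro x y z w
      by_cases h : x = 0 ∧ y = 0 ∧ z = 0 ∧ w = 0
      · rw [if_pos h, h.1, h.2.1, h.2.2.1, h.2.2.2]
        show -(t0M m.down m.down m.down m.down) = -(t0M a.down a.down a.down a.down) + -k
        unfold t0M
        simp only [max_self]
        rw [hmd]
        ring
      · rw [if_neg h, add_zero]
        congr 1
        apply t0_small (p := fun i => (![a, b, c] i).down) (p' := fun i => (![m, b, c] i).down)
          _ hq _ h
        · show a.down ≤ m.down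
          linarith
        · intro i hi
          show m.down ≤ (![a, b, c] i).down
          fin_cases i
          · exact absurd rfl hi
          · show m.down ≤ b.down
            linarith [hab.1]
          · show m.down ≤ c.down
            linarith [hab.2]
    rw [t0_tsl, t0_tsl, hword, hword, hword, hword, hr]
    have := t0_three (k : ℝ) u v w s t h1 h2 h3
    linarith

theorem exists_lineSpace.{u} {G : Type*} [Group G] (l : G →* Multiplicative ℝ) :
    ∃ S : @AHSpace G (ULift.{u} ℝ) _ (lineAct l), ∀ a b : ULift.{u} ℝ,
      dst (@AHSpace.H G (ULift.{u} ℝ) _ (lineAct l) S) a b = |a.down - b.down| := by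
  let A : MulAction G (ULift.{u} ℝ) := lineAct l
  have hsm : ∀ (g : G) (a : ULift.{u} ℝ), (g • a).down = Multiplicative.toAdd (l g) + a.down :=
    fun g a => rfl
  refine ⟨
    { H := t0H
      c := 1
      hive := t0_hive
      inv := ?_
      Mvr := t0Mv
      Mvr_smul := ?_
      Mvr_ex := ?_
      Mvr_near := ?_
      Mvr_sl := ?_
      cover := ?_ }, t0_dst⟩
  · intro g a b b' s t
    have h : ∀ x y z w : ULift.{u} ℝ, t0H (g • x) (g • y) (g • z) (g • w) =
        -(Multiplicative.toAdd (l g)) + t0H x y z w := by
      intro x y z w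
      unfold t0H
      rw [hsm, hsm, hsm, hsm, t0M_add]
      ring
    unfold sl
    rw [h, h, h, h]
    ring
  · intro g r k a b m hm
    unfold t0Mv at hm ⊢
    rw [hsm, hsm, hm]
    ring
  · intro r k a b
    exact ⟨⟨a.down + (if r = 1 then -(k : ℝ) else if r = 3 then (k : ℝ) else 0)⟩, rfl⟩
  · intro r k a b b' m m' _ hm hm'
    unfold t0Mv at hm hm'
    rw [t0_dst, hm, hm', sub_self, abs_zero]
    exact zero_le_one
  · intro r k a b b' m hg hm u v w s t h1 h2 h3
    rw [t0_sl r k a b b' m hg hm u v w s t h1 h2 h3, sub_self, abs_zero]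
    exact zero_le_one
  · refine ⟨4, ?_⟩
    intro a m
    classical
    refine ⟨(Finset.Icc (-((m : ℤ) + 1)) ((m : ℤ) + 1)).image
      (fun j : ℤ => (⟨a.down + j⟩ : ULift.{u} ℝ)), ?_, ?_⟩
    · refine Finset.card_image_le.trans ?_
      rw [Int.card_Icc]
      have e : ((m : ℤ) + 1 + 1 - -((m : ℤ) + 1)).toNat = 2 * m + 3 := by omega
      rw [e]
      have h : ∀ m : ℕ, 2 * m + 3 ≤ 4 ^ (m + 1) := by
        intro m
        induction m with
        | zero => norm_num
        | succ n ih =>
          rw [pow_succ]
          omega
      exact h m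
    · intro b hb
      rw [t0_dst] at hb
      have hb' := abs_le.1 hb
      refine ⟨⟨a.down + ((⌊b.down - a.down⌋ : ℤ) : ℝ)⟩, ?_, ?_⟩
      · rw [Finset.mem_image]
        refine ⟨⌊b.down - a.down⌋, ?_, rfl⟩
        rw [Finset.mem_Icc]
        constructor
        · apply Int.le_floor.2
          push_cast
          linarith
        · have h1 := Int.floor_le (b.down - a.down)
          have h2 : ((⌊b.down - a.down⌋ : ℤ) : ℝ) ≤ ((m : ℤ) : ℝ) := by
            push_cast
            linarith
          have h3 : ⌊b.down - a.down⌋ ≤ (m : ℤ) := by exact_mod_cast h2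
          linarith
      · rw [t0_dst]
        have h1 := Int.floor_le (b.down - a.down)
        have h2 := Int.lt_floor_add_one (b.down - a.down)
        show |a.down + ((⌊b.down - a.down⌋ : ℤ) : ℝ) - b.down| ≤ 1
        rw [abs_le]
        constructor <;> linarith

end RapidDecay
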