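import Pool.Agent.Lib.MP_fee02f_an.AR.A0

/-!
T1: finite products of groups with `AdmA` (60 min).  Compare the landed file A2.lean.

PROOF. Take the disjoint union of the finite families of spaces, each with the action through the projection
(`AHSpace.comap`).  Every dst is ≥ -3 c (RDA.dst_ge), so if the total sum is ≤ R, the partial sum over the spaces of the
factor i is ≤ R + (sum of the 3 |c|) =: R_i; take K = ∏ K_i, N = ∏ N_i, h = (h_i), s = the product of the s_i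
(`Fintype.piFinset`, `Finset.product`).  Compact neighbourhoods: products.
-/

set_option autoImplicit false

namespace RapidDecay

/-- restriction of the group -/
def AHSpace.comap {G G' P : Type*} [Group G] [Group G'] [MulAction G P] [MulAction G' P]
    (φ : G' → G) (h : ∀ (g : G') (x : P), g • x = φ g • x) (S : AHSpace G P) : AHSpace G' P where
  H := S.H
  c := S.c
  hive := S.hive
  inv := by
    intro g a b b' s t
    rw [h, h, h, h, h]
    exact S.inv (φ g) a b b' s t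
  Mvr := S.Mvr
  Mvr_smul := by
    intro g r k a b m hm
    rw [h, h, h]
    exact S.Mvr_smul (φ g) r k a b m hm
  Mvr_ex := S.Mvr_ex
  Mvr_near := S.Mvr_near
  Mvr_sl := S.Mvr_sl
  cover := S.cover

theorem t1_sum {ι : Type} [Fintype ι] {κ : ι → Type} [∀ i, Fintype (κ i)]
    (d c : (Σ i, κ i) → ℝ) (hd : ∀ p, -(3 * c p) ≤ d p) (hc : ∀ p, 0 ≤ c p) {R : ℝ}
    (h : ∑ p, d p ≤ R) (i : ι) : ∑ k, d ⟨i, k⟩ ≤ R + ∑ p, 3 * c p := by
  have h1 : ∑ k, d ⟨i, k⟩ ≤ ∑ k, (d ⟨i, k⟩ + 3 * c ⟨i, k⟩) :=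
    Finset.sum_le_sum fun k _ => by linarith [hc ⟨i, k⟩]
  have h2 : ∑ k, (d ⟨i, k⟩ + 3 * c ⟨i, k⟩) ≤ ∑ j, ∑ k, (d ⟨j, k⟩ + 3 * c ⟨j, k⟩) :=
    Finset.single_le_sum (f := fun j => ∑ k, (d ⟨j, k⟩ + 3 * c ⟨j, k⟩))
      (fun j _ => Finset.sum_nonneg fun k _ => by linarith [hd ⟨j, k⟩]) (Finset.mem_univ i)
  have h3 : ∑ j, ∑ k, (d ⟨j, k⟩ + 3 * c ⟨j, k⟩) = ∑ p, (d p + 3 * c p) :=
    (Fintype.sum_sigma (fun p => d p + 3 * c p)).symm
  have h4 : ∑ p, (d p + 3 * c p) = ∑ p, d p + ∑ p, 3 * c p := Finset.sum_add_distrib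
  rw [h3, h4] at h2
  linarith

theorem AdmA.pi.{u, w} {ι : Type} [Fintype ι] (G : ι → Type w) [∀ i, Group (G i)]
    [∀ i, TopologicalSpace (G i)] (hG : ∀ i, AdmA.{u, w} (G i)) : AdmA.{u, w} (∀ i, G i) := by
  classical
  unfold AdmA at hG
  choose hloc κ fκ P aP S hne hK using hG
  have hc : ∀ p : Σ i, κ i, 0 ≤ (S p.1 p.2).c := fun p =>
    RDA.err_nonneg (S p.1 p.2).hive (hne p.1 p.2).some
  let aP' : ∀ p : Σ i, κ i, MulAction (∀ i, G i) (P p.1 p.2) := fun p =>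
    MulAction.compHom (P p.1 p.2) (Pi.evalMonoidHom G p.1)
  refine ⟨?_, Σ i, κ i, inferInstance, fun p => P p.1 p.2, aP', fun p =>
    AHSpace.comap (fun g : (∀ i, G i) => g p.1) (fun g x => rfl) (S p.1 p.2),
    fun p => hne p.1 p.2, ?_⟩
  · choose K hKn hKc using hloc
    refine ⟨Set.pi Set.univ K, ?_, isCompact_univ_pi hKc⟩
    exact set_pi_mem_nhds Set.finite_univ fun i _ => hKn i
  · intro R
    have h1 := fun i => hK i (R + ∑ p : Σ i, κ i, 3 * (S p.1 p.2).c)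
    choose K N hKc hKN using h1
    refine ⟨Set.pi Set.univ K, ∏ i, N i, isCompact_univ_pi hKc, ?_⟩
    intro u
    have h2 := fun i => hKN i (fun k => u ⟨i, k⟩)
    choose h s hs hg using h2
    refine ⟨h, Fintype.piFinset s, ?_, ?_⟩
    · rw [Fintype.card_piFinset]
      exact Finset.prod_le_prod' fun i _ => hs i
    · intro g hle
      have h3 : ∀ i, ∃ t ∈ s i, (h i)⁻¹ * (t⁻¹ * g i) * h i ∈ K i := by
        intro i
        apply hg i
        exact t1_sum (fun p : Σ i, κ i => dst (S p.1 p.2).H (u p) (g p.1 • u p))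
          (fun p => (S p.1 p.2).c) (fun p => RDA.dst_ge (S p.1 p.2).hive _ _) hc hle i
      choose t ht htK using h3
      refine ⟨t, Fintype.mem_piFinset.2 ht, ?_⟩
      intro i _
      exact htK i

theorem AdmA.prod.{u, w} {G H : Type w} [Group G] [TopologicalSpace G] [Group H]
    [TopologicalSpace H] (hG : AdmA.{u, w} G) (hH : AdmA.{u, w} H) : AdmA.{u, w} (G × H) := by
  classical
  obtain ⟨⟨K1, hKn1, hKc1⟩, κ1, fκ1, P1, aP1, S1, hne1, hK1⟩ := hG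
  obtain ⟨⟨K2, hKn2, hKc2⟩, κ2, fκ2, P2, aP2, S2, hne2, hK2⟩ := hH
  have hc1 : ∀ p : κ1, 0 ≤ (S1 p).c := fun p => RDA.err_nonneg (S1 p).hive (hne1 p).some
  have hc2 : ∀ p : κ2, 0 ≤ (S2 p).c := fun p => RDA.err_nonneg (S2 p).hive (hne2 p).some
  let bP1 : ∀ k, MulAction (G × H) (P1 k) := fun k =>
    MulAction.compHom (P1 k) (MonoidHom.fst G H)
  let bP2 : ∀ k, MulAction (G × H) (P2 k) := fun k =>
    MulAction.compHom (P2 k) (MonoidHom.snd G H)
  let bP : ∀ k : κ1 ⊕ κ2, MulAction (G × H) (Sum.elim P1 P2 k) := fun k =>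
    Sum.rec (motive := fun k => MulAction (G × H) (Sum.elim P1 P2 k)) bP1 bP2 k
  let bS : ∀ k : κ1 ⊕ κ2, AHSpace (G × H) (Sum.elim P1 P2 k) := fun k =>
    Sum.rec (motive := fun k => AHSpace (G × H) (Sum.elim P1 P2 k))
      (fun k => AHSpace.comap (P := P1 k) (fun g : G × H => g.1) (fun g x => rfl) (S1 k))
      (fun k => AHSpace.comap (P := P2 k) (fun g : G × H => g.2) (fun g x => rfl) (S2 k)) k
  refine ⟨⟨K1 ×ˢ K2, prod_mem_nhds hKn1 hKn2, hKc1.prod hKc2⟩, κ1 ⊕ κ2, inferInstance,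
    Sum.elim P1 P2, bP, bS, ?_, ?_⟩
  · intro k
    match k with
    | Sum.inl k => exact hne1 k
    | Sum.inr k => exact hne2 k
  · intro R
    obtain ⟨K1', N1, hK1c, hK1N⟩ := hK1 (R + ∑ k, 3 * (S2 k).c)
    obtain ⟨K2', N2, hK2c, hK2N⟩ := hK2 (R + ∑ k, 3 * (S1 k).c)
    refine ⟨K1' ×ˢ K2', N1 * N2, hK1c.prod hK2c, ?_⟩
    intro u
    let u1 : ∀ k, P1 k := fun k => u (Sum.inl k)
    let u2 : ∀ k, P2 k := fun k => u (Sum.inr k)
    obtain ⟨h1, s1, hs1, hg1⟩ := hK1N u1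
    obtain ⟨h2, s2, hs2, hg2⟩ := hK2N u2
    refine ⟨(h1, h2), s1 ×ˢ s2, ?_, ?_⟩
    · rw [Finset.card_product]
      exact Nat.mul_le_mul hs1 hs2
    · intro g hle
      have e : ∑ k, dst (bS k).H (u k) (g • u k) =
          ∑ k, dst (S1 k).H (u1 k) (g.1 • u1 k) + ∑ k, dst (S2 k).H (u2 k) (g.2 • u2 k) :=
        Fintype.sum_sum_type _
      rw [e] at hle
      have l1 : -(∑ k, 3 * (S1 k).c) ≤ ∑ k, dst (S1 k).H (u1 k) (g.1 • u1 k) := by
        rw [← Finset.sum_neg_distrib]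
        exact Finset.sum_le_sum fun k _ => RDA.dst_ge (S1 k).hive _ _
      have l2 : -(∑ k, 3 * (S2 k).c) ≤ ∑ k, dst (S2 k).H (u2 k) (g.2 • u2 k) := by
        rw [← Finset.sum_neg_distrib]
        exact Finset.sum_le_sum fun k _ => RDA.dst_ge (S2 k).hive _ _
      obtain ⟨t1, ht1, hm1⟩ := hg1 g.1 (by linarith)
      obtain ⟨t2, ht2, hm2⟩ := hg2 g.2 (by linarith)
      exact ⟨(t1, t2), Finset.mem_product.2 ⟨ht1, ht2⟩, hm1, hm2⟩

end RapidDecay
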