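import Pool.Agent.Lib.MP_fee02f_an.AR.Defs

/-!
T2a: conjugates of compact sets contain boundedly many elements of a cocompact discrete subgroup (45 min).
Compare the landed file M5.lean.

PROOF. `exists_compact_mul`: let V be a compact neighbourhood of 1.  The quotient map G → G ⧸ Γ is open, so the images of
the interiors of the sets g V cover the compact space G ⧸ Γ; a finite union C of sets g V satisfies C Γ = G.
`count_conj`: write h⁻¹ = c δ with c in C, δ in Γ.  h⁻¹ γ h ∈ K iff δ γ δ⁻¹ ∈ c⁻¹ K c, which is contained in the compact set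
C⁻¹ K C; a discrete subgroup of a Hausdorff group is closed and meets a compact set in a finite set; γ ↦ δ γ δ⁻¹ is injective.
-/

set_option autoImplicit false

open scoped Pointwise

namespace RapidDecay

variable {G : Type*} [Group G] [TopologicalSpace G] [IsTopologicalGroup G] [T2Space G]

theorem exists_compact_mul (hloc : ∃ K ∈ nhds (1 : G), IsCompact K) (Γ : Subgroup G)
    [CompactSpace (G ⧸ Γ)] : ∃ C : Set G, IsCompact C ∧ ∀ g : G, ∃ c ∈ C, ∃ γ : Γ, g = c * γ := by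
  obtain ⟨K, hK, hKc⟩ := hloc
  have hop : ∀ g : G, IsOpen ((QuotientGroup.mk : G → G ⧸ Γ) ''
      ((fun x => g⁻¹ * x) ⁻¹' interior K)) := fun g =>
    QuotientGroup.isOpenMap_coe _ (isOpen_interior.preimage (continuous_const_mul _))
  have hcov : (Set.univ : Set (G ⧸ Γ)) ⊆ ⋃ g : G, ((QuotientGroup.mk : G → G ⧸ Γ) ''
      ((fun x => g⁻¹ * x) ⁻¹' interior K)) := by
    intro q _
    obtain ⟨x, rfl⟩ := QuotientGroup.mk_surjective q
    rw [Set.mem_iUnion]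
    refine ⟨x, x, ?_, rfl⟩
    rw [Set.mem_preimage, inv_mul_cancel]
    exact mem_interior_iff_mem_nhds.2 hK
  obtain ⟨t, ht⟩ := isCompact_univ.elim_finite_subcover _ hop hcov
  refine ⟨⋃ g ∈ t, (fun x => g * x) '' K,
    t.isCompact_biUnion (fun g _ => hKc.image (continuous_const_mul g)), ?_⟩
  intro g
  have h1 := ht (Set.mem_univ (QuotientGroup.mk (s := Γ) g))
  simp only [Set.mem_iUnion] at h1
  obtain ⟨h, hh, x, hx, hxg⟩ := h1
  rw [QuotientGroup.eq] at hxg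
  refine ⟨x, ?_, ⟨x⁻¹ * g, hxg⟩, ?_⟩
  · simp only [Set.mem_iUnion]
    refine ⟨h, hh, h⁻¹ * x, interior_subset hx, ?_⟩
    simp
  · simp

theorem count_conj (hloc : ∃ K ∈ nhds (1 : G), IsCompact K) (Γ : Subgroup G)
    [DiscreteTopology Γ] [CompactSpace (G ⧸ Γ)] (K : Set G) (hK : IsCompact K) :
    ∃ b : ℕ, ∀ h : G, {γ : Γ | h⁻¹ * (γ : G) * h ∈ K}.Finite ∧
      {γ : Γ | h⁻¹ * (γ : G) * h ∈ K}.ncard ≤ b := by
  obtain ⟨C, hC, hCG⟩ := exists_compact_mul hloc Γ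
  have hK' : IsCompact (C⁻¹ * K * C) := (hC.inv.mul hK).mul hC
  have hcl : IsClosed (Γ : Set G) := Subgroup.isClosed_of_discrete
  have hpre : IsCompact ((Subtype.val : Γ → G) ⁻¹' (C⁻¹ * K * C)) :=
    hcl.isClosedEmbedding_subtypeVal.isCompact_preimage hK'
  have hfin : ((Subtype.val : Γ → G) ⁻¹' (C⁻¹ * K * C)).Finite := isCompact_iff_finite.mp hpre
  refine ⟨((Subtype.val : Γ → G) ⁻¹' (C⁻¹ * K * C)).ncard, fun h => ?_⟩
  obtain ⟨c, hc, δ, hδ⟩ := hCG h⁻¹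
  have hmaps : Set.MapsTo (fun γ : Γ => δ * γ * δ⁻¹) {γ : Γ | h⁻¹ * (γ : G) * h ∈ K}
      ((Subtype.val : Γ → G) ⁻¹' (C⁻¹ * K * C)) := by
    intro γ hγ
    have hγ' : h⁻¹ * (γ : G) * h ∈ K := hγ
    have hh : h = (δ : G)⁻¹ * c⁻¹ := by
      rw [← inv_inv h, hδ, mul_inv_rev]
    rw [Set.mem_preimage]
    refine ⟨c⁻¹ * (h⁻¹ * (γ : G) * h), ⟨c⁻¹, Set.inv_mem_inv.2 hc, _, hγ', rfl⟩, c, hc, ?_⟩
    simp only [Subgroup.coe_mul, Subgroup.coe_inv]
    rw [hδ, hh]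
    group
  have hinj : Set.InjOn (fun γ : Γ => δ * γ * δ⁻¹) {γ : Γ | h⁻¹ * (γ : G) * h ∈ K} := by
    intro a _ b _ hab
    simpa using hab
  exact ⟨Set.Finite.of_injOn hmaps hinj hfin, Set.ncard_le_ncard_of_injOn _ hmaps hinj hfin⟩

end RapidDecay
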