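import Pool.Agent.Lib.MP_fee02f_an.AR.T1
import Pool.Agent.Lib.MP_fee02f_an.AR.T2a
import Pool.Agent.Lib.MP_fee02f_an.AR.B4

/-!
T2b: rapid decay for uniformly discrete subgroups of groups with `AdmA` (45 min).

PROOF of `AdmA.uproper`. Γ acts through the inclusion (AHSpace.comap).  Given R let K, N be as in AdmA and b for the compact
set K⁻¹ K.  For u let h, s be as in AdmA.  {γ : Σ dst(u, γ u) ≤ R} is the union over t in s of the sets
{γ : h⁻¹ t⁻¹ γ h ∈ K}; for two elements γ, γ' of one of them h⁻¹ (γ⁻¹ γ') h ∈ K⁻¹ K, so it has at most b elements; total N b.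
`AdmA.rd_of_udisc`: AdmA.uproper, exists_AHS, and the main theorem of part A as a hypothesis `main` (it is
`RDA.rd_of_AHS`, which will be inserted in the final assembly).
-/

set_option autoImplicit false

namespace RapidDecay

theorem t2b_count {G : Type*} [Group G] (Γ : Subgroup G) {K K' : Set G} {b : ℕ}
    (hKK : ∀ x ∈ K, ∀ y ∈ K, x⁻¹ * y ∈ K')
    (hb : ∀ h : G, {γ : Γ | h⁻¹ * (γ : G) * h ∈ K'}.Finite ∧
      {γ : Γ | h⁻¹ * (γ : G) * h ∈ K'}.ncard ≤ b) (h t : G) :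
    {γ : Γ | h⁻¹ * (t⁻¹ * (γ : G)) * h ∈ K}.Finite ∧
      {γ : Γ | h⁻¹ * (t⁻¹ * (γ : G)) * h ∈ K}.ncard ≤ b := by
  rcases Set.eq_empty_or_nonempty {γ : Γ | h⁻¹ * (t⁻¹ * (γ : G)) * h ∈ K} with h0 | ⟨γ0, h0⟩
  · rw [h0]
    exact ⟨Set.finite_empty, by rw [Set.ncard_empty]; exact Nat.zero_le _⟩
  · have hinj : Function.Injective (fun γ : Γ => γ0⁻¹ * γ) := mul_right_injective _
    have hmaps : ∀ γ ∈ {γ : Γ | h⁻¹ * (t⁻¹ * (γ : G)) * h ∈ K},
        γ0⁻¹ * γ ∈ {γ : Γ | h⁻¹ * (γ : G) * h ∈ K'} := by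
      intro γ hγ
      have h1 := hKK _ h0 _ hγ
      have e : (h⁻¹ * (t⁻¹ * (γ0 : G)) * h)⁻¹ * (h⁻¹ * (t⁻¹ * (γ : G)) * h) =
          h⁻¹ * ((γ0⁻¹ * γ : Γ) : G) * h := by
        rw [Subgroup.coe_mul, Subgroup.coe_inv]
        group
      rw [e] at h1
      exact h1
    obtain ⟨hf, hc⟩ := hb h
    constructor
    · exact Set.Finite.of_injOn hmaps hinj.injOn hf
    · exact (Set.ncard_le_ncard_of_injOn _ hmaps hinj.injOn hf).trans hc

open scoped Pointwise in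
theorem AdmA.uproper.{u, w} {G : Type w} [Group G] [TopologicalSpace G] [IsTopologicalGroup G]
    (hG : AdmA.{u, w} G) (Γ : Subgroup G)
    (hΓ : ∀ K : Set G, IsCompact K → ∃ b : ℕ, ∀ h : G, {γ : Γ | h⁻¹ * (γ : G) * h ∈ K}.Finite ∧
      {γ : Γ | h⁻¹ * (γ : G) * h ∈ K}.ncard ≤ b) :
    ∃ (κ : Type) (_ : Fintype κ) (P : κ → Type u) (_ : ∀ k, MulAction Γ (P k))
      (S : ∀ k, AHSpace Γ (P k)), (∀ k, Nonempty (P k)) ∧ UProper S := by
  classical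
  obtain ⟨-, κ, fκ, P, aP, S, hne, hK⟩ := hG
  refine ⟨κ, fκ, P, fun k => MulAction.compHom (P k) Γ.subtype, fun k =>
    AHSpace.comap (fun g : Γ => (g : G)) (fun g x => rfl) (S k), hne, ?_⟩
  intro R
  obtain ⟨K, N, hKc, hKN⟩ := hK R
  obtain ⟨b, hb⟩ := hΓ (K⁻¹ * K) (hKc.inv.mul hKc)
  have hKK : ∀ x ∈ K, ∀ y ∈ K, x⁻¹ * y ∈ K⁻¹ * K := fun x hx y hy =>
    Set.mul_mem_mul (Set.inv_mem_inv.2 hx) hy
  refine ⟨N * b, ?_⟩
  intro u
  obtain ⟨h, s, hs, hg⟩ := hKN u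
  have hcnt := fun t => t2b_count Γ hKK hb h t
  have hsub : {g : Γ | ∑ i, dst (S i).H (u i) ((g : G) • u i) ≤ R} ⊆
      ((s.biUnion fun t => (hcnt t).1.toFinset : Finset Γ) : Set Γ) := by
    intro g hgm
    obtain ⟨t, ht, htK⟩ := hg (g : G) hgm
    rw [Finset.mem_coe, Finset.mem_biUnion]
    refine ⟨t, ht, ?_⟩
    rw [Set.Finite.mem_toFinset]
    exact htK
  constructor
  · exact (Finset.finite_toSet _).subset hsub
  · refine (Set.ncard_le_ncard hsub (Finset.finite_toSet _)).trans ?_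
    rw [Set.ncard_coe_finset]
    refine (Finset.card_biUnion_le_card_mul s _ b fun t _ => ?_).trans
      (Nat.mul_le_mul_right b hs)
    rw [← Set.ncard_eq_toFinset_card _ (hcnt t).1]
    exact (hcnt t).2

theorem AdmA.rd_of_udisc.{u, w} {G : Type w} [Group G] [TopologicalSpace G] [IsTopologicalGroup G]
    (main : ∀ {Γ : Type w} {Y : Type (max u w)} {ι : Type} [Group Γ] [MulAction Γ Y] [Fintype ι]
      [DecidableEq ι] [Nonempty Y], AHS Γ Y ι → PropertyRD Γ)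
    (hG : AdmA.{u, w} G) (Γ : Subgroup G)
    (hΓ : ∀ K : Set G, IsCompact K → ∃ b : ℕ, ∀ h : G, {γ : Γ | h⁻¹ * (γ : G) * h ∈ K}.Finite ∧
      {γ : Γ | h⁻¹ * (γ : G) * h ∈ K}.ncard ≤ b) : PropertyRD Γ := by
  classical
  obtain ⟨κ, fκ, P, aP, S, hne, hU⟩ := hG.uproper Γ hΓ
  obtain ⟨Y, aY, hY, ⟨A⟩⟩ := exists_AHS S hne hU
  exact main A

theorem AdmA.rd.{u, w} {G : Type w} [Group G] [TopologicalSpace G] [IsTopologicalGroup G]
    [T2Space G]
    (main : ∀ {Γ : Type w} {Y : Type (max u w)} {ι : Type} [Group Γ] [MulAction Γ Y] [Fintype ι]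
      [DecidableEq ι] [Nonempty Y], AHS Γ Y ι → PropertyRD Γ)
    (hG : AdmA.{u, w} G) (Γ : Subgroup G) [DiscreteTopology Γ] [CompactSpace (G ⧸ Γ)] :
    PropertyRD Γ :=
  AdmA.rd_of_udisc main hG Γ fun K hK => count_conj hG.1 Γ K hK

end RapidDecay
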