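import Pool.Agent.Lib.MP_fee02f_an.AR.C3

/-!
T3a: compact subsets of `GL_4` and `SL_4` over `𝕜 = ℝ, ℂ` (60 min).  Compare the landed file M2.lean.

PROOFS. `isCompact_GL`: `Units.embedProduct` is a closed embedding of GL into M × Mᵐᵒᵖ (image: the pairs (x, y) with
xy = yx = 1), the set is the preimage of a closed and bounded subset of a finite dimensional space (entries bounded by √c;
`isCompact_pi`/`Metric.isCompact_of_isClosed_isBounded` or a product of closed balls and a closed condition).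
`isCompact_SL`: the matrices with det = 1 and SS ≤ c form a closed subset of the compact set {entries in the closed ball of
radius √c}; SL has the subspace topology.
`GL_nhds`, `SL_nhds`: {g | SS g < 5 and SS g⁻¹ < 5} is open (continuity) and contains 1 (SS 1 = 4).
`norm_det_le`: |det X| ≤ sum over the 24 permutations of products of four entries, each entry ≤ √(SS X).
`SS_of_dst`: X = A⁻¹ g A; dst_HA says SS X * SS X⁻¹ ≤ 16 exp(2R); norm_det_le for X⁻¹: SS X⁻¹ ≥ (‖det X⁻¹‖ / 24)^(1/2), hence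
(SS X)^2 ≤ 256 exp(4R) * 24 * ‖det X‖.
-/

set_option autoImplicit false

open scoped MatrixGroups

namespace RapidDecay

variable {𝕜 : Type*} [RCLike 𝕜]

theorem T3a_continuous_SS : Continuous (fun A : Matrix (Fin 4) (Fin 4) 𝕜 => SS A) := by
  unfold SS
  refine continuous_finsetSum _ (fun i _ => continuous_finsetSum _ (fun j _ => ?_))
  exact ((continuous_id.matrix_elem i j).norm).pow 2

theorem T3a_entry_le (A : Matrix (Fin 4) (Fin 4) 𝕜) (i j : Fin 4) : ‖A i j‖ ^ 2 ≤ SS A := by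
  unfold SS
  calc ‖A i j‖ ^ 2 ≤ ∑ j, ‖A i j‖ ^ 2 :=
        Finset.single_le_sum (f := fun j => ‖A i j‖ ^ 2) (fun k _ => by positivity)
          (Finset.mem_univ j)
    _ ≤ ∑ i, ∑ j, ‖A i j‖ ^ 2 :=
        Finset.single_le_sum (f := fun i => ∑ j, ‖A i j‖ ^ 2) (fun k _ => by positivity)
          (Finset.mem_univ i)

theorem T3a_SS_nonneg (A : Matrix (Fin 4) (Fin 4) 𝕜) : 0 ≤ SS A := by
  unfold SS
  positivity

theorem T3a_compact (c : ℝ) : IsCompact {A : Matrix (Fin 4) (Fin 4) 𝕜 | SS A ≤ c} := by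
  have h : IsCompact (Set.pi Set.univ (fun _ : Fin 4 => Set.pi Set.univ
      (fun _ : Fin 4 => Metric.closedBall (0 : 𝕜) (Real.sqrt c)))) :=
    isCompact_univ_pi (fun _ => isCompact_univ_pi (fun _ => isCompact_closedBall _ _))
  refine h.of_isClosed_subset (isClosed_le T3a_continuous_SS continuous_const) ?_
  intro A hA i _ j _
  rw [mem_closedBall_zero_iff]
  exact Real.le_sqrt_of_sq_le ((T3a_entry_le A i j).trans hA)

theorem isCompact_GL (c : ℝ) :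
    IsCompact {g : GL (Fin 4) 𝕜 | SS g.1 ≤ c ∧ SS (g⁻¹).1 ≤ c} := by
  have h := (T3a_compact (𝕜 := 𝕜) c).prod
    ((T3a_compact (𝕜 := 𝕜) c).image MulOpposite.continuous_op)
  have h2 := (Units.isClosedEmbedding_embedProduct
    (α := Matrix (Fin 4) (Fin 4) 𝕜)).isCompact_preimage h
  have e : {g : GL (Fin 4) 𝕜 | SS g.1 ≤ c ∧ SS (g⁻¹).1 ≤ c} =
      (Units.embedProduct (Matrix (Fin 4) (Fin 4) 𝕜)) ⁻¹'
        ({A : Matrix (Fin 4) (Fin 4) 𝕜 | SS A ≤ c} ×ˢ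
          (MulOpposite.op '' {A : Matrix (Fin 4) (Fin 4) 𝕜 | SS A ≤ c})) := by
    ext g
    constructor
    · rintro ⟨h3, h4⟩
      exact ⟨h3, ⟨(g⁻¹).1, h4, rfl⟩⟩
    · rintro ⟨h3, ⟨B, hB, hB2⟩⟩
      refine ⟨h3, ?_⟩
      have h5 : B = (g⁻¹).1 := MulOpposite.op_injective hB2
      rw [← h5]
      exact hB
  rw [e]
  exact h2

theorem isCompact_SL (c : ℝ) : IsCompact {g : SL(4, 𝕜) | SS g.1 ≤ c} :=
  (Matrix.SpecialLinearGroup.isClosedEmbedding_val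
    (n := Fin 4) (R := 𝕜)).isCompact_preimage (T3a_compact (𝕜 := 𝕜) c)

theorem T3a_SS_one : SS (1 : Matrix (Fin 4) (Fin 4) 𝕜) = 4 := by
  unfold SS
  have h : ∀ i : Fin 4, ∑ j, ‖(1 : Matrix (Fin 4) (Fin 4) 𝕜) i j‖ ^ 2 = 1 := by
    intro i
    rw [Finset.sum_eq_single i]
    · rw [Matrix.one_apply_eq, norm_one, one_pow]
    · intro j _ hj
      rw [Matrix.one_apply_ne (Ne.symm hj), norm_zero]
      norm_num
    · intro h
      exact absurd (Finset.mem_univ i) h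
  rw [Finset.sum_congr rfl (fun i _ => h i)]
  simp

theorem GL_nhds : ∃ K ∈ nhds (1 : GL (Fin 4) 𝕜), IsCompact K := by
  refine ⟨_, ?_, isCompact_GL 5⟩
  have h : IsOpen {g : GL (Fin 4) 𝕜 | SS g.1 < 5 ∧ SS (g⁻¹).1 < 5} := by
    refine IsOpen.and ?_ ?_
    · exact isOpen_lt (T3a_continuous_SS.comp Units.continuous_val) continuous_const
    · exact isOpen_lt (T3a_continuous_SS.comp Units.continuous_coe_inv) continuous_const
  refine Filter.mem_of_superset (h.mem_nhds ?_) (fun g hg => ⟨hg.1.le, hg.2.le⟩)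
  constructor
  · show SS (1 : GL (Fin 4) 𝕜).1 < 5
    rw [Units.val_one, T3a_SS_one]
    norm_num
  · show SS ((1 : GL (Fin 4) 𝕜)⁻¹).1 < 5
    rw [inv_one, Units.val_one, T3a_SS_one]
    norm_num

theorem SL_nhds : ∃ K ∈ nhds (1 : SL(4, 𝕜)), IsCompact K := by
  refine ⟨_, ?_, isCompact_SL 5⟩
  have h : IsOpen {g : SL(4, 𝕜) | SS g.1 < 5} :=
    isOpen_lt (T3a_continuous_SS.comp (Matrix.SpecialLinearGroup.isClosedEmbedding_val
      (n := Fin 4) (R := 𝕜)).continuous) continuous_const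
  refine Filter.mem_of_superset (h.mem_nhds ?_) (fun g hg => ?_)
  swap
  · exact (show SS g.1 < 5 from hg).le
  show SS (1 : SL(4, 𝕜)).1 < 5
  have e : (1 : SL(4, 𝕜)).1 = (1 : Matrix (Fin 4) (Fin 4) 𝕜) := rfl
  rw [e, T3a_SS_one]
  norm_num

theorem norm_det_le (X : Matrix (Fin 4) (Fin 4) 𝕜) : ‖X.det‖ ≤ 24 * SS X ^ 2 := by
  rw [Matrix.det_apply']
  have h1 : ∀ σ : Equiv.Perm (Fin 4),
      ‖(((Equiv.Perm.sign σ : ℤˣ) : ℤ) : 𝕜) * ∏ i, X (σ i) i‖ ≤ SS X ^ 2 := by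
    intro σ
    rw [norm_mul, norm_prod]
    have hs : ‖(((Equiv.Perm.sign σ : ℤˣ) : ℤ) : 𝕜)‖ = 1 := by
      rcases Int.units_eq_one_or (Equiv.Perm.sign σ) with h | h
      · rw [h]; simp
      · rw [h]; simp
    rw [hs, one_mul]
    have h2 : ∏ i, ‖X (σ i) i‖ ≤ ∏ _i : Fin 4, Real.sqrt (SS X) :=
      Finset.prod_le_prod (fun i _ => norm_nonneg _)
        (fun i _ => Real.le_sqrt_of_sq_le (T3a_entry_le X (σ i) i))
    refine h2.trans (le_of_eq ?_)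
    rw [Finset.prod_const, Finset.card_univ, Fintype.card_fin]
    calc Real.sqrt (SS X) ^ 4 = (Real.sqrt (SS X) ^ 2) ^ 2 := by ring
      _ = SS X ^ 2 := by rw [Real.sq_sqrt (T3a_SS_nonneg X)]
  calc ‖∑ σ : Equiv.Perm (Fin 4),
        (((Equiv.Perm.sign σ : ℤˣ) : ℤ) : 𝕜) * ∏ i, X (σ i) i‖
      ≤ ∑ σ : Equiv.Perm (Fin 4),
        ‖(((Equiv.Perm.sign σ : ℤˣ) : ℤ) : 𝕜) * ∏ i, X (σ i) i‖ := norm_sum_le _ _
    _ ≤ ∑ _σ : Equiv.Perm (Fin 4), SS X ^ 2 := Finset.sum_le_sum (fun σ _ => h1 σ)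
    _ = 24 * SS X ^ 2 := by
        rw [Finset.sum_const, Finset.card_univ, Fintype.card_perm, Fintype.card_fin,
          nsmul_eq_mul]
        norm_num [Nat.factorial]

theorem SS_of_dst (A g : GL (Fin 4) 𝕜) (R : ℝ) (h : dst HA A (g * A) ≤ R) :
    SS (A⁻¹ * g * A).1 * SS (A⁻¹ * g * A)⁻¹.1 ≤ 16 * Real.exp (2 * R) ∧
    SS (A⁻¹ * g * A).1 ^ 2 ≤ 256 * Real.exp (4 * R) * 24 * ‖g.1.det‖ ∧
    SS (A⁻¹ * g * A)⁻¹.1 ^ 2 ≤ 256 * Real.exp (4 * R) * 24 * ‖g.1.det‖⁻¹ := by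
  have e1 : A⁻¹ * (g * A) = A⁻¹ * g * A := by rw [mul_assoc]
  have e2 : (g * A)⁻¹ * A = (A⁻¹ * g * A)⁻¹ := by
    rw [mul_inv_rev, mul_inv_rev, mul_inv_rev, inv_inv, mul_assoc]
  have h1 : SS (A⁻¹ * g * A).1 * SS (A⁻¹ * g * A)⁻¹.1 ≤ 16 * Real.exp (2 * R) := by
    rw [dst_HA, e1, e2] at h
    have hp : 0 < SS (A⁻¹ * g * A).1 * SS (A⁻¹ * g * A)⁻¹.1 / 16 :=
      div_pos (mul_pos (SS_pos _) (SS_pos _)) (by norm_num)
    have h2 : Real.log (SS (A⁻¹ * g * A).1 * SS (A⁻¹ * g * A)⁻¹.1 / 16) ≤ 2 * R := by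
      linarith
    have h3 := (Real.log_le_iff_le_exp hp).1 h2
    linarith
  have hX := SS_pos (A⁻¹ * g * A)
  have hY := SS_pos (A⁻¹ * g * A)⁻¹
  have hdet : (A⁻¹ * g * A).1.det = g.1.det := by
    have hA : (A⁻¹ : GL (Fin 4) 𝕜).1.det * A.1.det = 1 := by
      rw [← Matrix.det_mul, ← Units.val_mul, inv_mul_cancel, Units.val_one, Matrix.det_one]
    rw [Units.val_mul, Units.val_mul, Matrix.det_mul, Matrix.det_mul]
    calc (A⁻¹ : GL (Fin 4) 𝕜).1.det * g.1.det * A.1.det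
        = ((A⁻¹ : GL (Fin 4) 𝕜).1.det * A.1.det) * g.1.det := by ring
      _ = g.1.det := by rw [hA, one_mul]
  have hdet2 : (A⁻¹ * g * A)⁻¹.1.det * g.1.det = 1 := by
    rw [← hdet, ← Matrix.det_mul, ← Units.val_mul, inv_mul_cancel, Units.val_one,
      Matrix.det_one]
  have hn : ‖(A⁻¹ * g * A)⁻¹.1.det‖ * ‖g.1.det‖ = 1 := by
    rw [← norm_mul, hdet2, norm_one]
  have hg : 0 < ‖g.1.det‖ := by
    rcases (norm_nonneg g.1.det).lt_or_eq with h | h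
    · exact h
    · rw [← h, mul_zero] at hn
      exact absurd hn (by norm_num)
  have hsq : SS (A⁻¹ * g * A).1 ^ 2 * SS (A⁻¹ * g * A)⁻¹.1 ^ 2 ≤ 256 * Real.exp (4 * R) := by
    rw [← mul_pow]
    calc (SS (A⁻¹ * g * A).1 * SS (A⁻¹ * g * A)⁻¹.1) ^ 2
        ≤ (16 * Real.exp (2 * R)) ^ 2 := pow_le_pow_left₀ (mul_pos hX hY).le h1 2
      _ = 256 * Real.exp (4 * R) := by
          rw [mul_pow, ← Real.exp_nat_mul]
          norm_num
          ring_nf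
  refine ⟨h1, ?_, ?_⟩
  · have h3 := norm_det_le (A⁻¹ * g * A)⁻¹.1
    have h4 : 1 ≤ 24 * SS (A⁻¹ * g * A)⁻¹.1 ^ 2 * ‖g.1.det‖ := by
      rw [← hn]
      exact mul_le_mul_of_nonneg_right h3 hg.le
    have h5 : SS (A⁻¹ * g * A).1 ^ 2 * 1 ≤
        SS (A⁻¹ * g * A).1 ^ 2 * (24 * SS (A⁻¹ * g * A)⁻¹.1 ^ 2 * ‖g.1.det‖) :=
      mul_le_mul_of_nonneg_left h4 (by positivity)
    have h6 : SS (A⁻¹ * g * A).1 ^ 2 * SS (A⁻¹ * g * A)⁻¹.1 ^ 2 * (24 * ‖g.1.det‖) ≤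
        256 * Real.exp (4 * R) * (24 * ‖g.1.det‖) :=
      mul_le_mul_of_nonneg_right hsq (by positivity)
    calc SS (A⁻¹ * g * A).1 ^ 2 = SS (A⁻¹ * g * A).1 ^ 2 * 1 := by ring
      _ ≤ SS (A⁻¹ * g * A).1 ^ 2 * (24 * SS (A⁻¹ * g * A)⁻¹.1 ^ 2 * ‖g.1.det‖) := h5
      _ = SS (A⁻¹ * g * A).1 ^ 2 * SS (A⁻¹ * g * A)⁻¹.1 ^ 2 * (24 * ‖g.1.det‖) := by ring
      _ ≤ 256 * Real.exp (4 * R) * (24 * ‖g.1.det‖) := h6
      _ = 256 * Real.exp (4 * R) * 24 * ‖g.1.det‖ := by ring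
  · have h3 := norm_det_le (A⁻¹ * g * A).1
    rw [hdet] at h3
    have h5 : SS (A⁻¹ * g * A)⁻¹.1 ^ 2 * ‖g.1.det‖ ≤
        SS (A⁻¹ * g * A)⁻¹.1 ^ 2 * (24 * SS (A⁻¹ * g * A).1 ^ 2) :=
      mul_le_mul_of_nonneg_left h3 (by positivity)
    have h6 : SS (A⁻¹ * g * A)⁻¹.1 ^ 2 * ‖g.1.det‖ ≤ 256 * Real.exp (4 * R) * 24 := by
      calc SS (A⁻¹ * g * A)⁻¹.1 ^ 2 * ‖g.1.det‖
          ≤ SS (A⁻¹ * g * A)⁻¹.1 ^ 2 * (24 * SS (A⁻¹ * g * A).1 ^ 2) := h5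
        _ = 24 * (SS (A⁻¹ * g * A).1 ^ 2 * SS (A⁻¹ * g * A)⁻¹.1 ^ 2) := by ring
        _ ≤ 24 * (256 * Real.exp (4 * R)) := mul_le_mul_of_nonneg_left hsq (by norm_num)
        _ = 256 * Real.exp (4 * R) * 24 := by ring
    rw [← div_eq_mul_inv, le_div_iff₀ hg]
    exact h6

end RapidDecay
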