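import Pool.Agent.Lib.MP_fee02f_an.AR.C14
import Pool.Agent.Lib.MP_fee02f_an.AR.T0
import Pool.Agent.Lib.MP_fee02f_an.AR.T1
import Pool.Agent.Lib.MP_fee02f_an.AR.T3a

/-!
T3b: `GL_4(𝕜)` and `SL_4(𝕜)` satisfy `AdmA` for `𝕜 = ℝ, ℂ`.
-/

set_option autoImplicit false

open scoped MatrixGroups

namespace RapidDecay

/-- `AdmA` from one space -/
theorem T3b_one.{u, w} {G : Type w} [Group G] [TopologicalSpace G]
    (h0 : ∃ K ∈ nhds (1 : G), IsCompact K) {P : Type u} [MulAction G P] (S : AHSpace G P)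
    (hP : Nonempty P)
    (h : ∀ R : ℝ, ∃ (K : Set G) (N : ℕ), IsCompact K ∧
      ∀ u : P, ∃ (h : G) (s : Finset G), s.card ≤ N ∧ ∀ g : G,
        dst S.H u (g • u) ≤ R → ∃ t ∈ s, h⁻¹ * (t⁻¹ * g) * h ∈ K) : AdmA.{u, w} G := by
  refine ⟨h0, Unit, inferInstance, fun _ => P, fun _ => inferInstance, fun _ => S, fun _ => hP, ?_⟩
  intro R
  obtain ⟨K, N, hK, hu⟩ := h R
  refine ⟨K, N, hK, fun u => ?_⟩
  obtain ⟨x, s, hs, hg⟩ := hu (u ())
  refine ⟨x, s, hs, fun g hgR => hg g ?_⟩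
  simpa using hgR

/-- `AdmA` from two spaces -/
theorem T3b_two.{u, w} {G : Type w} [Group G] [TopologicalSpace G]
    (h0 : ∃ K ∈ nhds (1 : G), IsCompact K) {P Q : Type u} (iP : MulAction G P)
    (iQ : MulAction G Q) (S : AHSpace G P) (T : AHSpace G Q)
    (hP : Nonempty P) (hQ : Nonempty Q)
    (h : ∀ R : ℝ, ∃ (K : Set G) (N : ℕ), IsCompact K ∧
      ∀ (u : P) (v : Q), ∃ (h : G) (s : Finset G), s.card ≤ N ∧ ∀ g : G,
        dst S.H u (g • u) + dst T.H v (g • v) ≤ R → ∃ t ∈ s, h⁻¹ * (t⁻¹ * g) * h ∈ K) :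
    AdmA.{u, w} G := by
  refine ⟨h0, Bool, inferInstance, fun b => match b with | true => P | false => Q,
    fun b => match b with | true => iP | false => iQ,
    fun b => match b with | true => S | false => T,
    fun b => match b with | true => hP | false => hQ, ?_⟩
  intro R
  obtain ⟨K, N, hK, hu⟩ := h R
  refine ⟨K, N, hK, fun u => ?_⟩
  obtain ⟨x, s, hs, hg⟩ := hu (u true) (u false)
  refine ⟨x, s, hs, fun g hgR => hg g ?_⟩
  rw [Fintype.sum_bool] at hgR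
  exact hgR

/-- logarithm of the norm of the determinant -/
noncomputable def T3b_ld (𝕜 : Type*) [RCLike 𝕜] : GL (Fin 4) 𝕜 →* Multiplicative ℝ where
  toFun g := Multiplicative.ofAdd (Real.log ‖g.1.det‖)
  map_one' := by simp
  map_mul' := by
    intro g h
    rw [← ofAdd_add]
    have hg : ‖g.1.det‖ ≠ 0 := norm_ne_zero_iff.2 (g.isUnit.map Matrix.detMonoidHom).ne_zero
    have hh : ‖h.1.det‖ ≠ 0 := norm_ne_zero_iff.2 (h.isUnit.map Matrix.detMonoidHom).ne_zero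
    rw [← Real.log_mul hg hh, ← norm_mul, ← Matrix.det_mul]
    rfl

theorem T3b_det_ne {𝕜 : Type*} [RCLike 𝕜] (g : GL (Fin 4) 𝕜) : g.1.det ≠ 0 :=
  (g.isUnit.map Matrix.detMonoidHom).ne_zero

theorem AdmA_GLk.{u} (𝕜 : Type u) [RCLike 𝕜] : AdmA.{u, u} (GL (Fin 4) 𝕜) := by
  obtain ⟨S, hSH, hSc, -⟩ := exists_frSpace 𝕜
  let act2 : MulAction (GL (Fin 4) 𝕜) (ULift.{u} ℝ) := lineAct (T3b_ld 𝕜)
  obtain ⟨T, hT⟩ := exists_lineSpace.{u} (T3b_ld 𝕜)
  refine T3b_two GL_nhds inferInstance act2 S T ⟨1⟩ ⟨⟨0⟩⟩ ?_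
  intro R
  set c : ℝ := Real.sqrt (256 * Real.exp (4 * R) * 24 * Real.exp (R + 3000)) with hc
  refine ⟨{g : GL (Fin 4) 𝕜 | SS g.1 ≤ c ∧ SS (g⁻¹).1 ≤ c}, 1, isCompact_GL c, ?_⟩
  intro A v
  refine ⟨A, {1}, by simp, fun g hg => ⟨1, by simp, ?_⟩⟩
  have h1 : dst S.H A (g • A) = dst HA A (g * A) := by rw [hSH]; rfl
  have h2 : dst T.H v (g • v) = |Real.log ‖g.1.det‖| := by
    have e : (g • v).down = Real.log ‖g.1.det‖ + v.down := rfl
    have e' : dst T.H v (g • v) = |v.down - (g • v).down| := hT _ _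
    rw [e', e, show v.down - (Real.log ‖g.1.det‖ + v.down) = -Real.log ‖g.1.det‖ by ring, abs_neg]
  have h3 : dst HA A (g * A) + |Real.log ‖g.1.det‖| ≤ R := by
    rw [← h1, ← h2]
    exact hg
  have h4 : -(3 * 1000) ≤ dst HA A (g * A) := by
    have := RDA.dst_ge S.hive A (g * A)
    rw [hSc, hSH] at this
    exact this
  have h5 : dst HA A (g * A) ≤ R := by
    have := abs_nonneg (Real.log ‖g.1.det‖)
    linarith
  have h6 : |Real.log ‖g.1.det‖| ≤ R + 3000 := by linarith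
  obtain ⟨h7, h8⟩ := abs_le.1 h6
  have hd : 0 < ‖g.1.det‖ := norm_pos_iff.2 (T3b_det_ne g)
  have h9 : ‖g.1.det‖ ≤ Real.exp (R + 3000) := (Real.log_le_iff_le_exp hd).1 h8
  have h10 : ‖g.1.det‖⁻¹ ≤ Real.exp (R + 3000) := by
    rw [← Real.log_le_iff_le_exp (inv_pos.2 hd), Real.log_inv]
    linarith
  obtain ⟨-, s1, s2⟩ := SS_of_dst A g R h5
  have hpos : (0 : ℝ) ≤ 256 * Real.exp (4 * R) * 24 := by positivity
  change SS (A⁻¹ * (1⁻¹ * g) * A).1 ≤ c ∧ SS (A⁻¹ * (1⁻¹ * g) * A)⁻¹.1 ≤ c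
  rw [inv_one, one_mul]
  exact ⟨Real.le_sqrt_of_sq_le (s1.trans (mul_le_mul_of_nonneg_left h9 hpos)),
    Real.le_sqrt_of_sq_le (s2.trans (mul_le_mul_of_nonneg_left h10 hpos))⟩

/-- conjugation by a diagonal matrix whose entries have equal norms -/
theorem T3b_SS_conj {𝕜 : Type*} [RCLike 𝕜] (d : Fin 4 → 𝕜) (t : ℝ) (ht : 0 < t)
    (hd : ∀ i, ‖d i‖ = t) (X : Matrix (Fin 4) (Fin 4) 𝕜) :
    SS (Matrix.diagonal d * X * Matrix.diagonal (fun i => (d i)⁻¹)) = SS X := by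
  unfold SS
  refine Finset.sum_congr rfl fun i _ => Finset.sum_congr rfl fun j _ => ?_
  rw [Matrix.mul_diagonal, Matrix.diagonal_mul, norm_mul, norm_mul, norm_inv, hd, hd]
  congr 1
  field_simp

/-- the inclusion of `SL_4` in `GL_4` -/
theorem T3b_toGL {𝕜 : Type*} [RCLike 𝕜] (g : SL(4, 𝕜)) :
    (Matrix.SpecialLinearGroup.toGL g).1 = g.1 := rfl

theorem AdmA_SLk.{u} (𝕜 : Type u) [RCLike 𝕜] : AdmA.{u, u} SL(4, 𝕜) := by
  obtain ⟨S, hSH, hSc, -⟩ := exists_frSpace 𝕜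
  let act : MulAction SL(4, 𝕜) (GL (Fin 4) 𝕜) :=
    MulAction.compHom (GL (Fin 4) 𝕜) (Matrix.SpecialLinearGroup.toGL (n := Fin 4) (R := 𝕜))
  have hact : ∀ (g : SL(4, 𝕜)) (x : GL (Fin 4) 𝕜),
      act.smul g x = (Matrix.SpecialLinearGroup.toGL g) • x := fun _ _ => rfl
  refine T3b_one SL_nhds (AHSpace.comap (G := GL (Fin 4) 𝕜)
    (fun g : SL(4, 𝕜) => Matrix.SpecialLinearGroup.toGL g) hact S) ⟨1⟩ ?_
  intro R
  set c : ℝ := Real.sqrt (256 * Real.exp (4 * R) * 24) with hc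
  refine ⟨{g : SL(4, 𝕜) | SS g.1 ≤ c}, 1, isCompact_SL c, ?_⟩
  intro A
  -- the diagonal matrix
  have hdA : 0 < ‖A.1.det‖ := norm_pos_iff.2 (T3b_det_ne A)
  set t : ℝ := Real.sqrt (Real.sqrt ‖A.1.det‖) with htdef
  have ht : 0 < t := Real.sqrt_pos.2 (Real.sqrt_pos.2 hdA)
  have ht4 : t ^ 4 = ‖A.1.det‖ := by
    have e1 : t ^ 2 = Real.sqrt ‖A.1.det‖ := Real.sq_sqrt (Real.sqrt_nonneg _)
    have e2 : Real.sqrt ‖A.1.det‖ ^ 2 = ‖A.1.det‖ := Real.sq_sqrt hdA.le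
    calc t ^ 4 = (t ^ 2) ^ 2 := by ring
      _ = _ := by rw [e1, e2]
  set w : 𝕜 := A.1.det / (‖A.1.det‖ : 𝕜) with hw
  have hnA : (‖A.1.det‖ : 𝕜) ≠ 0 := by
    exact_mod_cast hdA.ne'
  have hwn : ‖w‖ = 1 := by
    rw [hw, norm_div, RCLike.norm_ofReal, abs_of_pos hdA, div_self hdA.ne']
  set d : Fin 4 → 𝕜 := fun i => if i = 0 then (t : 𝕜) * w else (t : 𝕜) with hddef
  have hdn : ∀ i, ‖d i‖ = t := by
    intro i
    simp only [hddef]
    split_ifs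
    · rw [norm_mul, hwn, mul_one, RCLike.norm_ofReal, abs_of_pos ht]
    · rw [RCLike.norm_ofReal, abs_of_pos ht]
  have hd0 : ∀ i, d i ≠ 0 := fun i => norm_pos_iff.1 (by rw [hdn i]; exact ht)
  set E : GL (Fin 4) 𝕜 := ⟨Matrix.diagonal d, Matrix.diagonal (fun i => (d i)⁻¹), by
      rw [Matrix.diagonal_mul_diagonal, ← Matrix.diagonal_one]
      congr 1
      ext i
      exact mul_inv_cancel₀ (hd0 i), by
      rw [Matrix.diagonal_mul_diagonal, ← Matrix.diagonal_one]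
      congr 1
      ext i
      exact inv_mul_cancel₀ (hd0 i)⟩ with hE
  have hE1 : E.1 = Matrix.diagonal d := rfl
  have hE2 : (E⁻¹).1 = Matrix.diagonal (fun i => (d i)⁻¹) := rfl
  have hdetE : E.1.det = A.1.det := by
    rw [hE1, Matrix.det_diagonal, Fin.prod_univ_four]
    have e0 : d 0 = (t : 𝕜) * w := by simp [hddef]
    have e1 : d 1 = (t : 𝕜) := by simp [hddef]
    have e2 : d 2 = (t : 𝕜) := by simp [hddef]
    have e3 : d 3 = (t : 𝕜) := by simp [hddef]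
    rw [e0, e1, e2, e3]
    have e4 : (t : 𝕜) ^ 4 = (‖A.1.det‖ : 𝕜) := by
      rw [← ht4]
      push_cast
      rfl
    calc (t : 𝕜) * w * (t : 𝕜) * (t : 𝕜) * (t : 𝕜) = (t : 𝕜) ^ 4 * w := by ring
      _ = A.1.det := by
        rw [e4, hw]
        field_simp
  have hdeth : (A * E⁻¹).1.det = 1 := by
    have e1 : (E⁻¹).1.det * E.1.det = 1 := by
      rw [← Matrix.det_mul]
      have : (E⁻¹).1 * E.1 = 1 := by
        rw [← Units.val_mul, inv_mul_cancel]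
        rfl
      rw [this, Matrix.det_one]
    rw [Units.val_mul, Matrix.det_mul, ← hdetE, mul_comm]
    exact e1
  refine ⟨⟨(A * E⁻¹).1, hdeth⟩, {1}, by simp, fun g hg => ⟨1, by simp, ?_⟩⟩
  set h : SL(4, 𝕜) := ⟨(A * E⁻¹).1, hdeth⟩ with hh
  have hhGL : Matrix.SpecialLinearGroup.toGL h = A * E⁻¹ := Units.ext rfl
  change SS (h⁻¹ * (1⁻¹ * g) * h).1 ≤ c
  rw [inv_one, one_mul]
  have e1 : (h⁻¹ * g * h).1
      = E.1 * (A⁻¹ * Matrix.SpecialLinearGroup.toGL g * A).1 * (E⁻¹).1 := by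
    rw [← T3b_toGL, map_mul, map_mul, map_inv, hhGL, ← Units.val_mul, ← Units.val_mul]
    congr 1
    group
  rw [e1, hE1, hE2, T3b_SS_conj d t ht hdn]
  have h5 : dst HA A (Matrix.SpecialLinearGroup.toGL g * A) ≤ R := by
    have e2 : dst HA A (Matrix.SpecialLinearGroup.toGL g * A)
      = dst S.H A (Matrix.SpecialLinearGroup.toGL g * A) := by rw [hSH]
    rw [e2]
    exact hg
  obtain ⟨-, s1, -⟩ := SS_of_dst A (Matrix.SpecialLinearGroup.toGL g) R h5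
  have hdg : ‖(Matrix.SpecialLinearGroup.toGL g).1.det‖ = 1 := by
    rw [T3b_toGL, g.2, norm_one]
  rw [hdg, mul_one] at s1
  exact Real.le_sqrt_of_sq_le s1

end RapidDecay
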