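import Pool.Agent.Lib.MP_fee02f_an.AR.C14
import Pool.Agent.Lib.MP_fee02f_an.AR.T3a
import Pool.Agent.Lib.MP_fee02f_an.AR.T1

/-!
T5: `PGL_4(𝕜)` satisfies `AdmA` for `𝕜 = ℝ, ℂ` (90 min).

PROOF. The centre of GL_4 consists of the scalar matrices.  DD with one frame multiplied by the scalar z gets the factor ‖z‖^2
(DD_smul), so slacks of HA do not change if the arguments are multiplied by scalars (`sl_HA_center`), and
HA of the representatives `Quotient.out` defines an AHive (log 4) H' on PGL_4 = GL_4 ⧸ centre, with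
sl H' [A] [B] [C] [S] [T] = sl HA A B C S T (a slack is multilinear of total degree 0 in each argument; check it argument by
argument).  Invariance under PGL_4: sl_HA_mul.
Mvr' r k u v m := ∃ A B M, [A] = u, [B] = v, [M] = m and MvA r k A B M.  near: let MvA r k A B M, MvA r k (z A) C M'; then
MvA r k A (z⁻¹ C) (z⁻¹ M') by MvA_mul for the scalar matrix z⁻¹, and [z⁻¹ C] = [C]; now apply the lemma for frames; C and
z⁻¹ C have the same slacks.  cover: the image of the finite set of the frame space.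
AdmA: compact neighbourhood: image of that of GL_4 under the open quotient map.  For u = [A] put h = [A]: if
dst H' u (g u) ≤ R and g = [g0], X = A⁻¹ g0 A, then SS X * SS X⁻¹ ≤ 16 exp(2R) and after multiplication of g0 by a scalar
SS X = 4, SS X⁻¹ ≤ 4 exp(2R); h⁻¹ g h = [X] lies in the image of the compact set {SS ≤ c, SS ⁻¹ ≤ c} of GL_4.
-/

set_option autoImplicit false

open scoped MatrixGroups

namespace RapidDecay

theorem T5_ds_sl {P : Type*} (H : P → P → P → P → ℝ) (a b s t : P) :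
    ds H a b s t = sl H a b b s t := by
  unfold ds sl
  ring

/-- quotient of an approximate hive space -/
theorem T5_quot {G P G' P' : Type*} [Group G] [Group G'] [MulAction G P] [MulAction G' P']
    (φ : G → G') (hφ : Function.Surjective φ) (q : P → P') (hq : Function.Surjective q)
    (hact : ∀ (g : G) (x : P), φ g • q x = q (g • x))
    (hker : ∀ x y : P, q x = q y → ∃ z : G, φ z = 1 ∧ y = z • x)
    (S : AHSpace G P)
    (hs : ∀ a b c s t a' b' c' s' t' : P, q a = q a' → q b = q b' → q c = q c' → q s = q s' →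
      q t = q t' → sl S.H a b c s t = sl S.H a' b' c' s' t') :
    ∃ S' : AHSpace G' P', ∀ A B : P, dst S'.H (q A) (q B) = dst S.H A B := by
  classical
  obtain ⟨σ, hσ⟩ := hq.hasRightInverse
  have hdq : ∀ a b a' b' : P, q a = q a' → q b = q b' → dst S.H a b = dst S.H a' b' := by
    intro a b a' b' h1 h2
    rw [RDA.dst_eq S.hive, RDA.dst_eq S.hive]
    simp only [T5_ds_sl]
    rw [hs a b b a a a' b' b' a' a' h1 h2 h2 h1 h1, hs a b b a b a' b' b' a' b' h1 h2 h2 h1 h2,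
      hs a b b b b a' b' b' b' b' h1 h2 h2 h2 h2]
  -- group conditions
  have hgg : ∀ (a b c a' b' c' : P) (r : ℕ) (k : ℝ), q a = q a' → q b = q b' → q c = q c' →
      GroupGe S.H a b c r k → GroupGe S.H a' b' c' r k := by
    intro a b c a' b' c' r k h1 h2 h3 h
    unfold GroupGe gm1 gm2 gm3 at h ⊢
    rw [← hs a b c b b a' b' c' b' b' h1 h2 h3 h2 h2, ← hs a b c b c a' b' c' b' c' h1 h2 h3 h2 h3,
      ← hs a b c c c a' b' c' c' c' h1 h2 h3 h3 h3, ← hs a b c a b a' b' c' a' b' h1 h2 h3 h1 h2,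
      ← hs a b c a c a' b' c' a' c' h1 h2 h3 h1 h3, ← hs a b c a a a' b' c' a' a' h1 h2 h3 h1 h1]
    exact h
  have htsl : ∀ (p : Fin 3 → P) (p' : Fin 3 → P'), (∀ i, q (p i) = p' i) →
      ∀ k, tsl (fun a b c d => S.H (σ a) (σ b) (σ c) (σ d)) p' k = tsl S.H p k := by
    intro p p' hp k
    have h1 : tsl (fun a b c d => S.H (σ a) (σ b) (σ c) (σ d)) p' k
        = sl S.H (σ (p' k.1)) (σ (p' k.2.1)) (σ (p' k.2.2.1)) (σ (p' k.2.2.2.1))
          (σ (p' k.2.2.2.2)) := rfl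
    rw [h1]
    unfold tsl
    apply hs
    all_goals rw [hσ, hp]
  refine ⟨{
    H := fun a b c d => S.H (σ a) (σ b) (σ c) (σ d)
    c := S.c
    hive := RDA.AHive_comap S.hive σ
    inv := ?_
    Mvr := fun r k u v m => ∃ A B M, q A = u ∧ q B = v ∧ q M = m ∧ S.Mvr r k A B M
    Mvr_smul := ?_
    Mvr_ex := ?_
    Mvr_near := ?_
    Mvr_sl := ?_
    cover := ?_ }, ?_⟩
  · intro g' a b b' s t
    obtain ⟨g, rfl⟩ := hφ g'
    have h1 : ∀ x : P', q (σ (φ g • x)) = q (g • σ x) := by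
      intro x
      rw [hσ, ← hact, hσ]
    change sl S.H (σ (φ g • a)) (σ (φ g • b)) (σ (φ g • b')) (σ (φ g • s)) (σ (φ g • t))
      = sl S.H (σ a) (σ b) (σ b') (σ s) (σ t)
    rw [← S.inv g (σ a) (σ b) (σ b') (σ s) (σ t)]
    exact hs _ _ _ _ _ _ _ _ _ _ (h1 _) (h1 _) (h1 _) (h1 _) (h1 _)
  · rintro g' r k a b m ⟨A, B, M, rfl, rfl, rfl, h⟩
    obtain ⟨g, rfl⟩ := hφ g'
    exact ⟨g • A, g • B, g • M, (hact g A).symm, (hact g B).symm, (hact g M).symm,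
      S.Mvr_smul g r k A B M h⟩
  · intro r k a b
    obtain ⟨M, hM⟩ := S.Mvr_ex r k (σ a) (σ b)
    exact ⟨q M, σ a, σ b, M, hσ a, hσ b, rfl, hM⟩
  · rintro r k a b b' m m' hg ⟨A, B, M, hA, hB, hM, h⟩ ⟨A', C, M', hA', hC, hM', h'⟩
    obtain ⟨z, hz, hz'⟩ := hker A' A (hA'.trans hA.symm)
    have hzq : ∀ x : P, q (z • x) = q x := by
      intro x
      rw [← hact, hz, one_smul]
    have h2 := S.Mvr_smul z r k A' C M' h'
    rw [← hz'] at h2
    have h3 : GroupGe S.H A B (z • C) r k := by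
      refine hgg (σ a) (σ b) (σ b') A B (z • C) r k ?_ ?_ ?_ hg
      · rw [hσ, hA]
      · rw [hσ, hB]
      · rw [hσ, hzq, hC]
    have h4 := S.Mvr_near r k A B (z • C) M (z • M') h3 h h2
    have h5 : dst (fun a b c d => S.H (σ a) (σ b) (σ c) (σ d)) m m'
        = dst S.H (σ m) (σ m') := rfl
    rw [h5, hdq (σ m) (σ m') M (z • M')]
    · exact h4
    · rw [hσ, hM]
    · rw [hσ, hzq, hM']
  · rintro r k a b b' m hg ⟨A, B, M, hA, hB, hM, h⟩ u v w s t huv hvw huw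
    have h3 : GroupGe S.H A B (σ b') r k := by
      refine hgg (σ a) (σ b) (σ b') A B (σ b') r k ?_ ?_ rfl hg
      · rw [hσ, hA]
      · rw [hσ, hB]
    have h4 := S.Mvr_sl r k A B (σ b') M h3 h u v w s t huv hvw huw
    rw [htsl ![M, B, σ b'] ![m, b, b'], htsl ![A, B, σ b'] ![a, b, b']]
    · exact h4
    · intro i
      fin_cases i
      · exact hA
      · exact hB
      · exact hσ b'
    · intro i
      fin_cases i
      · exact hM
      · exact hB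
      · exact hσ b'
  · obtain ⟨C, hC⟩ := S.cover
    refine ⟨C, fun a m => ?_⟩
    obtain ⟨T, hT, hT'⟩ := hC (σ a) m
    refine ⟨T.image q, Finset.card_image_le.trans hT, fun b hb => ?_⟩
    obtain ⟨s, hs1, hs2⟩ := hT' (σ b) hb
    refine ⟨q s, Finset.mem_image_of_mem q hs1, ?_⟩
    have h5 : dst (fun a b c d => S.H (σ a) (σ b) (σ c) (σ d)) (q s) b
        = dst S.H (σ (q s)) (σ b) := rfl
    rw [h5, hdq (σ (q s)) (σ b) s (σ b) (hσ _) rfl]
    exact hs2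
  · intro A B
    exact hdq _ _ _ _ (hσ _) (hσ _)

section

variable {𝕜 : Type*} [RCLike 𝕜]

/-- a scalar as an element of `GL_4` -/
noncomputable def T5_sc (c : 𝕜) (hc : c ≠ 0) : GL (Fin 4) 𝕜 :=
  Units.map (Matrix.scalar (Fin 4)).toMonoidHom (Units.mk0 c hc)

theorem T5_sc_val (c : 𝕜) (hc : c ≠ 0) : (T5_sc c hc).1 = Matrix.scalar (Fin 4) c := rfl

theorem T5_sc_center (c : 𝕜) (hc : c ≠ 0) :
    T5_sc c hc ∈ Subgroup.center (GL (Fin 4) 𝕜) :=
  Matrix.GeneralLinearGroup.mem_center_iff_val_mem_range_scalar.2 ⟨c, rfl⟩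

theorem T5_center (z : GL (Fin 4) 𝕜) (hz : z ∈ Subgroup.center (GL (Fin 4) 𝕜)) :
    ∃ (c : 𝕜) (hc : c ≠ 0), z = T5_sc c hc := by
  obtain ⟨c, hc⟩ := Matrix.GeneralLinearGroup.mem_center_iff_val_mem_range_scalar.1 hz
  have h0 : c ≠ 0 := by
    rintro rfl
    rw [map_zero] at hc
    exact z.ne_zero hc.symm
  exact ⟨c, h0, Units.ext hc.symm⟩

theorem T5_fr (c : 𝕜) (hc : c ≠ 0) (A : GL (Fin 4) 𝕜) :
    fr (T5_sc c hc * A) = fun i => c • fr A i := by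
  funext j i
  simp [fr, T5_sc_val, Matrix.scalar_apply, Matrix.diagonal_mul]

theorem T5_HA1 (c : 𝕜) (hc : c ≠ 0) (A B C E : GL (Fin 4) 𝕜) :
    HA (T5_sc c hc * A) B C E = HA A B C E - Real.log ‖c‖ := by
  unfold HA
  rw [T5_fr, DD_smul, Real.log_mul (pow_ne_zero 2 (norm_ne_zero_iff.2 hc)) (DD_pos A B C E).ne',
    Real.log_pow]
  push_cast
  ring

/-- classes modulo the centre -/
theorem T5_mk {A A' : GL (Fin 4) 𝕜}
    (h : (A : GL (Fin 4) 𝕜 ⧸ Subgroup.center (GL (Fin 4) 𝕜)) = A') :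
    ∃ (c : 𝕜) (hc : c ≠ 0), A' = T5_sc c hc * A := by
  obtain ⟨c, hc, h1⟩ := T5_center _ (QuotientGroup.eq.1 h)
  refine ⟨c, hc, ?_⟩
  have h2 := Subgroup.mem_center_iff.1 (T5_sc_center c hc) A
  rw [← h2, ← h1, mul_inv_cancel_left]

theorem T5_HA {A A' : GL (Fin 4) 𝕜}
    (h : (A : GL (Fin 4) 𝕜 ⧸ Subgroup.center (GL (Fin 4) 𝕜)) = A') :
    ∃ l : ℝ, ∀ B C E : GL (Fin 4) 𝕜, HA A' B C E = HA A B C E - l := by
  obtain ⟨c, hc, rfl⟩ := T5_mk h
  exact ⟨Real.log ‖c‖, fun B C E => T5_HA1 c hc A B C E⟩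

theorem T5_sl (a b c s t a' b' c' s' t' : GL (Fin 4) 𝕜)
    (ha : (a : GL (Fin 4) 𝕜 ⧸ Subgroup.center (GL (Fin 4) 𝕜)) = a')
    (hb : (b : GL (Fin 4) 𝕜 ⧸ Subgroup.center (GL (Fin 4) 𝕜)) = b')
    (hc : (c : GL (Fin 4) 𝕜 ⧸ Subgroup.center (GL (Fin 4) 𝕜)) = c')
    (hs : (s : GL (Fin 4) 𝕜 ⧸ Subgroup.center (GL (Fin 4) 𝕜)) = s')
    (ht : (t : GL (Fin 4) 𝕜 ⧸ Subgroup.center (GL (Fin 4) 𝕜)) = t') :
    sl HA a b c s t = sl HA a' b' c' s' t' := by
  obtain ⟨la, ha⟩ := T5_HA ha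
  obtain ⟨lb, hb⟩ := T5_HA hb
  obtain ⟨lc, hc⟩ := T5_HA hc
  obtain ⟨ls, hs⟩ := T5_HA hs
  obtain ⟨lt, ht⟩ := T5_HA ht
  have hH := HA_hive (𝕜 := 𝕜)
  have hb2 : ∀ A C E, HA A b' C E = HA A b C E - lb := fun A C E => by
    rw [hH.s12 A b' C E, hb, hH.s12 b A C E]
  have hb3 : ∀ A B E, HA A B b' E = HA A B b E - lb := fun A B E => by
    rw [hH.s23 A B b' E, hb2, hH.s23 A b B E]
  have hb4 : ∀ A B C, HA A B C b' = HA A B C b - lb := fun A B C => by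
    rw [hH.s34 A B C b', hb3, hH.s34 A B b C]
  have hc2 : ∀ A C E, HA A c' C E = HA A c C E - lc := fun A C E => by
    rw [hH.s12 A c' C E, hc, hH.s12 c A C E]
  have hc3 : ∀ A B E, HA A B c' E = HA A B c E - lc := fun A B E => by
    rw [hH.s23 A B c' E, hc2, hH.s23 A c B E]
  have hc4 : ∀ A B C, HA A B C c' = HA A B C c - lc := fun A B C => by
    rw [hH.s34 A B C c', hc3, hH.s34 A B c C]
  have ha2 : ∀ A C E, HA A a' C E = HA A a C E - la := fun A C E => by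
    rw [hH.s12 A a' C E, ha, hH.s12 a A C E]
  have ha3 : ∀ A B E, HA A B a' E = HA A B a E - la := fun A B E => by
    rw [hH.s23 A B a' E, ha2, hH.s23 A a B E]
  have ha4 : ∀ A B C, HA A B C a' = HA A B C a - la := fun A B C => by
    rw [hH.s34 A B C a', ha3, hH.s34 A B a C]
  have ht2 : ∀ A C E, HA A t' C E = HA A t C E - lt := fun A C E => by
    rw [hH.s12 A t' C E, ht, hH.s12 t A C E]
  unfold sl
  rw [hs, hs, hs, hs, ht2, ht2, ht2, ht2, ha3 s t a', ha4 s t a, hb3 s t c', hc4 s t b,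
    ha3 s t b', hb4 s t a, ha3 s t c', hc4 s t a]
  ring

theorem T5_SS (c : 𝕜) (A : Matrix (Fin 4) (Fin 4) 𝕜) :
    SS (Matrix.scalar (Fin 4) c * A) = ‖c‖ ^ 2 * SS A := by
  unfold SS
  rw [Finset.mul_sum]
  refine Finset.sum_congr rfl fun i _ => ?_
  rw [Finset.mul_sum]
  refine Finset.sum_congr rfl fun j _ => ?_
  rw [Matrix.scalar_apply, Matrix.diagonal_mul, norm_mul, mul_pow]

end

theorem exists_pglSpace.{u} (𝕜 : Type u) [RCLike 𝕜] :
    ∃ S : AHSpace (GL (Fin 4) 𝕜 ⧸ Subgroup.center (GL (Fin 4) 𝕜))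
      (GL (Fin 4) 𝕜 ⧸ Subgroup.center (GL (Fin 4) 𝕜)),
      ∀ A B : GL (Fin 4) 𝕜, dst S.H (A : GL (Fin 4) 𝕜 ⧸ Subgroup.center (GL (Fin 4) 𝕜)) B
        = dst HA A B := by
  obtain ⟨S, hH, -, -⟩ := exists_frSpace 𝕜
  have h := T5_quot (G := GL (Fin 4) 𝕜) (P := GL (Fin 4) 𝕜)
    (G' := GL (Fin 4) 𝕜 ⧸ Subgroup.center (GL (Fin 4) 𝕜))
    (P' := GL (Fin 4) 𝕜 ⧸ Subgroup.center (GL (Fin 4) 𝕜))
    (fun g => (g : GL (Fin 4) 𝕜 ⧸ Subgroup.center (GL (Fin 4) 𝕜))) QuotientGroup.mk_surjective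
    (fun g => (g : GL (Fin 4) 𝕜 ⧸ Subgroup.center (GL (Fin 4) 𝕜))) QuotientGroup.mk_surjective
    (fun g x => rfl)
    (by
      intro x y h
      obtain ⟨c, hc, h1⟩ := T5_mk h
      exact ⟨T5_sc c hc, (QuotientGroup.eq_one_iff _).2 (T5_sc_center c hc), h1⟩)
    S
    (by
      rw [hH]
      exact T5_sl)
  obtain ⟨S', hS'⟩ := h
  refine ⟨S', fun A B => ?_⟩
  rw [← hH]
  exact hS' A B

theorem AdmA_PGLk.{u} (𝕜 : Type u) [RCLike 𝕜] :
    AdmA.{u, u} (GL (Fin 4) 𝕜 ⧸ Subgroup.center (GL (Fin 4) 𝕜)) := by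
  obtain ⟨S, hS⟩ := exists_pglSpace 𝕜
  have hcont : Continuous (fun g : GL (Fin 4) 𝕜 =>
      (g : GL (Fin 4) 𝕜 ⧸ Subgroup.center (GL (Fin 4) 𝕜))) := QuotientGroup.continuous_mk
  refine ⟨?_, Unit, inferInstance,
    fun _ => GL (Fin 4) 𝕜 ⧸ Subgroup.center (GL (Fin 4) 𝕜), fun _ => inferInstance, fun _ => S,
    fun _ => ⟨1⟩, fun R => ?_⟩
  · obtain ⟨K, hK, hK'⟩ := GL_nhds (𝕜 := 𝕜)
    refine ⟨_, ?_, hK'.image hcont⟩
    exact (QuotientGroup.isOpenMap_coe (G := GL (Fin 4) 𝕜)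
      (N := Subgroup.center (GL (Fin 4) 𝕜))).image_mem_nhds hK
  · refine ⟨_, 1, (isCompact_GL (𝕜 := 𝕜) (max 4 (4 * Real.exp (2 * R)))).image hcont,
      fun u => ?_⟩
    obtain ⟨A, hA⟩ := QuotientGroup.mk_surjective (u ())
    refine ⟨u (), {1}, le_of_eq (Finset.card_singleton _), fun g hg => ⟨1, by simp, ?_⟩⟩
    obtain ⟨g0, rfl⟩ := QuotientGroup.mk_surjective g
    have h1 : dst HA A (g0 * A) ≤ R := by
      rw [← hS]
      have h2 : ∑ k : Unit, dst S.H (u k)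
          ((g0 : GL (Fin 4) 𝕜 ⧸ Subgroup.center (GL (Fin 4) 𝕜)) • u k)
          = dst S.H (u ()) ((g0 : GL (Fin 4) 𝕜 ⧸ Subgroup.center (GL (Fin 4) 𝕜)) • u ()) := by
        simp
      have h3 := h2.symm.trans_le hg
      rw [← hA] at h3
      exact h3
    obtain ⟨h4, -, -⟩ := SS_of_dst A g0 R h1
    set X : GL (Fin 4) 𝕜 := A⁻¹ * g0 * A with hX
    have hp := SS_pos X
    have hc0 : (0 : ℝ) < 2 / Real.sqrt (SS X.1) := div_pos two_pos (Real.sqrt_pos.2 hp)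
    set c : ℝ := 2 / Real.sqrt (SS X.1) with hcdef
    have hc2 : c ^ 2 * SS X.1 = 4 := by
      rw [hcdef, div_pow, Real.sq_sqrt hp.le]
      field_simp
      norm_num
    have hc : (c : 𝕜) ≠ 0 := by
      exact_mod_cast hc0.ne'
    have hcn : ‖(c : 𝕜)‖ = c := by
      rw [RCLike.norm_ofReal, abs_of_pos hc0]
    refine ⟨T5_sc (c : 𝕜) hc * X, ⟨?_, ?_⟩, ?_⟩
    · rw [Units.val_mul, T5_sc_val, T5_SS, hcn, hc2]
      exact le_max_left _ _
    · have h5 : ((T5_sc (c : 𝕜) hc * X)⁻¹).1 = Matrix.scalar (Fin 4) ((c : 𝕜)⁻¹) * (X⁻¹).1 := by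
        have h6 : (T5_sc (c : 𝕜) hc)⁻¹ = T5_sc ((c : 𝕜)⁻¹) (inv_ne_zero hc) := by
          rw [inv_eq_iff_mul_eq_one]
          apply Units.ext
          rw [Units.val_mul, T5_sc_val, T5_sc_val, ← map_mul, mul_inv_cancel₀ hc, map_one,
            Units.val_one]
        have h7 := Subgroup.mem_center_iff.1 (T5_sc_center ((c : 𝕜)⁻¹) (inv_ne_zero hc)) X⁻¹
        rw [mul_inv_rev, h6, h7, Units.val_mul, T5_sc_val]
      rw [h5, T5_SS, norm_inv, hcn]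
      refine le_trans ?_ (le_max_right _ _)
      have h8 : (c⁻¹) ^ 2 = SS X.1 / 4 := by
        rw [inv_pow, eq_div_iff (by norm_num), ← hc2]
        field_simp
      rw [h8]
      linarith
    · have h9 : ((T5_sc (c : 𝕜) hc : GL (Fin 4) 𝕜) :
          GL (Fin 4) 𝕜 ⧸ Subgroup.center (GL (Fin 4) 𝕜)) = 1 :=
        (QuotientGroup.eq_one_iff _).2 (T5_sc_center _ hc)
      have h10 : ((T5_sc (c : 𝕜) hc * X : GL (Fin 4) 𝕜) :
          GL (Fin 4) 𝕜 ⧸ Subgroup.center (GL (Fin 4) 𝕜))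
          = ((T5_sc (c : 𝕜) hc : GL (Fin 4) 𝕜) :
            GL (Fin 4) 𝕜 ⧸ Subgroup.center (GL (Fin 4) 𝕜)) * (X : GL (Fin 4) 𝕜) := rfl
      change ((T5_sc (c : 𝕜) hc * X : GL (Fin 4) 𝕜) :
          GL (Fin 4) 𝕜 ⧸ Subgroup.center (GL (Fin 4) 𝕜)) = _
      rw [h10, h9, one_mul, hX, ← hA, inv_one, one_mul]
      rfl

end RapidDecay
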