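import Pool.Agent.Lib.MP_fee02f_an.AR.A0
import Pool.Agent.Lib.MP_fee02f_an.DefsA

/-!
T6: non-archimedean groups: `Adm` implies `AdmA` (60 min).

PROOF. `HiveSpace.toAH`: c = 1, Mvr r k a b m := m = mv r k a b; Mvr_near: mv_eq and dst m m = 0; Mvr_sl: mv_sl is exact;
cover: S = the ball itself (growth), dst b b = 0.
`AdmA_of_Adm`: spaces X_k and Y, stabilisers of points of Y compact and open, finitely many orbits, every stabiliser of a family z is
contained in some stabiliser of y.  Compact neighbourhood of 1: the stabiliser of a point of Y (X_k nonempty, so Y is nonempty).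
Given R: let y_1, .., y_n be representatives of the orbits of Y and K = the union of the Stab(y_j) (finite union of compact
sets).  N = number of points in the product of the balls {b : dst a b ≤ R} (bounded by the growth, uniformly in a; dst ≥ 0 on a
hive, so the sum ≤ R implies each dst ≤ R).  For u let y with Stab(u) ≤ Stab(y), y = h y_j, and for every family v in the product of
the balls which is of the form g u choose one g_v; s = {g_v}.  If g u = v then g_v⁻¹ g fixes u, hence y, so
h⁻¹ (g_v⁻¹ g) h fixes y_j and is in K.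
-/

set_option autoImplicit false

namespace RapidDecay

theorem HiveSpace.toAH {G X : Type*} [Group G] [MulAction G X] (S : HiveSpace G X) :
    ∃ S' : AHSpace G X, S'.H = S.H := by
  refine ⟨
    { H := S.H
      c := 1
      hive := RDA.AHive_mono (RDA.ahive_of_hive S.hive) zero_le_one
      inv := S.inv
      Mvr := fun r k a b m => m = S.mv r k a b
      Mvr_smul := ?_
      Mvr_ex := fun r k a b => ⟨_, rfl⟩
      Mvr_near := ?_
      Mvr_sl := ?_
      cover := ?_ }, rfl⟩
  · intro g r k a b m hm
    rw [hm, S.mv_smul]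
  · intro r k a b b' m m' hg hm hm'
    rw [hm, hm', S.mv_eq r k a b b' hg, RDA.dst_self]
    exact zero_le_one
  · intro r k a b b' m hg hm u v w s t h1 h2 h3
    rw [hm, S.mv_sl r k a b b' hg u v w s t h1 h2 h3, sub_self, abs_zero]
    exact zero_le_one
  · obtain ⟨C, hC⟩ := S.growth
    refine ⟨C, fun a m => ?_⟩
    obtain ⟨hfin, hcard⟩ := hC a m
    refine ⟨hfin.toFinset, ?_, ?_⟩
    · rw [← Set.ncard_eq_toFinset_card _ hfin]
      exact hcard
    · intro b hb
      refine ⟨b, ?_, ?_⟩
      · rw [Set.Finite.mem_toFinset]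
        exact hb
      · rw [RDA.dst_self]
        exact zero_le_one

theorem AdmA_of_Adm.{u, w} {G : Type w} [Group G] [TopologicalSpace G] [IsTopologicalGroup G]
    (hG : Adm.{u, w} G) : AdmA.{u, w} G := by
  classical
  obtain ⟨κ, fκ, X, aX, hX, Y, aY, hne, hop, hcomp, hfin, hstab⟩ := hG
  have hS := fun k => HiveSpace.toAH (hX k)
  choose S hS using hS
  have hd0 : ∀ k (a b : X k), 0 ≤ dst (hX k).H a b := by
    intro k a b
    have := RDA.dst_ge (RDA.ahive_of_hive (hX k).hive) a b
    linarith
  refine ⟨?_, κ, fκ, X, aX, S, hne, ?_⟩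
  · obtain ⟨y, -⟩ := hstab (fun k => (hne k).some)
    exact ⟨_, (hop y).mem_nhds (one_mem (MulAction.stabilizer G y)), hcomp y⟩
  · intro R
    have hgr := fun k => (hX k).growth
    choose C hC using hgr
    obtain ⟨m, hm⟩ : ∃ m : ℕ, R ≤ m := exists_nat_ge R
    refine ⟨⋃ q : MulAction.orbitRel.Quotient G Y, (MulAction.stabilizer G q.out : Set G),
      ∏ k, C k ^ (m + 1), isCompact_iUnion fun q => hcomp _, ?_⟩
    intro u
    obtain ⟨y, hy⟩ := hstab u
    -- the representative
    obtain ⟨q, hq⟩ : ∃ q : MulAction.orbitRel.Quotient G Y,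
        q = Quotient.mk (MulAction.orbitRel G Y) y := ⟨_, rfl⟩
    obtain ⟨h, hh⟩ : ∃ h : G, h • q.out = y := by
      have h1 : (MulAction.orbitRel G Y).r y q.out := by
        apply Quotient.exact
        rw [hq]
        exact (Quotient.out_eq _).symm
      exact h1
    have hex : ∀ v : (∀ k, X k), ∃ g : G, (∃ g' : G, g' • u = v) → g • u = v := by
      intro v
      by_cases hv : ∃ g' : G, g' • u = v
      · obtain ⟨g', hg'⟩ := hv
        exact ⟨g', fun _ => hg'⟩
      · exact ⟨1, fun h0 => absurd h0 hv⟩
    choose gv hgv using hex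
    refine ⟨h, (Fintype.piFinset (fun k => ((hC k) (u k) m).1.toFinset)).image gv, ?_, ?_⟩
    · refine Finset.card_image_le.trans ?_
      rw [Fintype.card_piFinset]
      apply Finset.prod_le_prod' fun k _ => ?_
      rw [← Set.ncard_eq_toFinset_card _ ((hC k) (u k) m).1]
      exact ((hC k) (u k) m).2
    · intro g hle
      refine ⟨gv (g • u), ?_, ?_⟩
      · rw [Finset.mem_image]
        refine ⟨g • u, ?_, rfl⟩
        rw [Fintype.mem_piFinset]
        intro k
        rw [Set.Finite.mem_toFinset]
        have h1 : ∑ k, dst (hX k).H (u k) (g • u k) ≤ R := by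
          simpa only [hS] using hle
        have h2 : dst (hX k).H (u k) (g • u k) ≤ ∑ k, dst (hX k).H (u k) (g • u k) :=
          Finset.single_le_sum (f := fun k => dst (hX k).H (u k) (g • u k))
            (fun k _ => hd0 k _ _) (Finset.mem_univ k)
        show dst (hX k).H (u k) (g • u k) ≤ m
        linarith
      · apply Set.mem_iUnion.2
        refine ⟨q, ?_⟩
        have h1 : gv (g • u) • u = g • u := hgv (g • u) ⟨g, rfl⟩
        have h2 : (gv (g • u))⁻¹ * g ∈ MulAction.stabilizer G u := by
          rw [MulAction.mem_stabilizer_iff, mul_smul]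
          exact inv_smul_eq_iff.2 h1.symm
        have h3 := hy h2
        rw [MulAction.mem_stabilizer_iff, ← hh] at h3
        show h⁻¹ * ((gv (g • u))⁻¹ * g) * h ∈ MulAction.stabilizer G q.out
        rw [MulAction.mem_stabilizer_iff, mul_smul, mul_smul, h3, inv_smul_smul]

end RapidDecay
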