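import Pool.Agent.Lib.MP_fee02f_an.AR.T1

/-!
V1: `AdmA` passes to uniformly proper homomorphisms, in particular to uniformly embedded closed
subgroups and to closed cocompact subgroups.
-/

set_option autoImplicit false

namespace RapidDecay

open scoped Pointwise

/-- A homomorphism `φ : H → G` is uniformly proper if for every compact set `K` of `G` there are a
compact set `K'` of `H` and a number `N` such that for every `h` in `G` the elements `g` of `H`
with `φ g` in `h K h⁻¹` lie in at most `N` translates of `l K' l⁻¹` for some `l` in `H`. -/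
def UHom {H G : Type*} [Group H] [TopologicalSpace H] [Group G] [TopologicalSpace G]
    (φ : H →* G) : Prop :=
  ∀ K : Set G, IsCompact K → ∃ (K' : Set H) (N : ℕ), IsCompact K' ∧
    ∀ h : G, ∃ (l : H) (s : Finset H), s.card ≤ N ∧ ∀ g : H,
      h⁻¹ * φ g * h ∈ K → ∃ t ∈ s, l⁻¹ * (t⁻¹ * g) * l ∈ K'

theorem UHom.of_one {H G : Type*} [Group H] [TopologicalSpace H] [Group G] [TopologicalSpace G]
    (φ : H →* G) (hU : ∀ K : Set G, IsCompact K → ∃ K' : Set H, IsCompact K' ∧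
      ∀ h : G, ∃ l : H, ∀ g : H, h⁻¹ * φ g * h ∈ K → l⁻¹ * g * l ∈ K') : UHom φ := by
  intro K hK
  obtain ⟨K', hK', h⟩ := hU K hK
  refine ⟨K', 1, hK', fun x => ?_⟩
  obtain ⟨l, hl⟩ := h x
  refine ⟨l, {1}, by simp, fun g hg => ⟨1, by simp, ?_⟩⟩
  rw [inv_one, one_mul]
  exact hl g hg

theorem AdmA.hom.{u, w} {H G : Type w} [Group G] [TopologicalSpace G] [IsTopologicalGroup G]
    [Group H] [TopologicalSpace H] (hG : AdmA.{u, w} G) (φ : H →* G)
    (h0 : ∃ K ∈ nhds (1 : H), IsCompact K) (hU : UHom φ) : AdmA.{u, w} H := by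
  classical
  obtain ⟨-, κ, fκ, P, aP, S, hne, hK⟩ := hG
  let aP' : ∀ k, MulAction H (P k) := fun k => MulAction.compHom (P k) φ
  refine ⟨h0, κ, fκ, P, aP',
    fun k => AHSpace.comap (fun g : H => φ g) (fun g x => rfl) (S k), hne, ?_⟩
  intro R
  obtain ⟨K, N, hKc, hKN⟩ := hK R
  obtain ⟨K', N', hK', hl⟩ := hU (K⁻¹ * K) (hKc.inv.mul hKc)
  refine ⟨K', N * N', hK', fun u => ?_⟩
  obtain ⟨h, s, hs, hg⟩ := hKN u
  obtain ⟨l, s', hs', hl⟩ := hl h
  -- representatives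
  let f : G → H := fun t => if ht : ∃ g : H, h⁻¹ * (t⁻¹ * φ g) * h ∈ K then ht.choose else 1
  have hf : ∀ (t : G) (g : H), h⁻¹ * (t⁻¹ * φ g) * h ∈ K → h⁻¹ * (t⁻¹ * φ (f t)) * h ∈ K := by
    intro t g hgt
    have ht : ∃ g : H, h⁻¹ * (t⁻¹ * φ g) * h ∈ K := ⟨g, hgt⟩
    have e : f t = ht.choose := dif_pos ht
    rw [e]
    exact ht.choose_spec
  refine ⟨l, (s ×ˢ s').image fun p => f p.1 * p.2, ?_, fun g hgR => ?_⟩
  · refine Finset.card_image_le.trans ?_
    rw [Finset.card_product]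
    exact Nat.mul_le_mul hs hs'
  · obtain ⟨t, ht, htK⟩ := hg (φ g) hgR
    obtain ⟨t', ht', htK'⟩ := hl ((f t)⁻¹ * g) (by
      have e : h⁻¹ * φ ((f t)⁻¹ * g) * h =
          (h⁻¹ * (t⁻¹ * φ (f t)) * h)⁻¹ * (h⁻¹ * (t⁻¹ * φ g) * h) := by
        rw [map_mul, map_inv]
        group
      rw [e]
      exact Set.mul_mem_mul (Set.inv_mem_inv.2 (hf t g htK)) htK)
    refine ⟨f t * t', Finset.mem_image.2 ⟨(t, t'), Finset.mem_product.2 ⟨ht, ht'⟩, rfl⟩, ?_⟩
    have e : l⁻¹ * ((f t * t')⁻¹ * g) * l = l⁻¹ * (t'⁻¹ * ((f t)⁻¹ * g)) * l := by group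
    rw [e]
    exact htK'

theorem V1_nhds {G : Type*} [Group G] [TopologicalSpace G] (L : Subgroup G)
    (hL : IsClosed (L : Set G)) (h0 : ∃ K ∈ nhds (1 : G), IsCompact K) :
    ∃ K ∈ nhds (1 : L), IsCompact K := by
  obtain ⟨K, hK, hKc⟩ := h0
  refine ⟨(fun x : L => (x : G)) ⁻¹' K, ?_, ?_⟩
  · exact continuous_subtype_val.continuousAt.preimage_mem_nhds (by simpa using hK)
  · exact hL.isClosedEmbedding_subtypeVal.isCompact_preimage hKc

/-- closed uniformly embedded subgroups -/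
theorem AdmA.subgroup.{u, w} {G : Type w} [Group G] [TopologicalSpace G] [IsTopologicalGroup G]
    (hG : AdmA.{u, w} G) (L : Subgroup G) (hL : IsClosed (L : Set G)) (hU : UHom L.subtype) :
    AdmA.{u, w} L :=
  AdmA.hom hG L.subtype (V1_nhds L hL hG.1) hU

/-- a closed cocompact subgroup is uniformly embedded -/
theorem UHom.of_cocompact {G : Type*} [Group G] [TopologicalSpace G] [IsTopologicalGroup G]
    (L : Subgroup G) (hL : IsClosed (L : Set G))
    (hc : ∃ C : Set G, IsCompact C ∧ ∀ h : G, ∃ l ∈ L, l⁻¹ * h ∈ C) : UHom L.subtype := by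
  obtain ⟨C, hC, hCl⟩ := hc
  refine UHom.of_one _ fun K hK => ?_
  refine ⟨(fun x : L => (x : G)) ⁻¹' (C * K * C⁻¹),
    hL.isClosedEmbedding_subtypeVal.isCompact_preimage ((hC.mul hK).mul hC.inv), fun h => ?_⟩
  obtain ⟨l, hl, hlC⟩ := hCl h
  refine ⟨⟨l, hl⟩, fun g hg => ?_⟩
  have e : ((⟨l, hl⟩ : L)⁻¹ * g * ⟨l, hl⟩ : L) =
      ((l⁻¹ * h) * (h⁻¹ * (g : G) * h) * (l⁻¹ * h)⁻¹ : G) := by
    simp only [Subgroup.coe_mul, Subgroup.coe_inv]
    group
  rw [Set.mem_preimage, e]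
  exact Set.mul_mem_mul (Set.mul_mem_mul hlC hg) (Set.inv_mem_inv.2 hlC)

/-- Let `U` be a compact open subgroup of `G` and `L` a closed subgroup such that all compact
subgroups of `L` are conjugate in `L` into a fixed compact set.  Then `L` is uniformly
embedded. -/
theorem UHom.of_compact_subgroups {G : Type*} [Group G] [TopologicalSpace G]
    [IsTopologicalGroup G] (U : Subgroup G) (hUo : IsOpen (U : Set G))
    (hUc : IsCompact (U : Set G)) (L : Subgroup G) (hL : IsClosed (L : Set G))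
    (hM : ∃ M : Set L, IsCompact M ∧ ∀ C : Subgroup L, IsCompact (C : Set L) →
      ∃ l : L, ∀ c ∈ C, l⁻¹ * c * l ∈ M) : UHom L.subtype := by
  classical
  obtain ⟨M, hMc, hM⟩ := hM
  intro K hK
  -- finitely many cosets
  obtain ⟨T, hT⟩ : ∃ T : Finset G, K ⊆ ⋃ k ∈ T, (fun x => k * x) '' (U : Set G) := by
    obtain ⟨T, hT⟩ := hK.elim_finite_subcover (fun k : G => (fun x => k * x) '' (U : Set G))
      (fun k => (Homeomorph.mulLeft k).isOpenMap _ hUo)
      (fun x _ => Set.mem_iUnion.2 ⟨x, ⟨1, U.one_mem, mul_one x⟩⟩)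
    exact ⟨T, hT⟩
  refine ⟨M, T.card, hMc, fun h => ?_⟩
  -- the compact subgroup `L ∩ h U h⁻¹`
  let C : Subgroup L := (U.map (MulAut.conj h).toMonoidHom).comap L.subtype
  have hCmem : ∀ x : L, x ∈ C ↔ h⁻¹ * (x : G) * h ∈ U := by
    intro x
    rw [Subgroup.mem_comap, Subgroup.mem_map]
    constructor
    · rintro ⟨u, hu, hux⟩
      have hux' : h * u * h⁻¹ = (x : G) := hux
      rw [← hux']
      have e : h⁻¹ * (h * u * h⁻¹) * h = u := by group
      rwa [e]
    · intro hx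
      refine ⟨_, hx, ?_⟩
      show h * (h⁻¹ * (x : G) * h) * h⁻¹ = (x : G)
      group
  have hCc : IsCompact (C : Set L) := by
    have h1 : IsCompact ((fun x => h * x * h⁻¹) '' (U : Set G)) := hUc.image (by fun_prop)
    have h2 : (C : Set L) = (fun x : L => (x : G)) ⁻¹' ((fun x => h * x * h⁻¹) '' (U : Set G)) := by
      ext x
      rw [SetLike.mem_coe, hCmem]
      constructor
      · intro hx
        refine ⟨_, hx, ?_⟩
        show h * (h⁻¹ * (x : G) * h) * h⁻¹ = (x : G)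
        group
      · rintro ⟨u, hu, hux⟩
        have hux' : h * u * h⁻¹ = (x : G) := hux
        rw [← hux']
        have e : h⁻¹ * (h * u * h⁻¹) * h = u := by group
        rwa [e]
    rw [h2]
    exact hL.isClosedEmbedding_subtypeVal.isCompact_preimage h1
  obtain ⟨l, hl⟩ := hM C hCc
  let f : G → L := fun k =>
    if ht : ∃ g : L, h⁻¹ * (g : G) * h ∈ (fun x => k * x) '' (U : Set G) then ht.choose else 1
  have hf : ∀ (k : G) (g : L), h⁻¹ * (g : G) * h ∈ (fun x => k * x) '' (U : Set G) →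
      h⁻¹ * (f k : G) * h ∈ (fun x => k * x) '' (U : Set G) := by
    intro k g hg
    have ht : ∃ g : L, h⁻¹ * (g : G) * h ∈ (fun x => k * x) '' (U : Set G) := ⟨g, hg⟩
    have e : f k = ht.choose := dif_pos ht
    rw [e]
    exact ht.choose_spec
  refine ⟨l, T.image f, Finset.card_image_le, fun g hg => ?_⟩
  obtain ⟨k, hk, hgk⟩ := Set.mem_iUnion₂.1 (hT hg)
  refine ⟨f k, Finset.mem_image_of_mem f hk, hl _ ?_⟩
  rw [hCmem]
  obtain ⟨u, hu, hue⟩ := hgk
  obtain ⟨v, hv, hve⟩ := hf k g ⟨u, hu, hue⟩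
  have hue' : k * u = h⁻¹ * (g : G) * h := hue
  have hve' : k * v = h⁻¹ * (f k : G) * h := hve
  have e : h⁻¹ * (((f k)⁻¹ * g : L) : G) * h = v⁻¹ * u := by
    rw [Subgroup.coe_mul, Subgroup.coe_inv]
    have e1 : h⁻¹ * ((f k : G)⁻¹ * (g : G)) * h =
        (h⁻¹ * (f k : G) * h)⁻¹ * (h⁻¹ * (g : G) * h) := by group
    rw [e1, ← hue', ← hve']
    group
  rw [e]
  exact U.mul_mem (U.inv_mem hv) hu

end RapidDecay
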