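import Pool.Agent.Lib.MP_fee02f_an.AR.V1

/-!
V2: the fixed points of an involution which commutes with `star` are uniformly embedded.
-/

set_option autoImplicit false

namespace RapidDecay

/-- a topological group with an involution, a set of positive elements which have unique positive
square roots, and a proper size function -/
structure Cartan (G : Type*) [Group G] [StarMul G] [TopologicalSpace G] where
  pos : G → Prop
  pos_star : ∀ g, pos (g * star g)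
  star_pos : ∀ p, pos p → star p = p
  sqrt : ∀ p, pos p → ∃ r, pos r ∧ r * r = p
  sqrt_unique : ∀ p q, pos p → pos q → p * p = q * q → p = q
  N : G → ℝ
  N_cont : Continuous N
  N_le : ∀ s g, pos s → N g ≤ max (N (s * g * s⁻¹)) (N (s⁻¹ * g * s))
  proper : ∀ c, IsCompact {g | N g ≤ c ∧ N g⁻¹ ≤ c}
  unit : IsCompact {k : G | k * star k = 1}

section

variable {G : Type*} [Group G] [StarMul G] [TopologicalSpace G]

theorem Cartan.pos_conj (D : Cartan G) (g p : G) (hp : D.pos p) : D.pos (g * p * star g) := by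
  obtain ⟨r, hr, rfl⟩ := D.sqrt p hp
  have h := D.pos_star (g * r)
  rw [star_mul, D.star_pos r hr] at h
  have e : g * r * (r * star g) = g * (r * r) * star g := by group
  rwa [e] at h

omit [TopologicalSpace G] in
theorem star_inv_eq (g : G) : star g⁻¹ = (star g)⁻¹ := by
  have h : star g⁻¹ * star g = 1 := by
    rw [← star_mul, mul_inv_cancel, star_one]
  exact eq_inv_of_mul_eq_one_left h

theorem Cartan.pos_inv (D : Cartan G) (p : G) (hp : D.pos p) : D.pos p⁻¹ := by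
  have h := D.pos_conj p⁻¹ p hp
  rw [star_inv_eq, D.star_pos p hp] at h
  have e : p⁻¹ * p * p⁻¹ = p⁻¹ := by group
  rwa [e] at h

theorem Cartan.pos_map (D : Cartan G) (σ : G →* G) (hs : ∀ g, σ (star g) = star (σ g)) (p : G)
    (hp : D.pos p) : D.pos (σ p) := by
  obtain ⟨r, hr, rfl⟩ := D.sqrt p hp
  have h := D.pos_star (σ r)
  rw [← hs, D.star_pos r hr] at h
  rwa [map_mul]

/-- the geometric mean -/
theorem Cartan.mean (D : Cartan G) (P Q : G) (hP : D.pos P) (hQ : D.pos Q) :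
    ∃ m, D.pos m ∧ m * P⁻¹ * m = Q := by
  obtain ⟨r, hr, rfl⟩ := D.sqrt P hP
  have hri := D.pos_inv r hr
  have h1 := D.pos_conj r⁻¹ Q hQ
  rw [D.star_pos _ hri] at h1
  obtain ⟨t, ht, htt⟩ := D.sqrt _ h1
  have h2 := D.pos_conj r t ht
  rw [D.star_pos _ hr] at h2
  refine ⟨r * t * r, h2, ?_⟩
  have e : r * t * r * (r * r)⁻¹ * (r * t * r) = r * (t * t) * r := by group
  rw [e, htt]
  group

theorem Cartan.mean_unique (D : Cartan G) (P m m' : G) (hP : D.pos P) (hm : D.pos m)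
    (hm' : D.pos m') (h : m * P⁻¹ * m = m' * P⁻¹ * m') : m = m' := by
  obtain ⟨r, hr, rfl⟩ := D.sqrt P hP
  have hri := D.pos_inv r hr
  have h1 := D.pos_conj r⁻¹ m hm
  have h2 := D.pos_conj r⁻¹ m' hm'
  rw [D.star_pos _ hri] at h1 h2
  have h3 := D.sqrt_unique _ _ h1 h2 (by
    have e1 : r⁻¹ * m * r⁻¹ * (r⁻¹ * m * r⁻¹) = r⁻¹ * (m * (r * r)⁻¹ * m) * r⁻¹ := by group
    have e2 : r⁻¹ * m' * r⁻¹ * (r⁻¹ * m' * r⁻¹) = r⁻¹ * (m' * (r * r)⁻¹ * m') * r⁻¹ := by group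
    rw [e1, e2, h])
  have h4 : r * (r⁻¹ * m * r⁻¹) * r = r * (r⁻¹ * m' * r⁻¹) * r := by rw [h3]
  have e1 : r * (r⁻¹ * m * r⁻¹) * r = m := by group
  have e2 : r * (r⁻¹ * m' * r⁻¹) * r = m' := by group
  rwa [e1, e2] at h4

/-- Mostow decomposition -/
theorem Cartan.decomp (D : Cartan G) (σ : G →* G) (hσ : ∀ g, σ (σ g) = g)
    (hs : ∀ g, σ (star g) = star (σ g)) (h : G) :
    ∃ l s k, σ l = l ∧ D.pos s ∧ σ s = s⁻¹ ∧ k * star k = 1 ∧ h = l * s * k := by
  have hP := D.pos_star h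
  set P := h * star h with hPd
  have hQ := D.pos_map σ hs P hP
  obtain ⟨m, hm, hmm⟩ := D.mean P (σ P) hP hQ
  -- `σ m = m`
  have hσm : σ m = m := by
    refine D.mean_unique P _ _ hP (D.pos_map σ hs m hm) hm ?_
    have h1 : σ (m * P⁻¹ * m) = P := by rw [hmm, hσ]
    rw [map_mul, map_mul, map_inv, ← hmm] at h1
    -- `σ m * (m P⁻¹ m)⁻¹ * σ m = P`
    rw [hmm]
    rw [hmm] at h1
    -- h1 : σ m * (σ P)⁻¹ * σ m = P
    have h2 : σ m * (σ m * (σ P)⁻¹ * σ m)⁻¹ * σ m = σ P := by group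
    rwa [h1] at h2
  obtain ⟨l, hl, hll⟩ := D.sqrt m hm
  have hσl : σ l = l := by
    refine D.sqrt_unique _ _ (D.pos_map σ hs l hl) hl ?_
    rw [← map_mul, hll, hσm]
  have hli := D.pos_inv l hl
  have hP' := D.pos_conj l⁻¹ P hP
  rw [D.star_pos _ hli] at hP'
  obtain ⟨s, hs', hss⟩ := D.sqrt _ hP'
  have hσs : σ s = s⁻¹ := by
    refine D.sqrt_unique _ _ (D.pos_map σ hs s hs') (D.pos_inv s hs') ?_
    have e1 : σ s * σ s = l⁻¹ * σ P * l⁻¹ := by
      rw [← map_mul, hss, map_mul, map_mul, map_inv, hσl]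
    have e2 : s⁻¹ * s⁻¹ = (s * s)⁻¹ := by group
    rw [e1, e2, hss, ← hmm, ← hll]
    group
  refine ⟨l, s, s⁻¹ * l⁻¹ * h, hσl, hs', hσs, ?_, by group⟩
  rw [star_mul, star_mul, D.star_pos _ (D.pos_inv s hs'), D.star_pos _ hli]
  have e : s⁻¹ * l⁻¹ * h * (star h * (l⁻¹ * s⁻¹)) = s⁻¹ * (l⁻¹ * (h * star h) * l⁻¹) * s⁻¹ := by
    group
  rw [e, ← hPd, ← hss]
  group

theorem Cartan.bdd (D : Cartan G) {K : Set G} (hK : IsCompact K) : ∃ c, ∀ g ∈ K, D.N g ≤ c := by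
  obtain ⟨c, hc⟩ := hK.bddAbove_image D.N_cont.continuousOn
  exact ⟨c, fun g hg => hc ⟨g, hg, rfl⟩⟩

/-- the fixed points of a continuous involution which commutes with `star` -/
def fixSub (σ : G →* G) : Subgroup G where
  carrier := {g | σ g = g}
  mul_mem' := by
    intro a b ha hb
    rw [Set.mem_ofPred_eq] at ha hb ⊢
    rw [map_mul, ha, hb]
  one_mem' := map_one σ
  inv_mem' := by
    intro a ha
    rw [Set.mem_ofPred_eq] at ha ⊢
    rw [map_inv, ha]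

omit [StarMul G] in
theorem fixSub_closed [T2Space G] (σ : G →* G) (hc : Continuous σ) :
    IsClosed (fixSub σ : Set G) := isClosed_eq hc continuous_id

theorem Cartan.uHom [T2Space G] [IsTopologicalGroup G] (D : Cartan G) (σ : G →* G)
    (hc : Continuous σ) (hσ : ∀ g, σ (σ g) = g) (hs : ∀ g, σ (star g) = star (σ g)) :
    UHom (fixSub σ).subtype := by
  refine UHom.of_one _ fun K hK => ?_
  let f : G × G → G := fun p => p.1 * p.2 * p.1⁻¹
  have hf : Continuous f := by fun_prop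
  have hK1 : IsCompact (f '' ({k : G | k * star k = 1} ×ˢ K)) := (D.unit.prod hK).image hf
  obtain ⟨c1, hc1⟩ := D.bdd hK1
  obtain ⟨c2, hc2⟩ := D.bdd (hK1.image hc)
  obtain ⟨c3, hc3⟩ := D.bdd hK1.inv
  obtain ⟨c4, hc4⟩ := D.bdd (hK1.inv.image hc)
  set c := max (max c1 c2) (max c3 c4) with hcd
  refine ⟨(fun x : fixSub σ => (x : G)) ⁻¹' {g | D.N g ≤ c ∧ D.N g⁻¹ ≤ c},
    (fixSub_closed σ hc).isClosedEmbedding_subtypeVal.isCompact_preimage (D.proper c),
    fun h => ?_⟩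
  obtain ⟨l, s, k, hl, hs', hσs, hk, rfl⟩ := D.decomp σ hσ hs h
  refine ⟨⟨l, hl⟩, fun g hg => ?_⟩
  have hgf : σ (g : G) = g := g.2
  set g' : G := l⁻¹ * g * l with hg'
  have hσg' : σ g' = g' := by
    rw [hg', map_mul, map_mul, map_inv, hl, hgf]
  have hx : s⁻¹ * g' * s ∈ f '' ({k : G | k * star k = 1} ×ˢ K) := by
    refine ⟨(k, (l * s * k)⁻¹ * g * (l * s * k)), ⟨hk, hg⟩, ?_⟩
    show k * ((l * s * k)⁻¹ * g * (l * s * k)) * k⁻¹ = s⁻¹ * (l⁻¹ * g * l) * s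
    group
  have hσx : σ (s⁻¹ * g' * s) = s * g' * s⁻¹ := by
    rw [map_mul, map_mul, map_inv, hσs, hσg', inv_inv]
  have hxi : s⁻¹ * g'⁻¹ * s = (s⁻¹ * g' * s)⁻¹ := by group
  have hxi2 : s * g'⁻¹ * s⁻¹ = σ ((s⁻¹ * g' * s)⁻¹) := by
    rw [map_inv, hσx]; group
  have hmem : (((⟨l, hl⟩ : fixSub σ)⁻¹ * g * ⟨l, hl⟩ : fixSub σ) : G) = g' := rfl
  rw [Set.mem_preimage, hmem]
  constructor
  · refine (D.N_le s g' hs').trans (max_le ?_ ?_)
    · rw [← hσx]
      exact (hc2 _ ⟨_, hx, rfl⟩).trans ((le_max_right _ _).trans (le_max_left _ _))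
    · exact (hc1 _ hx).trans ((le_max_left _ _).trans (le_max_left _ _))
  · refine (D.N_le s g'⁻¹ hs').trans (max_le ?_ ?_)
    · rw [hxi2]
      exact (hc4 _ ⟨_, Set.inv_mem_inv.2 hx, rfl⟩).trans
        ((le_max_right _ _).trans (le_max_right _ _))
    · rw [hxi]
      exact (hc3 _ (Set.inv_mem_inv.2 hx)).trans ((le_max_left _ _).trans (le_max_right _ _))

end

end RapidDecay
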