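import Pool.Agent.Lib.MP_fee02f_an.AR.V2
import Pool.Agent.Lib.MP_fee02f_an.AR.T3b

/-!
V3: `GL_4(𝕜)`, `𝕜 = ℝ, ℂ`, and its subgroups fixed by an involution.
-/

set_option autoImplicit false

open scoped MatrixGroups

namespace RapidDecay

variable {𝕜 : Type*} [RCLike 𝕜]

theorem V3_trace (A : Matrix (Fin 4) (Fin 4) 𝕜) :
    (A.conjTranspose * A).trace = ((SS A : ℝ) : 𝕜) := by
  rw [Matrix.trace, SS, Finset.sum_comm]
  push_cast
  refine Finset.sum_congr rfl fun j _ => ?_
  rw [Matrix.diag_apply, Matrix.mul_apply]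
  refine Finset.sum_congr rfl fun i _ => ?_
  rw [Matrix.conjTranspose_apply, RCLike.star_def, RCLike.conj_mul]

theorem V3_SS (A B : Matrix (Fin 4) (Fin 4) 𝕜) (c : ℝ)
    (h : (A.conjTranspose * B).trace = (c : 𝕜)) : c ≤ max (SS A) (SS B) := by
  have h1 := V3_trace (A - B)
  have h2 : (B.conjTranspose * A).trace = (c : 𝕜) := by
    have e : B.conjTranspose * A = (A.conjTranspose * B).conjTranspose := by
      rw [Matrix.conjTranspose_mul, Matrix.conjTranspose_conjTranspose]
    rw [e, Matrix.trace_conjTranspose, h, RCLike.star_def, RCLike.conj_ofReal]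
  rw [Matrix.conjTranspose_sub, Matrix.sub_mul, Matrix.mul_sub, Matrix.mul_sub,
    Matrix.trace_sub, Matrix.trace_sub, Matrix.trace_sub, V3_trace, V3_trace, h, h2] at h1
  have h3 : SS A - c - (c - SS B) = SS (A - B) := by exact_mod_cast h1
  have h4 := T3a_SS_nonneg (A - B)
  have h5 := le_max_left (SS A) (SS B)
  have h6 := le_max_right (SS A) (SS B)
  linarith

open scoped MatrixOrder ComplexOrder

theorem V3_star (g : GL (Fin 4) 𝕜) : (star g).1 = g.1.conjTranspose := rfl

theorem V3_N_le (s g : GL (Fin 4) 𝕜) (hs : s.1.PosDef) :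
    SS g.1 ≤ max (SS (s * g * s⁻¹).1) (SS (s⁻¹ * g * s).1) := by
  refine V3_SS _ _ _ ?_
  have hss : star s = s := Units.ext hs.isHermitian
  have e : (s * g * s⁻¹).1.conjTranspose * (s⁻¹ * g * s).1 = (s⁻¹ * (star g * g) * s).1 := by
    rw [← V3_star, ← Units.val_mul, star_mul, star_mul, star_inv_eq, hss]
    congr 1
    group
  rw [e, ← V3_trace, ← V3_star, ← Units.val_mul]
  have e2 : (s⁻¹ * (star g * g) * s).1 = (s⁻¹).1 * ((star g * g).1 * s.1) := by
    rw [Units.val_mul, Units.val_mul, Matrix.mul_assoc]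
  rw [e2, Matrix.trace_mul_comm, Matrix.mul_assoc, ← Units.val_mul, mul_inv_cancel, Units.val_one,
    Matrix.mul_one]

theorem V3_unit : IsCompact {k : GL (Fin 4) 𝕜 | k * star k = 1} := by
  refine (isCompact_GL (𝕜 := 𝕜) 4).of_isClosed_subset ?_ ?_
  · exact isClosed_eq (continuous_id.mul continuous_star) continuous_const
  · intro k hk
    have hk' : k * star k = 1 := hk
    have hk1 : k⁻¹ = star k := inv_eq_of_mul_eq_one_right hk'
    have hk2 : star k * k = 1 := by rw [← hk1, inv_mul_cancel]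
    have h4 : ∀ A : Matrix (Fin 4) (Fin 4) 𝕜, A.conjTranspose * A = 1 → SS A ≤ 4 := by
      intro A hA
      have h := V3_trace A
      rw [hA, Matrix.trace_one, Fintype.card_fin] at h
      have h5 : (4 : ℝ) = SS A := by exact_mod_cast h
      exact h5.ge
    constructor
    · refine h4 _ ?_
      rw [← V3_star, ← Units.val_mul, hk2, Units.val_one]
    · refine h4 _ ?_
      rw [hk1, ← V3_star, star_star, ← Units.val_mul, hk', Units.val_one]

/-- the Cartan data of `GL_4(𝕜)` -/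
noncomputable def cartanGL (𝕜 : Type*) [RCLike 𝕜] : Cartan (GL (Fin 4) 𝕜) where
  pos g := g.1.PosDef
  pos_star g := by
    rw [Units.val_mul, V3_star]
    refine Matrix.PosDef.mul_conjTranspose_self _ ?_
    exact Matrix.vecMul_injective_of_isUnit g.isUnit
  star_pos p hp := Units.ext hp.isHermitian
  sqrt p hp := by
    have h0 : (0 : Matrix (Fin 4) (Fin 4) 𝕜) ≤ p.1 := hp.posSemidef.nonneg
    have h1 := CFC.sqrt_mul_sqrt_self p.1 h0
    have h2 : (CFC.sqrt p.1).PosSemidef :=
      Matrix.nonneg_iff_posSemidef.1 (CFC.sqrt_nonneg p.1)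
    have hu : IsUnit (CFC.sqrt p.1) := by
      have h3 : IsUnit (CFC.sqrt p.1 * CFC.sqrt p.1) := by rw [h1]; exact p.isUnit
      exact isUnit_of_mul_isUnit_left h3
    refine ⟨hu.unit, ?_, ?_⟩
    · show (CFC.sqrt p.1).PosDef
      exact h2.posDef_iff_isUnit.2 hu
    · ext1
      rw [Units.val_mul]
      exact h1
  sqrt_unique p q hp hq h := by
    have h1 : p.1 * p.1 = q.1 * q.1 := by rw [← Units.val_mul, h, Units.val_mul]
    have h2 := CFC.sqrt_mul_self p.1 hp.posSemidef.nonneg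
    rw [h1, CFC.sqrt_mul_self q.1 hq.posSemidef.nonneg] at h2
    exact Units.ext h2.symm
  N g := SS g.1
  N_cont := T3a_continuous_SS.comp Units.continuous_val
  N_le s g hs := V3_N_le s g hs
  proper := isCompact_GL
  unit := V3_unit

/-- fixed points of involutions of `GL_4(𝕜)` -/
theorem AdmA_fix.{u} (𝕜 : Type u) [RCLike 𝕜] (σ : GL (Fin 4) 𝕜 →* GL (Fin 4) 𝕜)
    (hc : Continuous σ) (hσ : ∀ g, σ (σ g) = g) (hs : ∀ g, σ (star g) = star (σ g)) :
    AdmA.{u, u} (fixSub σ) :=
  AdmA.subgroup (AdmA_GLk 𝕜) (fixSub σ) (fixSub_closed σ hc) ((cartanGL 𝕜).uHom σ hc hσ hs)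

end RapidDecay
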