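import Mathlib
import Pool.Agent.Lib.MP_fee02f_an.DefsL
import Pool.Agent.Lib.MP_fee02f_an.DefsM

/-!
Definitions for isometry groups of epsilon-hermitian forms over non-archimedean local fields
(MP_fee02f_an, stage 2).
-/

set_option autoImplicit false

open scoped WithZero MatrixGroups
open ValuativeRel

namespace RapidDecay

section

variable {E : Type*} [Field E]

/-- the transpose of the matrix with entries `τ (g i j)` -/
def dag (τ : E ≃+* E) (g : Matrix (Fin 4) (Fin 4) E) : Matrix (Fin 4) (Fin 4) E :=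
  (g.map τ).transpose

theorem dag_mul (τ : E ≃+* E) (g h : Matrix (Fin 4) (Fin 4) E) :
    dag τ (g * h) = dag τ h * dag τ g := by
  unfold dag
  rw [← Matrix.transpose_mul]
  congr 1
  ext i j
  simp [Matrix.map_apply, Matrix.mul_apply, map_sum, map_mul]

theorem dag_one (τ : E ≃+* E) : dag τ (1 : Matrix (Fin 4) (Fin 4) E) = 1 := by
  unfold dag
  rw [Matrix.map_one τ (map_zero τ) (map_one τ), Matrix.transpose_one]

/-- the isometry group of the form with Gram matrix `S` -/
def isoGrp (τ : E ≃+* E) (S : Matrix (Fin 4) (Fin 4) E) : Subgroup (GL (Fin 4) E) where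
  carrier := {g | dag τ g.1 * S * g.1 = S}
  mul_mem' := by
    intro g h hg hh
    change dag τ (g.1 * h.1) * S * (g.1 * h.1) = S
    rw [dag_mul]
    calc dag τ h.1 * dag τ g.1 * S * (g.1 * h.1) = dag τ h.1 * (dag τ g.1 * S * g.1) * h.1 := by
          simp only [Matrix.mul_assoc]
      _ = dag τ h.1 * S * h.1 := by rw [show dag τ g.1 * S * g.1 = S from hg]
      _ = S := hh
  one_mem' := by
    change dag τ (1 : Matrix (Fin 4) (Fin 4) E) * S * 1 = S
    rw [dag_one, Matrix.one_mul, Matrix.mul_one]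
  inv_mem' := by
    intro g hg
    change dag τ (g⁻¹).1 * S * (g⁻¹).1 = S
    have h1 : dag τ g.1 * S * g.1 = S := hg
    have h2 : g.1 * (g⁻¹).1 = 1 := by
      rw [← Units.val_mul, mul_inv_cancel, Units.val_one]
    have h3 : dag τ (g⁻¹).1 * dag τ g.1 = 1 := by
      rw [← dag_mul, h2, dag_one]
    calc dag τ (g⁻¹).1 * S * (g⁻¹).1
        = dag τ (g⁻¹).1 * (dag τ g.1 * S * g.1) * (g⁻¹).1 := by rw [h1]
      _ = (dag τ (g⁻¹).1 * dag τ g.1) * S * (g.1 * (g⁻¹).1) := by simp only [Matrix.mul_assoc]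
      _ = S := by rw [h3, h2, Matrix.one_mul, Matrix.mul_one]

/-- the form with Gram matrix `S` -/
def hf (τ : E ≃+* E) (S : Matrix (Fin 4) (Fin 4) E) (x y : Fin 4 → E) : E :=
  ∑ i, ∑ j, τ (x i) * S i j * y j

end

section

variable {E : Type*} [Field E] [ValuativeRel E] [TopologicalSpace E]
  [IsNonarchimedeanLocalField E]

/-- a nondegenerate hermitian (`ε = 1`) or antihermitian (`ε = -1`) form with respect to an
involution `τ` (trivial or not) which preserves the valuation -/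
structure EpsForm (τ : E ≃+* E) (S : GL (Fin 4) E) (ε : E) : Prop where
  inv : ∀ x, τ (τ x) = x
  val : ∀ x, vLoc E (τ x) = vLoc E x
  sq : ε * ε = 1
  herm : dag τ S.1 = ε • S.1

/-- the lattice `B` satisfies `π B^# ⊆ B ⊆ B^#` for the form -/
def GoodLat (τ : E ≃+* E) (S : GL (Fin 4) E) (B : Lat 𝒪[E] E) : Prop :=
  (∀ x ∈ B.1, ∀ y ∈ B.1, vLoc E (hf τ S.1 x y) ≤ 1) ∧
  ∀ π : E, vLoc E π = WithZero.exp (-1) → ∀ x : Fin 4 → E,
    (∀ y ∈ B.1, vLoc E (hf τ S.1 y x) ≤ 1) → π • x ∈ B.1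

/-- every compact subgroup of `L` has a conjugate in a fixed compact subset of `L` -/
def MaxCpt {G : Type*} [Group G] [TopologicalSpace G] (L : Subgroup G) : Prop :=
  ∃ M : Set G, IsCompact M ∧ M ⊆ L ∧ ∀ C : Subgroup G, C ≤ L → IsCompact (C : Set G) →
    ∃ l ∈ L, ∀ c ∈ C, l⁻¹ * c * l ∈ M

end

end RapidDecay
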