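import Pool.Agent.Lib.MP_fee02f_an.AR.V3
import Pool.Agent.Lib.MP_fee02f_an.AR.WDefs

/-!
V4: isometry groups of nondegenerate (anti)hermitian and (anti)symmetric forms over `ℝ`, `ℂ`.
-/

set_option autoImplicit false

open scoped MatrixGroups

namespace RapidDecay

section

variable {G : Type*} [Group G] [StarMul G] [TopologicalSpace G]

/-- isometry groups of forms are uniformly embedded (abstract form) -/
theorem Cartan.uHom_form [T2Space G] [IsTopologicalGroup G] (D : Cartan G) (d : G → G)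
    (hd : ∀ g h, d (g * h) = d h * d g) (hdd : ∀ g, d (d g) = g)
    (hds : ∀ g, d (star g) = star (d g)) (hdc : Continuous d) (S e : G)
    (he : ∀ g, e * g = g * e) (hee : e * e = 1) (hse : star e = e) (hS : d S = e * S)
    (L : Subgroup G) (hL : ∀ g, g ∈ L ↔ d g * S * g = S) : UHom L.subtype := by
  have hd1 : d 1 = 1 := by
    have h := hd 1 1
    rw [mul_one] at h
    exact (mul_eq_left.1 h.symm)
  have hdi : ∀ g, d g⁻¹ = (d g)⁻¹ := fun g => by
    refine eq_inv_of_mul_eq_one_left ?_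
    rw [← hd, mul_inv_cancel, hd1]
  have hdpos : ∀ p, D.pos p → D.pos (d p) := by
    intro p hp
    obtain ⟨r, hr, rfl⟩ := D.sqrt p hp
    have h := D.pos_star (star (d r))
    rw [star_star, ← hds, D.star_pos r hr] at h
    rwa [hd]
  -- `m = |S|⁻¹`
  have hQ : D.pos (star S * S)⁻¹ := by
    refine D.pos_inv _ ?_
    have h := D.pos_star (star S)
    rwa [star_star] at h
  obtain ⟨m, hm, hmm⟩ := D.sqrt _ hQ
  have hdm := hdpos m hm
  have hdmm : d m * d m = (S * star S)⁻¹ := by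
    rw [← hd, hmm, hdi, hd, hds, hS, star_mul, hse]
    have e1 : e * S * (star S * e) = S * star S := by
      calc e * S * (star S * e) = e * (S * star S) * e := by group
        _ = (S * star S) * e * e := by rw [he]
        _ = (S * star S) * (e * e) := by group
        _ = S * star S := by rw [hee, mul_one]
    rw [e1]
  have hn : star S * d m * S = m⁻¹ := by
    have hnp : D.pos (star S * d m * S) := by
      have h := D.pos_conj (star S) (d m) hdm
      rwa [star_star] at h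
    refine D.sqrt_unique _ _ hnp (D.pos_inv m hm) ?_
    have e1 : star S * d m * S * (star S * d m * S) =
        star S * d m * (S * star S) * d m * S := by group
    have e2 : S * star S = (d m * d m)⁻¹ := by rw [hdmm, inv_inv]
    have e3 : m⁻¹ * m⁻¹ = (m * m)⁻¹ := by group
    rw [e1, e2, e3, hmm, inv_inv]
    group
  obtain ⟨a, ha, haa⟩ := D.sqrt m hm
  have hsa := D.star_pos a ha
  have hsda : star (d a) = d a := by rw [← hds, hsa]
  -- the form in the new basis
  obtain ⟨T, hT⟩ : ∃ T, T = d a * S * a := ⟨_, rfl⟩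
  have hTT : star T * T = 1 := by
    rw [hT, star_mul, star_mul, hsa, hsda]
    have e1 : a * (star S * d a) * (d a * S * a) = a * (star S * (d a * d a) * S) * a := by group
    rw [e1, ← hd, haa, hn, ← haa]
    group
  have hTs : star T = T⁻¹ := eq_inv_of_mul_eq_one_left hTT
  have hdT : d T = e * T := by
    rw [hT, hd, hd, hdd, hS]
    calc d a * (e * S * a) = (d a * e) * (S * a) := by group
      _ = (e * d a) * (S * a) := by rw [he]
      _ = e * (d a * S * a) := by group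
  let σ : G →* G :=
    { toFun := fun g => T⁻¹ * (d g)⁻¹ * T
      map_one' := by
        show T⁻¹ * (d 1)⁻¹ * T = 1
        rw [hd1]; group
      map_mul' := by
        intro g h
        show T⁻¹ * (d (g * h))⁻¹ * T = T⁻¹ * (d g)⁻¹ * T * (T⁻¹ * (d h)⁻¹ * T)
        rw [hd]; group }
  have hσd : ∀ g, σ g = T⁻¹ * (d g)⁻¹ * T := fun g => rfl
  have hσc : Continuous σ := by
    show Continuous fun g => T⁻¹ * (d g)⁻¹ * T
    exact (continuous_const.mul hdc.inv).mul continuous_const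
  have hσσ : ∀ g, σ (σ g) = g := by
    intro g
    rw [hσd, hσd, hd, hd, hdi, hdi, hdd, hdT]
    calc T⁻¹ * (e * T * (g⁻¹ * (e * T)⁻¹))⁻¹ * T
        = T⁻¹ * (e * T * g * T⁻¹ * e⁻¹) * T := by group
      _ = T⁻¹ * ((T * g * T⁻¹) * e * e⁻¹) * T := by
          rw [show e * T * g * T⁻¹ = e * (T * g * T⁻¹) by group, he]
      _ = g := by group
  have hσs : ∀ g, σ (star g) = star (σ g) := by
    intro g
    rw [hσd, hσd, hds, star_mul, star_mul, star_inv_eq, star_inv_eq, hTs, inv_inv]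
    group
  have hU := D.uHom σ hσc hσσ hσs
  intro K hK
  obtain ⟨K', N, hK', hl⟩ := hU K hK
  have hmem : ∀ g, g ∈ L ↔ a⁻¹ * g * a ∈ fixSub σ := by
    intro g
    rw [hL]
    show d g * S * g = S ↔ σ (a⁻¹ * g * a) = a⁻¹ * g * a
    rw [hσd, hd, hd, hdi, hT]
    constructor
    · intro h
      have h1 : (d g)⁻¹ * S = S * g := by
        have : (d g)⁻¹ * (d g * S * g) = (d g)⁻¹ * S := by rw [h]
        rw [← this]; group
      calc (d a * S * a)⁻¹ * (d a * (d g * (d a)⁻¹))⁻¹ * (d a * S * a)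
          = a⁻¹ * S⁻¹ * ((d g)⁻¹ * S) * a := by group
        _ = a⁻¹ * S⁻¹ * (S * g) * a := by rw [h1]
        _ = a⁻¹ * g * a := by group
    · intro h
      have h1 : a * ((d a * S * a)⁻¹ * (d a * (d g * (d a)⁻¹))⁻¹ * (d a * S * a)) * a⁻¹ =
          a * (a⁻¹ * g * a) * a⁻¹ := by rw [h]
      have e1 : a * ((d a * S * a)⁻¹ * (d a * (d g * (d a)⁻¹))⁻¹ * (d a * S * a)) * a⁻¹ =
          S⁻¹ * (d g)⁻¹ * S := by group
      have e2 : a * (a⁻¹ * g * a) * a⁻¹ = g := by group
      rw [e1, e2] at h1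
      calc d g * S * g = d g * S * (S⁻¹ * (d g)⁻¹ * S) := by rw [h1]
        _ = S := by group
  have haL : ∀ x : fixSub σ, a * (x : G) * a⁻¹ ∈ L := by
    intro x
    rw [hmem]
    have e1 : a⁻¹ * (a * (x : G) * a⁻¹) * a = x := by group
    rw [e1]
    exact x.2
  let j : fixSub σ → L := fun x => ⟨a * (x : G) * a⁻¹, haL x⟩
  have hj : Continuous j := by
    refine Continuous.subtype_mk ?_ _
    exact (continuous_const.mul continuous_subtype_val).mul continuous_const
  classical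
  refine ⟨j '' K', N, hK'.image hj, fun h => ?_⟩
  obtain ⟨l, s, hs, hg⟩ := hl (a⁻¹ * h)
  refine ⟨j l, s.image j, Finset.card_image_le.trans hs, fun g hgK => ?_⟩
  obtain ⟨t, ht, htK⟩ := hg ⟨a⁻¹ * (g : G) * a, (hmem g).1 g.2⟩ (by
    have e1 : (a⁻¹ * h)⁻¹ * (a⁻¹ * (g : G) * a) * (a⁻¹ * h) = h⁻¹ * (g : G) * h := by group
    show (a⁻¹ * h)⁻¹ * (a⁻¹ * (g : G) * a) * (a⁻¹ * h) ∈ K
    rw [e1]
    exact hgK)
  refine ⟨j t, Finset.mem_image_of_mem j ht, ⟨_, htK, ?_⟩⟩
  apply Subtype.ext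
  show a * ((l : G)⁻¹ * ((t : G)⁻¹ * (a⁻¹ * (g : G) * a)) * (l : G)) * a⁻¹ =
    (a * (l : G) * a⁻¹)⁻¹ * ((a * (t : G) * a⁻¹)⁻¹ * (g : G)) * (a * (l : G) * a⁻¹)
  group

end

section

variable {𝕜 : Type*} [RCLike 𝕜]

/-- `dag` as a map on `GL_4` -/
def dagGL {E : Type*} [Field E] (τ : E ≃+* E) (g : GL (Fin 4) E) : GL (Fin 4) E where
  val := dag τ g.1
  inv := dag τ (g⁻¹).1
  val_inv := by rw [← dag_mul, ← Units.val_mul, inv_mul_cancel, Units.val_one, dag_one]
  inv_val := by rw [← dag_mul, ← Units.val_mul, mul_inv_cancel, Units.val_one, dag_one]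

theorem V4_cont (τ : 𝕜 ≃+* 𝕜) (hτ : ∀ x, ‖τ x‖ = ‖x‖) : Continuous τ :=
  (AddMonoidHomClass.isometry_of_norm τ hτ).continuous

theorem V4_real (τ : 𝕜 ≃+* 𝕜) (hτ : ∀ x, ‖τ x‖ = ‖x‖) (r : ℝ) : τ (r : 𝕜) = (r : 𝕜) := by
  have h := map_real_smul τ (V4_cont τ hτ) r (1 : 𝕜)
  rw [map_one] at h
  rw [RCLike.real_smul_eq_coe_mul, mul_one] at h
  exact h

theorem V4_conj (τ : 𝕜 ≃+* 𝕜) (hτ : ∀ x, ‖τ x‖ = ‖x‖) (x : 𝕜) : τ (star x) = star (τ x) := by
  by_cases hx : x = 0
  · rw [hx, star_zero, map_zero, star_zero]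
  · have h1 : τ x * τ (star x) = τ x * star (τ x) := by
      rw [← map_mul, RCLike.star_def, RCLike.mul_conj, RCLike.mul_conj, hτ,
        map_pow, V4_real τ hτ]
    have h2 : τ x ≠ 0 := (map_ne_zero τ).2 hx
    exact mul_left_cancel₀ h2 h1

theorem dagGL_val {E : Type*} [Field E] (τ : E ≃+* E) (g : GL (Fin 4) E) :
    (dagGL τ g).1 = dag τ g.1 := rfl

theorem dag_cont (τ : 𝕜 ≃+* 𝕜) (hτ : ∀ x, ‖τ x‖ = ‖x‖) :
    Continuous (dag τ : Matrix (Fin 4) (Fin 4) 𝕜 → Matrix (Fin 4) (Fin 4) 𝕜) := by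
  unfold dag
  exact (continuous_id.matrix_map (V4_cont τ hτ)).matrix_transpose

/-- isometry groups of nondegenerate forms over `ℝ`, `ℂ` -/
theorem AdmA_iso.{u} (𝕜 : Type u) [RCLike 𝕜] (τ : 𝕜 ≃+* 𝕜) (hτ : ∀ x, ‖τ x‖ = ‖x‖)
    (hττ : ∀ x, τ (τ x) = x) (S : GL (Fin 4) 𝕜) (ε : 𝕜) (hε : ε * ε = 1)
    (hS : dag τ S.1 = ε • S.1) :
    IsClosed (isoGrp τ S.1 : Set (GL (Fin 4) 𝕜)) ∧ UHom (isoGrp τ S.1).subtype ∧
      AdmA.{u, u} (isoGrp τ S.1) := by
  have hcl : IsClosed (isoGrp τ S.1 : Set (GL (Fin 4) 𝕜)) := by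
    have h1 : Continuous fun g : GL (Fin 4) 𝕜 => dag τ g.1 * S.1 * g.1 :=
      (((dag_cont τ hτ).comp Units.continuous_val).mul continuous_const).mul
        Units.continuous_val
    exact isClosed_eq h1 continuous_const
  have hU : UHom (isoGrp τ S.1).subtype := by
    let e : GL (Fin 4) 𝕜 :=
      ⟨ε • 1, ε • 1, by rw [smul_mul_smul_comm, hε, one_smul, mul_one],
        by rw [smul_mul_smul_comm, hε, one_smul, mul_one]⟩
    have hev : e.1 = ε • (1 : Matrix (Fin 4) (Fin 4) 𝕜) := rfl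
    have hse : star ε = ε := by
      have h := mul_self_eq_one_iff.1 hε
      rcases h with h | h
      · rw [h, star_one]
      · rw [h, star_neg, star_one]
    refine (cartanGL 𝕜).uHom_form (dagGL τ) ?_ ?_ ?_ ?_ S e ?_ ?_ ?_ ?_ _ ?_
    · intro g h
      exact Units.ext (dag_mul τ g.1 h.1)
    · intro g
      refine Units.ext ?_
      ext i j
      show τ (τ (g.1 i j)) = g.1 i j
      exact hττ _
    · intro g
      refine Units.ext ?_
      ext i j
      show τ (star (g.1 i j)) = star (τ (g.1 i j))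
      exact V4_conj τ hτ _
    · refine Units.continuous_iff.2 ⟨?_, ?_⟩
      · exact (dag_cont τ hτ).comp Units.continuous_val
      · exact (dag_cont τ hτ).comp (Units.continuous_val.comp continuous_inv)
    · intro g
      refine Units.ext ?_
      rw [Units.val_mul, Units.val_mul, hev, Matrix.smul_mul, Matrix.one_mul, Matrix.mul_smul,
        Matrix.mul_one]
    · refine Units.ext ?_
      rw [Units.val_mul, hev, smul_mul_smul_comm, hε, one_smul, mul_one, Units.val_one]
    · refine Units.ext ?_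
      show star (ε • (1 : Matrix (Fin 4) (Fin 4) 𝕜)) = ε • 1
      rw [star_smul, star_one, hse]
    · refine Units.ext ?_
      rw [Units.val_mul, hev, Matrix.smul_mul, Matrix.one_mul]
      exact hS
    · intro g
      constructor
      · intro h
        exact Units.ext h
      · intro h
        have h1 : (dagGL τ g * S * g).1 = S.1 := by rw [h]
        exact h1
  exact ⟨hcl, hU, AdmA.subgroup (AdmA_GLk 𝕜) _ hcl hU⟩

end

end RapidDecay
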