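import Pool.Agent.Lib.MP_fee02f_an.Defs

/-!
V5: property (RD) goes down along a surjective homomorphism with finite kernel.
-/

set_option autoImplicit false

namespace RapidDecay

section

variable {Γ' Γ : Type*} [Group Γ'] [Group Γ] (π : Γ' →* Γ)

theorem V5_fiber (x : Γ') :
    (π ⁻¹' {π x}) = (fun k => x * k) '' (π.ker : Set Γ') := by
  ext y
  constructor
  · intro hy
    refine ⟨x⁻¹ * y, ?_, by group⟩
    rw [SetLike.mem_coe, MonoidHom.mem_ker, map_mul, map_inv]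
    have : π y = π x := hy
    rw [this, inv_mul_cancel]
  · rintro ⟨k, hk, rfl⟩
    have hk' : π k = 1 := hk
    show π (x * k) = π x
    rw [map_mul, hk', mul_one]

theorem V5_fin (hf : (π.ker : Set Γ').Finite) (γ : Γ) : (π ⁻¹' {γ}).Finite := by
  by_cases h : ∃ x, π x = γ
  · obtain ⟨x, rfl⟩ := h
    rw [V5_fiber π x]
    exact hf.image _
  · have : π ⁻¹' {γ} = ∅ := by
      ext y
      simp only [Set.mem_preimage, Set.mem_singleton_iff, Set.mem_empty_iff_false, iff_false]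
      exact fun hy => h ⟨y, hy⟩
    rw [this]
    exact Set.finite_empty

/-- pull back of functions -/
noncomputable def V5_T (hf : (π.ker : Set Γ').Finite) (f : MonoidAlgebra ℂ Γ) :
    MonoidAlgebra ℂ Γ' :=
  MonoidAlgebra.ofCoeff (Finsupp.ofSupportFinite (fun x => f.coeff (π x)) (by
    refine (Set.Finite.preimage' f.coeff.support.finite_toSet
      (fun γ _ => V5_fin π hf γ)).subset ?_
    intro x hx
    exact Finsupp.mem_support_iff.2 hx))

theorem V5_T_apply (hf : (π.ker : Set Γ').Finite) (f : MonoidAlgebra ℂ Γ) (x : Γ') :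
    (V5_T π hf f).coeff x = f.coeff (π x) := rfl

theorem V5_mem (hf : (π.ker : Set Γ').Finite) (f : MonoidAlgebra ℂ Γ) (x : Γ') :
    x ∈ (V5_T π hf f).coeff.support ↔ π x ∈ f.coeff.support := by
  rw [Finsupp.mem_support_iff, Finsupp.mem_support_iff, V5_T_apply]

theorem V5_sum (hπ : Function.Surjective π) (hf : (π.ker : Set Γ').Finite)
    (f : MonoidAlgebra ℂ Γ) {M : Type*} [AddCommMonoid M] (F : Γ → M) :
    ∑ x ∈ (V5_T π hf f).coeff.support, F (π x) =
      (π.ker : Set Γ').ncard • ∑ γ ∈ f.coeff.support, F γ := by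
  classical
  rw [Finset.sum_comp, Finset.smul_sum]
  have himg : (V5_T π hf f).coeff.support.image π = f.coeff.support := by
    ext γ
    rw [Finset.mem_image]
    constructor
    · rintro ⟨x, hx, rfl⟩
      exact (V5_mem π hf f x).1 hx
    · intro hγ
      obtain ⟨x, rfl⟩ := hπ γ
      exact ⟨x, (V5_mem π hf f x).2 hγ, rfl⟩
  rw [himg]
  refine Finset.sum_congr rfl fun γ hγ => ?_
  congr 1
  obtain ⟨x, rfl⟩ := hπ γ
  have h1 : ((((V5_T π hf f).coeff.support.filter fun a => π a = π x) : Finset Γ') : Set Γ') =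
      (fun k => x * k) '' (π.ker : Set Γ') := by
    rw [← V5_fiber π x]
    ext y
    rw [Finset.mem_coe, Finset.mem_filter]
    constructor
    · exact fun h => h.2
    · intro hy
      have hy' : π y = π x := hy
      refine ⟨?_, hy'⟩
      rw [Finsupp.mem_support_iff, V5_T_apply, hy']
      exact Finsupp.mem_support_iff.1 hγ
  rw [← Set.ncard_coe_finset, h1]
  exact Set.ncard_image_of_injective _ (mul_right_injective x)

theorem V5_mul (hπ : Function.Surjective π) (hf : (π.ker : Set Γ').Finite)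
    (f g : MonoidAlgebra ℂ Γ) (x : Γ') :
    (V5_T π hf f * V5_T π hf g).coeff x =
      ((π.ker : Set Γ').ncard : ℂ) * (V5_T π hf (f * g)).coeff x := by
  rw [V5_T_apply, MonoidAlgebra.coeff_mul_apply_left, MonoidAlgebra.coeff_mul_apply_left]
  have h := V5_sum π hπ hf f (fun γ => f.coeff γ * g.coeff (γ⁻¹ * π x))
  rw [nsmul_eq_mul] at h
  rw [Finsupp.sum, Finsupp.sum, ← h]
  refine Finset.sum_congr rfl fun y _ => ?_
  rw [V5_T_apply, V5_T_apply, map_mul, map_inv]

theorem V5_norm_T (hπ : Function.Surjective π) (hf : (π.ker : Set Γ').Finite)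
    (f : MonoidAlgebra ℂ Γ) :
    norm2 (V5_T π hf f) = Real.sqrt ((π.ker : Set Γ').ncard) * norm2 f := by
  unfold norm2
  have h := V5_sum π hπ hf f (fun γ => ‖f.coeff γ‖ ^ 2)
  rw [nsmul_eq_mul] at h
  rw [← Real.sqrt_mul (Nat.cast_nonneg _), Finsupp.sum, Finsupp.sum, ← h]
  rfl

theorem V5_norm_mul (hπ : Function.Surjective π) (hf : (π.ker : Set Γ').Finite)
    (f g : MonoidAlgebra ℂ Γ) :
    norm2 (V5_T π hf f * V5_T π hf g) =
      ((π.ker : Set Γ').ncard : ℝ) * norm2 (V5_T π hf (f * g)) := by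
  have hn : ((π.ker : Set Γ').ncard : ℂ) ≠ 0 := by
    have : (π.ker : Set Γ').ncard ≠ 0 := by
      exact Set.ncard_ne_zero_of_mem (a := 1) π.ker.one_mem hf
    exact_mod_cast this
  have e : V5_T π hf f * V5_T π hf g =
      MonoidAlgebra.ofCoeff (((π.ker : Set Γ').ncard : ℂ) • (V5_T π hf (f * g)).coeff) := by
    ext x
    exact V5_mul π hπ hf f g x
  rw [e]
  unfold norm2
  rw [← Real.sqrt_sq (Nat.cast_nonneg (α := ℝ) ((π.ker : Set Γ').ncard)),
    ← Real.sqrt_mul (sq_nonneg _)]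
  congr 1
  rw [MonoidAlgebra.coeff_ofCoeff, Finsupp.sum, Finsupp.sum, Finset.mul_sum,
    Finsupp.support_smul_eq hn]
  refine Finset.sum_congr rfl fun x _ => ?_
  rw [Finsupp.smul_apply, norm_smul, mul_pow, Complex.norm_natCast]

/-- the length function on the quotient -/
noncomputable def V5_len (ℓ : Γ' → ℝ) (γ : Γ) : ℝ := sSup (ℓ '' (π ⁻¹' {γ}))

theorem V5_le (hf : (π.ker : Set Γ').Finite) (ℓ : Γ' → ℝ) (x : Γ') :
    ℓ x ≤ V5_len π ℓ (π x) :=
  le_csSup ((V5_fin π hf (π x)).image ℓ).bddAbove ⟨x, rfl, rfl⟩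

theorem V5_isLength (hπ : Function.Surjective π) (hf : (π.ker : Set Γ').Finite) (ℓ : Γ' → ℝ)
    (h : IsLength ℓ) : IsLength (V5_len π ℓ) where
  nonneg γ := by
    obtain ⟨x, rfl⟩ := hπ γ
    exact (h.nonneg x).trans (V5_le π hf ℓ x)
  inv γ := by
    unfold V5_len
    congr 1
    ext t
    constructor
    · rintro ⟨x, hx, rfl⟩
      refine ⟨x⁻¹, ?_, h.inv x⟩
      have hx' : π x = γ⁻¹ := hx
      show π x⁻¹ = γ
      rw [map_inv, hx', inv_inv]
    · rintro ⟨x, hx, rfl⟩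
      refine ⟨x⁻¹, ?_, h.inv x⟩
      have hx' : π x = γ := hx
      show π x⁻¹ = γ⁻¹
      rw [map_inv, hx']
  mul_le γ δ := by
    obtain ⟨y, rfl⟩ := hπ γ
    obtain ⟨z, rfl⟩ := hπ δ
    refine csSup_le ⟨_, ⟨y * z, by simp, rfl⟩⟩ ?_
    rintro _ ⟨x, hx, rfl⟩
    have hx' : π x = π y * π z := hx
    have h1 : π (y⁻¹ * x) = π z := by rw [map_mul, map_inv, hx', inv_mul_cancel_left]
    have h2 := h.mul_le y (y⁻¹ * x)
    rw [mul_inv_cancel_left] at h2
    have h3 := V5_le π hf ℓ y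
    have h4 := V5_le π hf ℓ (y⁻¹ * x)
    rw [h1] at h4
    linarith

theorem V5_sob (hπ : Function.Surjective π) (hf : (π.ker : Set Γ').Finite) (ℓ : Γ' → ℝ)
    (h : IsLength ℓ) (s : ℝ) (hs : 0 ≤ s) (f : MonoidAlgebra ℂ Γ) :
    sobolev ℓ s (V5_T π hf f) ≤
      Real.sqrt ((π.ker : Set Γ').ncard) * sobolev (V5_len π ℓ) s f := by
  unfold sobolev
  have h1 := V5_sum π hπ hf f (fun γ => ((1 + V5_len π ℓ γ) ^ s * ‖f.coeff γ‖) ^ 2)
  rw [nsmul_eq_mul] at h1
  rw [← Real.sqrt_mul (Nat.cast_nonneg _), Finsupp.sum, Finsupp.sum, ← h1]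
  refine Real.sqrt_le_sqrt (Finset.sum_le_sum fun x _ => ?_)
  rw [V5_T_apply]
  have h2 := V5_le π hf ℓ x
  have h3 := h.nonneg x
  have h4 : (1 + ℓ x) ^ s ≤ (1 + V5_len π ℓ (π x)) ^ s :=
    Real.rpow_le_rpow (by linarith) (by linarith) hs
  have h5 : 0 ≤ (1 + ℓ x) ^ s := Real.rpow_nonneg (by linarith) _
  gcongr

/-- property (RD) goes down along a surjective homomorphism with finite kernel -/
theorem PropertyRD.of_surjective (hπ : Function.Surjective π) (hf : (π.ker : Set Γ').Finite)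
    (h : PropertyRD Γ') : PropertyRD Γ := by
  obtain ⟨ℓ, hℓ, C, s, hs, hC⟩ := h
  refine ⟨V5_len π ℓ, V5_isLength π hπ hf ℓ hℓ, |C|, s, hs, fun f g => ?_⟩
  have h1 := hC (V5_T π hf f) (V5_T π hf g)
  rw [V5_norm_mul π hπ hf, V5_norm_T π hπ hf, V5_norm_T π hπ hf] at h1
  have h2 := V5_sob π hπ hf ℓ hℓ s hs f
  set n : ℝ := ((π.ker : Set Γ').ncard : ℝ) with hn
  have hn1 : 1 ≤ n := by
    have : (π.ker : Set Γ').ncard ≠ 0 := by
      exact Set.ncard_ne_zero_of_mem (a := 1) π.ker.one_mem hf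
    rw [hn]
    exact_mod_cast Nat.one_le_iff_ne_zero.2 this
  have hsn : 1 ≤ Real.sqrt n := Real.one_le_sqrt.2 hn1
  have hss : Real.sqrt n * Real.sqrt n = n := Real.mul_self_sqrt (by linarith)
  have a1 : 0 ≤ norm2 (f * g) := Real.sqrt_nonneg _
  have a2 : 0 ≤ norm2 g := Real.sqrt_nonneg _
  have a3 : 0 ≤ sobolev (V5_len π ℓ) s f := Real.sqrt_nonneg _
  have a4 : 0 ≤ sobolev ℓ s (V5_T π hf f) := Real.sqrt_nonneg _
  have h3 : C * sobolev ℓ s (V5_T π hf f) * (Real.sqrt n * norm2 g) ≤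
      |C| * (Real.sqrt n * sobolev (V5_len π ℓ) s f) * (Real.sqrt n * norm2 g) := by
    refine mul_le_mul_of_nonneg_right ?_ (by positivity)
    exact mul_le_mul (le_abs_self C) h2 a4 (abs_nonneg C)
  have h4 : n * (Real.sqrt n * norm2 (f * g)) ≤
      n * (|C| * sobolev (V5_len π ℓ) s f * norm2 g) := by
    refine (h1.trans h3).trans (le_of_eq ?_)
    calc |C| * (Real.sqrt n * sobolev (V5_len π ℓ) s f) * (Real.sqrt n * norm2 g)
        = (Real.sqrt n * Real.sqrt n) * (|C| * sobolev (V5_len π ℓ) s f * norm2 g) := by ring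
      _ = _ := by rw [hss]
  have h5 := le_of_mul_le_mul_left h4 (by linarith)
  calc norm2 (f * g) = 1 * norm2 (f * g) := (one_mul _).symm
    _ ≤ Real.sqrt n * norm2 (f * g) := mul_le_mul_of_nonneg_right hsn a1
    _ ≤ _ := h5

end

end RapidDecay
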