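import Pool.Agent.Lib.MP_fee02f_an.AR.V1
import Pool.Agent.Lib.MP_fee02f_an.AR.V5
import Pool.Agent.Lib.MP_fee02f_an.AR.T2b
import Pool.Agent.Lib.MP_fee02f_an.AR.A14

/-!
V6: the class of groups which are open quotients with finite kernel of groups with `AdmA`; it is
closed under finite products, closed uniformly embedded subgroups and quotients by finite normal
subgroups; uniformly discrete subgroups have property (RD).
-/

set_option autoImplicit false

namespace RapidDecay

open scoped Pointwise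

/-- a Hausdorff topological group which is the image of a group with `AdmA` under a continuous open
homomorphism with finite kernel -/
def Good.{u} (G : Type u) [Group G] [TopologicalSpace G] : Prop :=
  T2Space G ∧ IsTopologicalGroup G ∧ ∃ (G' : Type u) (_ : Group G') (_ : TopologicalSpace G'),
    T2Space G' ∧ IsTopologicalGroup G' ∧ AdmA.{u, u} G' ∧ ∃ π : G' →* G, Continuous π ∧
      IsOpenMap π ∧ Function.Surjective π ∧ (π.ker : Set G').Finite

theorem Good.of_admA.{u} {G : Type u} [Group G] [TopologicalSpace G] [h1 : T2Space G]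
    [h2 : IsTopologicalGroup G] (h : AdmA.{u, u} G) : Good G := by
  refine ⟨h1, h2, G, inferInstance, inferInstance, h1, h2, h, MonoidHom.id G, continuous_id,
    IsOpenMap.id, Function.surjective_id, ?_⟩
  rw [MonoidHom.ker_id]
  exact Set.finite_singleton 1

/-- preimages of compact sets under an open homomorphism with finite kernel are compact -/
theorem V6_proper {G' G : Type*} [Group G'] [TopologicalSpace G'] [IsTopologicalGroup G']
    [Group G] [TopologicalSpace G] [T2Space G] [IsTopologicalGroup G]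
    (h0 : ∃ K ∈ nhds (1 : G'), IsCompact K) (π : G' →* G) (hc : Continuous π)
    (ho : IsOpenMap π) (hs : Function.Surjective π) (hf : (π.ker : Set G').Finite) {K : Set G}
    (hK : IsCompact K) : IsCompact (π ⁻¹' K) := by
  obtain ⟨V, hV, hVc⟩ := h0
  have hV' : π '' (interior V) ∈ nhds (1 : G) := by
    have h1 : interior V ∈ nhds (1 : G') := interior_mem_nhds.2 hV
    have h2 := ho.image_mem_nhds h1
    rwa [map_one] at h2
  have hVo : IsOpen (π '' (interior V)) := ho _ isOpen_interior
  obtain ⟨T, hT⟩ := hK.elim_finite_subcover (fun k : G => (fun x => k * x) '' (π '' (interior V)))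
    (fun k => (Homeomorph.mulLeft k).isOpenMap _ hVo)
    (fun x _ => Set.mem_iUnion.2 ⟨x, ⟨1, mem_of_mem_nhds hV', mul_one x⟩⟩)
  have hcomp : IsCompact (⋃ k ∈ T, (fun x : G' => (Function.surjInv hs k) * x) ''
      (V * (π.ker : Set G'))) := by
    refine T.isCompact_biUnion fun k _ => ?_
    exact (hVc.mul hf.isCompact).image (continuous_const.mul continuous_id)
  refine hcomp.of_isClosed_subset (hK.isClosed.preimage hc) ?_
  intro x hx
  obtain ⟨k, hk, y, ⟨v, hv, hvy⟩, hy⟩ := Set.mem_iUnion₂.1 (hT hx)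
  refine Set.mem_iUnion₂.2 ⟨k, hk, (Function.surjInv hs k)⁻¹ * x, ?_, by simp⟩
  have h1 : k * π v = π x := by rw [hvy]; exact hy
  refine ⟨v, interior_subset hv, v⁻¹ * ((Function.surjInv hs k)⁻¹ * x), ?_, by simp⟩
  rw [SetLike.mem_coe, MonoidHom.mem_ker, map_mul, map_mul, map_inv, map_inv,
    Function.surjInv_eq hs k, ← h1]
  group

theorem Good.pi.{u} {ι : Type} [Fintype ι] (G : ι → Type u) [∀ i, Group (G i)]
    [∀ i, TopologicalSpace (G i)] (h : ∀ i, Good (G i)) : Good (∀ i, G i) := by
  classical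
  have h1 : ∀ i, T2Space (G i) := fun i => (h i).1
  have h2 : ∀ i, IsTopologicalGroup (G i) := fun i => (h i).2.1
  have h3 := fun i => (h i).2.2
  choose G' g' t' ht hg hA π hc ho hs hf using h3
  refine ⟨inferInstance, inferInstance, ∀ i, G' i, inferInstance, inferInstance, inferInstance,
    inferInstance, AdmA.pi G' hA, ?_⟩
  let ϖ : (∀ i, G' i) →* (∀ i, G i) :=
    { toFun := fun x i => π i (x i)
      map_one' := by ext i; simp
      map_mul' := by intro x y; ext i; simp }
  refine ⟨ϖ, ?_, ?_, ?_, ?_⟩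
  · exact continuous_pi fun i => (hc i).comp (continuous_apply i)
  · exact IsOpenMap.piMap ho (by simp)
  · intro y
    choose x hx using fun i => hs i (y i)
    exact ⟨x, funext hx⟩
  · refine (Set.Finite.pi' hf).subset ?_
    intro x hx i
    have h5 : ϖ x = 1 := hx
    exact congrFun h5 i

theorem Good.subgroup.{u} {G : Type u} [Group G] [TopologicalSpace G] (h : Good G)
    (L : Subgroup G) (hL : IsClosed (L : Set G)) (hU : UHom L.subtype) : Good L := by
  classical
  obtain ⟨h1, h2, G', g', t', h1', h2', hA, π, hc, ho, hs, hf⟩ := h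
  refine ⟨inferInstance, inferInstance, L.comap π, inferInstance, inferInstance, inferInstance,
    inferInstance, ?_, ?_⟩
  · refine AdmA.subgroup hA _ (hL.preimage hc) ?_
    intro K hK
    obtain ⟨K', N, hK', hl⟩ := hU (π '' K) (hK.image hc)
    have hcl : IsClosed ((L.comap π : Subgroup G') : Set G') := hL.preimage hc
    refine ⟨(fun x : L.comap π => (x : G')) ⁻¹' (π ⁻¹' ((fun x : L => (x : G)) '' K')), N,
      hcl.isClosedEmbedding_subtypeVal.isCompact_preimage
        (V6_proper hA.1 π hc ho hs hf (hK'.image continuous_subtype_val)), fun h => ?_⟩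
    obtain ⟨l, s, hs', hg⟩ := hl (π h)
    -- lifts
    have hlift : ∀ x : L, ∃ y : L.comap π, π (y : G') = (x : G) := by
      intro x
      obtain ⟨y, hy⟩ := hs (x : G)
      exact ⟨⟨y, by rw [Subgroup.mem_comap, hy]; exact x.2⟩, hy⟩
    choose j hj using hlift
    refine ⟨j l, s.image j, Finset.card_image_le.trans hs', fun g hgK => ?_⟩
    obtain ⟨t, ht, htK⟩ := hg ⟨π (g : G'), g.2⟩ (by
      refine ⟨_, hgK, ?_⟩
      rw [map_mul, map_mul, map_inv]
      rfl)
    refine ⟨j t, Finset.mem_image_of_mem j ht, ⟨_, htK, ?_⟩⟩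
    show (l : G)⁻¹ * ((t : G)⁻¹ * π (g : G')) * (l : G) =
      π ((j l : G')⁻¹ * ((j t : G')⁻¹ * (g : G')) * (j l : G'))
    rw [map_mul, map_mul, map_mul, map_inv, map_inv, hj, hj]
  · let ϖ : (L.comap π) →* L :=
      { toFun := fun x => ⟨π (x : G'), x.2⟩
        map_one' := by ext; simp
        map_mul' := by intro x y; ext; simp }
    refine ⟨ϖ, ?_, ?_, ?_, ?_⟩
    · exact Continuous.subtype_mk (hc.comp continuous_subtype_val) _
    · exact ho.restrictPreimage (L : Set G)
    · intro y
      obtain ⟨x, hx⟩ := hs (y : G)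
      exact ⟨⟨x, by rw [Subgroup.mem_comap, hx]; exact y.2⟩, Subtype.ext hx⟩
    · refine Set.Finite.of_finite_image (f := fun x : L.comap π => (x : G')) (hf.subset ?_)
        Subtype.val_injective.injOn
      rintro _ ⟨x, hx, rfl⟩
      have hx' : ϖ x = 1 := hx
      exact congrArg Subtype.val hx'

theorem Good.quot.{u} {G : Type u} [Group G] [TopologicalSpace G] (h : Good G)
    (N : Subgroup G) [N.Normal] (hN : (N : Set G).Finite) : Good (G ⧸ N) := by
  classical
  obtain ⟨h1, h2, G', g', t', h1', h2', hA, π, hc, ho, hs, hf⟩ := h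
  have hcl : IsClosed (N : Set G) := hN.isClosed
  refine ⟨inferInstance, inferInstance, G', g', t', h1', h2', hA,
    (QuotientGroup.mk' N).comp π, ?_, ?_, ?_, ?_⟩
  · exact QuotientGroup.continuous_mk.comp hc
  · exact (QuotientGroup.isOpenMap_coe).comp ho
  · exact (QuotientGroup.mk'_surjective N).comp hs
  · refine (Set.Finite.preimage' hN (f := π) (fun b _ => V5_fin π hf b)).subset ?_
    intro x hx
    have hx' : (QuotientGroup.mk' N) (π x) = 1 := hx
    rw [← MonoidHom.mem_ker, QuotientGroup.ker_mk'] at hx'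
    exact hx'

/-- uniformly discrete subgroups -/
def UDisc {G : Type*} [Group G] [TopologicalSpace G] (Γ : Subgroup G) : Prop :=
  ∀ K : Set G, IsCompact K → ∃ b : ℕ, ∀ h : G, {γ : Γ | h⁻¹ * (γ : G) * h ∈ K}.Finite ∧
    {γ : Γ | h⁻¹ * (γ : G) * h ∈ K}.ncard ≤ b

theorem Good.rd.{u} {G : Type u} [Group G] [TopologicalSpace G] (h : Good G) (Γ : Subgroup G)
    (hΓ : UDisc Γ) : PropertyRD Γ := by
  classical
  obtain ⟨h1, h2, G', g', t', h1', h2', hA, π, hc, ho, hs, hf⟩ := h
  let ϖ : (Γ.comap π) →* Γ :=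
    { toFun := fun x => ⟨π (x : G'), x.2⟩
      map_one' := by ext; simp
      map_mul' := by intro x y; ext; simp }
  have hϖs : Function.Surjective ϖ := by
    intro y
    obtain ⟨x, hx⟩ := hs (y : G)
    exact ⟨⟨x, by rw [Subgroup.mem_comap, hx]; exact y.2⟩, Subtype.ext hx⟩
  have hϖf : (ϖ.ker : Set (Γ.comap π)).Finite := by
    refine Set.Finite.of_finite_image (f := fun x : Γ.comap π => (x : G')) (hf.subset ?_)
      Subtype.val_injective.injOn
    rintro _ ⟨x, hx, rfl⟩
    have hx' : ϖ x = 1 := hx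
    exact congrArg Subtype.val hx'
  refine PropertyRD.of_surjective ϖ hϖs hϖf ?_
  refine AdmA.rd_of_udisc.{u, u} (fun S => RDA.rd_of_AHS S) hA (Γ.comap π) ?_
  intro K hK
  obtain ⟨b, hb⟩ := hΓ (π '' K) (hK.image hc)
  refine ⟨b * (ϖ.ker : Set (Γ.comap π)).ncard, fun h => ?_⟩
  obtain ⟨hfin, hcard⟩ := hb (π h)
  have hsub : {γ : Γ.comap π | h⁻¹ * (γ : G') * h ∈ K} ⊆
      ϖ ⁻¹' {γ : Γ | (π h)⁻¹ * (γ : G) * π h ∈ π '' K} := by
    intro γ hγ
    refine ⟨_, hγ, ?_⟩
    rw [map_mul, map_mul, map_inv]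
    rfl
  have hpre : ∀ s : Finset Γ, (ϖ ⁻¹' (s : Set Γ)).Finite ∧
      (ϖ ⁻¹' (s : Set Γ)).ncard ≤ s.card * (ϖ.ker : Set (Γ.comap π)).ncard := by
    intro s
    induction s using Finset.induction_on with
    | empty => simp
    | insert a s ha ih =>
      have e : ϖ ⁻¹' ((insert a s : Finset Γ) : Set Γ) = ϖ ⁻¹' {a} ∪ ϖ ⁻¹' (s : Set Γ) := by
        rw [Finset.coe_insert, Set.insert_eq, Set.preimage_union]
      have hfa := V5_fin ϖ hϖf a
      have hca : (ϖ ⁻¹' {a}).ncard = (ϖ.ker : Set (Γ.comap π)).ncard := by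
        obtain ⟨x, rfl⟩ := hϖs a
        rw [V5_fiber]
        exact Set.ncard_image_of_injective _ (mul_right_injective x)
      rw [e]
      refine ⟨hfa.union ih.1, (Set.ncard_union_le _ _).trans ?_⟩
      rw [hca, Finset.card_insert_of_notMem ha, add_mul, one_mul, add_comm]
      exact Nat.add_le_add_right ih.2 _
  have hp := hpre hfin.toFinset
  rw [Set.Finite.coe_toFinset] at hp
  refine ⟨hp.1.subset hsub, (Set.ncard_le_ncard hsub hp.1).trans (hp.2.trans ?_)⟩
  refine Nat.mul_le_mul_right _ ?_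
  rwa [← Set.ncard_eq_toFinset_card _ hfin]

theorem Good.nhds.{u} {G : Type u} [Group G] [TopologicalSpace G] (h : Good G) :
    ∃ K ∈ nhds (1 : G), IsCompact K := by
  obtain ⟨h1, h2, G', g', t', h1', h2', hA, π, hc, ho, hs, hf⟩ := h
  obtain ⟨K, hK, hKc⟩ := hA.1
  refine ⟨π '' K, ?_, hKc.image hc⟩
  have h3 := ho.image_mem_nhds hK
  rwa [map_one] at h3

/-- cocompact lattices are uniformly discrete -/
theorem Good.udisc.{u} {G : Type u} [Group G] [TopologicalSpace G] (h : Good G)
    (Γ : Subgroup G) [DiscreteTopology Γ] [CompactSpace (G ⧸ Γ)] : UDisc Γ := by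
  have h1 : T2Space G := h.1
  have h2 : IsTopologicalGroup G := h.2.1
  exact fun K hK => count_conj h.nhds Γ K hK

end RapidDecay
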