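import Pool.Agent.Lib.MP_fee02f_an.AR.V6
import Pool.Agent.Lib.MP_fee02f_an.AR.WDefs

/-!
V7: subgroups whose compact subgroups are conjugate into one compact set; discrete subgroups with
bounded finite subgroups of groups with a compact open subgroup.
-/

set_option autoImplicit false

namespace RapidDecay

/-- a closed subgroup with `MaxCpt` of a group with a compact open subgroup is uniformly
embedded -/
theorem UHom.of_maxCpt {G : Type*} [Group G] [TopologicalSpace G] [IsTopologicalGroup G]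
    (U : Subgroup G) (hUo : IsOpen (U : Set G)) (hUc : IsCompact (U : Set G))
    (L : Subgroup G) (hL : IsClosed (L : Set G)) (hM : MaxCpt L) : UHom L.subtype := by
  obtain ⟨M, hMc, hML, hM⟩ := hM
  refine UHom.of_compact_subgroups U hUo hUc L hL ⟨(fun x : L => (x : G)) ⁻¹' M,
    hL.isClosedEmbedding_subtypeVal.isCompact_preimage hMc, fun C hC => ?_⟩
  obtain ⟨l, hl, hc⟩ := hM (C.map L.subtype) (by
    rintro _ ⟨x, -, rfl⟩
    exact x.2) (by
    have h := hC.image (continuous_subtype_val (p := fun x => x ∈ L))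
    exact h)
  refine ⟨⟨l, hl⟩, fun c hcC => ?_⟩
  exact hc (c : G) ⟨c, hcC, rfl⟩

/-- discrete subgroups with bounded finite subgroups -/
theorem UDisc.of_bounded {G : Type*} [Group G] [TopologicalSpace G] [IsTopologicalGroup G]
    [T2Space G] (U : Subgroup G) (hUo : IsOpen (U : Set G)) (hUc : IsCompact (U : Set G))
    (Γ : Subgroup G) [DiscreteTopology Γ]
    (hb : ∃ b : ℕ, ∀ F : Subgroup Γ, (F : Set Γ).Finite → (F : Set Γ).ncard ≤ b) : UDisc Γ := by
  classical
  obtain ⟨b, hb⟩ := hb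
  intro K hK
  obtain ⟨T, hT⟩ : ∃ T : Finset G, K ⊆ ⋃ k ∈ T, (fun x => k * x) '' (U : Set G) := by
    obtain ⟨T, hT⟩ := hK.elim_finite_subcover (fun k : G => (fun x => k * x) '' (U : Set G))
      (fun k => (Homeomorph.mulLeft k).isOpenMap _ hUo)
      (fun x _ => Set.mem_iUnion.2 ⟨x, ⟨1, U.one_mem, mul_one x⟩⟩)
    exact ⟨T, hT⟩
  refine ⟨T.card * b, fun h => ?_⟩
  -- the finite subgroup `Γ ∩ h U h⁻¹`
  let C : Subgroup Γ := (U.map (MulAut.conj h).toMonoidHom).comap Γ.subtype
  have hCmem : ∀ x : Γ, x ∈ C ↔ h⁻¹ * (x : G) * h ∈ U := by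
    intro x
    rw [Subgroup.mem_comap, Subgroup.mem_map]
    constructor
    · rintro ⟨u, hu, hux⟩
      have hux' : h * u * h⁻¹ = (x : G) := hux
      rw [← hux']
      have e : h⁻¹ * (h * u * h⁻¹) * h = u := by group
      rwa [e]
    · intro hx
      refine ⟨_, hx, ?_⟩
      show h * (h⁻¹ * (x : G) * h) * h⁻¹ = (x : G)
      group
  have hCf : (C : Set Γ).Finite := by
    have h1 : IsCompact ((fun x => h * x * h⁻¹) '' (U : Set G)) := hUc.image (by fun_prop)
    have h2 : (C : Set Γ) = (fun x : Γ => (x : G)) ⁻¹' ((fun x => h * x * h⁻¹) '' (U : Set G)) := by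
      ext x
      rw [SetLike.mem_coe, hCmem]
      constructor
      · intro hx
        refine ⟨_, hx, ?_⟩
        show h * (h⁻¹ * (x : G) * h) * h⁻¹ = (x : G)
        group
      · rintro ⟨u, hu, hux⟩
        have hux' : h * u * h⁻¹ = (x : G) := hux
        rw [← hux']
        have e : h⁻¹ * (h * u * h⁻¹) * h = u := by group
        rwa [e]
    rw [h2]
    have hcl : IsClosed (Γ : Set G) := Subgroup.isClosed_of_discrete
    exact (hcl.isClosedEmbedding_subtypeVal.isCompact_preimage h1).finite_of_discrete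
  have hcoset : ∀ k : G, {γ : Γ | h⁻¹ * (γ : G) * h ∈ (fun x => k * x) '' (U : Set G)}.Finite ∧
      {γ : Γ | h⁻¹ * (γ : G) * h ∈ (fun x => k * x) '' (U : Set G)}.ncard ≤ b := by
    intro k
    rcases Set.eq_empty_or_nonempty
      {γ : Γ | h⁻¹ * (γ : G) * h ∈ (fun x => k * x) '' (U : Set G)} with h0 | ⟨γ0, h0⟩
    · rw [h0]
      exact ⟨Set.finite_empty, by rw [Set.ncard_empty]; exact Nat.zero_le _⟩
    · have hsub : {γ : Γ | h⁻¹ * (γ : G) * h ∈ (fun x => k * x) '' (U : Set G)} ⊆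
          (fun c => γ0 * c) '' (C : Set Γ) := by
        intro γ hγ
        refine ⟨γ0⁻¹ * γ, ?_, by group⟩
        rw [SetLike.mem_coe, hCmem]
        obtain ⟨u, hu, hue⟩ := hγ
        obtain ⟨v, hv, hve⟩ := h0
        have hue' : k * u = h⁻¹ * (γ : G) * h := hue
        have hve' : k * v = h⁻¹ * (γ0 : G) * h := hve
        have e : h⁻¹ * ((γ0⁻¹ * γ : Γ) : G) * h = v⁻¹ * u := by
          rw [Subgroup.coe_mul, Subgroup.coe_inv]
          have e1 : h⁻¹ * ((γ0 : G)⁻¹ * (γ : G)) * h =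
              (h⁻¹ * (γ0 : G) * h)⁻¹ * (h⁻¹ * (γ : G) * h) := by group
          rw [e1, ← hue', ← hve']
          group
        rw [e]
        exact U.mul_mem (U.inv_mem hv) hu
      have hfi := hCf.image (fun c => γ0 * c)
      refine ⟨hfi.subset hsub, (Set.ncard_le_ncard hsub hfi).trans ?_⟩
      exact (Set.ncard_image_le hCf).trans (hb C hCf)
  have hsub : {γ : Γ | h⁻¹ * (γ : G) * h ∈ K} ⊆
      ((T.biUnion fun k => (hcoset k).1.toFinset : Finset Γ) : Set Γ) := by
    intro γ hγ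
    obtain ⟨k, hk, hgk⟩ := Set.mem_iUnion₂.1 (hT hγ)
    rw [Finset.mem_coe, Finset.mem_biUnion]
    exact ⟨k, hk, (Set.Finite.mem_toFinset _).2 hgk⟩
  refine ⟨(Finset.finite_toSet _).subset hsub,
    (Set.ncard_le_ncard hsub (Finset.finite_toSet _)).trans ?_⟩
  rw [Set.ncard_coe_finset]
  refine (Finset.card_biUnion_le_card_mul T _ b fun k _ => ?_)
  rw [← Set.ncard_eq_toFinset_card _ (hcoset k).1]
  exact (hcoset k).2

end RapidDecay
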