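import Pool.Agent.Lib.MP_fee02f_an.AR.WDefs
import Pool.Agent.Lib.MP_fee02f_an.M2
import Pool.Agent.Lib.MP_fee02f_an.AR.V4

/-!
V8: continuous involutions of local fields preserve the absolute value.
-/

set_option autoImplicit false

open scoped WithZero MatrixGroups
open ValuativeRel

namespace RapidDecay

theorem V8_real {𝕜 : Type*} [RCLike 𝕜] (τ : 𝕜 ≃+* 𝕜) (hc : Continuous τ) (r : ℝ) :
    τ (r : 𝕜) = (r : 𝕜) := by
  have h := map_real_smul τ hc r (1 : 𝕜)
  rw [map_one] at h
  rw [RCLike.real_smul_eq_coe_mul, mul_one] at h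
  exact h

/-- a continuous automorphism of `ℝ` or `ℂ` preserves the norm -/
theorem norm_of_continuous {𝕜 : Type*} [RCLike 𝕜] (τ : 𝕜 ≃+* 𝕜) (hc : Continuous τ) (x : 𝕜) :
    ‖τ x‖ = ‖x‖ := by
  have h1 : x * x - (x + star x) * x + x * star x = 0 := by ring
  have h2 : x + star x = ((2 * RCLike.re x : ℝ) : 𝕜) := by
    rw [RCLike.star_def, RCLike.add_conj]
    push_cast
    ring
  have h3 : x * star x = ((‖x‖ ^ 2 : ℝ) : 𝕜) := by
    rw [RCLike.star_def, RCLike.mul_conj]
    push_cast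
    ring
  have h4 : τ x * τ x - (x + star x) * τ x + x * star x = 0 := by
    have h5 := congrArg τ h1
    rw [h2, h3] at h5
    rw [map_add, map_sub, map_mul, map_mul, V8_real τ hc, V8_real τ hc, map_zero, ← h2, ← h3] at h5
    exact h5
  have h5 : (τ x - x) * (τ x - star x) = 0 := by
    linear_combination h4
  rcases mul_eq_zero.1 h5 with h | h
  · rw [sub_eq_zero.1 h]
  · rw [sub_eq_zero.1 h, norm_star]

variable {F : Type*} [Field F] [ValuativeRel F] [TopologicalSpace F]
  [IsNonarchimedeanLocalField F]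

theorem V8_le (τ : F ≃+* F) (hc : Continuous τ) (x : F) (hx : vLoc F x ≤ 1) :
    vLoc F (τ x) ≤ 1 := by
  by_contra hlt
  rw [not_le] at hlt
  have hK : IsCompact (τ '' {x : F | vLoc F x ≤ 1}) := (isCompact_ball F 1).image hc
  obtain ⟨N, hN⟩ : ∃ N : ℕ, τ '' {x : F | vLoc F x ≤ 1} ⊆
      {x : F | vLoc F x ≤ WithZero.exp (N : ℤ)} := by
    refine hK.elim_directed_cover _ (fun N => isOpen_ball F _ WithZero.exp_ne_zero) ?_ ?_
    · intro y _
      rw [Set.mem_iUnion]
      rcases eq_or_ne (vLoc F y) 0 with h | h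
      · exact ⟨0, by show vLoc F y ≤ _; rw [h]; exact zero_le⟩
      · refine ⟨(WithZero.log (vLoc F y)).toNat, ?_⟩
        show vLoc F y ≤ _
        rw [← WithZero.exp_log h, WithZero.exp_le_exp, WithZero.log_exp]
        exact Int.self_le_toNat _
    · refine directed_of_isDirected_le fun a b hab y hy => ?_
      exact le_trans hy (WithZero.exp_le_exp.2 (by exact_mod_cast hab))
  have h1 : τ (x ^ (N + 1)) ∈ τ '' {x : F | vLoc F x ≤ 1} :=
    ⟨_, by show vLoc F (x ^ (N + 1)) ≤ 1; rw [map_pow]; exact pow_le_one' hx _, rfl⟩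
  have h2 : vLoc F (τ (x ^ (N + 1))) ≤ WithZero.exp (N : ℤ) := hN h1
  rw [map_pow, map_pow] at h2
  have h3 : WithZero.exp (1 : ℤ) ≤ vLoc F (τ x) := by
    have h0 : vLoc F (τ x) ≠ 0 := (lt_trans zero_lt_one hlt).ne'
    rw [← WithZero.exp_log h0, WithZero.exp_le_exp]
    rw [← WithZero.exp_log h0, ← WithZero.exp_zero, WithZero.exp_lt_exp] at hlt
    omega
  have h4 : WithZero.exp (((N + 1 : ℕ) : ℤ)) ≤ vLoc F (τ x) ^ (N + 1) := by
    have h5 : (WithZero.exp (1 : ℤ)) ^ (N + 1) ≤ vLoc F (τ x) ^ (N + 1) :=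
      pow_le_pow_left' h3 _
    rw [← WithZero.exp_nsmul] at h5
    simpa using h5
  have h5 := h4.trans h2
  rw [WithZero.exp_le_exp] at h5
  push_cast at h5
  omega

/-- a continuous involution of a local field preserves the valuation -/
theorem vLoc_of_continuous (τ : F ≃+* F) (hτ : ∀ x, τ (τ x) = x) (hc : Continuous τ) (x : F) :
    vLoc F (τ x) = vLoc F x := by
  have hmono : ∀ x y : F, y ≠ 0 → vLoc F x ≤ vLoc F y → vLoc F (τ x) ≤ vLoc F (τ y) := by
    intro x y hy hxy
    have hvy : vLoc F y ≠ 0 := (vLoc F).ne_zero_iff.2 hy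
    have hty : τ y ≠ 0 := (map_ne_zero τ).2 hy
    have hvty : vLoc F (τ y) ≠ 0 := (vLoc F).ne_zero_iff.2 hty
    have h1 : vLoc F (x / y) ≤ 1 := by
      rw [map_div₀]
      exact div_le_one_of_le₀ hxy zero_le
    have h2 := V8_le τ hc _ h1
    rw [map_div₀, map_div₀] at h2
    exact (div_le_one₀ (zero_lt_iff.2 hvty)).1 h2
  have hunit : ∀ x : F, vLoc F x = 1 → vLoc F (τ x) = 1 := by
    intro x hx
    have hx0 : x ≠ 0 := by
      rintro rfl
      rw [map_zero] at hx
      exact zero_ne_one hx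
    have h1 := hmono x 1 one_ne_zero (by rw [hx, map_one])
    have h2 := hmono 1 x hx0 (by rw [hx, map_one])
    rw [map_one, map_one] at h1 h2
    exact le_antisymm h1 h2
  obtain ⟨p, hp⟩ := M1_surj F (WithZero.exp (-1))
  have hp0 : p ≠ 0 := by
    rintro rfl
    rw [map_zero] at hp
    exact WithZero.exp_ne_zero hp.symm
  have htp : vLoc F (τ p) = WithZero.exp (-1) := by
    have h1 : vLoc F (τ p) ≤ 1 := by
      refine V8_le τ hc p ?_
      rw [hp, ← WithZero.exp_zero, WithZero.exp_le_exp]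
      norm_num
    have h2 : vLoc F (τ p) ≠ 1 := by
      intro h
      have h3 := hunit _ h
      rw [hτ, hp, ← WithZero.exp_zero, WithZero.exp_inj] at h3
      norm_num at h3
    have h3 : vLoc F (τ p) ≤ WithZero.exp (-1) := (M1_lt_one_iff _).1 (lt_of_le_of_ne h1 h2)
    have h4 := hmono (τ p) p hp0 (by rw [hp]; exact h3)
    rw [hτ, hp] at h4
    exact le_antisymm h3 h4
  rcases eq_or_ne x 0 with hx | hx
  · rw [hx, map_zero]
  · have hvx : vLoc F x ≠ 0 := (vLoc F).ne_zero_iff.2 hx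
    set k := WithZero.log (vLoc F x) with hk
    have hxk : vLoc F x = WithZero.exp k := (WithZero.exp_log hvx).symm
    have h1 : vLoc F (x * p ^ k) = 1 := by
      rw [map_mul, map_zpow₀, hp, hxk, ← WithZero.exp_zsmul, ← WithZero.exp_add,
        ← WithZero.exp_zero]
      congr 1
      simp
    have h2 := hunit _ h1
    rw [map_mul, map_mul, map_zpow₀, map_zpow₀, htp, ← WithZero.exp_zsmul] at h2
    have h3 : vLoc F (τ x) = (WithZero.exp (k • (-1 : ℤ)))⁻¹ := eq_inv_of_mul_eq_one_left h2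
    rw [h3, hxk, ← WithZero.exp_neg]
    congr 1
    simp

end RapidDecay
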