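import Pool.Agent.Lib.MP_fee02f_an.AR.V6

/-!
V9: the class `Good` is closed under uniformly proper continuous homomorphisms; continuous
homomorphisms with compact preimages of compact sets onto closed cocompact subgroups.
-/

set_option autoImplicit false

namespace RapidDecay

open scoped Pointwise

theorem Good.hom.{u} {G : Type u} [Group G] [TopologicalSpace G] (hGd : Good G)
    {H : Type u} [Group H] [TopologicalSpace H] [h1H : T2Space H] [h2H : IsTopologicalGroup H]
    (h0 : ∃ K ∈ _root_.nhds (1 : H), IsCompact K) (φ : H →* G) (hφ : Continuous φ)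
    (hU : UHom φ) :
    Good H := by
  classical
  obtain ⟨h1, h2, G', g', t', h1', h2', hA, π, hc, ho, hs, hf⟩ := hGd
  -- the fibre product
  let L : Subgroup (H × G') :=
    { carrier := {p | φ p.1 = π p.2}
      mul_mem' := by
        intro a b ha hb
        rw [Set.mem_ofPred_eq] at ha hb ⊢
        rw [Prod.fst_mul, Prod.snd_mul, map_mul, map_mul, ha, hb]
      one_mem' := by
        rw [Set.mem_ofPred_eq, Prod.fst_one, Prod.snd_one, map_one, map_one]
      inv_mem' := by
        intro a ha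
        rw [Set.mem_ofPred_eq] at ha ⊢
        rw [Prod.fst_inv, Prod.snd_inv, map_inv, map_inv, ha] }
  have hL : IsClosed (L : Set (H × G')) :=
    isClosed_eq (hφ.comp continuous_fst) (hc.comp continuous_snd)
  have hlift : ∀ x : H, ∃ y : G', π y = φ x := fun x => hs (φ x)
  choose j hj using hlift
  let J : H → L := fun x => ⟨(x, j x), (hj x).symm⟩
  have h0L : ∃ K ∈ _root_.nhds (1 : L), IsCompact K := by
    refine V1_nhds L hL ?_
    obtain ⟨K, hK, hKc⟩ := h0
    obtain ⟨K2, hK2, hKc2⟩ := hA.1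
    exact ⟨K ×ˢ K2, prod_mem_nhds hK hK2, hKc.prod hKc2⟩
  refine ⟨h1H, h2H, L, inferInstance, inferInstance, inferInstance, inferInstance, ?_, ?_⟩
  · -- `AdmA L`
    let ψ : L →* G' := (MonoidHom.snd H G').comp L.subtype
    refine AdmA.hom hA ψ h0L ?_
    intro K hK
    obtain ⟨KH, N, hKH, hl⟩ := hU (π '' K) (hK.image hc)
    have hK2 : IsCompact (π ⁻¹' (φ '' KH)) := V6_proper hA.1 π hc ho hs hf (hKH.image hφ)
    refine ⟨(fun x : L => (x : H × G')) ⁻¹' (KH ×ˢ (π ⁻¹' (φ '' KH))), N,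
      hL.isClosedEmbedding_subtypeVal.isCompact_preimage (hKH.prod hK2), fun x => ?_⟩
    obtain ⟨l, s, hsN, hg⟩ := hl (π x)
    refine ⟨J l, s.image J, Finset.card_image_le.trans hsN, fun g hgK => ?_⟩
    have hgm : φ (g : H × G').1 = π (g : H × G').2 := g.2
    obtain ⟨t, ht, htK⟩ := hg (g : H × G').1 (by
      refine ⟨_, hgK, ?_⟩
      rw [map_mul, map_mul, map_inv, hgm]
      rfl)
    refine ⟨J t, Finset.mem_image_of_mem J ht, ?_⟩
    have hmem : φ (((J l)⁻¹ * ((J t)⁻¹ * g) * J l : L) : H × G').1 =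
        π (((J l)⁻¹ * ((J t)⁻¹ * g) * J l : L) : H × G').2 := ((J l)⁻¹ * ((J t)⁻¹ * g) * J l).2
    have hfst : (((J l)⁻¹ * ((J t)⁻¹ * g) * J l : L) : H × G').1 =
        l⁻¹ * (t⁻¹ * (g : H × G').1) * l := rfl
    refine ⟨?_, ?_⟩
    · show (((J l)⁻¹ * ((J t)⁻¹ * g) * J l : L) : H × G').1 ∈ KH
      rw [hfst]
      exact htK
    · show π (((J l)⁻¹ * ((J t)⁻¹ * g) * J l : L) : H × G').2 ∈ φ '' KH
      rw [← hmem, hfst]
      exact ⟨_, htK, rfl⟩
  · let q : L →* H := (MonoidHom.fst H G').comp L.subtype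
    refine ⟨q, continuous_fst.comp continuous_subtype_val, ?_, ?_, ?_⟩
    · -- open
      rw [isOpenMap_iff_nhds_le]
      intro a
      rw [Filter.le_map_iff]
      intro S hS
      obtain ⟨S', hS', hSS⟩ := mem_nhds_subtype _ _ _ |>.1 hS
      obtain ⟨A, hA', B, hB, hAB⟩ := mem_nhds_prod_iff.1 hS'
      have h3 : π '' B ∈ _root_.nhds (φ (a : H × G').1) := by
        rw [show φ (a : H × G').1 = π (a : H × G').2 from a.2]
        exact ho.image_mem_nhds hB
      have h4 : A ∩ φ ⁻¹' (π '' B) ∈ _root_.nhds (a : H × G').1 :=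
        Filter.inter_mem hA' (hφ.continuousAt.preimage_mem_nhds h3)
      refine Filter.mem_of_superset h4 ?_
      rintro x ⟨hxA, y, hyB, hyx⟩
      exact ⟨⟨(x, y), hyx.symm⟩, hSS (hAB ⟨hxA, hyB⟩), rfl⟩
    · intro x
      exact ⟨J x, rfl⟩
    · refine Set.Finite.of_finite_image (f := fun x : L => (x : H × G').2) (hf.subset ?_) ?_
      · rintro _ ⟨x, hx, rfl⟩
        have hx' : (x : H × G').1 = 1 := hx
        have h5 : φ (x : H × G').1 = π (x : H × G').2 := x.2
        rw [hx', map_one] at h5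
        exact h5.symm
      · intro x hx y hy hxy
        have hx' : (x : H × G').1 = 1 := hx
        have hy' : (y : H × G').1 = 1 := hy
        exact Subtype.ext (Prod.ext (hx'.trans hy'.symm) hxy)

/-- A homomorphism such that preimages of compact sets are compact and whose image is cocompact is
uniformly proper. -/
theorem UHom.of_proper {H G : Type*} [Group H] [TopologicalSpace H] [Group G]
    [TopologicalSpace G] [IsTopologicalGroup G] (φ : H →* G)
    (hp : ∀ K : Set G, IsCompact K → IsCompact (φ ⁻¹' K))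
    (hc : ∃ C : Set G, IsCompact C ∧ ∀ h : G, ∃ l : H, (φ l)⁻¹ * h ∈ C) : UHom φ := by
  obtain ⟨C, hC, hCl⟩ := hc
  refine UHom.of_one _ fun K hK => ?_
  refine ⟨φ ⁻¹' (C * K * C⁻¹), hp _ ((hC.mul hK).mul hC.inv), fun h => ?_⟩
  obtain ⟨l, hlC⟩ := hCl h
  refine ⟨l, fun g hg => ?_⟩
  rw [Set.mem_preimage]
  have e : φ (l⁻¹ * g * l) = ((φ l)⁻¹ * h) * (h⁻¹ * φ g * h) * ((φ l)⁻¹ * h)⁻¹ := by
    rw [map_mul, map_mul, map_inv]
    group
  rw [e]
  exact Set.mul_mem_mul (Set.mul_mem_mul hlC hg) (Set.inv_mem_inv.2 hlC)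

end RapidDecay
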