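import Pool.Agent.Lib.MP_fee02f_an.AR.WDefs
import Pool.Agent.Lib.MP_fee02f_an.M2

/-!
W0: a compact subgroup of `GL_4(E)` stabilises a lattice (40 min).

PROOF. Let A0 be the standard lattice (span of the standard basis).  Its stabiliser is open (isOpen_stab_lat in M2), so
C ∩ Stab(A0) is an open subgroup of the compact group C, of finite index; the C-orbit of A0 is finite.  A = the sum (supremum)
of the lattices of the orbit: finitely generated, spans E^4, and C permutes the summands.
-/

set_option autoImplicit false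

open scoped WithZero MatrixGroups
open ValuativeRel

namespace RapidDecay

variable {E : Type*} [Field E] [ValuativeRel E] [TopologicalSpace E]
  [IsNonarchimedeanLocalField E]

/-- the orbit of the standard lattice under a compact subgroup is finite -/
theorem W0_orbit_finite (C : Subgroup (GL (Fin 4) E)) (hC : IsCompact (C : Set (GL (Fin 4) E))) :
    {B : Submodule 𝒪[E] (Fin 4 → E) | ∃ c ∈ C, B = (c • M2_std E).1}.Finite := by
  classical
  have hop : ∀ h : GL (Fin 4) E, IsOpen {g : GL (Fin 4) E | g • M2_std E = h • M2_std E} := by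
    intro h
    have e : {g : GL (Fin 4) E | g • M2_std E = h • M2_std E} =
        (fun g => h⁻¹ * g) ⁻¹' (MulAction.stabilizer (GL (Fin 4) E) (M2_std E) :
          Set (GL (Fin 4) E)) := by
      ext g
      rw [Set.mem_preimage, SetLike.mem_coe, MulAction.mem_stabilizer_iff, mul_smul,
        inv_smul_eq_iff]
      rfl
    rw [e]
    exact (isOpen_stab_lat (M2_std E)).preimage (continuous_const_mul h⁻¹)
  obtain ⟨t, ht⟩ := hC.elim_finite_subcover
    (fun h : GL (Fin 4) E => {g : GL (Fin 4) E | g • M2_std E = h • M2_std E}) hop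
    (fun g _ => Set.mem_iUnion.2 ⟨g, rfl⟩)
  refine (t.finite_toSet.image (fun h => (h • M2_std E).1)).subset ?_
  rintro B ⟨c, hc, rfl⟩
  obtain ⟨h, hh⟩ := Set.mem_iUnion.1 (ht hc)
  obtain ⟨hh1, hh2⟩ := Set.mem_iUnion.1 hh
  exact ⟨h, hh1, congrArg Subtype.val (Eq.symm hh2)⟩

theorem compact_fixes_lat (C : Subgroup (GL (Fin 4) E)) (hC : IsCompact (C : Set (GL (Fin 4) E))) :
    ∃ A : Lat 𝒪[E] E, ∀ c ∈ C, c • A = A := by
  classical
  have hfin := W0_orbit_finite C hC
  set S : Set (Submodule 𝒪[E] (Fin 4 → E)) := {B | ∃ c ∈ C, B = (c • M2_std E).1} with hS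
  have hmem : (M2_std E).1 ∈ S := ⟨1, C.one_mem, by rw [one_smul]⟩
  have hlat : IsLat (sSup S) := by
    constructor
    · rw [sSup_eq_iSup]
      have h1 : (⨆ B ∈ hfin.toFinset, B) = ⨆ B ∈ S, B := by
        simp only [Set.Finite.mem_toFinset]
      rw [← h1]
      refine Submodule.fg_biSup _ _ ?_
      intro B hB
      rw [Set.Finite.mem_toFinset] at hB
      obtain ⟨c, hc, rfl⟩ := hB
      exact (c • M2_std E).2.1
    · rw [eq_top_iff, ← (M2_std E).2.2]
      exact Submodule.span_mono (le_sSup hmem)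
  have key : ∀ c ∈ C, gact c.1 (sSup S) ≤ sSup S := by
    intro c hc
    unfold gact
    rw [sSup_eq_iSup, Submodule.map_iSup]
    refine iSup_le fun B => ?_
    rw [Submodule.map_iSup]
    refine iSup_le fun hB => ?_
    obtain ⟨d, hd, rfl⟩ := hB
    rw [← sSup_eq_iSup]
    refine le_sSup ⟨c * d, C.mul_mem hc hd, ?_⟩
    rw [mul_smul]
    rfl
  refine ⟨⟨sSup S, hlat⟩, fun c hc => Subtype.ext ?_⟩
  show gact c.1 (sSup S) = sSup S
  refine le_antisymm (key c hc) ?_
  have h1 := M2_gact_mono c.1 (key c⁻¹ (C.inv_mem hc))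
  rwa [← gact_mul, ← Units.val_mul, mul_inv_cancel, Units.val_one, gact_one] at h1

end RapidDecay
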