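import Pool.Agent.Lib.MP_fee02f_an.AR.WDefs
import Pool.Agent.Lib.MP_fee02f_an.M1
import Pool.Agent.Lib.MP_fee02f_an.L2a

/-!
W1: a lattice stabilised by `C ≤ isoGrp` gives a stable lattice `B` with `π B^# ⊆ B ⊆ B^#` (100 min).

PROOF.  h(x,y) = hf τ S x y is additive in both variables, h(a x, b y) = τ(a) b h(x,y), h(y,x) = ε' τ(h(x,y)) with
ε' = ±1 (`herm`, `inv`), h(c x, c y) = h(x, y) for c in isoGrp (hf_iso).  For a submodule B let B^# = {x : v(h(y,x)) ≤ 1 for all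
y in B}.  Let π be a uniformiser, v(π) = exp(-1).
(a) If B is a lattice, B^# is contained in a finitely generated submodule: with x_1..x_4 in B a basis of E^4 (B spans) the matrix
P with columns x_i is invertible and x in B^# implies that dag(P) S x has entries in O, so x lies in (dag(P) S)⁻¹ O^4.
(b) For k large π^k A =: A0 is integral (v(h(x,y)) ≤ 1 for x, y in A0): finitely many generators.
(c) Let D = the finitely generated module of (a) for A0.  Submodules B with A0 ⊆ B, integral and C-stable satisfy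
B ⊆ B^# ⊆ A0^# ⊆ D; D is Noetherian, so there is a maximal such B (`WellFoundedGT` of submodules of D or
`IsNoetherian` + set_has_maximal).  B is a lattice.
(d) Suppose j ≥ 2 and π^j B^# ⊆ B.  B' = B + π^(j-1) B^# is C-stable and integral: h(B, π^(j-1)B^#) has values of norm ≤ 1;
h(π^(j-1)x, π^(j-1)y) = τ(π)^(j-1) π^(j-1) h(x,y) = (unit) π^(j-2) h(x, π^j y) has norm ≤ 1 for x, y in B^# since π^j y is in B.
By maximality B' = B, so π^(j-1) B^# ⊆ B.  Some j exists by (a) for B; descend to j = 1.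
-/

set_option autoImplicit false

open scoped WithZero MatrixGroups
open ValuativeRel

namespace RapidDecay

section algebra

variable {E : Type*} [Field E]

theorem W1_add_left (τ : E ≃+* E) (S : Matrix (Fin 4) (Fin 4) E) (x x' y : Fin 4 → E) :
    hf τ S (x + x') y = hf τ S x y + hf τ S x' y := by
  unfold hf
  rw [← Finset.sum_add_distrib]
  refine Finset.sum_congr rfl fun i _ => ?_
  rw [← Finset.sum_add_distrib]
  refine Finset.sum_congr rfl fun j _ => ?_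
  rw [Pi.add_apply, map_add]
  ring

theorem W1_add_right (τ : E ≃+* E) (S : Matrix (Fin 4) (Fin 4) E) (x y y' : Fin 4 → E) :
    hf τ S x (y + y') = hf τ S x y + hf τ S x y' := by
  unfold hf
  rw [← Finset.sum_add_distrib]
  refine Finset.sum_congr rfl fun i _ => ?_
  rw [← Finset.sum_add_distrib]
  refine Finset.sum_congr rfl fun j _ => ?_
  rw [Pi.add_apply]
  ring

theorem W1_smul_left (τ : E ≃+* E) (S : Matrix (Fin 4) (Fin 4) E) (a : E) (x y : Fin 4 → E) :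
    hf τ S (a • x) y = τ a * hf τ S x y := by
  unfold hf
  rw [Finset.mul_sum]
  refine Finset.sum_congr rfl fun i _ => ?_
  rw [Finset.mul_sum]
  refine Finset.sum_congr rfl fun j _ => ?_
  rw [Pi.smul_apply, smul_eq_mul, map_mul]
  ring

theorem W1_smul_right (τ : E ≃+* E) (S : Matrix (Fin 4) (Fin 4) E) (a : E) (x y : Fin 4 → E) :
    hf τ S x (a • y) = a * hf τ S x y := by
  unfold hf
  rw [Finset.mul_sum]
  refine Finset.sum_congr rfl fun i _ => ?_
  rw [Finset.mul_sum]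
  refine Finset.sum_congr rfl fun j _ => ?_
  rw [Pi.smul_apply, smul_eq_mul]
  ring

theorem W1_zero_left (τ : E ≃+* E) (S : Matrix (Fin 4) (Fin 4) E) (y : Fin 4 → E) :
    hf τ S 0 y = 0 := by
  have h := W1_smul_left τ S 0 0 y
  rwa [zero_smul, map_zero, zero_mul] at h

theorem W1_zero_right (τ : E ≃+* E) (S : Matrix (Fin 4) (Fin 4) E) (x : Fin 4 → E) :
    hf τ S x 0 = 0 := by
  have h := W1_smul_right τ S 0 x 0
  rwa [zero_smul, zero_mul] at h

theorem W1_dot (τ : E ≃+* E) (S : Matrix (Fin 4) (Fin 4) E) (x y : Fin 4 → E) :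
    hf τ S x y = dotProduct (fun i => τ (x i)) (S.mulVec y) := by
  unfold hf dotProduct Matrix.mulVec dotProduct
  refine Finset.sum_congr rfl fun i _ => ?_
  rw [Finset.mul_sum]
  refine Finset.sum_congr rfl fun j _ => ?_
  ring

theorem W1_iso (τ : E ≃+* E) (S : Matrix (Fin 4) (Fin 4) E) (g : Matrix (Fin 4) (Fin 4) E)
    (hg : dag τ g * S * g = S) (x y : Fin 4 → E) :
    hf τ S (g.mulVec x) (g.mulVec y) = hf τ S x y := by
  rw [W1_dot, W1_dot]
  have h1 : (fun i => τ (g.mulVec x i)) = Matrix.vecMul (fun i => τ (x i)) (dag τ g) := by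
    ext i
    unfold dag Matrix.mulVec Matrix.vecMul dotProduct
    rw [map_sum]
    refine Finset.sum_congr rfl fun j _ => ?_
    rw [map_mul]
    exact mul_comm (τ (g i j)) (τ (x j))
  rw [h1, Matrix.mulVec_mulVec, ← Matrix.dotProduct_mulVec, Matrix.mulVec_mulVec,
    ← Matrix.mul_assoc, hg]

end algebra

variable {E : Type*} [Field E] [ValuativeRel E] [TopologicalSpace E]
  [IsNonarchimedeanLocalField E]

theorem W1_symm {τ : E ≃+* E} {S : GL (Fin 4) E} {ε : E} (H : EpsForm τ S ε)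
    (x y : Fin 4 → E) : vLoc E (hf τ S.1 y x) = vLoc E (hf τ S.1 x y) := by
  have hε : vLoc E ε = 1 := by
    have h1 : vLoc E ε * vLoc E ε = 1 := by rw [← map_mul, H.sq, map_one]
    have h2 : (vLoc E ε) ^ 2 = 1 := by rw [sq, h1]
    exact (pow_eq_one_iff_of_nonneg zero_le (two_ne_zero)).1 h2
  have h3 : ∀ i j, τ (S.1 j i) = ε * S.1 i j := by
    intro i j
    have h4 := congrFun (congrFun H.herm i) j
    unfold dag at h4
    rw [Matrix.transpose_apply, Matrix.map_apply, Matrix.smul_apply, smul_eq_mul] at h4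
    exact h4
  have h5 : τ (hf τ S.1 x y) = ε * hf τ S.1 y x := by
    unfold hf
    simp only [map_sum, map_mul, Finset.mul_sum, H.inv]
    rw [Finset.sum_comm]
    refine Finset.sum_congr rfl fun i _ => Finset.sum_congr rfl fun j _ => ?_
    rw [h3]
    ring
  have h6 : vLoc E (τ (hf τ S.1 x y)) = vLoc E (hf τ S.1 y x) := by
    rw [h5, map_mul, hε, one_mul]
  rw [← h6, H.val]

theorem W1_alg (c : 𝒪[E]) (x : Fin 4 → E) : c • x = (algebraMap 𝒪[E] E c) • x := by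
  ext i
  simp [Algebra.smul_def]

theorem W1_smul_mem (B : Submodule 𝒪[E] (Fin 4 → E)) {a : E} (ha : vLoc E a ≤ 1)
    {x : Fin 4 → E} (hx : x ∈ B) : a • x ∈ B := by
  obtain ⟨u, rfl⟩ := (vLoc_integers E).exists_of_le_one ha
  rw [← W1_alg]
  exact B.smul_mem _ hx

/-- the dual module -/
def W1_dual (τ : E ≃+* E) (S : GL (Fin 4) E) (B : Submodule 𝒪[E] (Fin 4 → E)) :
    Submodule 𝒪[E] (Fin 4 → E) where
  carrier := {x | ∀ y ∈ B, vLoc E (hf τ S.1 y x) ≤ 1}
  add_mem' := by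
    intro a b ha hb y hy
    rw [W1_add_right]
    exact (Valuation.map_add _ _ _).trans (max_le (ha y hy) (hb y hy))
  zero_mem' := by
    intro y hy
    rw [W1_zero_right, map_zero]
    exact zero_le
  smul_mem' := by
    intro c x hx y hy
    rw [W1_alg, W1_smul_right, map_mul]
    calc vLoc E (algebraMap 𝒪[E] E c) * vLoc E (hf τ S.1 y x) ≤ 1 * 1 :=
          mul_le_mul' ((vLoc_integers E).map_le_one c) (hx y hy)
      _ = 1 := one_mul 1

theorem W1_mem_dual (τ : E ≃+* E) (S : GL (Fin 4) E) (B : Submodule 𝒪[E] (Fin 4 → E))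
    (x : Fin 4 → E) : x ∈ W1_dual τ S B ↔ ∀ y ∈ B, vLoc E (hf τ S.1 y x) ≤ 1 := Iff.rfl

/-- stable integral modules above `A0` -/
def W1_P (τ : E ≃+* E) (S : GL (Fin 4) E) (C : Subgroup (GL (Fin 4) E))
    (A0 B : Submodule 𝒪[E] (Fin 4 → E)) : Prop :=
  A0 ≤ B ∧ (∀ x ∈ B, ∀ y ∈ B, vLoc E (hf τ S.1 x y) ≤ 1) ∧
    ∀ c ∈ C, ∀ x ∈ B, c.1.mulVec x ∈ B

theorem W1_fin {α : Type*} (s : Finset α) (f : α → α → ℤᵐ⁰) :
    ∃ M, ∀ x ∈ s, ∀ y ∈ s, f x y ≤ M :=
  ⟨s.sup fun x => s.sup fun y => f x y, fun x hx _ hy =>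
    (Finset.le_sup (f := fun y => f x y) hy).trans
      (Finset.le_sup (f := fun x => s.sup fun y => f x y) hx)⟩

theorem W1_bound {τ : E ≃+* E} (hτ : ∀ x, vLoc E (τ x) = vLoc E x)
    (S : Matrix (Fin 4) (Fin 4) E) {A : Submodule 𝒪[E] (Fin 4 → E)} (hA : A.FG) :
    ∃ M : ℤᵐ⁰, ∀ x ∈ A, ∀ y ∈ A, vLoc E (hf τ S x y) ≤ M := by
  obtain ⟨s, rfl⟩ := hA
  obtain ⟨M, h1⟩ := W1_fin s fun x y => vLoc E (hf τ S x y)
  refine ⟨M, ?_⟩
  have h2 : ∀ x ∈ Submodule.span 𝒪[E] (s : Set (Fin 4 → E)), ∀ y ∈ s,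
      vLoc E (hf τ S x y) ≤ M := by
    intro x hx y hy
    induction hx using Submodule.span_induction with
    | mem x hx => exact h1 x hx y hy
    | zero =>
      rw [W1_zero_left, map_zero]
      exact zero_le
    | add x x' _ _ ha hb =>
      rw [W1_add_left]
      exact (Valuation.map_add _ _ _).trans (max_le ha hb)
    | smul c x _ h =>
      rw [W1_alg, W1_smul_left, map_mul, hτ]
      calc vLoc E (algebraMap 𝒪[E] E c) * vLoc E (hf τ S x y) ≤ 1 * M :=
            mul_le_mul' ((vLoc_integers E).map_le_one c) h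
        _ = M := one_mul M
  intro x hx y hy
  induction hy using Submodule.span_induction with
  | mem y hy => exact h2 x hx y hy
  | zero =>
    rw [W1_zero_right, map_zero]
    exact zero_le
  | add y y' _ _ ha hb =>
    rw [W1_add_right]
    exact (Valuation.map_add _ _ _).trans (max_le ha hb)
  | smul c y _ h =>
    rw [W1_alg, W1_smul_right, map_mul]
    calc vLoc E (algebraMap 𝒪[E] E c) * vLoc E (hf τ S x y) ≤ 1 * M :=
          mul_le_mul' ((vLoc_integers E).map_le_one c) h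
      _ = M := one_mul M

theorem W1_arch (M : ℤᵐ⁰) : ∃ k : ℕ, (WithZero.exp (-1 : ℤ)) ^ k * M ≤ 1 := by
  have h3 : ∀ k : ℕ, (WithZero.exp (-1 : ℤ)) ^ k = WithZero.exp (-(k : ℤ)) := by
    intro k
    rw [← WithZero.exp_nsmul]
    congr 1
    simp
  by_cases hM : M = 0
  · exact ⟨0, by rw [hM, mul_zero]; exact zero_le⟩
  · obtain ⟨n, rfl⟩ : ∃ n : ℤ, M = WithZero.exp n :=
      ⟨WithZero.log M, (WithZero.exp_log hM).symm⟩
    refine ⟨n.toNat, ?_⟩
    rw [h3, ← WithZero.exp_add, ← WithZero.exp_zero, WithZero.exp_le_exp]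
    have := Int.self_le_toNat n
    omega

theorem W1_le_one {p : E} (hp : vLoc E p = WithZero.exp (-1)) : vLoc E p ≤ 1 := by
  rw [hp, ← WithZero.exp_zero, WithZero.exp_le_exp]
  norm_num

theorem W1_ne_zero {p : E} (hp : vLoc E p = WithZero.exp (-1)) : p ≠ 0 := by
  rintro rfl
  rw [map_zero] at hp
  exact WithZero.exp_ne_zero hp.symm

theorem W1_pow_mono {p : E} (hp1 : vLoc E p ≤ 1) (A : Submodule 𝒪[E] (Fin 4 → E)) {k m : ℕ}
    (hkm : k ≤ m) {x : Fin 4 → E} (h : p ^ k • x ∈ A) : p ^ m • x ∈ A := by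
  obtain ⟨n, rfl⟩ := Nat.exists_eq_add_of_le hkm
  rw [pow_add, mul_comm, mul_smul]
  exact W1_smul_mem A (by rw [map_pow]; exact pow_le_one₀ zero_le hp1) h

theorem W1_pow {p : E} (hp : vLoc E p = WithZero.exp (-1)) (A : Submodule 𝒪[E] (Fin 4 → E))
    (hA : Submodule.span E (A : Set (Fin 4 → E)) = ⊤) (x : Fin 4 → E) :
    ∃ k : ℕ, p ^ k • x ∈ A := by
  have hx : x ∈ Submodule.span E (A : Set (Fin 4 → E)) := by
    rw [hA]
    exact Submodule.mem_top
  induction hx using Submodule.span_induction with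
  | mem x hx => exact ⟨0, by rw [pow_zero, one_smul]; exact hx⟩
  | zero => exact ⟨0, by rw [smul_zero]; exact A.zero_mem⟩
  | add x y _ _ hx hy =>
    obtain ⟨k, hk⟩ := hx
    obtain ⟨m, hm⟩ := hy
    refine ⟨max k m, ?_⟩
    rw [smul_add]
    exact A.add_mem (W1_pow_mono (W1_le_one hp) A (le_max_left _ _) hk)
      (W1_pow_mono (W1_le_one hp) A (le_max_right _ _) hm)
  | smul a x _ h =>
    obtain ⟨k, hk⟩ := h
    obtain ⟨m, hm⟩ := W1_arch (vLoc E a)
    refine ⟨m + k, ?_⟩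
    have h1 : p ^ (m + k) • a • x = (p ^ m * a) • (p ^ k • x) := by
      rw [smul_smul, smul_smul, pow_add]
      congr 1
      ring
    rw [h1]
    refine W1_smul_mem A ?_ hk
    rw [map_mul, map_pow, hp]
    exact hm

theorem W1_pow_fg {p : E} (hp : vLoc E p = WithZero.exp (-1)) (A : Submodule 𝒪[E] (Fin 4 → E))
    (hA : Submodule.span E (A : Set (Fin 4 → E)) = ⊤) {D : Submodule 𝒪[E] (Fin 4 → E)}
    (hD : D.FG) : ∃ k : ℕ, ∀ x ∈ D, p ^ k • x ∈ A := by
  obtain ⟨s, rfl⟩ := hD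
  choose f hf using W1_pow hp A hA
  refine ⟨s.sup f, ?_⟩
  intro x hx
  induction hx using Submodule.span_induction with
  | mem x hx => exact W1_pow_mono (W1_le_one hp) A (Finset.le_sup hx) (hf x)
  | zero =>
    rw [smul_zero]
    exact A.zero_mem
  | add x y _ _ hx hy =>
    rw [smul_add]
    exact A.add_mem hx hy
  | smul c x _ h =>
    rw [smul_comm]
    exact A.smul_mem c h

theorem W1_single (τ : E ≃+* E) (S : Matrix (Fin 4) (Fin 4) E) (i : Fin 4) (x : Fin 4 → E) :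
    hf τ S (Pi.single i 1) x = S.mulVec x i := by
  rw [W1_dot]
  have h1 : (fun j => τ ((Pi.single i (1 : E) : Fin 4 → E) j)) = Pi.single i 1 := by
    ext j
    by_cases hj : j = i
    · subst hj
      rw [Pi.single_eq_same, map_one]
    · rw [Pi.single_eq_of_ne hj, map_zero]
  rw [h1, single_dotProduct, one_mul]

theorem W1_dual_fg {τ : E ≃+* E} {S : GL (Fin 4) E} {ε : E} (H : EpsForm τ S ε)
    {A : Submodule 𝒪[E] (Fin 4 → E)}
    (hA : Submodule.span E (A : Set (Fin 4 → E)) = ⊤) :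
    ∃ D : Submodule 𝒪[E] (Fin 4 → E), D.FG ∧ W1_dual τ S A ≤ D := by
  obtain ⟨q, hq, -⟩ := exists_unif E
  obtain ⟨p, hp⟩ : ∃ p : E, vLoc E p = WithZero.exp (-1) := ⟨_, hq⟩
  have hp0 := W1_ne_zero hp
  choose f hf' using fun i : Fin 4 => W1_pow hp A hA (Pi.single i 1)
  obtain ⟨k, hk⟩ : ∃ k : ℕ, ∀ i : Fin 4, p ^ k • (Pi.single i (1 : E) : Fin 4 → E) ∈ A :=
    ⟨Finset.univ.sup f, fun i =>
      W1_pow_mono (W1_le_one hp) A (Finset.le_sup (Finset.mem_univ i)) (hf' i)⟩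
  refine ⟨Submodule.span 𝒪[E] (Set.range fun i : Fin 4 =>
    (fun j : Fin 4 => (p ^ k)⁻¹ * (S⁻¹).1 j i)), Submodule.fg_span (Set.finite_range _), ?_⟩
  intro x hx
  have h1 : ∀ i, vLoc E (p ^ k * S.1.mulVec x i) ≤ 1 := by
    intro i
    have h2 := hx _ (hk i)
    rwa [W1_smul_left, W1_single, map_mul, H.val, ← map_mul] at h2
  have h3 : x = ∑ i : Fin 4, (p ^ k * S.1.mulVec x i) •
      (fun j : Fin 4 => (p ^ k)⁻¹ * (S⁻¹).1 j i) := by
    have h4 : (S⁻¹).1.mulVec (S.1.mulVec x) = x := by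
      rw [Matrix.mulVec_mulVec, ← Units.val_mul, inv_mul_cancel, Units.val_one,
        Matrix.one_mulVec]
    ext j
    conv_lhs => rw [← h4]
    rw [Finset.sum_apply]
    unfold Matrix.mulVec dotProduct
    refine Finset.sum_congr rfl fun i _ => ?_
    rw [Pi.smul_apply, smul_eq_mul]
    have h5 : p ^ k ≠ 0 := pow_ne_zero _ hp0
    field_simp
  rw [h3]
  refine Submodule.sum_mem _ fun i _ => ?_
  exact W1_smul_mem _ (h1 i) (Submodule.subset_span ⟨i, rfl⟩)

theorem W1_dual_stable {τ : E ≃+* E} {S : GL (Fin 4) E} (C : Subgroup (GL (Fin 4) E))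
    (hC : C ≤ isoGrp τ S.1) {B : Submodule 𝒪[E] (Fin 4 → E)}
    (hB : ∀ c ∈ C, ∀ x ∈ B, c.1.mulVec x ∈ B) :
    ∀ c ∈ C, ∀ x ∈ W1_dual τ S B, c.1.mulVec x ∈ W1_dual τ S B := by
  intro c hc x hx y hy
  have h1 : c.1.mulVec ((c⁻¹).1.mulVec y) = y := by
    rw [Matrix.mulVec_mulVec, ← Units.val_mul, mul_inv_cancel, Units.val_one,
      Matrix.one_mulVec]
  rw [← h1, W1_iso τ S.1 c.1 (hC hc)]
  exact hx _ (hB _ (C.inv_mem hc) _ hy)

theorem W1_step {τ : E ≃+* E} {S : GL (Fin 4) E} {ε : E} (H : EpsForm τ S ε)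
    (C : Subgroup (GL (Fin 4) E)) (hC : C ≤ isoGrp τ S.1)
    {A0 B : Submodule 𝒪[E] (Fin 4 → E)} (hP : W1_P τ S C A0 B)
    (hmax : ∀ B' : Submodule 𝒪[E] (Fin 4 → E), W1_P τ S C A0 B' → B ≤ B' → B' ≤ B)
    {p : E} (hp : vLoc E p = WithZero.exp (-1)) (j : ℕ)
    (h : ∀ x ∈ W1_dual τ S B, p ^ (j + 2) • x ∈ B) :
    ∀ x ∈ W1_dual τ S B, p ^ (j + 1) • x ∈ B := by
  have hp1 := W1_le_one hp
  have hmem : ∀ x, x ∈ gact (Matrix.scalar (Fin 4) (p ^ (j + 1))) (W1_dual τ S B) ↔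
      ∃ y ∈ W1_dual τ S B, p ^ (j + 1) • y = x := by
    intro x
    rw [L2a_mem_gact]
    refine exists_congr fun y => and_congr_right fun _ => ?_
    rw [L2a_scalar_mulVec]
  have h1 : ∀ x ∈ B, ∀ y ∈ W1_dual τ S B, vLoc E (hf τ S.1 x (p ^ (j + 1) • y)) ≤ 1 := by
    intro x hx y hy
    rw [W1_smul_right, map_mul, map_pow]
    exact mul_le_one' (pow_le_one₀ zero_le hp1) (hy x hx)
  have h2 : ∀ x ∈ W1_dual τ S B, ∀ y ∈ W1_dual τ S B,
      vLoc E (hf τ S.1 (p ^ (j + 1) • x) (p ^ (j + 1) • y)) ≤ 1 := by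
    intro x hx y hy
    have h3 : vLoc E (hf τ S.1 x (p ^ (j + 2) • y)) ≤ 1 := by
      rw [W1_symm H]
      exact hx _ (h y hy)
    rw [W1_smul_right, map_mul, map_pow] at h3
    rw [W1_smul_left, W1_smul_right, map_mul, map_mul, H.val, map_pow]
    calc vLoc E p ^ (j + 1) * (vLoc E p ^ (j + 1) * vLoc E (hf τ S.1 x y))
        = vLoc E p ^ j * (vLoc E p ^ (j + 2) * vLoc E (hf τ S.1 x y)) := by
          rw [← mul_assoc, ← mul_assoc, ← pow_add, ← pow_add]
          congr 2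
          omega
      _ ≤ 1 := mul_le_one' (pow_le_one₀ zero_le hp1) h3
  have hP' : W1_P τ S C A0
      (B ⊔ gact (Matrix.scalar (Fin 4) (p ^ (j + 1))) (W1_dual τ S B)) := by
    refine ⟨hP.1.trans le_sup_left, ?_, ?_⟩
    · intro x hx y hy
      obtain ⟨b, hb, z, hz, rfl⟩ := Submodule.mem_sup.1 hx
      obtain ⟨b', hb', z', hz', rfl⟩ := Submodule.mem_sup.1 hy
      obtain ⟨w, hw, rfl⟩ := (hmem z).1 hz
      obtain ⟨w', hw', rfl⟩ := (hmem z').1 hz'
      rw [W1_add_left, W1_add_right, W1_add_right]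
      refine (Valuation.map_add _ _ _).trans (max_le ?_ ?_)
      · exact (Valuation.map_add _ _ _).trans (max_le (hP.2.1 b hb b' hb') (h1 b hb w' hw'))
      · refine (Valuation.map_add _ _ _).trans (max_le ?_ (h2 w hw w' hw'))
        rw [W1_symm H]
        exact h1 b' hb' w hw
    · intro c hc x hx
      obtain ⟨b, hb, z, hz, rfl⟩ := Submodule.mem_sup.1 hx
      obtain ⟨w, hw, rfl⟩ := (hmem z).1 hz
      rw [Matrix.mulVec_add, Matrix.mulVec_smul]
      refine Submodule.add_mem_sup (hP.2.2 c hc b hb) ?_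
      exact (hmem _).2 ⟨_, W1_dual_stable C hC hP.2.2 c hc w hw, rfl⟩
  intro x hx
  exact hmax _ hP' le_sup_left (Submodule.mem_sup_right ((hmem _).2 ⟨x, hx, rfl⟩))

theorem exists_goodLat {τ : E ≃+* E} {S : GL (Fin 4) E} {ε : E} (H : EpsForm τ S ε)
    (C : Subgroup (GL (Fin 4) E)) (hC : C ≤ isoGrp τ S.1) (A : Lat 𝒪[E] E)
    (hA : ∀ c ∈ C, c • A = A) : ∃ B : Lat 𝒪[E] E, (∀ c ∈ C, c • B = B) ∧ GoodLat τ S B := by
  obtain ⟨q, hq, -⟩ := exists_unif E
  obtain ⟨p, hp⟩ : ∃ p : E, vLoc E p = WithZero.exp (-1) := ⟨_, hq⟩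
  have hp0 := W1_ne_zero hp
  have hp1 := W1_le_one hp
  obtain ⟨M, hM⟩ := W1_bound H.val S.1 A.2.1
  obtain ⟨k, hk⟩ := W1_arch M
  obtain ⟨A0, hA0⟩ : ∃ A0 : Submodule 𝒪[E] (Fin 4 → E),
      A0 = gact (Matrix.scalar (Fin 4) (p ^ k)) A.1 := ⟨_, rfl⟩
  have hmem : ∀ x, x ∈ A0 ↔ ∃ y ∈ A.1, p ^ k • y = x := by
    intro x
    rw [hA0, L2a_mem_gact]
    refine exists_congr fun y => and_congr_right fun _ => ?_
    rw [L2a_scalar_mulVec]
  have hspan : Submodule.span E (A0 : Set (Fin 4 → E)) = ⊤ := by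
    rw [eq_top_iff, ← A.2.2, Submodule.span_le]
    intro a ha
    have h1 : a = (p ^ k)⁻¹ • (p ^ k • a) := by
      rw [smul_smul, inv_mul_cancel₀ (pow_ne_zero _ hp0), one_smul]
    rw [h1]
    exact Submodule.smul_mem _ _ (Submodule.subset_span ((hmem _).2 ⟨a, ha, rfl⟩))
  have hint : ∀ x ∈ A0, ∀ y ∈ A0, vLoc E (hf τ S.1 x y) ≤ 1 := by
    intro x hx y hy
    obtain ⟨a, ha, rfl⟩ := (hmem x).1 hx
    obtain ⟨b, hb, rfl⟩ := (hmem y).1 hy
    rw [W1_smul_left, W1_smul_right, map_mul, map_mul, H.val, map_pow]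
    refine mul_le_one' (pow_le_one₀ zero_le hp1) ?_
    rw [hp]
    exact (mul_le_mul' le_rfl (hM a ha b hb)).trans hk
  have hst : ∀ c ∈ C, ∀ x ∈ A0, c.1.mulVec x ∈ A0 := by
    intro c hc x hx
    obtain ⟨a, ha, rfl⟩ := (hmem x).1 hx
    rw [Matrix.mulVec_smul]
    refine (hmem _).2 ⟨_, ?_, rfl⟩
    have h1 : (c • A).1 = A.1 := by rw [hA c hc]
    rw [← h1, latAction_val, L2a_mem_gact]
    exact ⟨a, ha, rfl⟩
  have hP0 : W1_P τ S C A0 A0 := ⟨le_rfl, hint, hst⟩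
  obtain ⟨D, hDfg, hD⟩ := W1_dual_fg H hspan
  have hPD : ∀ B : Submodule 𝒪[E] (Fin 4 → E), W1_P τ S C A0 B → B ≤ D := by
    intro B hB x hx
    exact hD fun y hy => hB.2.1 y (hB.1 hy) x hx
  haveI : IsNoetherian 𝒪[E] D := isNoetherian_of_fg_of_noetherian D hDfg
  have hne : {B' : Submodule 𝒪[E] D | W1_P τ S C A0 (B'.map D.subtype)}.Nonempty := by
    refine ⟨A0.comap D.subtype, ?_⟩
    change W1_P τ S C A0 ((A0.comap D.subtype).map D.subtype)
    rw [Submodule.map_comap_subtype, inf_eq_right.2 (hPD A0 hP0)]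
    exact hP0
  obtain ⟨B', hB', hmax'⟩ := WellFounded.has_min
    (wellFounded_gt : WellFounded ((· > ·) : Submodule 𝒪[E] D → Submodule 𝒪[E] D → Prop)) _ hne
  obtain ⟨B, hBdef⟩ : ∃ B, B = B'.map D.subtype := ⟨_, rfl⟩
  have hP : W1_P τ S C A0 B := by
    rw [hBdef]
    exact hB'
  have hmax : ∀ B'' : Submodule 𝒪[E] (Fin 4 → E), W1_P τ S C A0 B'' → B ≤ B'' → B'' ≤ B := by
    intro B'' hP'' hle
    have h1 : B' ≤ B''.comap D.subtype := by
      rw [← Submodule.map_le_iff_le_comap, ← hBdef]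
      exact hle
    have h2 : (B''.comap D.subtype).map D.subtype = B'' := by
      rw [Submodule.map_comap_subtype, inf_eq_right.2 (hPD B'' hP'')]
    have h3 : ¬ (B''.comap D.subtype > B') := by
      refine hmax' _ ?_
      change W1_P τ S C A0 ((B''.comap D.subtype).map D.subtype)
      rw [h2]
      exact hP''
    have h4 : B''.comap D.subtype = B' := by
      by_contra hne'
      exact h3 (lt_of_le_of_ne h1 (Ne.symm hne'))
    rw [← h2, h4, ← hBdef]
  have hBfg : B.FG := by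
    rw [hBdef]
    exact (IsNoetherian.noetherian B').map _
  have hBspan : Submodule.span E (B : Set (Fin 4 → E)) = ⊤ := by
    rw [eq_top_iff, ← hspan]
    exact Submodule.span_mono hP.1
  obtain ⟨m, hm⟩ := W1_pow_fg hp B hBspan hDfg
  have hdesc : ∀ n : ℕ, (∀ x ∈ W1_dual τ S B, p ^ (n + 1) • x ∈ B) →
      ∀ x ∈ W1_dual τ S B, p • x ∈ B := by
    intro n
    induction n with
    | zero =>
      intro h x hx
      have h1 := h x hx
      rwa [zero_add, pow_one] at h1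
    | succ n ih =>
      intro h
      exact ih (W1_step H C hC hP hmax hp n h)
  have hfin : ∀ x ∈ W1_dual τ S B, p • x ∈ B := by
    refine hdesc m fun x hx => ?_
    refine W1_pow_mono hp1 B (Nat.le_succ m) (hm x ?_)
    exact hD fun y hy => hx y (hP.1 hy)
  refine ⟨⟨B, hBfg, hBspan⟩, ?_, hP.2.1, ?_⟩
  · intro c hc
    refine Subtype.ext ?_
    rw [latAction_val]
    refine le_antisymm ?_ ?_
    · intro x hx
      obtain ⟨y, hy, rfl⟩ := (L2a_mem_gact _ _ _).1 hx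
      exact hP.2.2 c hc y hy
    · intro x hx
      refine (L2a_mem_gact _ _ _).2 ⟨(c⁻¹).1.mulVec x, hP.2.2 _ (C.inv_mem hc) x hx, ?_⟩
      rw [Matrix.mulVec_mulVec, ← Units.val_mul, mul_inv_cancel, Units.val_one,
        Matrix.one_mulVec]
  · intro π hπ x hx
    have h1 : π • x = (π * p⁻¹) • (p • x) := by
      rw [smul_smul, mul_assoc, inv_mul_cancel₀ hp0, mul_one]
    rw [h1]
    refine W1_smul_mem B ?_ (hfin x hx)
    rw [map_mul, map_inv₀, hπ, hp, mul_inv_cancel₀ WithZero.exp_ne_zero]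

end RapidDecay
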