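import Pool.Agent.Lib.MP_fee02f_an.AR.WDefs
import Pool.Agent.Lib.MP_fee02f_an.M1
import Pool.Agent.Lib.MP_fee02f_an.M2

/-!
W2a: forms which are congruent modulo a high power of `π` are equivalent over the integers (100 min).

PROOF. Write M(n) for the matrices all of whose entries have value ≤ exp(-n) (v = vLoc E).  Let v(2) = exp(-c).  Let
dag T = ε T, T in M(0), T⁻¹ in M(-1) (that is π T⁻¹ in M(0)).
Step: if dag T' = ε T', Δ = T' - T in M(n), n ≥ 2c + 4, put u = 1 + (1/2) T⁻¹ Δ; u - 1 is in M(n-1-c), so u is invertible with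
u, u⁻¹ in M(0) (det u is a unit, adjugate).  dag(T⁻¹) = ε T⁻¹ and dag Δ = ε Δ give
dag u T u = T + (1/2) Δ + (1/2) Δ + (1/4) Δ T⁻¹ Δ = T' + (1/4) Δ T⁻¹ Δ, and the last term is in M(2n-1-2c), contained in M(n+1).
Iterate: with Δ1 = T' - dag u T u in M(n+1) and Δ' = dag(u)⁻¹ Δ1 u⁻¹ in M(n+1), T'' = T + Δ' is again of the same kind and
T' = dag u T'' u.  By induction: for every j there is u_j with u_j, u_j⁻¹ in M(0), T' - dag u_j T u_j in M(j)
(hence for all j, N = 2c + 4).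
Limit: the sets U_j = {u in M(0) : v(det u) = 1, T' - dag u T u in M(j)} are nonempty, decreasing, closed in the compact set
M(0) (isCompact_ball of M1 and Tychonoff; x ↦ τ x is continuous since it preserves the valuation: v(τ x - τ y) = v(x - y));
a point of the intersection satisfies dag u T u = T' (an element of value ≤ exp(-j) for all j is 0).
-/

set_option autoImplicit false

open scoped WithZero MatrixGroups
open ValuativeRel

namespace RapidDecay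

variable {E : Type*} [Field E] [ValuativeRel E] [TopologicalSpace E]
  [IsNonarchimedeanLocalField E]

/-- all entries have value at most `a` -/
def w2a_M (a : ℤᵐ⁰) (X : Matrix (Fin 4) (Fin 4) E) : Prop := ∀ i j, vLoc E (X i j) ≤ a

theorem w2a_mono {a b : ℤᵐ⁰} (h : a ≤ b) {X : Matrix (Fin 4) (Fin 4) E} (hX : w2a_M a X) :
    w2a_M b X := fun i j => (hX i j).trans h

theorem w2a_mul {a b : ℤᵐ⁰} {X Y : Matrix (Fin 4) (Fin 4) E} (hX : w2a_M a X)
    (hY : w2a_M b Y) : w2a_M (a * b) (X * Y) := by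
  intro i j
  rw [Matrix.mul_apply]
  refine (vLoc E).map_sum_le (fun k _ => ?_)
  rw [map_mul]
  exact mul_le_mul' (hX i k) (hY k j)

theorem w2a_add {a : ℤᵐ⁰} {X Y : Matrix (Fin 4) (Fin 4) E} (hX : w2a_M a X)
    (hY : w2a_M a Y) : w2a_M a (X + Y) := by
  intro i j
  exact ((vLoc E).map_add _ _).trans (max_le (hX i j) (hY i j))

theorem w2a_neg {a : ℤᵐ⁰} {X : Matrix (Fin 4) (Fin 4) E} (hX : w2a_M a X) : w2a_M a (-X) := by
  intro i j
  rw [Matrix.neg_apply, Valuation.map_neg]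
  exact hX i j

theorem w2a_smul {a b : ℤᵐ⁰} {c : E} (hc : vLoc E c ≤ b) {X : Matrix (Fin 4) (Fin 4) E}
    (hX : w2a_M a X) : w2a_M (b * a) (c • X) := by
  intro i j
  rw [Matrix.smul_apply, smul_eq_mul, map_mul]
  exact mul_le_mul' hc (hX i j)

theorem w2a_dag {τ : E ≃+* E} (hτ : ∀ x, vLoc E (τ x) = vLoc E x) {a : ℤᵐ⁰}
    {X : Matrix (Fin 4) (Fin 4) E} (hX : w2a_M a X) : w2a_M a (dag τ X) := by
  intro i j
  change vLoc E (τ (X j i)) ≤ a
  rw [hτ]
  exact hX j i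

theorem w2a_one : w2a_M 1 (1 : Matrix (Fin 4) (Fin 4) E) := by
  intro i j
  rw [Matrix.one_apply]
  split_ifs
  · rw [map_one]
  · rw [map_zero]; exact zero_le_one

theorem w2a_dag_add (τ : E ≃+* E) (X Y : Matrix (Fin 4) (Fin 4) E) :
    dag τ (X + Y) = dag τ X + dag τ Y := by
  ext i j
  simp [dag]

theorem w2a_dag_sub (τ : E ≃+* E) (X Y : Matrix (Fin 4) (Fin 4) E) :
    dag τ (X - Y) = dag τ X - dag τ Y := by
  ext i j
  simp [dag]

theorem w2a_dag_smul (τ : E ≃+* E) (c : E) (X : Matrix (Fin 4) (Fin 4) E) :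
    dag τ (c • X) = τ c • dag τ X := by
  ext i j
  simp [dag]

theorem w2a_dag_dag {τ : E ≃+* E} (h : ∀ x, τ (τ x) = x) (X : Matrix (Fin 4) (Fin 4) E) :
    dag τ (dag τ X) = X := by
  ext i j
  simp [dag, h]

theorem w2a_exp_lt {a : ℤᵐ⁰} (h : a ≤ WithZero.exp (-1) * a) : a = 0 := by
  by_contra ha
  have h1 : (WithZero.exp (-1) : ℤᵐ⁰) * a < 1 * a := by
    refine mul_lt_mul_of_pos_right ?_ (zero_lt_iff.2 ha)
    rw [← WithZero.exp_zero, WithZero.exp_lt_exp]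
    norm_num
  rw [one_mul] at h1
  exact absurd h (not_le.2 h1)

theorem w2a_max {X : Matrix (Fin 4) (Fin 4) E} (hX : w2a_M (WithZero.exp (-1)) X)
    (y : Fin 4 → E) (a : ℤᵐ⁰) (h : ∀ i, vLoc E (((1 + X).mulVec y) i) ≤ a) :
    ∀ i, vLoc E (y i) ≤ a := by
  obtain ⟨i₀, hi₀⟩ := Finite.exists_max (fun i => vLoc E (y i))
  have h1 : y i₀ = ((1 + X).mulVec y) i₀ - (X.mulVec y) i₀ := by
    rw [Matrix.add_mulVec, Matrix.one_mulVec, Pi.add_apply]
    ring
  have h2 : vLoc E ((X.mulVec y) i₀) ≤ WithZero.exp (-1) * vLoc E (y i₀) := by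
    change vLoc E (∑ j, X i₀ j * y j) ≤ _
    refine (vLoc E).map_sum_le (fun k _ => ?_)
    rw [map_mul]
    exact mul_le_mul' (hX i₀ k) (hi₀ k)
  have h3 : vLoc E (y i₀) ≤ max a (WithZero.exp (-1) * vLoc E (y i₀)) := by
    conv_lhs => rw [h1]
    exact ((vLoc E).map_sub _ _).trans (max_le_max (h i₀) h2)
  have h4 : vLoc E (y i₀) ≤ a := by
    rcases le_max_iff.1 h3 with h5 | h5
    · exact h5
    · rw [w2a_exp_lt h5]
      exact zero_le
  intro i
  exact (hi₀ i).trans h4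

theorem w2a_inv {X : Matrix (Fin 4) (Fin 4) E} (hX : w2a_M (WithZero.exp (-1)) X) :
    ∃ w : GL (Fin 4) E, w.1 = 1 + X ∧ w2a_M 1 w.1 ∧ w2a_M 1 (w⁻¹).1 := by
  have hdet : (1 + X).det ≠ 0 := by
    intro h
    obtain ⟨y, hy0, hy⟩ := Matrix.exists_mulVec_eq_zero_iff.2 h
    apply hy0
    funext i
    have h1 := w2a_max hX y 0 (fun i => by rw [hy, Pi.zero_apply, map_zero]) i
    exact (map_eq_zero (vLoc E)).1 (le_antisymm h1 zero_le)
  have h1X : w2a_M 1 (1 + X) := w2a_add w2a_one (w2a_mono (by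
    rw [← WithZero.exp_zero, WithZero.exp_le_exp]; norm_num) hX)
  refine ⟨Matrix.GeneralLinearGroup.mkOfDetNeZero (1 + X) hdet, rfl, h1X, ?_⟩
  set w := Matrix.GeneralLinearGroup.mkOfDetNeZero (1 + X) hdet with hw
  have hw1 : (1 + X) * (w⁻¹).1 = 1 := by
    have := w.mul_inv
    exact this
  intro i j
  have h2 := w2a_max hX (fun k => (w⁻¹).1 k j) 1 (fun i => by
    have h3 : ((1 + X).mulVec (fun k => (w⁻¹).1 k j)) i = ((1 + X) * (w⁻¹).1) i j := rfl
    rw [h3, hw1]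
    exact w2a_one i j) i
  exact h2

/-- the unit `dag u` -/
def w2a_dagU (τ : E ≃+* E) (u : GL (Fin 4) E) : GL (Fin 4) E where
  val := dag τ u.1
  inv := dag τ (u⁻¹).1
  val_inv := by
    rw [← dag_mul, ← Units.val_mul, inv_mul_cancel, Units.val_one, dag_one]
  inv_val := by
    rw [← dag_mul, ← Units.val_mul, mul_inv_cancel, Units.val_one, dag_one]

theorem w2a_dag_inv {τ : E ≃+* E} {ε : E} (hε : ε * ε = 1) {G : GL (Fin 4) E}
    (hG : dag τ G.1 = ε • G.1) : dag τ (G⁻¹).1 = ε • (G⁻¹).1 := by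
  have h1 : dag τ (G⁻¹).1 * (ε • G.1) = 1 := by
    rw [← hG, ← dag_mul, ← Units.val_mul, mul_inv_cancel, Units.val_one, dag_one]
  have h2 : (ε • G.1) * (ε • (G⁻¹).1) = 1 := by
    rw [Matrix.smul_mul, Matrix.mul_smul, smul_smul, hε, one_smul, ← Units.val_mul,
      mul_inv_cancel, Units.val_one]
  calc dag τ (G⁻¹).1 = dag τ (G⁻¹).1 * ((ε • G.1) * (ε • (G⁻¹).1)) := by rw [h2, Matrix.mul_one]
    _ = (dag τ (G⁻¹).1 * (ε • G.1)) * (ε • (G⁻¹).1) := by rw [Matrix.mul_assoc]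
    _ = ε • (G⁻¹).1 := by rw [h1, Matrix.one_mul]

/-- one Newton step -/
theorem w2a_step {τ : E ≃+* E} {ε : E} (hinv : ∀ x, τ (τ x) = x)
    (hval : ∀ x, vLoc E (τ x) = vLoc E x) (hε : ε * ε = 1) (h2 : (2 : E) ≠ 0) {c m : ℕ}
    (hc : vLoc E (1 / 2 : E) = WithZero.exp (c : ℤ)) (hm : 2 * c + 4 ≤ m)
    {G : GL (Fin 4) E} {T' : Matrix (Fin 4) (Fin 4) E} (hG : dag τ G.1 = ε • G.1)
    (hT' : dag τ T' = ε • T') (hGi : w2a_M (WithZero.exp 1) (G⁻¹).1)
    (hΔ : w2a_M (WithZero.exp (-(m : ℤ))) (T' - G.1)) :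
    ∃ w : GL (Fin 4) E, w2a_M 1 w.1 ∧ w2a_M 1 (w⁻¹).1 ∧
      w2a_M (WithZero.exp (-((m + 1 : ℕ) : ℤ))) (T' - dag τ w.1 * G.1 * w.1) := by
  set D : Matrix (Fin 4) (Fin 4) E := T' - G.1 with hD
  have hdD : dag τ D = ε • D := by
    rw [hD, w2a_dag_sub, hG, hT', smul_sub]
  have hb : w2a_M (WithZero.exp (-1)) ((1 / 2 : E) • ((G⁻¹).1 * D)) := by
    refine w2a_mono ?_ (w2a_smul hc.le (w2a_mul hGi hΔ))
    rw [← WithZero.exp_add, ← WithZero.exp_add, WithZero.exp_le_exp]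
    omega
  obtain ⟨w, hw, hw1, hw2⟩ := w2a_inv hb
  refine ⟨w, hw1, hw2, ?_⟩
  have hGG : (G⁻¹).1 * G.1 = 1 := by
    rw [← Units.val_mul, inv_mul_cancel, Units.val_one]
  have hGG' : G.1 * (G⁻¹).1 = 1 := by
    rw [← Units.val_mul, mul_inv_cancel, Units.val_one]
  have hhalf : τ (1 / 2 : E) = 1 / 2 := by
    rw [map_div₀, map_one, map_ofNat]
  have hεε : (ε • D) * (ε • (G⁻¹).1) = D * (G⁻¹).1 := by
    rw [Matrix.smul_mul, Matrix.mul_smul, smul_smul, hε, one_smul]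
  have hdw : dag τ w.1 = 1 + (1 / 2 : E) • (D * (G⁻¹).1) := by
    rw [hw, w2a_dag_add, dag_one, w2a_dag_smul, hhalf, dag_mul, hdD, w2a_dag_inv hε hG, hεε]
  have e1 : (1 / 2 : E) • (D * (G⁻¹).1) * G.1 = (1 / 2 : E) • D := by
    rw [Matrix.smul_mul, Matrix.mul_assoc, hGG, Matrix.mul_one]
  have e2 : G.1 * ((1 / 2 : E) • ((G⁻¹).1 * D)) = (1 / 2 : E) • D := by
    rw [Matrix.mul_smul, ← Matrix.mul_assoc, hGG', Matrix.one_mul]
  have e3 : (1 / 2 : E) • D + (1 / 2 : E) • D = D := by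
    rw [← add_smul]
    have : (1 / 2 : E) + 1 / 2 = 1 := by
      field_simp
      norm_num
    rw [this, one_smul]
  have e4 : T' - dag τ w.1 * G.1 * w.1 = -((1 / 2 : E) • ((1 / 2 : E) • (D * ((G⁻¹).1 * D)))) := by
    have e5 : T' = G.1 + D := by rw [hD]; abel
    have e6 : (1 / 2 : E) • D * ((1 / 2 : E) • ((G⁻¹).1 * D))
        = (1 / 2 : E) • ((1 / 2 : E) • (D * ((G⁻¹).1 * D))) := by
      rw [Matrix.smul_mul, Matrix.mul_smul]
    rw [hdw, hw, add_mul, one_mul, e1, mul_add, mul_one, add_mul, e2, e6, e5]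
    generalize (1 / 2 : E) • ((1 / 2 : E) • (D * ((G⁻¹).1 * D))) = R
    have e7 : G.1 + D - (G.1 + (1 / 2 : E) • D + ((1 / 2 : E) • D + R))
        = D - ((1 / 2 : E) • D + (1 / 2 : E) • D) - R := by abel
    rw [e7, e3]
    abel
  rw [e4]
  refine w2a_neg (w2a_mono ?_ (w2a_smul hc.le (w2a_smul hc.le (w2a_mul hΔ (w2a_mul hGi hΔ)))))
  rw [← WithZero.exp_add, ← WithZero.exp_add, ← WithZero.exp_add, ← WithZero.exp_add,
    WithZero.exp_le_exp]
  push_cast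
  omega

theorem w2a_tau_cont {τ : E ≃+* E} (hval : ∀ x, vLoc E (τ x) = vLoc E x) : Continuous τ := by
  have hv : ∀ x, valuation E (τ x) = valuation E x := fun x =>
    le_antisymm ((vLoc_le_iff E _ _).1 (hval x).le) ((vLoc_le_iff E _ _).1 (hval x).ge)
  refine continuous_of_continuousAt_zero (τ : E →+ E) ?_
  intro V hV
  rw [map_zero] at hV
  rw [Filter.mem_map]
  rw [IsValuativeTopology.mem_nhds_zero_iff] at hV ⊢
  obtain ⟨γ, hγ⟩ := hV
  refine ⟨γ, ?_⟩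
  intro x hx
  apply hγ
  change valuation E (τ x) < γ
  rw [hv]
  exact hx

theorem form_lift {τ : E ≃+* E} {S : GL (Fin 4) E} {ε : E} (H : EpsForm τ S ε) (h2 : (2 : E) ≠ 0) :
    ∃ N : ℕ, ∀ T T' : GL (Fin 4) E, dag τ T.1 = ε • T.1 → dag τ T'.1 = ε • T'.1 →
      (∀ i j, vLoc E (T.1 i j) ≤ 1) → (∀ i j, vLoc E ((T⁻¹).1 i j) ≤ WithZero.exp 1) →
      (∀ i j, vLoc E (T'.1 i j - T.1 i j) ≤ WithZero.exp (-(N : ℤ))) →
      ∃ u : GL (Fin 4) E, (∀ i j, vLoc E (u.1 i j) ≤ 1) ∧ (∀ i j, vLoc E ((u⁻¹).1 i j) ≤ 1) ∧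
        dag τ u.1 * T.1 * u.1 = T'.1 := by
  have hv2 : vLoc E (2 : E) ≠ 0 := (vLoc E).ne_zero_iff.2 h2
  have hv21 : vLoc E (2 : E) ≤ 1 := by
    have := (vLoc E).map_add 1 1
    rw [map_one, max_self] at this
    rwa [one_add_one_eq_two] at this
  obtain ⟨c, hc⟩ : ∃ c : ℕ, vLoc E (1 / 2 : E) = WithZero.exp (c : ℤ) := by
    obtain ⟨n, hn⟩ : ∃ n : ℤ, vLoc E (2 : E) = WithZero.exp n :=
      ⟨WithZero.log (vLoc E (2 : E)), (WithZero.exp_log hv2).symm⟩
    have hn0 : n ≤ 0 := by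
      rw [hn, ← WithZero.exp_zero, WithZero.exp_le_exp] at hv21
      exact hv21
    refine ⟨(-n).toNat, ?_⟩
    rw [Int.toNat_of_nonneg (by omega), map_div₀, map_one, hn, WithZero.exp_neg, one_div]
  refine ⟨2 * c + 4, ?_⟩
  intro T T' hT hT' hTint hTinv hTT
  -- approximate solutions
  have key : ∀ j : ℕ, ∃ u : GL (Fin 4) E, w2a_M 1 u.1 ∧ w2a_M 1 (u⁻¹).1 ∧
      w2a_M (WithZero.exp (-((2 * c + 4 + j : ℕ) : ℤ))) (T'.1 - dag τ u.1 * T.1 * u.1) := by
    intro j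
    induction j with
    | zero =>
      refine ⟨1, w2a_one, ?_, ?_⟩
      · rw [inv_one]; exact w2a_one
      · rw [Units.val_one, dag_one, Matrix.one_mul, Matrix.mul_one]
        exact hTT
    | succ j ih =>
      obtain ⟨u, hu, hui, hD⟩ := ih
      set G : GL (Fin 4) E := w2a_dagU τ u * T * u with hGdef
      have hG1 : G.1 = dag τ u.1 * T.1 * u.1 := rfl
      have hGi1 : (G⁻¹).1 = (u⁻¹).1 * ((T⁻¹).1 * dag τ (u⁻¹).1) := by
        rw [hGdef, mul_inv_rev, mul_inv_rev]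
        rfl
      have hGd : dag τ G.1 = ε • G.1 := by
        rw [hG1, dag_mul, dag_mul, w2a_dag_dag H.inv, hT, Matrix.smul_mul, Matrix.mul_smul,
          Matrix.mul_assoc]
      have hGi : w2a_M (WithZero.exp 1) (G⁻¹).1 := by
        rw [hGi1]
        have h3 : w2a_M (WithZero.exp 1) (T⁻¹).1 := hTinv
        have h4 := w2a_mul hui (w2a_mul h3 (w2a_dag H.val hui))
        rwa [one_mul, mul_one] at h4
      rw [← hG1] at hD
      obtain ⟨w, hw1, hw2, hw3⟩ := w2a_step H.inv H.val H.sq h2 hc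
        (show 2 * c + 4 ≤ 2 * c + 4 + j by omega) hGd hT' hGi hD
      refine ⟨u * w, ?_, ?_, ?_⟩
      · have := w2a_mul hu hw1
        rwa [one_mul] at this
      · rw [mul_inv_rev]
        have := w2a_mul hw2 hui
        rwa [one_mul] at this
      · have h5 : dag τ (u * w).1 * T.1 * (u * w).1 = dag τ w.1 * G.1 * w.1 := by
          rw [Units.val_mul, dag_mul, hG1]
          simp only [Matrix.mul_assoc]
        rw [h5]
        exact hw3
  -- the limit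
  have hT2 := M2_t2 E
  have hτc := w2a_tau_cont H.val
  let t : ℕ → Set (Matrix (Fin 4) (Fin 4) E × Matrix (Fin 4) (Fin 4) E) := fun j =>
    {p | p.1 ∈ M2_int E ∧ p.2 ∈ M2_int E ∧ p.1 * p.2 = 1 ∧
      ∀ i k, vLoc E ((T'.1 - dag τ p.1 * T.1 * p.1) i k) ≤ WithZero.exp (-((2 * c + 4 + j : ℕ) : ℤ))}
  have hclb : ∀ a : ℤᵐ⁰, IsClosed {x : E | vLoc E x ≤ a} := fun a => (isCompact_ball E a).isClosed
  have hdagc : Continuous (fun X : Matrix (Fin 4) (Fin 4) E => dag τ X) := by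
    refine continuous_matrix fun i j => ?_
    change Continuous fun X : Matrix (Fin 4) (Fin 4) E => τ (X j i)
    exact hτc.comp (continuous_id.matrix_elem j i)
  have hcl : ∀ j, IsClosed (t j) := by
    intro j
    have c1 : IsClosed {p : Matrix (Fin 4) (Fin 4) E × Matrix (Fin 4) (Fin 4) E |
        p.1 ∈ (M2_int E : Set (Matrix (Fin 4) (Fin 4) E))} :=
      M2_compact.isClosed.preimage continuous_fst
    have c2 : IsClosed {p : Matrix (Fin 4) (Fin 4) E × Matrix (Fin 4) (Fin 4) E |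
        p.2 ∈ (M2_int E : Set (Matrix (Fin 4) (Fin 4) E))} :=
      M2_compact.isClosed.preimage continuous_snd
    have c3 : IsClosed {p : Matrix (Fin 4) (Fin 4) E × Matrix (Fin 4) (Fin 4) E |
        p.1 * p.2 = 1} := isClosed_eq (continuous_fst.matrix_mul continuous_snd) continuous_const
    have c4 : Continuous fun p : Matrix (Fin 4) (Fin 4) E × Matrix (Fin 4) (Fin 4) E =>
        T'.1 - dag τ p.1 * T.1 * p.1 :=
      continuous_const.sub (((hdagc.comp continuous_fst).matrix_mul continuous_const).matrix_mul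
        continuous_fst)
    have c5 : IsClosed {p : Matrix (Fin 4) (Fin 4) E × Matrix (Fin 4) (Fin 4) E |
        ∀ i k, vLoc E ((T'.1 - dag τ p.1 * T.1 * p.1) i k) ≤
          WithZero.exp (-((2 * c + 4 + j : ℕ) : ℤ))} := by
      rw [Set.setOf_forall]
      refine isClosed_iInter fun i => ?_
      rw [Set.setOf_forall]
      refine isClosed_iInter fun k => ?_
      exact (hclb _).preimage (c4.matrix_elem i k)
    exact c1.inter (c2.inter (c3.inter c5))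
  have hcpt : IsCompact (t 0) := by
    refine (M2_compact.prod M2_compact).of_isClosed_subset (hcl 0) ?_
    rintro p ⟨h3, h4, -, -⟩
    exact ⟨h3, h4⟩
  obtain ⟨p, hp⟩ := IsCompact.nonempty_iInter_of_sequence_nonempty_isCompact_isClosed t
    (fun j => by
      rintro p ⟨h3, h4, h5, h6⟩
      refine ⟨h3, h4, h5, fun i k => (h6 i k).trans ?_⟩
      rw [WithZero.exp_le_exp]
      push_cast
      omega)
    (fun j => by
      obtain ⟨u, hu, hui, hD⟩ := key j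
      exact ⟨(u.1, (u⁻¹).1), hu, hui, by
        change u.1 * (u⁻¹).1 = 1
        rw [← Units.val_mul, mul_inv_cancel, Units.val_one], hD⟩) hcpt hcl
  rw [Set.mem_iInter] at hp
  obtain ⟨hp1, hp2, hp3, -⟩ := hp 0
  refine ⟨⟨p.1, p.2, hp3, mul_eq_one_comm.1 hp3⟩, hp1, hp2, ?_⟩
  change dag τ p.1 * T.1 * p.1 = T'.1
  symm
  rw [← sub_eq_zero]
  ext i k
  rw [Matrix.zero_apply]
  by_contra hne
  have hv : vLoc E ((T'.1 - dag τ p.1 * T.1 * p.1) i k) ≠ 0 := (vLoc E).ne_zero_iff.2 hne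
  obtain ⟨n, hn⟩ : ∃ n : ℤ, vLoc E ((T'.1 - dag τ p.1 * T.1 * p.1) i k) = WithZero.exp n :=
    ⟨WithZero.log _, (WithZero.exp_log hv).symm⟩
  have h7 := (hp (-n).toNat).2.2.2 i k
  rw [hn, WithZero.exp_le_exp] at h7
  omega

end RapidDecay
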