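import Pool.Agent.Lib.MP_fee02f_an.AR.W2a
import Pool.Agent.Lib.MP_fee02f_an.M3

/-!
W2b: finitely many orbits of good lattices (75 min).

PROOF. By lat_transitive every lattice is b • A0 with A0 the standard lattice (span of Pi.single i 1) and b in GL_4(E); its
stabiliser consists of the u with u, u⁻¹ integral.  For a good lattice B = b • A0 the Gram matrix T = dag b S b is integral,
dag T = ε T, and T⁻¹ has values ≤ exp 1: for x = T⁻¹ e_i the vector b x satisfies h(b y, b x) = dag y T x = integral for all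
integral y, so π b x is in B, π x is integral.  M_4(O) modulo M(N) is finite (finite residue field; 𝒪 / π^N finite), so
there are finitely many classes of T modulo M(N); choose one good B_j = b_j • A0 in each class which occurs.  If T and T_j are
congruent then T = dag u T_j u (form_lift), so l = b_j u b⁻¹ satisfies dag l S l = S: indeed dag(b_j u) S (b_j u) = T =
dag b S b; and l • B = b_j u • A0 = b_j • A0 = B_j.
-/

set_option autoImplicit false

open scoped WithZero MatrixGroups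
open ValuativeRel

namespace RapidDecay

variable {E : Type*} [Field E] [ValuativeRel E] [TopologicalSpace E]
  [IsNonarchimedeanLocalField E]

theorem w2b_hf (τ : E ≃+* E) (T : Matrix (Fin 4) (Fin 4) E) (x y : Fin 4 → E) :
    hf τ T x y = ∑ i, τ (x i) * (T.mulVec y) i := by
  unfold hf
  refine Finset.sum_congr rfl fun i _ => ?_
  rw [Matrix.mulVec, dotProduct, Finset.mul_sum]
  exact Finset.sum_congr rfl fun j _ => by ring

theorem w2b_hf_mulVec (τ : E ≃+* E) (S g : Matrix (Fin 4) (Fin 4) E) (x y : Fin 4 → E) :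
    hf τ S (g.mulVec x) (g.mulVec y) = hf τ (dag τ g * S * g) x y := by
  obtain ⟨z, hz⟩ : ∃ z, (S * g).mulVec y = z := ⟨_, rfl⟩
  have e1 : S.mulVec (g.mulVec y) = z := by rw [Matrix.mulVec_mulVec, hz]
  have e2 : (dag τ g * S * g).mulVec y = (dag τ g).mulVec z := by
    rw [Matrix.mul_assoc, ← Matrix.mulVec_mulVec, hz]
  rw [w2b_hf, w2b_hf, e1, e2]
  have h1 : ∀ i, τ (g.mulVec x i) * z i = ∑ j, τ (x j) * (τ (g i j) * z i) := by
    intro i
    rw [Matrix.mulVec, dotProduct, map_sum, Finset.sum_mul]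
    refine Finset.sum_congr rfl fun j _ => ?_
    rw [map_mul]
    ring
  have h2 : ∀ j, τ (x j) * ((dag τ g).mulVec z) j = ∑ i, τ (x j) * (τ (g i j) * z i) := by
    intro j
    rw [Matrix.mulVec, dotProduct, Finset.mul_sum]
    rfl
  rw [Finset.sum_congr rfl fun i _ => h1 i, Finset.sum_congr rfl fun j _ => h2 j,
    Finset.sum_comm]

theorem w2b_hf_single (τ : E ≃+* E) (T : Matrix (Fin 4) (Fin 4) E) (i j : Fin 4) :
    hf τ T (Pi.single i 1) (Pi.single j 1) = T i j := by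
  rw [w2b_hf, Finset.sum_eq_single i]
  · rw [Pi.single_eq_same, map_one, one_mul, Matrix.mulVec_single_one]
    rfl
  · intro k _ hk
    rw [Pi.single_eq_of_ne hk, map_zero, zero_mul]
  · intro h
    exact absurd (Finset.mem_univ i) h

/-- membership in `b • A0` -/
theorem w2b_mem (b : GL (Fin 4) E) (x : Fin 4 → E) :
    b.1.mulVec x ∈ (b • M2_std E).1 ↔ x ∈ (M2_std E).1 := by
  rw [latAction_val]
  unfold gact
  rw [Submodule.mem_map]
  constructor
  · rintro ⟨y, hy, hyx⟩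
    have h1 : b.1.mulVec y = b.1.mulVec x := hyx
    have h2 := congrArg ((b⁻¹).1.mulVec) h1
    rw [Matrix.mulVec_mulVec, Matrix.mulVec_mulVec, ← Units.val_mul, inv_mul_cancel,
      Units.val_one, Matrix.one_mulVec, Matrix.one_mulVec] at h2
    rwa [← h2]
  · intro hx
    exact ⟨x, hx, rfl⟩

theorem w2b_single_mem (i : Fin 4) : (Pi.single i 1 : Fin 4 → E) ∈ (M2_std E).1 := by
  rw [M2_mem_std]
  intro j
  rw [Pi.single_apply]
  split_ifs
  · rw [map_one]
  · rw [map_zero]; exact zero_le_one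

/-- finitely many classes of integers -/
theorem w2b_net (N : ℕ) : ∃ R : Finset E, ∀ x : E, vLoc E x ≤ 1 →
    ∃ r ∈ R, vLoc E (x - r) ≤ WithZero.exp (-(N : ℤ)) := by
  have := M2_t2 E
  obtain ⟨R, hR⟩ := (isCompact_ball E 1).elim_finite_subcover
    (fun r : E => (fun x : E => x - r) ⁻¹' {x : E | vLoc E x ≤ WithZero.exp (-(N : ℤ))})
    (fun r => (isOpen_ball E _ WithZero.exp_ne_zero).preimage (by fun_prop))
    (fun x _ => Set.mem_iUnion.2 ⟨x, by
      show vLoc E (x - x) ≤ _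
      rw [sub_self, map_zero]
      exact zero_le⟩)
  refine ⟨R, fun x hx => ?_⟩
  obtain ⟨r, hr, hxr⟩ := Set.mem_iUnion₂.1 (hR hx)
  exact ⟨r, hr, hxr⟩

/-- the Gram matrix -/
def w2b_gram (τ : E ≃+* E) (S b : GL (Fin 4) E) : GL (Fin 4) E := w2a_dagU τ b * S * b

theorem w2b_gram_val (τ : E ≃+* E) (S b : GL (Fin 4) E) :
    (w2b_gram τ S b).1 = dag τ b.1 * S.1 * b.1 := rfl

theorem w2b_gram_herm {τ : E ≃+* E} {S : GL (Fin 4) E} {ε : E} (H : EpsForm τ S ε)
    (b : GL (Fin 4) E) : dag τ (w2b_gram τ S b).1 = ε • (w2b_gram τ S b).1 := by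
  rw [w2b_gram_val, dag_mul, dag_mul, w2a_dag_dag H.inv, H.herm, Matrix.smul_mul,
    Matrix.mul_smul, Matrix.mul_assoc]

theorem w2b_gram_int {τ : E ≃+* E} {S : GL (Fin 4) E} (b : GL (Fin 4) E)
    (hB : GoodLat τ S (b • M2_std E)) (i j : Fin 4) :
    vLoc E ((w2b_gram τ S b).1 i j) ≤ 1 := by
  rw [← w2b_hf_single τ (w2b_gram τ S b).1 i j, w2b_gram_val, ← w2b_hf_mulVec]
  exact hB.1 _ ((w2b_mem b _).2 (w2b_single_mem i)) _ ((w2b_mem b _).2 (w2b_single_mem j))

theorem w2b_gram_inv {τ : E ≃+* E} {S : GL (Fin 4) E} {ε : E} (H : EpsForm τ S ε)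
    (b : GL (Fin 4) E) (hB : GoodLat τ S (b • M2_std E)) (i j : Fin 4) :
    vLoc E (((w2b_gram τ S b)⁻¹).1 i j) ≤ WithZero.exp 1 := by
  obtain ⟨p, hp⟩ := M1_surj E (WithZero.exp (-1))
  set T := w2b_gram τ S b with hT
  set x : Fin 4 → E := (T⁻¹).1.mulVec (Pi.single j 1) with hx
  have hxi : x i = (T⁻¹).1 i j := by
    rw [hx, Matrix.mulVec_single_one]
    rfl
  have hTx : T.1.mulVec x = Pi.single j 1 := by
    rw [hx, Matrix.mulVec_mulVec, ← Units.val_mul, mul_inv_cancel, Units.val_one,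
      Matrix.one_mulVec]
  have h1 : p • b.1.mulVec x ∈ (b • M2_std E).1 := by
    refine hB.2 p hp _ fun y hy => ?_
    obtain ⟨z, rfl⟩ : ∃ z, b.1.mulVec z = y := ⟨(b⁻¹).1.mulVec y, by
      rw [Matrix.mulVec_mulVec, ← Units.val_mul, mul_inv_cancel, Units.val_one,
        Matrix.one_mulVec]⟩
    rw [w2b_mem, M2_mem_std] at hy
    rw [w2b_hf_mulVec, ← w2b_gram_val, ← hT, w2b_hf, hTx]
    refine (vLoc E).map_sum_le fun k _ => ?_
    rw [map_mul, H.val]
    refine mul_le_one' (hy k) ?_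
    rw [Pi.single_apply]
    split_ifs
    · rw [map_one]
    · rw [map_zero]; exact zero_le_one
  rw [← Matrix.mulVec_smul, w2b_mem, M2_mem_std] at h1
  have h2 := h1 i
  rw [Pi.smul_apply, smul_eq_mul, map_mul, hp, hxi] at h2
  have h3 : WithZero.exp (1 : ℤ) * (WithZero.exp (-1) * vLoc E ((T⁻¹).1 i j)) ≤
      WithZero.exp 1 * 1 := mul_le_mul_right h2 _
  rw [← mul_assoc, ← WithZero.exp_add, mul_one] at h3
  simpa using h3

theorem finite_goodLat {τ : E ≃+* E} {S : GL (Fin 4) E} {ε : E} (H : EpsForm τ S ε)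
    (h2 : (2 : E) ≠ 0) : ∃ s : Finset (Lat 𝒪[E] E), ∀ B : Lat 𝒪[E] E, GoodLat τ S B →
      ∃ l ∈ isoGrp τ S.1, l • B ∈ s := by
  classical
  obtain ⟨N, hN⟩ := form_lift H h2
  obtain ⟨R, hR⟩ := w2b_net (E := E) N
  -- codes
  let P : (Fin 4 → Fin 4 → R) → GL (Fin 4) E → Prop := fun κ b =>
    GoodLat τ S (b • M2_std E) ∧ ∀ i j, vLoc E ((w2b_gram τ S b).1 i j - κ i j) ≤
      WithZero.exp (-(N : ℤ))
  let f : (Fin 4 → Fin 4 → R) → GL (Fin 4) E := fun κ =>
    if h : ∃ b, P κ b then h.choose else 1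
  have hf : ∀ κ b, P κ b → P κ (f κ) := by
    intro κ b hb
    have h : ∃ b, P κ b := ⟨b, hb⟩
    have e : f κ = h.choose := dif_pos h
    rw [e]
    exact h.choose_spec
  refine ⟨Finset.univ.image fun κ => f κ • M2_std E, fun B hB => ?_⟩
  obtain ⟨b, rfl⟩ := lat_transitive (vLoc_integers E) (M2_std E) B
  -- the code of `b`
  have hint := w2b_gram_int (τ := τ) (S := S) b hB
  choose κ0 hκ0 hκ1 using fun i j => hR _ (hint i j)
  let κ : Fin 4 → Fin 4 → R := fun i j => ⟨κ0 i j, hκ0 i j⟩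
  have hPb : P κ b := ⟨hB, hκ1⟩
  obtain ⟨hG, hG2⟩ := hf κ b hPb
  set b1 := f κ with hb1
  obtain ⟨u, hu, hui, hT⟩ := hN (w2b_gram τ S b1) (w2b_gram τ S b) (w2b_gram_herm H b1)
    (w2b_gram_herm H b) (w2b_gram_int b1 hG) (w2b_gram_inv H b1 hG) (by
      intro i j
      have e : (w2b_gram τ S b).1 i j - (w2b_gram τ S b1).1 i j =
          ((w2b_gram τ S b).1 i j - κ0 i j) - ((w2b_gram τ S b1).1 i j - κ0 i j) := by ring
      rw [e]
      exact ((vLoc E).map_sub _ _).trans (max_le (hκ1 i j) (hG2 i j)))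
  refine ⟨b1 * u * b⁻¹, ?_, ?_⟩
  · show dag τ (b1 * u * b⁻¹).1 * S.1 * (b1 * u * b⁻¹).1 = S.1
    rw [w2b_gram_val, w2b_gram_val] at hT
    have hbb : dag τ (b⁻¹).1 * dag τ b.1 = 1 := by
      rw [← dag_mul, ← Units.val_mul, mul_inv_cancel, Units.val_one, dag_one]
    have hbb2 : b.1 * (b⁻¹).1 = 1 := by
      rw [← Units.val_mul, mul_inv_cancel, Units.val_one]
    calc dag τ (b1 * u * b⁻¹).1 * S.1 * (b1 * u * b⁻¹).1
        = dag τ (b⁻¹).1 * (dag τ u.1 * (dag τ b1.1 * S.1 * b1.1) * u.1) * (b⁻¹).1 := by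
          rw [Units.val_mul, Units.val_mul, dag_mul, dag_mul]
          simp only [Matrix.mul_assoc]
      _ = dag τ (b⁻¹).1 * (dag τ b.1 * S.1 * b.1) * (b⁻¹).1 := by rw [hT]
      _ = (dag τ (b⁻¹).1 * dag τ b.1) * S.1 * (b.1 * (b⁻¹).1) := by
          simp only [Matrix.mul_assoc]
      _ = S.1 := by rw [hbb, hbb2, Matrix.one_mul, Matrix.mul_one]
  · rw [Finset.mem_image]
    refine ⟨κ, Finset.mem_univ _, ?_⟩
    have hst : u • M2_std E = M2_std E := by
      have h3 : u ∈ (MulAction.stabilizer (GL (Fin 4) E) (M2_std E) : Set (GL (Fin 4) E)) := by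
        rw [M2_stab_std, SetLike.mem_coe, Submonoid.mem_units_iff]
        exact ⟨hu, hui⟩
      exact h3
    rw [← hb1, mul_smul, mul_smul, inv_smul_smul, hst]

end RapidDecay
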