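import Pool.Agent.Lib.MP_fee02f_an.AR.W0
import Pool.Agent.Lib.MP_fee02f_an.AR.W1
import Pool.Agent.Lib.MP_fee02f_an.AR.W2b

/-!
W3: compact subgroups of isometry groups (40 min).

PROOF. isoGrp is closed in GL_4(E) (τ is continuous because it preserves the valuation).  M = the union over the B_j in the
finite set s of finite_goodLat of isoGrp ∩ Stab(B_j): compact (isCompact_stab_lat in M2).  For a compact C ≤ isoGrp take A from
compact_fixes_lat, B from exists_goodLat, l0 in isoGrp with l0 • B = B_j; then l0 c l0⁻¹ fixes B_j for c in C; take l = l0⁻¹.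
-/

set_option autoImplicit false

open scoped WithZero MatrixGroups
open ValuativeRel

namespace RapidDecay

variable {E : Type*} [Field E] [ValuativeRel E] [TopologicalSpace E]
  [IsNonarchimedeanLocalField E]

theorem W3_val {τ : E ≃+* E} (hv : ∀ x, vLoc E (τ x) = vLoc E x) (x : E) :
    valuation E (τ x) = valuation E x :=
  le_antisymm ((vLoc_le_iff E _ _).1 (hv x).le) ((vLoc_le_iff E _ _).1 (hv x).ge)

theorem W3_cont {τ : E ≃+* E} (hv : ∀ x, vLoc E (τ x) = vLoc E x) : Continuous τ := by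
  apply continuous_of_continuousAt_zero τ.toRingHom.toAddMonoidHom
  intro s hs
  have h0 : (τ.toRingHom.toAddMonoidHom : E →+ E) 0 = 0 := map_zero _
  rw [h0, IsValuativeTopology.mem_nhds_iff] at hs
  obtain ⟨γ, hγ⟩ := hs
  rw [Filter.mem_map, IsValuativeTopology.mem_nhds_iff]
  refine ⟨γ, ?_⟩
  rintro _ ⟨z, hz, rfl⟩
  show τ (0 + z) ∈ s
  rw [zero_add]
  refine hγ ⟨τ z, ?_, zero_add _⟩
  show valuation E (τ z) < _
  rw [W3_val hv z]
  exact hz

theorem isClosed_isoGrp {τ : E ≃+* E} {S : GL (Fin 4) E} {ε : E} (H : EpsForm τ S ε) :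
    IsClosed (isoGrp τ S.1 : Set (GL (Fin 4) E)) := by
  have := M2_t2 E
  have hc : Continuous (fun g : GL (Fin 4) E => dag τ g.1 * S.1 * g.1) := by
    have h1 : Continuous (fun g : GL (Fin 4) E => dag τ g.1) := by
      unfold dag
      exact (Units.continuous_val.matrix_map (W3_cont H.val)).matrix_transpose
    exact (h1.mul continuous_const).mul Units.continuous_val
  exact isClosed_singleton.preimage hc

theorem maxCpt_isoGrp {τ : E ≃+* E} {S : GL (Fin 4) E} {ε : E} (H : EpsForm τ S ε)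
    (h2 : (2 : E) ≠ 0) : MaxCpt (isoGrp τ S.1) := by
  obtain ⟨s, hs⟩ := finite_goodLat H h2
  refine ⟨⋃ B ∈ s, ((isoGrp τ S.1 : Set (GL (Fin 4) E)) ∩
    (MulAction.stabilizer (GL (Fin 4) E) B : Set (GL (Fin 4) E))), ?_, ?_, ?_⟩
  · exact s.isCompact_biUnion fun B _ => (isCompact_stab_lat B).inter_left (isClosed_isoGrp H)
  · intro g hg
    simp only [Set.mem_iUnion] at hg
    obtain ⟨B, _, hg, _⟩ := hg
    exact hg
  · intro C hC hcpt
    obtain ⟨A, hA⟩ := compact_fixes_lat C hcpt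
    obtain ⟨B, hB, hgood⟩ := exists_goodLat H C hC A hA
    obtain ⟨l, hl, hls⟩ := hs B hgood
    refine ⟨l⁻¹, inv_mem hl, fun c hc => ?_⟩
    rw [inv_inv]
    simp only [Set.mem_iUnion]
    refine ⟨l • B, hls, mul_mem (mul_mem hl (hC hc)) (inv_mem hl), ?_⟩
    rw [SetLike.mem_coe, MulAction.mem_stabilizer_iff, mul_smul, mul_smul, inv_smul_smul, hB c hc]

end RapidDecay
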